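import Pool.Agent.Q20.LG.Const

/-!
# Local constants: existence and uniqueness
-/

set_option autoImplicit false
set_option linter.unusedSectionVars false

namespace Pool.Agent.Q20.LG

open NumberField IsDedekindDomain Pool.Agent.Q246.RP Pool.Agent.Q273.SP
open Pool.Agent.Q246.BI (Smooth IsCharacter induced NN)
open Subgroup (zpowers)
open scoped Classical

section
variable {K : Type} [Field K] [NumberField K]

/-- `f` represents `m φ` at the place `w` and is unramified, in the generalized sense, at all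
places which are not conjugate to `w` -/
structure Rep (T : Set ℕ) (F : IntermediateField K (AlgebraicClosure K))
    (w : AlgebraicClosure K → ℝ) (φ : decF F w → ℂ) (m : ℕ) (f : F.fixingSubgroup → ℂ) : Prop where
  mem : f ∈ RChar F.fixingSubgroup
  pos : 0 < m
  loc : (∀ p : ℕ, p.Prime → IsPl p w → p ∉ T) →
    Cond (ineF F w) (fun g : decF F w => f g - m • φ g)
  away : ∀ p : ℕ, p.Prime → p ∉ T → ∀ w' : AlgebraicClosure K → ℝ, IsPl p w' →
    (∀ x : F.fixingSubgroup, w' ≠ fun z => w ((x : Gal(AlgebraicClosure K/K)) z)) →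
    Cond (ineF F w') (fun g : decF F w' => f g)

theorem exists_family (F : IntermediateField K (AlgebraicClosure K)) [FiniteDimensional K F]
    {v₀ : HeightOneSpectrum (𝓞 F)} {w₀ : AlgebraicClosure K → ℝ} (h : Above F v₀ w₀) :
    ∃ w : HeightOneSpectrum (𝓞 F) → (AlgebraicClosure K → ℝ), (∀ v, Above F v (w v)) ∧
      w v₀ = w₀ := by
  choose w hw using fun v => exists_place F v
  refine ⟨Function.update w v₀ w₀, fun v => ?_, Function.update_self _ _ _⟩
  by_cases hv : v = v₀
  · subst hv
    rw [Function.update_self]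
    exact h
  · rw [Function.update_of_ne hv]
    exact hw v

theorem exists_rep (T : Set ℕ) (F : IntermediateField K (AlgebraicClosure K))
    [FiniteDimensional K F] {p : ℕ} (hp : p.Prime) {w : AlgebraicClosure K → ℝ} (hw : IsPl p w)
    {φ : decF F w → ℂ} (hφ : φ ∈ RChar (decF F w)) : ∃ m f, Rep T F w φ m f := by
  obtain ⟨v₀, hv₀, -⟩ := exists_above F hp hw
  obtain ⟨w', hw', rfl⟩ := exists_family F hv₀
  let Φ : ∀ v, decF F (w' v) → ℂ := Function.update (fun _ => 0) v₀ φ
  have hΦ : Φ v₀ = φ :=
    Function.update_self (β := fun v => decF F (w' v) → ℂ) v₀ φ (fun _ => 0)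
  obtain ⟨m, hm, f, hf, h2, h3⟩ := surjective F hw' {v₀} Φ (by
    intro v hv
    rw [Finset.mem_singleton] at hv
    subst hv
    rw [hΦ]
    exact hφ)
  refine ⟨m, f, hf, hm, fun _ => ?_, fun q hq hqT w'' hw'' hne => ?_⟩
  · have h4 := h2 v₀ (Finset.mem_singleton_self v₀)
    rw [hΦ] at h4
    exact (local_criterion F hp hw (sub_mem (rchar_res (decF F (w' v₀)) hf)
      (nsmul_mem hφ m))).1 h4
  · obtain ⟨v, hv, hqv⟩ := exists_above F hq hw''
    have hvv : v ≠ v₀ := by
      rintro rfl
      obtain ⟨g, hg⟩ := transitive F v (hw' v) hv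
      exact hne g hg
    obtain ⟨g, rfl⟩ := transitive F v (hw' v) hv
    apply cond_transport F hf
    obtain ⟨⟨q', hq', hq'w⟩, -⟩ := hw' v
    exact (local_criterion F hq' hq'w (rchar_res (decF F (w' v)) hf)).1
      (h3 v (fun h => hvv (Finset.mem_singleton.1 h)))

variable {B : Type} [AddCommGroup B]

theorem exists_E (D : ∀ F : IntermediateField K (AlgebraicClosure K), (F.fixingSubgroup → ℂ) → B)
    (hadd : ∀ F : IntermediateField K (AlgebraicClosure K), FiniteDimensional K F →
      ∀ χ χ' : F.fixingSubgroup → ℂ, IsCharacter F χ → IsCharacter F χ' →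
        D F (χ + χ') = D F χ + D F χ') :
    ∃ E : ∀ F : IntermediateField K (AlgebraicClosure K), RChar F.fixingSubgroup →+ B,
      ∀ F : IntermediateField K (AlgebraicClosure K), FiniteDimensional K F →
        ∀ f : RChar F.fixingSubgroup, IsCharacter F f → E F f = D F f := by
  have h : ∀ F : IntermediateField K (AlgebraicClosure K), ∃ E : RChar F.fixingSubgroup →+ B,
      FiniteDimensional K F → ∀ f : RChar F.fixingSubgroup, IsCharacter F f → E f = D F f := by
    intro F
    by_cases hF : FiniteDimensional K F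
    · obtain ⟨E, hE⟩ : ∃ E : RChar F.fixingSubgroup →+ B, ∀ (a : F.fixingSubgroup → ℂ)
          (ha : IsChar a), E ⟨a, AddSubgroup.subset_closure ha⟩ = D F a :=
        exists_hom {χ : F.fixingSubgroup → ℂ | IsChar χ} isChar_zero
          (fun a b ha hb => IsChar.add ha hb) (D F)
          (fun a b ha hb => hadd F hF a b ((isChar_iff F a).2 ha) ((isChar_iff F b).2 hb))
      exact ⟨E, fun _ f hf => hE f ((isChar_iff F f).1 hf)⟩
    · exact ⟨0, fun h => absurd h hF⟩
  choose E hE using h
  exact ⟨E, hE⟩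

/-- additive functions which agree on characters agree on virtual characters -/
theorem ext_rchar (F : IntermediateField K (AlgebraicClosure K)) [FiniteDimensional K F]
    (E E' : RChar F.fixingSubgroup →+ B) (h : ∀ f : RChar F.fixingSubgroup, IsCharacter F f →
      E f = E' f) : E = E' := by
  have h1 : ∀ (f : F.fixingSubgroup → ℂ) (hf : f ∈ RChar F.fixingSubgroup),
      E ⟨f, hf⟩ = E' ⟨f, hf⟩ := by
    intro f hf
    induction hf using AddSubgroup.closure_induction with
    | mem f hf => exact h ⟨f, AddSubgroup.subset_closure hf⟩ ((isChar_iff F f).2 hf)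
    | zero => exact (map_zero E).trans (map_zero E').symm
    | add a b ha hb ha' hb' =>
      exact (map_add E ⟨a, ha⟩ ⟨b, hb⟩).trans ((congrArg₂ _ ha' hb').trans
        (map_add E' ⟨a, ha⟩ ⟨b, hb⟩).symm)
    | neg a ha ha' =>
      exact (map_neg E ⟨a, ha⟩).trans ((congrArg _ ha').trans (map_neg E' ⟨a, ha⟩).symm)
  exact AddMonoidHom.ext fun f => h1 f f.2

/-- the sum of local terms -/
noncomputable def sumTerms (htf : ∀ (m : ℕ) (b : B), 0 < m → m • b = 0 → b = 0)
    (F : IntermediateField K (AlgebraicClosure K)) [FiniteDimensional K F]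
    {w : HeightOneSpectrum (𝓞 F) → (AlgebraicClosure K → ℝ)} (hw : ∀ v, Above F v (w v))
    (d : ∀ v, RChar (decF F (w v)) →+ B)
    (hd : ∀ v, ∀ y : RChar (decF F (w v)),
      (y : decF F (w v) → ℂ) ∈ AddSubgroup.closure (Unr (ineF F (w v))) → d v y = 0) :
    RChar F.fixingSubgroup →+ B where
  toFun := fun f => ∑ᶠ v, d v (resR F (w v) f)
  map_zero' := by
    have h2 : (fun v => d v (resR F (w v) 0)) = fun _ => 0 := by
      funext v
      rw [map_zero, map_zero]
    rw [h2, finsum_zero]
  map_add' := fun a b => by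
    have h2 : (fun v => d v (resR F (w v) (a + b))) =
        fun v => d v (resR F (w v) a) + d v (resR F (w v) b) := by
      funext v
      rw [map_add, map_add]
    rw [h2, finsum_add_distrib (fin_suppR htf F hw d hd _) (fin_suppR htf F hw d hd _)]

/-- the value at a representative -/
theorem rep_calc (htf : ∀ (m : ℕ) (b : B), 0 < m → m • b = 0 → b = 0) (T : Set ℕ)
    (F : IntermediateField K (AlgebraicClosure K)) [FiniteDimensional K F]
    {w : HeightOneSpectrum (𝓞 F) → (AlgebraicClosure K → ℝ)} (hw : ∀ v, Above F v (w v))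
    (d : ∀ v, RChar (decF F (w v)) →+ B)
    (hd : ∀ v, ∀ y : RChar (decF F (w v)),
      (y : decF F (w v) → ℂ) ∈ AddSubgroup.closure (Unr (ineF F (w v))) → d v y = 0)
    (hT : ∀ v, AboveT T v → d v = 0) (E : RChar F.fixingSubgroup →+ B)
    (hE : ∀ f : RChar F.fixingSubgroup, IsCharacter F f → E f = ∑ᶠ v, d v (resR F (w v) f))
    (v₀ : HeightOneSpectrum (𝓞 F)) (φ : RChar (decF F (w v₀))) {m : ℕ} {f : F.fixingSubgroup → ℂ}
    (h : Rep T F (w v₀) φ m f) : m • d v₀ φ = E ⟨f, h.mem⟩ := by
  have h1 : E = sumTerms htf F hw d hd := ext_rchar F _ _ hE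
  have h2 : E ⟨f, h.mem⟩ = ∑ᶠ v, d v (resR F (w v) ⟨f, h.mem⟩) := by
    rw [h1]
    rfl
  rw [h2, finsum_eq_single _ v₀ (fun v hv => ?_)]
  · by_cases hvT : AboveT T v₀
    · rw [hT v₀ hvT]
      exact smul_zero m
    · rw [← map_nsmul, ← sub_eq_zero, ← map_sub, ← neg_eq_zero, ← map_neg, neg_sub]
      obtain ⟨⟨q, hq, hqw⟩, h3⟩ := hw v₀
      have hqT : ∀ p : ℕ, p.Prime → IsPl p (w v₀) → p ∉ T := fun p hp hpw hpT =>
        hvT ⟨p, hp, hpT, (above_prime ⟨⟨q, hq, hqw⟩, h3⟩ hp).2 hpw⟩
      refine kill_satR htf (d v₀) (hd v₀) ((local_criterion F hq hqw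
        (resR F (w v₀) ⟨f, h.mem⟩ - m • φ).2).2 ?_)
      exact h.loc hqT
  · by_cases hvT : AboveT T v
    · rw [hT v hvT]
      rfl
    · obtain ⟨⟨q, hq, hqw⟩, h3⟩ := hw v
      have hqT : q ∉ T := fun hqT =>
        hvT ⟨q, hq, hqT, (above_prime ⟨⟨q, hq, hqw⟩, h3⟩ hq).2 hqw⟩
      refine kill_satR htf (d v) (hd v) ((local_criterion F hq hqw
        (resR F (w v) ⟨f, h.mem⟩).2).2 ?_)
      refine h.away q hq hqT (w v) hqw fun x hx => hv ?_
      have h4 := above_comp (hw v₀) x
      rw [← hx] at h4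
      exact above_unique (hw v) h4 fun y => Iff.rfl

/-- **Local constants.** `δ F w` is a homomorphism of the group of virtual characters of the
decomposition group of the place `w` of `K̄` in `Gal(K̄/F)`. -/
structure LocalConstants (T : Set ℕ)
    (D : ∀ F : IntermediateField K (AlgebraicClosure K), (F.fixingSubgroup → ℂ) → B)
    (δ : ∀ (F : IntermediateField K (AlgebraicClosure K)) (w : AlgebraicClosure K → ℝ),
      RChar (decF F w) →+ B) : Prop where
  /-- they vanish at the combinations of characters induced from unramified linear characters -/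
  unramified : ∀ F : IntermediateField K (AlgebraicClosure K), FiniteDimensional K F →
    ∀ p : ℕ, p.Prime → ∀ w : AlgebraicClosure K → ℝ, IsPl p w → ∀ φ : RChar (decF F w), (φ : decF F w → ℂ) ∈ AddSubgroup.closure (Unr (ineF F w)) →
      δ F w φ = 0
  /-- they are zero at the places above `T` -/
  above : ∀ F : IntermediateField K (AlgebraicClosure K), FiniteDimensional K F →
    ∀ p : ℕ, p.Prime → p ∈ T → ∀ w : AlgebraicClosure K → ℝ, IsPl p w → δ F w = 0
  /-- they are invariant under induction -/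
  ind : ∀ F F' : IntermediateField K (AlgebraicClosure K), F ≤ F' →
    ∀ (hF' : FiniteDimensional K F') (p : ℕ), p.Prime → ∀ w : AlgebraicClosure K → ℝ, IsPl p w →
    ∀ φ : RChar (decF F' w), δ F w (indD F F' hF' w φ) = δ F' w φ
  /-- they are invariant under conjugation -/
  conj : ∀ F : IntermediateField K (AlgebraicClosure K), FiniteDimensional K F →
    ∀ p : ℕ, p.Prime → ∀ w : AlgebraicClosure K → ℝ, IsPl p w →
    ∀ (x : F.fixingSubgroup) (φ : RChar (decF F w)),
      δ F (fun z => w ((x : Gal(AlgebraicClosure K/K)) z)) (conjR F w x φ) = δ F w φ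
  /-- almost all local terms of a virtual character are zero -/
  finite : ∀ F : IntermediateField K (AlgebraicClosure K), FiniteDimensional K F →
    ∀ w : HeightOneSpectrum (𝓞 F) → (AlgebraicClosure K → ℝ),
    (∀ v, Above F v (w v)) → ∀ f : RChar F.fixingSubgroup,
      {v | δ F (w v) (resR F (w v) f) ≠ 0}.Finite
  /-- the function is the sum of its local terms -/
  sum : ∀ F : IntermediateField K (AlgebraicClosure K), FiniteDimensional K F →
    ∀ w : HeightOneSpectrum (𝓞 F) → (AlgebraicClosure K → ℝ),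
    (∀ v, Above F v (w v)) → ∀ f : RChar F.fixingSubgroup, IsCharacter F f →
      D F f = ∑ᶠ v, δ F (w v) (resR F (w v) f)

/-- **Existence of local constants.** -/
theorem exists_constants
    (D : ∀ F : IntermediateField K (AlgebraicClosure K), (F.fixingSubgroup → ℂ) → B)
    (hadd : ∀ F : IntermediateField K (AlgebraicClosure K), FiniteDimensional K F →
      ∀ χ χ' : F.fixingSubgroup → ℂ, IsCharacter F χ → IsCharacter F χ' →
        D F (χ + χ') = D F χ + D F χ')
    (hind : ∀ F F' : IntermediateField K (AlgebraicClosure K), F ≤ F' → FiniteDimensional K F' →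
      ∀ χ : F'.fixingSubgroup → ℂ, IsCharacter F' χ → D F (induced F F' χ) = D F' χ)
    (hdiv : ∀ (n : ℕ) (b : B), 0 < n → ∃ c, n • c = b)
    (htf : ∀ (m : ℕ) (b : B), 0 < m → m • b = 0 → b = 0)
    (hD1 : ∀ F : IntermediateField K (AlgebraicClosure K), FiniteDimensional K F →
      D F (fun _ => 1) = 0) {M : ℕ} (hM : 0 < M) (T : Set ℕ)
    (hD : ∀ F : IntermediateField K (AlgebraicClosure K), FiniteDimensional K F →
      IsEmpty (F →+* ℝ) → M ∣ Module.finrank K F → ∀ ψ : F.fixingSubgroup →* ℂˣ, Smooth F ψ →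
        UnrAt T F ψ → D F (fun g => ((ψ g : ℂˣ) : ℂ)) = 0) :
    ∃ δ : ∀ (F : IntermediateField K (AlgebraicClosure K)) (w : AlgebraicClosure K → ℝ),
      RChar (decF F w) →+ B, LocalConstants T D δ := by
  obtain ⟨E, hE⟩ := exists_E D hadd
  -- the local terms of a family
  have hloc : ∀ (F : IntermediateField K (AlgebraicClosure K)), FiniteDimensional K F →
      ∀ w : HeightOneSpectrum (𝓞 F) → (AlgebraicClosure K → ℝ), (∀ v, Above F v (w v)) →
      ∃ d : ∀ v, RChar (decF F (w v)) →+ B, LocalTerms T F w (D F) d ∧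
        ∀ v (φ : RChar (decF F (w v))) (m : ℕ) (f : F.fixingSubgroup → ℂ)
          (h : Rep T F (w v) φ m f), m • d v φ = E F ⟨f, h.mem⟩ := by
    intro F hF w hw
    obtain ⟨d, hd, -⟩ := local_terms D hadd hind hdiv htf hD1 hM T hD F w hw
    exact ⟨d, hd, fun v φ m f h => rep_calc htf T F hw d hd.unramified hd.above (E F)
      (fun f hf => (hE F hF f hf).trans (hd.sum f hf)) v φ h⟩
  have hδ : ∀ (F : IntermediateField K (AlgebraicClosure K)) (w : AlgebraicClosure K → ℝ),
      ∃ δ : RChar (decF F w) →+ B, FiniteDimensional K F → (∃ p : ℕ, p.Prime ∧ IsPl p w) →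
        ∀ (φ : RChar (decF F w)) (m : ℕ) (f : F.fixingSubgroup → ℂ) (h : Rep T F w φ m f),
          m • δ φ = E F ⟨f, h.mem⟩ := by
    intro F w
    by_cases hF : FiniteDimensional K F
    · by_cases hw : ∃ p : ℕ, p.Prime ∧ IsPl p w
      · obtain ⟨p, hp, hpw⟩ := hw
        obtain ⟨v₀, hv₀, -⟩ := exists_above F hp hpw
        obtain ⟨w', hw', rfl⟩ := exists_family F hv₀
        obtain ⟨d, -, hd⟩ := hloc F hF w' hw'
        exact ⟨d v₀, fun _ _ => hd v₀⟩
      · exact ⟨0, fun _ h => absurd h hw⟩
    · exact ⟨0, fun h => absurd h hF⟩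
  choose δ hδ using hδ
  have htf' : ∀ (m : ℕ) (b c : B), 0 < m → m • b = m • c → b = c := by
    intro m b c hm h
    rw [← sub_eq_zero]
    exact htf m _ hm (by rw [smul_sub, h, sub_self])
  have hfam : ∀ (F : IntermediateField K (AlgebraicClosure K)), FiniteDimensional K F →
      ∀ w : HeightOneSpectrum (𝓞 F) → (AlgebraicClosure K → ℝ), (∀ v, Above F v (w v)) →
        LocalTerms T F w (D F) fun v => δ F (w v) := by
    intro F hF w hw
    obtain ⟨d, hd1, hd2⟩ := hloc F hF w hw
    have h1 : (fun v => δ F (w v)) = d := by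
      funext v
      refine AddMonoidHom.ext fun φ => ?_
      obtain ⟨⟨p, hp, hpw⟩, -⟩ := hw v
      obtain ⟨m, f, h⟩ := exists_rep T F hp hpw φ.2
      exact htf' m _ _ h.pos ((hδ F (w v) hF ⟨p, hp, hpw⟩ φ m f h).trans (hd2 v φ m f h).symm)
    rw [h1]
    exact hd1
  refine ⟨δ, ⟨fun F hF p hp w hw φ hφ => ?_, fun F hF p hp hpT w hw => ?_,
    fun F F' hle hF' p hp w hw φ => ?_, fun F hF p hp w hw x φ => ?_,
    fun F hF w hw f => (hfam F hF w hw).finite f, fun F hF w hw f hf => (hfam F hF w hw).sum f hf⟩⟩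
  · obtain ⟨v₀, hv₀, -⟩ := exists_above F hp hw
    obtain ⟨w', hw', rfl⟩ := exists_family F hv₀
    exact (hfam F hF w' hw').unramified v₀ φ hφ
  · obtain ⟨v₀, hv₀, hpv⟩ := exists_above F hp hw
    obtain ⟨w', hw', rfl⟩ := exists_family F hv₀
    exact (hfam F hF w' hw').above v₀ ⟨p, hp, hpT, hpv⟩
  · have hF : FiniteDimensional K F :=
      FiniteDimensional.of_injective (IntermediateField.inclusion hle).toLinearMap
        (IntermediateField.inclusion hle).injective
    obtain ⟨m, f, h⟩ := exists_rep T F' hp hw φ.2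
    have hrep : Rep T F w (indD F F' hF' w φ : RChar (decF F w)) m (induced F F' f) := by
      refine ⟨(indF F F' hF' ⟨f, h.mem⟩).2, h.pos, fun hT => ?_, fun q hq hqT w' hw' hne => ?_⟩
      · exact mackey_field F F' hle hF' h.mem φ m (h.loc hT)
          (fun x hx => h.away p hp (hT p hp hw) _ (hw.comp _) hx)
      · have h1 := mackey_field F F' hle hF' (w := w') h.mem 0 0 (by
          have h2 := h.away q hq hqT w' hw' (fun y hy => hne
            ⟨(y : Gal(AlgebraicClosure K/K)), IntermediateField.fixingSubgroup_antitone hle y.2⟩ hy)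
          intro u v huv ht
          change f u - 0 • (0 : ℂ) = f v - 0 • (0 : ℂ)
          rw [zero_smul, sub_zero, sub_zero]
          exact h2 u v huv ht) (fun x hx => h.away q hq hqT _ (hw'.comp _) (fun y hy => by
            apply hne (⟨(y : Gal(AlgebraicClosure K/K)),
              IntermediateField.fixingSubgroup_antitone hle y.2⟩ * x⁻¹)
            funext z
            have h2 := congrFun hy ((x : Gal(AlgebraicClosure K/K))⁻¹ z)
            have h3 : (x : Gal(AlgebraicClosure K/K)) ((x : Gal(AlgebraicClosure K/K))⁻¹ z) = z :=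
              AlgEquiv.apply_symm_apply _ z
            change w' ((x : Gal(AlgebraicClosure K/K)) ((x : Gal(AlgebraicClosure K/K))⁻¹ z)) =
              w ((y : Gal(AlgebraicClosure K/K)) ((x : Gal(AlgebraicClosure K/K))⁻¹ z)) at h2
            rw [h3] at h2
            exact h2))
        intro u v huv ht
        have h2 := h1 u v huv ht
        simpa only [zero_smul, sub_zero] using h2
    have h1 := hδ F w hF ⟨p, hp, hw⟩ _ m _ hrep
    have h2 := hδ F' w hF' ⟨p, hp, hw⟩ φ m f h
    have h3 : (E F).comp (indF F F' hF') = E F' := by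
      refine ext_rchar F' _ _ fun f hf => ?_
      rw [AddMonoidHom.comp_apply, hE F' hF' f hf]
      have h4 := isCharacter_ind F F' hF' hf
      rw [hE F hF (indF F F' hF' f) h4]
      exact hind F F' hle hF' f hf
    refine htf' m _ _ h.pos (h1.trans (Eq.trans ?_ h2.symm))
    rw [← h3]
    rfl
  · obtain ⟨m, f, h⟩ := exists_rep T F hp hw φ.2
    have hrep : Rep T F (fun z => w ((x : Gal(AlgebraicClosure K/K)) z))
        (conjR F w x φ : RChar (decF F _)) m f := by
      refine ⟨h.mem, h.pos, fun hT => ?_, fun q hq hqT w' hw' hne => ?_⟩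
      · have h1 := h.loc (fun q hq hqw => hT q hq (hqw.comp _))
        intro u v huv ht
        have h2 := h1 (conjD F w x u) (conjD F w x v) (by
          rw [same_sub]
          exact same_conj x ((same_sub u v).1 huv)) (by
          have h3 := Ine.conj ht (x : Gal(AlgebraicClosure K/K))⁻¹
          have h4 : (fun y => w ((x : Gal(AlgebraicClosure K/K))
              ((x : Gal(AlgebraicClosure K/K))⁻¹ y))) = w := by
            funext y
            have h5 : (x : Gal(AlgebraicClosure K/K)) ((x : Gal(AlgebraicClosure K/K))⁻¹ y) = y :=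
              AlgEquiv.apply_symm_apply _ y
            rw [h5]
          rw [h4] at h3
          rw [← map_inv, ← map_mul]
          change Ine w ((x * ((u⁻¹ * v : decF F _) : F.fixingSubgroup) * x⁻¹ : F.fixingSubgroup) :
            Gal(AlgebraicClosure K/K))
          have h6 : ((x * ((u⁻¹ * v : decF F (fun z => w ((x : Gal(AlgebraicClosure K/K)) z))) :
              F.fixingSubgroup) * x⁻¹ : F.fixingSubgroup) : Gal(AlgebraicClosure K/K)) =
              (x : Gal(AlgebraicClosure K/K))⁻¹⁻¹ * (((u⁻¹ * v : decF F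
                (fun z => w ((x : Gal(AlgebraicClosure K/K)) z))) : F.fixingSubgroup) :
                  Gal(AlgebraicClosure K/K)) * (x : Gal(AlgebraicClosure K/K))⁻¹ := by
            rw [inv_inv]
            push_cast
            rfl
          rw [h6]
          exact h3)
        change f (x * (u : F.fixingSubgroup) * x⁻¹) - m • (φ : decF F w → ℂ) (conjD F w x u) =
          f (x * (v : F.fixingSubgroup) * x⁻¹) - m • (φ : decF F w → ℂ) (conjD F w x v) at h2
        rw [rchar_conj h.mem, rchar_conj h.mem] at h2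
        exact h2
      · refine h.away q hq hqT w' hw' fun y hy => hne (x⁻¹ * y) ?_
        rw [hy]
        funext z
        change w ((y : Gal(AlgebraicClosure K/K)) z) = w ((x : Gal(AlgebraicClosure K/K))
          ((x : Gal(AlgebraicClosure K/K))⁻¹ ((y : Gal(AlgebraicClosure K/K)) z)))
        have h3 : ∀ z, (x : Gal(AlgebraicClosure K/K)) ((x : Gal(AlgebraicClosure K/K))⁻¹ z) = z :=
          fun z => AlgEquiv.apply_symm_apply _ z
        rw [h3]
    have h1 := hδ F w hF ⟨p, hp, hw⟩ φ m f h
    have h2 := hδ F _ hF ⟨p, hp, hw.comp _⟩ (conjR F w x φ) m f hrep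
    exact htf' m _ _ h.pos (h2.trans h1.symm)

/-- **Uniqueness of local constants.** -/
theorem unique_constants {T : Set ℕ}
    {D : ∀ F : IntermediateField K (AlgebraicClosure K), (F.fixingSubgroup → ℂ) → B}
    (htf : ∀ (m : ℕ) (b : B), 0 < m → m • b = 0 → b = 0)
    {δ δ' : ∀ (F : IntermediateField K (AlgebraicClosure K)) (w : AlgebraicClosure K → ℝ),
      RChar (decF F w) →+ B} (h : LocalConstants T D δ) (h' : LocalConstants T D δ')
    (F : IntermediateField K (AlgebraicClosure K)) (hF : FiniteDimensional K F) {p : ℕ}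
    (hp : p.Prime) {w : AlgebraicClosure K → ℝ} (hw : IsPl p w) : δ F w = δ' F w := by
  obtain ⟨v₀, hv₀, -⟩ := exists_above F hp hw
  obtain ⟨w', hw', rfl⟩ := exists_family F hv₀
  refine AddMonoidHom.ext fun φ => ?_
  rw [← sub_eq_zero]
  refine unique_zeroR htf F hw' (fun v => δ F (w' v) - δ' F (w' v)) (fun v y hy => ?_)
    (fun f hf => ?_) v₀ φ
  · obtain ⟨⟨q, hq, hqw⟩, -⟩ := hw' v
    rw [AddMonoidHom.sub_apply, h.unramified F hF q hq _ hqw y hy,
      h'.unramified F hF q hq _ hqw y hy, sub_zero]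
  · have h4 : (fun v => (δ F (w' v) - δ' F (w' v)) (resR F (w' v) f)) =
        fun v => δ F (w' v) (resR F (w' v) f) - δ' F (w' v) (resR F (w' v) f) := rfl
    rw [h4, finsum_sub_distrib (h.finite F hF w' hw' f) (h'.finite F hF w' hw' f),
      ← h.sum F hF w' hw' f hf, ← h'.sum F hF w' hw' f hf, sub_self]

end

end Pool.Agent.Q20.LG
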