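import Pool.Agent.Q20.LG.Const3

/-!
# Every family of local terms over the base field occurs
-/

set_option autoImplicit false
set_option linter.unusedSectionVars false

namespace Pool.Agent.Q20.LG

open NumberField IsDedekindDomain Pool.Agent.Q246.RP Pool.Agent.Q273.SP
open Pool.Agent.Q246.BI (Smooth IsCharacter induced NN)
open Subgroup (zpowers)
open scoped Classical

section
variable {Γ Δ : Type} [Group Γ] [Group Δ]

theorem sum_trans (j : Δ →* Γ) (H L : Subgroup Γ) (hH : ∀ g, g ∈ H ↔ ∃ d, j d = g) (hL : L ≤ H)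
    (L' : Subgroup Δ) (hL' : ∀ d, d ∈ L' ↔ j d ∈ L) [Fintype (Γ ⧸ H)] [Fintype (Δ ⧸ L')]
    [Fintype (Γ ⧸ L)] (Φ : Γ → ℂ) (hΦ : ∀ z h, h ∈ L → Φ (z * h) = Φ z) :
    ∑ x : Γ ⧸ H, ∑ y : Δ ⧸ L', Φ (x.out * j y.out) = ∑ z : Γ ⧸ L, Φ z.out := by
  have hjH : ∀ d, j d ∈ H := fun d => (hH _).2 ⟨d, rfl⟩
  rw [← Fintype.sum_prod_type' (fun (x : Γ ⧸ H) (y : Δ ⧸ L') => Φ (x.out * j y.out))]
  refine Fintype.sum_bijective (fun z : (Γ ⧸ H) × (Δ ⧸ L') =>
    ((z.1.out * j z.2.out : Γ) : Γ ⧸ L)) ⟨?_, ?_⟩ _ _ ?_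
  · rintro ⟨x, y⟩ ⟨x', y'⟩ h
    have h1 : (x.out * j y.out)⁻¹ * (x'.out * j y'.out) ∈ L := QuotientGroup.eq.1 h
    have h2 : x = x' := by
      rw [← QuotientGroup.out_eq' x, ← QuotientGroup.out_eq' x', QuotientGroup.eq]
      have h3 := H.mul_mem (H.mul_mem (hjH y.out) (hL h1)) (H.inv_mem (hjH y'.out))
      have h4 : j y.out * ((x.out * j y.out)⁻¹ * (x'.out * j y'.out)) * (j y'.out)⁻¹ =
          x.out⁻¹ * x'.out := by group
      rwa [h4] at h3
    subst h2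
    have h5 : y = y' := by
      rw [← QuotientGroup.out_eq' y, ← QuotientGroup.out_eq' y', QuotientGroup.eq, hL', map_mul,
        map_inv]
      have h6 : (x.out * j y.out)⁻¹ * (x.out * j y'.out) = (j y.out)⁻¹ * j y'.out := by group
      rwa [h6] at h1
    rw [h5]
  · intro z
    have h1 : ((z.out : Γ) : Γ ⧸ H).out⁻¹ * z.out ∈ H := by
      rw [← QuotientGroup.eq, QuotientGroup.out_eq']
    obtain ⟨d, hd⟩ := (hH _).1 h1
    refine ⟨(((z.out : Γ) : Γ ⧸ H), (d : Δ ⧸ L')), ?_⟩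
    refine Eq.trans ?_ (QuotientGroup.out_eq' z)
    refine QuotientGroup.eq.2 ?_
    change (((z.out : Γ) : Γ ⧸ H).out * j ((d : Δ ⧸ L')).out)⁻¹ * z.out ∈ L
    have h2 : ((d : Δ ⧸ L')).out⁻¹ * d ∈ L' := by
      rw [← QuotientGroup.eq, QuotientGroup.out_eq']
    rw [hL', map_mul, map_inv, hd] at h2
    have h3 : (((z.out : Γ) : Γ ⧸ H).out * j ((d : Δ ⧸ L')).out)⁻¹ * z.out =
        (j ((d : Δ ⧸ L')).out)⁻¹ * (((z.out : Γ) : Γ ⧸ H).out⁻¹ * z.out) := by group
    rw [h3]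
    exact h2
  · rintro ⟨x, y⟩
    change Φ (x.out * j y.out) = Φ (((x.out * j y.out : Γ) : Γ ⧸ L).out)
    have h1 : (((x.out * j y.out : Γ) : Γ ⧸ L).out)⁻¹ * (x.out * j y.out) ∈ L := by
      rw [← QuotientGroup.eq, QuotientGroup.out_eq']
    have h2 := hΦ (((x.out * j y.out : Γ) : Γ ⧸ L).out) _ h1
    rw [mul_inv_cancel_left] at h2
    exact h2

theorem dite_conj (H : Subgroup Γ) {f : H → ℂ} (hf : ∀ a b : H, f (b⁻¹ * a * b) = f a)
    (u g h : Γ) (hh : h ∈ H) :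
    (if h' : (g * h)⁻¹ * u * (g * h) ∈ H then f ⟨_, h'⟩ else 0) =
      if h' : g⁻¹ * u * g ∈ H then f ⟨_, h'⟩ else 0 := by
  have h1 : (g * h)⁻¹ * u * (g * h) = h⁻¹ * (g⁻¹ * u * g) * h := by group
  by_cases h2 : g⁻¹ * u * g ∈ H
  · have h3 : (g * h)⁻¹ * u * (g * h) ∈ H := by
      rw [h1]
      exact H.mul_mem (H.mul_mem (H.inv_mem hh) h2) hh
    rw [dif_pos h2, dif_pos h3, ← hf ⟨_, h2⟩ ⟨h, hh⟩]
    congr 1
    exact Subtype.ext h1
  · have h3 : (g * h)⁻¹ * u * (g * h) ∉ H := by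
      intro h3
      apply h2
      rw [h1] at h3
      have h4 := H.mul_mem (H.mul_mem hh h3) (H.inv_mem hh)
      have h5 : h * (h⁻¹ * (g⁻¹ * u * g) * h) * h⁻¹ = g⁻¹ * u * g := by group
      rwa [h5] at h4
    rw [dif_neg h2, dif_neg h3]

/-- transitivity of induction, for abstract groups -/
theorem indu_trans (j : Δ →* Γ) (H L : Subgroup Γ) (hH : ∀ g, g ∈ H ↔ ∃ d, j d = g) (hL : L ≤ H)
    (L' : Subgroup Δ) (hL' : ∀ d, d ∈ L' ↔ j d ∈ L) [Finite (Γ ⧸ H)] [Finite (Δ ⧸ L')]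
    [Finite (Γ ⧸ L)] (s : H →* Δ) (hs : ∀ h : H, j (s h) = h) {χ : L → ℂ}
    (hχ : ∀ a b : L, χ (b⁻¹ * a * b) = χ a) :
    Indu H (fun h => Indu L' (fun d => χ ⟨j d, (hL' d).1 d.2⟩) (s h)) = Indu L χ := by
  have := Fintype.ofFinite (Γ ⧸ H)
  have := Fintype.ofFinite (Δ ⧸ L')
  have := Fintype.ofFinite (Γ ⧸ L)
  have hjH : ∀ d, j d ∈ H := fun d => (hH _).2 ⟨d, rfl⟩
  funext g
  let Φ : Γ → ℂ := fun z => if h : z⁻¹ * g * z ∈ L then χ ⟨_, h⟩ else 0
  have hΦ : ∀ z h, h ∈ L → Φ (z * h) = Φ z := fun z h hh => dite_conj L hχ g z h hh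
  have e1 : Indu L χ g = ∑ z : Γ ⧸ L, Φ z.out := by
    unfold Indu
    rw [finsum_eq_sum_of_fintype]
  rw [e1, ← sum_trans j H L hH hL L' hL' Φ hΦ]
  unfold Indu
  rw [finsum_eq_sum_of_fintype]
  refine Finset.sum_congr rfl fun x _ => ?_
  by_cases hx : x.out⁻¹ * g * x.out ∈ H
  · rw [dif_pos hx]
    change (∑ᶠ (y : Δ ⧸ L'), if h : y.out⁻¹ * s ⟨_, hx⟩ * y.out ∈ L' then
      χ ⟨j (y.out⁻¹ * s ⟨_, hx⟩ * y.out), (hL' _).1 h⟩ else 0) = _
    rw [finsum_eq_sum_of_fintype]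
    refine Finset.sum_congr rfl fun y _ => ?_
    have e3 : j (y.out⁻¹ * s ⟨_, hx⟩ * y.out) = (x.out * j y.out)⁻¹ * g * (x.out * j y.out) := by
      rw [map_mul, map_mul, map_inv, hs]
      group
    by_cases hy : y.out⁻¹ * s ⟨_, hx⟩ * y.out ∈ L'
    · have hy' : (x.out * j y.out)⁻¹ * g * (x.out * j y.out) ∈ L := by
        rw [← e3]
        exact (hL' _).1 hy
      rw [dif_pos hy]
      change _ = if h : (x.out * j y.out)⁻¹ * g * (x.out * j y.out) ∈ L then χ ⟨_, h⟩ else 0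
      rw [dif_pos hy']
      exact congrArg χ (Subtype.ext e3)
    · have hy' : (x.out * j y.out)⁻¹ * g * (x.out * j y.out) ∉ L := by
        rw [← e3]
        exact fun h => hy ((hL' _).2 h)
      rw [dif_neg hy]
      change _ = if h : (x.out * j y.out)⁻¹ * g * (x.out * j y.out) ∈ L then χ ⟨_, h⟩ else 0
      rw [dif_neg hy']
  · rw [dif_neg hx]
    symm
    refine Finset.sum_eq_zero fun y _ => dif_neg fun hy => hx ?_
    have h3 := hL hy
    have h5 := H.mul_mem (H.mul_mem (hjH y.out) h3) (H.inv_mem (hjH y.out))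
    have h6 : j y.out * ((x.out * j y.out)⁻¹ * g * (x.out * j y.out)) * (j y.out)⁻¹ =
        x.out⁻¹ * g * x.out := by group
    rwa [h6] at h5

end

section
variable {K : Type} [Field K] [NumberField K]

/-- transitivity of induction -/
theorem induced_trans (F₁ F F' : IntermediateField K (AlgebraicClosure K)) (h1 : F₁ ≤ F)
    (h2 : F ≤ F') (hF : FiniteDimensional K F) (hF' : FiniteDimensional K F')
    {χ : F'.fixingSubgroup → ℂ} (hχ : ∀ a b : F'.fixingSubgroup, χ (b⁻¹ * a * b) = χ a) :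
    induced F₁ F (induced F F' χ) = induced F₁ F' χ := by
  have hfin1 : Finite (F₁.fixingSubgroup ⧸ HH F₁ F) :=
    Subgroup.quotient_finite_of_isOpen _ (isOpen_sub F₁ F)
  have hfin2 : Finite (F.fixingSubgroup ⧸ HH F F') :=
    Subgroup.quotient_finite_of_isOpen _ (isOpen_sub F F')
  have hfin3 : Finite (F₁.fixingSubgroup ⧸ HH F₁ F') :=
    Subgroup.quotient_finite_of_isOpen _ (isOpen_sub F₁ F')
  let j : F.fixingSubgroup →* F₁.fixingSubgroup :=
    { toFun := fun y =>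
        ⟨(y : Gal(AlgebraicClosure K/K)), IntermediateField.fixingSubgroup_antitone h1 y.2⟩
      map_one' := rfl
      map_mul' := fun _ _ => rfl }
  have h3 := indu_trans j (HH F₁ F) (HH F₁ F') (fun g => ⟨fun h => ⟨⟨g, h⟩, rfl⟩, by
      rintro ⟨d, rfl⟩
      exact d.2⟩) (fun g hg => IntermediateField.fixingSubgroup_antitone h2 hg) (HH F F')
    (fun d => Iff.rfl) (toG F₁ F) (fun h => rfl) (χ := fun h => χ (toG F₁ F' h)) (fun a b => by
      have h4 := hχ (toG F₁ F' a) (toG F₁ F' b)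
      rw [← map_inv, ← map_mul, ← map_mul] at h4
      exact h4)
  exact h3

variable {B : Type} [AddCommGroup B]

/-- **Every family of local terms over the base field occurs.** -/
theorem converse (htf : ∀ (m : ℕ) (b : B), 0 < m → m • b = 0 → b = 0) (T : Set ℕ)
    (w : HeightOneSpectrum (𝓞 (⊥ : IntermediateField K (AlgebraicClosure K))) →
      (AlgebraicClosure K → ℝ)) (hw : ∀ v, Above ⊥ v (w v))
    (d : ∀ v, RChar (decF ⊥ (w v)) →+ B)
    (hd : ∀ v, ∀ y : RChar (decF ⊥ (w v)),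
      (y : decF ⊥ (w v) → ℂ) ∈ AddSubgroup.closure (Unr (ineF ⊥ (w v))) → d v y = 0)
    (hT : ∀ v, AboveT T v → d v = 0) :
    ∃ D : ∀ F : IntermediateField K (AlgebraicClosure K), (F.fixingSubgroup → ℂ) → B,
      (∀ F : IntermediateField K (AlgebraicClosure K), FiniteDimensional K F →
        ∀ χ χ' : F.fixingSubgroup → ℂ, IsCharacter F χ → IsCharacter F χ' →
          D F (χ + χ') = D F χ + D F χ') ∧
      (∀ F F' : IntermediateField K (AlgebraicClosure K), F ≤ F' → FiniteDimensional K F' →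
        ∀ χ : F'.fixingSubgroup → ℂ, IsCharacter F' χ → D F (induced F F' χ) = D F' χ) ∧
      (∀ F : IntermediateField K (AlgebraicClosure K), FiniteDimensional K F →
        ∀ ψ : F.fixingSubgroup →* ℂˣ, Smooth F ψ → UnrAt T F ψ →
          D F (fun g => ((ψ g : ℂˣ) : ℂ)) = 0) ∧
      LocalTerms T ⊥ w (D ⊥) d := by
  have hbot : FiniteDimensional K (⊥ : IntermediateField K (AlgebraicClosure K)) := inferInstance
  let S := sumTerms htf ⊥ hw d hd
  have hmem : ∀ F : IntermediateField K (AlgebraicClosure K), FiniteDimensional K F →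
      ∀ χ : F.fixingSubgroup → ℂ, IsCharacter F χ →
        induced ⊥ F χ ∈ RChar (⊥ : IntermediateField K (AlgebraicClosure K)).fixingSubgroup :=
    fun F hF χ hχ => AddSubgroup.subset_closure ((isChar_iff ⊥ _).1 (isCharacter_ind ⊥ F hF hχ))
  let D : ∀ F : IntermediateField K (AlgebraicClosure K), (F.fixingSubgroup → ℂ) → B :=
    fun F χ => if h : induced ⊥ F χ ∈
      RChar (⊥ : IntermediateField K (AlgebraicClosure K)).fixingSubgroup then S ⟨_, h⟩ else 0
  have hDS : ∀ F : IntermediateField K (AlgebraicClosure K), ∀ χ : F.fixingSubgroup → ℂ,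
      ∀ h : induced ⊥ F χ ∈ RChar (⊥ : IntermediateField K (AlgebraicClosure K)).fixingSubgroup,
        D F χ = S ⟨_, h⟩ := fun F χ h => dif_pos h
  have hadd : ∀ F : IntermediateField K (AlgebraicClosure K), FiniteDimensional K F →
      ∀ χ χ' : F.fixingSubgroup → ℂ, induced ⊥ F (χ + χ') = induced ⊥ F χ + induced ⊥ F χ' := by
    intro F hF χ χ'
    rw [induced_indu, induced_indu, induced_indu, ← indu_add _ (isOpen_sub ⊥ F)]
    rfl
  refine ⟨D, fun F hF χ χ' h h' => ?_, fun F F' hle hF' χ h => ?_, fun F hF ψ hs hψ => ?_,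
    ⟨hd, hT, fun f => fin_suppR htf ⊥ hw d hd f, fun f hf => ?_⟩⟩
  · have h1 : induced ⊥ F (χ + χ') ∈
        RChar (⊥ : IntermediateField K (AlgebraicClosure K)).fixingSubgroup := by
      rw [hadd F hF]
      exact add_mem (hmem F hF χ h) (hmem F hF χ' h')
    rw [hDS F _ h1, hDS F _ (hmem F hF χ h), hDS F _ (hmem F hF χ' h'), ← map_add]
    congr 1
    exact Subtype.ext (hadd F hF χ χ')
  · have hF : FiniteDimensional K F :=
      FiniteDimensional.of_injective (IntermediateField.inclusion hle).toLinearMap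
        (IntermediateField.inclusion hle).injective
    have h1 : induced ⊥ F (induced F F' χ) = induced ⊥ F' χ := by
      refine induced_trans ⊥ F F' bot_le hle hF hF' fun a b => ?_
      have h2 := isChar_conj ((isChar_iff F' χ).1 h) b⁻¹ a
      rwa [inv_inv] at h2
    rw [hDS F' _ (hmem F' hF' χ h), hDS F _ (by rw [h1]; exact hmem F' hF' χ h)]
    congr 1
    exact Subtype.ext h1
  · have h5 : IsCharacter F (fun g => ((ψ g : ℂˣ) : ℂ)) := by
      refine ⟨1, (Units.map (Matrix.scalar (Fin 1) (α := ℂ)).toMonoidHom).comp ψ, ?_, fun g => ?_⟩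
      · obtain ⟨E', hE', hEψ⟩ := hs
        exact ⟨E', hE', fun g hg => by rw [MonoidHom.comp_apply, hEψ g hg, map_one]⟩
      · change _ = (Matrix.scalar (Fin 1) ((ψ g : ℂˣ) : ℂ)).trace
        simp [Matrix.trace]
    rw [hDS F _ (hmem F hF _ h5)]
    have h6 : Cond (TT T ⊥) (induced ⊥ F (fun g => ((ψ g : ℂˣ) : ℂ))) :=
      genU_cond T ⊥ ⟨F, ψ, bot_le, hF, hs, hψ, rfl⟩
    have h7 := (chosen_iff T ⊥ hw (hmem F hF _ h5)).1 h6
    change ∑ᶠ v, d v (resR ⊥ (w v) ⟨_, hmem F hF _ h5⟩) = 0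
    have h8 : (fun v => d v (resR ⊥ (w v) ⟨_, hmem F hF _ h5⟩)) = fun _ => 0 := by
      funext v
      by_cases hv : AboveT T v
      · rw [hT v hv]
        rfl
      · exact kill_satR htf (d v) (hd v) (h7 v hv)
    rw [h8, finsum_zero]
  · have h1 : induced ⊥ ⊥ (f : (⊥ : IntermediateField K (AlgebraicClosure K)).fixingSubgroup → ℂ) =
        f := by
      rw [induced_indu]
      refine indu_top (HH ⊥ ⊥) (fun g => g.2) fun x g => ?_
      have h2 := rchar_conj f.2 x⁻¹ g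
      rwa [inv_inv] at h2
    rw [hDS ⊥ _ (by rw [h1]; exact f.2)]
    change S _ = S f
    congr 1
    exact Subtype.ext h1

end

end Pool.Agent.Q20.LG
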