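import Pool.Agent.Q20.LG.Exp2

/-!
# There is a place of the algebraic closure above every prime
-/

set_option autoImplicit false
set_option linter.unusedSectionVars false

namespace Pool.Agent.Q20.LG

open NumberField IsDedekindDomain Pool.Agent.Q246.RP Pool.Agent.Q273.SP
open scoped Classical

section
variable {K : Type} [Field K] [NumberField K]

theorem exists_isPl {p : ℕ} (hp : p.Prime) : ∃ w : AlgebraicClosure K → ℝ, IsPl p w := by
  have : Fact p.Prime := ⟨hp⟩
  have : Algebra.IsAlgebraic ℚ (AlgebraicClosure K) :=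
    Algebra.IsAlgebraic.trans ℚ K (AlgebraicClosure K)
  have : IsAlgClosed (PadicAlgCl p) := inferInstanceAs (IsAlgClosed (AlgebraicClosure ℚ_[p]))
  let ι : AlgebraicClosure K →ₐ[ℚ] PadicAlgCl p := IsAlgClosed.lift
  refine ⟨fun x => ‖ι x‖, fun x => norm_nonneg _, ?_, fun x y => ?_, fun x y => ?_, ?_⟩
  · rw [map_zero, norm_zero]
  · rw [map_mul, norm_mul]
  · rw [map_add]
    exact PadicAlgCl.isNonarchimedean p _ _
  · rw [map_natCast, ← map_natCast (algebraMap ℚ_[p] (PadicAlgCl p)), PadicAlgCl.norm_extends,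
      Padic.norm_p]

theorem exists_prime_mem (F : IntermediateField K (AlgebraicClosure K)) [FiniteDimensional K F]
    (v : HeightOneSpectrum (𝓞 F)) : ∃ p : ℕ, p.Prime ∧ (p : 𝓞 F) ∈ v.asIdeal := by
  have hNF : NumberField F := NumberField.of_module_finite K F
  have h1 : ∃ n : ℕ, 0 < n ∧ (n : 𝓞 F) ∈ v.asIdeal := by
    refine ⟨Ideal.absNorm v.asIdeal, ?_, Ideal.absNorm_mem _⟩
    rw [Nat.pos_iff_ne_zero, Ne, Ideal.absNorm_eq_zero_iff]
    exact v.ne_bot
  obtain ⟨hpos, hmem⟩ := Nat.find_spec h1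
  set n := Nat.find h1 with hn
  refine ⟨n, ?_, hmem⟩
  have hne : n ≠ 1 := by
    intro h2
    rw [h2, Nat.cast_one] at hmem
    exact v.isPrime.ne_top ((Ideal.eq_top_iff_one _).2 hmem)
  by_contra hnp
  obtain ⟨a, hadvd, ha1, ha2⟩ := Nat.exists_dvd_of_not_prime (by omega) hnp
  obtain ⟨b, hab⟩ := hadvd
  have hb : 0 < b := Nat.pos_of_ne_zero fun h => by rw [h, mul_zero] at hab; omega
  have ha : 0 < a := Nat.pos_of_ne_zero fun h => by rw [h, zero_mul] at hab; omega
  have hb2 : b < n := by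
    rw [hab]
    exact (Nat.lt_mul_iff_one_lt_left hb).2 (by omega)
  have ha3 : a < n := lt_of_le_of_ne (Nat.le_of_dvd hpos ⟨b, hab⟩) ha2
  rw [hab, Nat.cast_mul] at hmem
  rcases v.isPrime.mem_or_mem hmem with h2 | h2
  · exact Nat.find_min h1 (hn ▸ ha3) ⟨ha, h2⟩
  · exact Nat.find_min h1 (hn ▸ hb2) ⟨hb, h2⟩

/-- **Existence of places above a prime.** -/
theorem exists_place (F : IntermediateField K (AlgebraicClosure K)) [FiniteDimensional K F]
    (v : HeightOneSpectrum (𝓞 F)) : ∃ w : AlgebraicClosure K → ℝ, Above F v w := by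
  have hNF : NumberField F := NumberField.of_module_finite K F
  obtain ⟨p, hp, hpv⟩ := exists_prime_mem F v
  obtain ⟨w₀, hw₀⟩ := exists_isPl (K := K) hp
  have halg : Algebra.IsAlgebraic ℚ (AlgebraicClosure K) :=
    Algebra.IsAlgebraic.trans ℚ K (AlgebraicClosure K)
  let f : 𝓞 F →+* AlgebraicClosure K := (algebraMap F (AlgebraicClosure K)).comp (algebraMap (𝓞 F) F)
  have hf : Function.Injective f :=
    (algebraMap F (AlgebraicClosure K)).injective.comp (FaithfulSMul.algebraMap_injective _ _)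
  let e : 𝓞 F ≃+* f.range := RingEquiv.ofBijective f.rangeRestrict
    ⟨fun a b h => hf (by
      have h1 := congrArg (fun z : f.range => (z : AlgebraicClosure K)) h
      exact h1), f.rangeRestrict_surjective⟩
  let I : Ideal f.range := v.asIdeal.comap (e.symm : f.range →+* 𝓞 F)
  have hI : I ≠ ⊤ := Ideal.comap_ne_top _ v.isPrime.ne_top
  obtain ⟨B, hB1, hB2⟩ := Ideal.image_subset_nonunits_valuationSubring I hI
  have hfB : ∀ y : 𝓞 F, f y ∈ B := fun y => hB1 ⟨y, rfl⟩
  have hvB : ∀ y ∈ v.asIdeal, B.valuation (f y) < 1 := by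
    intro y hy
    rw [← ValuationSubring.mem_nonunits_iff]
    refine hB2 ⟨e y, ?_, rfl⟩
    change e.symm (e y) ∈ v.asIdeal
    rw [RingEquiv.symm_apply_apply]
    exact hy
  have hpB : B.valuation (p : AlgebraicClosure K) < 1 := by
    have h1 := hvB p hpv
    rwa [map_natCast] at h1
  have hAw : ∀ a : ℤ, algebraMap ℚ (AlgebraicClosure K) (algebraMap ℤ ℚ a) ∈ vr hp hw₀ := by
    intro a
    rw [mem_vr]
    have h1 := hw₀.int_le hp a
    simpa using h1
  have hAB : ∀ a : ℤ, algebraMap ℚ (AlgebraicClosure K) (algebraMap ℤ ℚ a) ∈ B := by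
    intro a
    have h1 : algebraMap ℚ (AlgebraicClosure K) (algebraMap ℤ ℚ a) = (a : AlgebraicClosure K) := by
      simp
    rw [h1]
    exact intCast_mem B a
  have hpne : ∀ O : ValuationSubring (AlgebraicClosure K), O.valuation (p : AlgebraicClosure K) < 1 →
      O.comap (algebraMap ℚ (AlgebraicClosure K)) ≠ ⊤ := by
    intro O hO htop
    have h3 : ((p : ℚ)⁻¹) ∈ O.comap (algebraMap ℚ (AlgebraicClosure K)) := by
      rw [htop]
      trivial
    rw [ValuationSubring.mem_comap, map_inv₀, map_natCast] at h3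
    rw [Pool.Agent.H639R3.val_lt_one_iff] at hO
    rcases hO with h4 | h4
    · exact hp.ne_zero (by exact_mod_cast h4)
    · exact h4 h3
  have hpw : (vr hp hw₀).valuation (p : AlgebraicClosure K) < 1 := by
    rw [vr_lt]
    exact hw₀.p_lt hp
  have hcent : ∀ (O : ValuationSubring (AlgebraicClosure K)),
      O.valuation (p : AlgebraicClosure K) < 1 →
      (∀ a : ℤ, algebraMap ℚ (AlgebraicClosure K) (algebraMap ℤ ℚ a) ∈ O) →
      ∀ a : ℤ, O.valuation (algebraMap ℚ (AlgebraicClosure K) (algebraMap ℤ ℚ a)) < 1 ↔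
        (p : ℤ) ∣ a := by
    intro O hO hAO a
    have hcast : ∀ a : ℤ, algebraMap ℚ (AlgebraicClosure K) (algebraMap ℤ ℚ a) =
      (a : AlgebraicClosure K) := fun a => by simp
    constructor
    · intro h1
      by_contra h2
      have hc : IsCoprime (p : ℤ) a := by
        rw [Int.isCoprime_iff_gcd_eq_one]
        have h2' : Int.gcd (p : ℤ) a = Nat.gcd p a.natAbs := rfl
        rw [h2']
        exact (Nat.Prime.coprime_iff_not_dvd hp).2 fun h3 => h2 (Int.natCast_dvd.2 h3)
      obtain ⟨x, y, hxy⟩ := hc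
      have h3 : O.valuation (1 : AlgebraicClosure K) < 1 := by
        have h4 : (1 : AlgebraicClosure K) = x * p + y * a := by exact_mod_cast hxy.symm
        rw [h4]
        refine lt_of_le_of_lt (O.valuation.map_add _ _) (max_lt ?_ ?_)
        · rw [map_mul]
          refine (mul_le_of_le_one_left' ?_).trans_lt hO
          rw [O.valuation_le_one_iff]
          exact intCast_mem O x
        · rw [map_mul]
          rw [hcast] at h1
          refine (mul_le_of_le_one_left' ?_).trans_lt h1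
          rw [O.valuation_le_one_iff]
          exact intCast_mem O y
      rw [map_one] at h3
      exact lt_irrefl _ h3
    · rintro ⟨b, rfl⟩
      rw [hcast]
      push_cast
      rw [map_mul]
      refine mul_lt_one_of_lt_of_le hO ?_
      rw [O.valuation_le_one_iff]
      exact intCast_mem O b
  have heq : (vr hp hw₀).comap (algebraMap ℚ (AlgebraicClosure K)) =
      B.comap (algebraMap ℚ (AlgebraicClosure K)) := by
    refine Pool.Agent.H639R3.eq_of_cent_eq (A := ℤ) _ _
      (fun a => by rw [ValuationSubring.mem_comap]; exact hAw a)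
      (fun a => by rw [ValuationSubring.mem_comap]; exact hAB a) (hpne _ hpw) (hpne _ hpB) ?_
    ext a
    rw [Pool.Agent.H639R3.mem_cent, Pool.Agent.H639R3.mem_cent,
      Pool.Agent.H639R3.comap_val_lt_one, Pool.Agent.H639R3.comap_val_lt_one,
      hcent _ hpw hAw, hcent _ hpB hAB]
  have hcl : IsAlgClosure ℚ (AlgebraicClosure K) := ⟨inferInstance, halg⟩
  have hnor : Normal ℚ (AlgebraicClosure K) := IsAlgClosure.normal ℚ (AlgebraicClosure K)
  have hgal : IsGalois ℚ (AlgebraicClosure K) := IsGalois.mk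
  obtain ⟨σ, hσ⟩ := Pool.Agent.H639R3.exists_aut (A := ℤ) (vr hp hw₀) B hAw (hpne _ hpw) heq
  have hw : IsPl p (fun x => w₀ (σ x)) :=
    ⟨fun x => hw₀.nonneg _, by rw [map_zero]; exact hw₀.zero, fun x y => by
      rw [map_mul]; exact hw₀.mul _ _, fun x y => by rw [map_add]; exact hw₀.add _ _, by
      rw [map_natCast]; exact hw₀.prime⟩
  have hlt : ∀ x, w₀ (σ x) < 1 ↔ B.valuation x < 1 := by
    intro x
    rw [← vr_lt hp hw₀, Pool.Agent.H639R3.val_lt_one_iff, Pool.Agent.H639R3.val_lt_one_iff,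
      hσ, map_inv₀, map_eq_zero]
  refine ⟨fun x => w₀ (σ x), ⟨p, hp, hw⟩, fun y => ?_⟩
  rw [hlt]
  let P : Ideal (𝓞 F) := Pool.Agent.H639R3.cent (B.comap (algebraMap F (AlgebraicClosure K)))
    (fun y => by rw [ValuationSubring.mem_comap]; exact hfB y)
  have hP : ∀ y : 𝓞 F, y ∈ P ↔ B.valuation (f y) < 1 := by
    intro y
    rw [Pool.Agent.H639R3.mem_cent, Pool.Agent.H639R3.comap_val_lt_one]
    rfl
  have h1 : v.asIdeal ≤ P := fun y hy => (hP y).2 (hvB y hy)
  have h2 : P ≠ ⊤ := by
    intro h3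
    have h4 := (hP 1).1 (h3 ▸ Submodule.mem_top)
    rw [map_one, map_one] at h4
    exact lt_irrefl _ h4
  have h3 : v.asIdeal = P := v.isMaximal.eq_of_le h2 h1
  rw [h3]
  exact hP y

end

end Pool.Agent.Q20.LG
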