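import Pool.Agent.Q20.LG.Ext

/-!
# Rational class functions on finite groups
-/

set_option autoImplicit false
set_option linter.unusedSectionVars false

namespace Pool.Agent.Q20.LG

open Pool.Agent.Q246.BI
open Subgroup (zpowers)
open scoped Classical

section
variable {G : Type} [Group G] [Finite G]

/-- the sum over a subgroup -/
noncomputable def sumOn (h : G → ℂ) (C : Subgroup G) : ℂ := ∑ᶠ c : G, if c ∈ C then h c else 0

/-- the sum over the generators of a subgroup -/
noncomputable def sumGen (h : G → ℂ) (C : Subgroup G) : ℂ :=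
  ∑ᶠ c : G, if zpowers c = C then h c else 0

theorem sumOn_eq (h : G → ℂ) (C : Subgroup G) :
    sumOn h C = ∑ᶠ C' : Subgroup G, if C' ≤ C then sumGen h C' else 0 := by
  have : Fintype G := Fintype.ofFinite G
  unfold sumOn sumGen
  rw [finsum_eq_sum_of_fintype, finsum_eq_sum_of_fintype]
  have h1 : ∀ C' : Subgroup G, (if C' ≤ C then ∑ᶠ c : G, (if zpowers c = C' then h c else 0) else 0) =
      ∑ c : G, if zpowers c = C' ∧ C' ≤ C then h c else 0 := by
    intro C'
    rw [finsum_eq_sum_of_fintype]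
    by_cases hC : C' ≤ C
    · rw [if_pos hC]
      refine Finset.sum_congr rfl fun c _ => ?_
      simp [hC]
    · rw [if_neg hC]
      symm
      refine Finset.sum_eq_zero fun c _ => ?_
      simp [hC]
  rw [Finset.sum_congr rfl fun C' _ => h1 C', Finset.sum_comm]
  refine Finset.sum_congr rfl fun c _ => ?_
  rw [Finset.sum_eq_single (zpowers c)]
  · by_cases hc : c ∈ C
    · rw [if_pos hc, if_pos ⟨rfl, Subgroup.zpowers_le.2 hc⟩]
    · rw [if_neg hc, if_neg (fun h => hc (Subgroup.zpowers_le.1 h.2))]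
  · intro C' _ hne
    rw [if_neg (fun h => hne h.1.symm)]
  · intro h
    exact absurd (Finset.mem_univ _) h

/-- rational numbers -/
def IsRat (z : ℂ) : Prop := ∃ q : ℚ, z = q

theorem IsRat.sum {ι : Type} (s : Finset ι) (f : ι → ℂ) (h : ∀ i ∈ s, IsRat (f i)) :
    IsRat (∑ i ∈ s, f i) := by
  choose! q hq using h
  exact ⟨∑ i ∈ s, q i, by push_cast; exact Finset.sum_congr rfl hq⟩

theorem IsRat.zero : IsRat 0 := ⟨0, by norm_num⟩

theorem IsRat.sub {a b : ℂ} (ha : IsRat a) (hb : IsRat b) : IsRat (a - b) := by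
  obtain ⟨p, rfl⟩ := ha
  obtain ⟨q, rfl⟩ := hb
  exact ⟨p - q, by push_cast; rfl⟩

theorem sumOn_rat (h : G → ℂ) (C : Subgroup G) (hC : ∀ C' ≤ C, IsRat (sumGen h C')) :
    IsRat (sumOn h C) := by
  have : Fintype G := Fintype.ofFinite G
  rw [sumOn_eq, finsum_eq_sum_of_fintype]
  refine IsRat.sum _ _ fun C' _ => ?_
  split_ifs with h1
  · exact hC C' h1
  · exact IsRat.zero

theorem sumGen_rat (h : G → ℂ) : ∀ (n : ℕ) (C : Subgroup G), Nat.card C ≤ n →
    (∀ C' ≤ C, IsRat (sumOn h C')) → IsRat (sumGen h C) := by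
  have : Fintype G := Fintype.ofFinite G
  intro n
  induction n with
  | zero =>
    intro C hn
    exact absurd Nat.card_pos (not_lt.2 hn)
  | succ n ih =>
    intro C hn hC
    have h1 := sumOn_eq h C
    rw [finsum_eq_sum_of_fintype, ← Finset.add_sum_erase _ _ (Finset.mem_univ C),
      if_pos le_rfl] at h1
    have h2 : sumGen h C = sumOn h C - ∑ C' ∈ Finset.univ.erase C,
        if C' ≤ C then sumGen h C' else 0 := by
      rw [h1]
      ring
    rw [h2]
    refine IsRat.sub (hC C le_rfl) (IsRat.sum _ _ fun C' hC' => ?_)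
    split_ifs with h3
    · refine ih C' ?_ fun C'' h4 => hC C'' (h4.trans h3)
      have h4 : C' < C := lt_of_le_of_ne h3 (Finset.mem_erase.1 hC').1
      have h5 : Nat.card C' < Nat.card C := by
        by_contra hge
        push Not at hge
        exact h4.ne (Subgroup.eq_of_le_of_card_ge h3 hge)
      omega
    · exact IsRat.zero

/-- integrality for virtual characters of a commutative subgroup -/
theorem ev_int' (C : Subgroup G) (hab : ∀ a b : C, a * b = b * a) (ψ : C →* ℂˣ) {f : G → ℂ}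
    (hf : (fun c : C => f c) ∈ Vch C) : ∃ k : ℤ, ev C ψ f = k := by
  have : Fintype C := Fintype.ofFinite C
  have : Fintype (⊤ : Subgroup C) := Fintype.ofFinite _
  obtain ⟨k, hk⟩ := ev_int (⊤ : Subgroup C) (fun a b => Subtype.ext (hab a b))
    (ψ.comp (⊤ : Subgroup C).subtype) hf
  refine ⟨k, ?_⟩
  rw [← hk, ev_eq, ev_eq]
  exact (Equiv.sum_comp (Subgroup.topEquiv (G := C)).toEquiv
    (fun c : C => ((ψ c : ℂˣ) : ℂ) * f c)).symm

/-- the sums over subgroups as coefficients -/
theorem sumOn_ev (C C' : Subgroup G) (h : C' ≤ C) (ψ : C →* ℂˣ) (f : G → ℂ) :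
    sumOn (fun c => (if hc : c ∈ C then ((ψ ⟨c, hc⟩ : ℂˣ) : ℂ) else 0) * f c) C' =
      ev C' (ψ.comp (Subgroup.inclusion h)) f := by
  have : Fintype G := Fintype.ofFinite G
  have iF : Fintype C' := Fintype.ofFinite C'
  unfold sumOn
  rw [finsum_eq_sum_of_fintype, ev_eq, ← Finset.sum_filter]
  have h1 := Finset.sum_subtype (p := fun x => x ∈ C') (F := iF)
    (Finset.univ.filter fun a : G => a ∈ C')
    (fun x => by simp) (fun c => (if hc : c ∈ C then ((ψ ⟨c, hc⟩ : ℂˣ) : ℂ) else 0) * f c)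
  rw [h1]
  refine Finset.sum_congr rfl fun c _ => ?_
  rw [dif_pos (h c.2)]
  rfl

/-- **Rationality**, for functions with rational coefficients. -/
theorem rational' (B : Set (G → ℂ)) (hB : ∀ b ∈ B, b ∈ Vch G) {f : G → ℂ}
    (hf : ∀ (C : Subgroup G), IsCyclic C → ∀ ψ : C →* ℂˣ, IsRat (ev C ψ f))
    (hs : f ∈ Submodule.span ℂ B) : ∃ m : ℕ, 0 < m ∧ m • f ∈ AddSubgroup.closure B := by
  obtain ⟨lam, hlam⟩ := exists_lam
  obtain ⟨c, hc⟩ := (Finsupp.mem_span_iff_linearCombination ℂ B f).1 hs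
  have hf1 : f = ∑ b ∈ c.support, c b • (b : G → ℂ) := by
    rw [← hc, Finsupp.linearCombination_apply, Finsupp.sum]
  let f' : G → ℂ := ∑ b ∈ c.support, ((lam (c b) : ℚ) : ℂ) • (b : G → ℂ)
  have hff' : f = f' := by
    rw [← sub_eq_zero]
    apply ev_sep
    intro C hC ψ
    have hab := cyc_comm hC
    obtain ⟨k, hk⟩ := hf C hC ψ
    choose! κ hκ using fun (b : G → ℂ) (hb : b ∈ B) => ev_int C hab ψ (hB b hb)
    have h1 : ev C ψ f = ∑ b ∈ c.support, c b * (κ (b : G → ℂ) : ℂ) := by
      rw [hf1, ev_sum]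
      exact Finset.sum_congr rfl fun b _ => by rw [hκ _ b.2]
    have h2 : ev C ψ f' = ∑ b ∈ c.support, ((lam (c b) : ℚ) : ℂ) * (κ (b : G → ℂ) : ℂ) := by
      rw [ev_sum]
      exact Finset.sum_congr rfl fun b _ => by rw [hκ _ b.2]
    have h3 : ∀ (z : ℂ) (k : ℤ), lam (z * k) = lam z * k := by
      intro z k
      have h4 : z * (k : ℂ) = k • z := by rw [zsmul_eq_mul, mul_comm]
      rw [h4, map_zsmul, zsmul_eq_mul, mul_comm]
    have h4 : lam (ev C ψ f) = ∑ b ∈ c.support, lam (c b) * (κ (b : G → ℂ) : ℚ) := by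
      rw [h1, map_sum]
      exact Finset.sum_congr rfl fun b _ => h3 _ _
    have h5 : lam (ev C ψ f) = k := by
      rw [hk]
      have h6 : ((k : ℚ) : ℂ) = k • (1 : ℂ) := by
        rw [Rat.smul_def, mul_one]
      rw [h6, map_smul, hlam, smul_eq_mul, mul_one]
    have h6 : ev C ψ f = ev C ψ f' := by
      rw [h2, hk]
      have h7 : k = ∑ b ∈ c.support, lam (c b) * (κ (b : G → ℂ) : ℚ) := by
        rw [← h5, h4]
      have h8 := congrArg (fun q : ℚ => (q : ℂ)) h7
      push_cast at h8
      exact h8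
    have : Fintype C := Fintype.ofFinite C
    rw [ev_eq]
    rw [ev_eq, ev_eq] at h6
    rw [← sub_eq_zero, ← Finset.sum_sub_distrib] at h6
    rw [← h6]
    exact Finset.sum_congr rfl fun c _ => by rw [Pi.sub_apply, mul_sub]
  let m : ℕ := ∏ b ∈ c.support, (lam (c b)).den
  have hm : 0 < m := Finset.prod_pos fun b _ => (lam (c b)).pos
  refine ⟨m, hm, ?_⟩
  have hint : ∀ b ∈ c.support, ∃ n : ℤ, (m : ℂ) * ((lam (c b) : ℚ) : ℂ) = n := by
    intro b hb
    obtain ⟨d, hd⟩ : (lam (c b)).den ∣ m := Finset.dvd_prod_of_mem (fun b => (lam (c b)).den) hb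
    refine ⟨d * (lam (c b)).num, ?_⟩
    have h1 : (lam (c b)) * ((lam (c b)).den : ℚ) = (lam (c b)).num := Rat.mul_den_eq_num _
    have h2 : ((lam (c b) : ℚ) : ℂ) * ((lam (c b)).den : ℂ) = ((lam (c b)).num : ℂ) := by
      exact_mod_cast congrArg (fun q : ℚ => (q : ℂ)) h1
    rw [hd]
    push_cast
    rw [← h2]
    ring
  have h1 : m • f = ∑ b ∈ c.support, ((m : ℂ) * ((lam (c b) : ℚ) : ℂ)) • (b : G → ℂ) := by
    rw [hff', ← Nat.cast_smul_eq_nsmul ℂ, Finset.smul_sum]
    exact Finset.sum_congr rfl fun b _ => by rw [smul_smul]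
  rw [h1]
  refine sum_mem fun b hb => ?_
  obtain ⟨n, hn⟩ := hint b hb
  rw [hn, Int.cast_smul_eq_zsmul]
  exact zsmul_mem (AddSubgroup.subset_closure b.2) n

/-- **A class function which on every cyclic subgroup either is a virtual character or vanishes at
the generators, is a rational combination of characters.** -/
theorem mem_vch_of_local {f : G → ℂ} (hcl : Cls f)
    (h : ∀ C : Subgroup G, IsCyclic C → (∀ c, zpowers c = C → f c = 0) ∨
      (fun c : C => f c) ∈ Vch C) : ∃ m : ℕ, 0 < m ∧ m • f ∈ Vch G := by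
  have : Fintype G := Fintype.ofFinite G
  have hJ : JData (fun _ : Subgroup G => (⊥ : Subgroup G)) :=
    { le := fun C => bot_le
      conj := fun C D x _ t ht => by
        rw [Subgroup.mem_bot] at ht ⊢
        rw [ht]
        group }
  have hJi : JInv (fun _ : Subgroup G => (⊥ : Subgroup G)) f := by
    intro u v _ ht
    rw [Subgroup.mem_bot, inv_mul_eq_one] at ht
    rw [ht]
  obtain ⟨m, hm, h1⟩ := rational' (Gd (fun _ : Subgroup G => (⊥ : Subgroup G))) (by
    rintro _ ⟨C, ψ, -, -, rfl⟩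
    exact ind_vch C ψ) (by
    intro C hC ψ
    have h1 := sumOn_ev C C le_rfl ψ f
    have h2 : ψ.comp (Subgroup.inclusion (le_refl C)) = ψ := by
      ext c
      rfl
    rw [h2] at h1
    rw [← h1]
    refine sumOn_rat _ _ fun C' hC' => ?_
    by_cases hcyc : ∃ c, zpowers c = C'
    · obtain ⟨c₀, rfl⟩ := hcyc
      rcases h (zpowers c₀) inferInstance with h3 | h3
      · have h4 : sumGen (fun c => (if hc : c ∈ C then ((ψ ⟨c, hc⟩ : ℂˣ) : ℂ) else 0) * f c)
            (zpowers c₀) = 0 := by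
          unfold sumGen
          rw [finsum_eq_sum_of_fintype]
          refine Finset.sum_eq_zero fun c _ => ?_
          by_cases hc : zpowers c = zpowers c₀
          · rw [if_pos hc]
            change _ * f c = 0
            rw [h3 c hc, mul_zero]
          · rw [if_neg hc]
        rw [h4]
        exact IsRat.zero
      · refine sumGen_rat _ _ _ le_rfl fun C'' hC'' => ?_
        rw [sumOn_ev C C'' (hC''.trans hC')]
        have hcy : IsCyclic (zpowers c₀) := inferInstance
        obtain ⟨k, hk⟩ := ev_int' C'' (fun a b => by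
          have h4 := cyc_comm hcy ⟨a, hC'' a.2⟩ ⟨b, hC'' b.2⟩
          have h5 : (a : G) * b = b * a := congrArg Subtype.val h4
          exact Subtype.ext h5)
          (ψ.comp (Subgroup.inclusion (hC''.trans hC'))) (f := f) (by
            have h4 : ∀ η : zpowers c₀ → ℂ, η ∈ Vch (zpowers c₀) →
                (fun c : C'' => η (Subgroup.inclusion hC'' c)) ∈ Vch C'' := by
              intro η hη
              induction hη using AddSubgroup.closure_induction with
              | mem f hf => exact AddSubgroup.subset_closure (isCh_comp _ hf)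
              | zero => exact zero_mem (Vch C'')
              | add a b _ _ ha hb => exact add_mem (S := AddSubgroup (C'' → ℂ)) ha hb
              | neg a _ ha => exact neg_mem (S := AddSubgroup (C'' → ℂ)) ha
            exact h4 _ h3)
        exact ⟨k, by rw [hk]; push_cast; rfl⟩
    · have h4 : sumGen (fun c => (if hc : c ∈ C then ((ψ ⟨c, hc⟩ : ℂˣ) : ℂ) else 0) * f c)
          C' = 0 := by
        unfold sumGen
        rw [finsum_eq_sum_of_fintype]
        refine Finset.sum_eq_zero fun c _ => ?_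
        rw [if_neg (fun h => hcyc ⟨c, h⟩)]
      rw [h4]
      exact IsRat.zero) (fin_span hJ hcl hJi)
  refine ⟨m, hm, ?_⟩
  have h2 : AddSubgroup.closure (Gd (fun _ : Subgroup G => (⊥ : Subgroup G))) ≤ Vch G := by
    rw [AddSubgroup.closure_le]
    rintro _ ⟨C, ψ, -, -, rfl⟩
    exact ind_vch C ψ
  exact h2 h1

end

end Pool.Agent.Q20.LG
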