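import Pool.Agent.Q20.LG.Prof

/-!
# The local-global principle for profinite groups with a family of decomposition groups
-/

set_option autoImplicit false
set_option linter.unusedSectionVars false

namespace Pool.Agent.Q20.LG

open Pool.Agent.Q246.BI
open Subgroup (zpowers)
open scoped Classical

section
variable {Γ : Type} [Group Γ] [TopologicalSpace Γ] [IsTopologicalGroup Γ]

/-- the condition of the criterion -/
def Cond (𝒯 : Set Γ) (f : Γ → ℂ) : Prop := ∀ u v, Same u v → u⁻¹ * v ∈ 𝒯 → f u = f v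

/-- the functions induced from linear characters of open subgroups, trivial on `𝒯` -/
def Unr (𝒯 : Set Γ) : Set (Γ → ℂ) :=
  {f | ∃ (H : Subgroup Γ) (ψ : H →* ℂˣ), IsOpen (H : Set Γ) ∧
    (∃ U : Subgroup Γ, IsOpen (U : Set Γ) ∧ ∀ h : H, (h : Γ) ∈ U → ψ h = 1) ∧
    (∀ t : H, (t : Γ) ∈ 𝒯 → ψ t = 1) ∧ f = Indu H (fun h => ((ψ h : ℂˣ) : ℂ))}

omit [IsTopologicalGroup Γ] in
theorem cond_of_nsmul {𝒯 : Set Γ} {f : Γ → ℂ} {m : ℕ} (hm : 0 < m) (h : Cond 𝒯 (m • f)) :
    Cond 𝒯 f := by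
  intro u v h1 h2
  have h3 := h u v h1 h2
  rw [Pi.smul_apply, Pi.smul_apply, nsmul_eq_mul, nsmul_eq_mul] at h3
  exact mul_left_cancel₀ (by exact_mod_cast hm.ne') h3

omit [IsTopologicalGroup Γ] in
theorem cond_closure {𝒯 : Set Γ} {A : Set (Γ → ℂ)} (hA : ∀ a ∈ A, Cond 𝒯 a) {f : Γ → ℂ}
    (hf : f ∈ AddSubgroup.closure A) : Cond 𝒯 f := by
  induction hf using AddSubgroup.closure_induction with
  | mem f hf => exact hA f hf
  | zero => exact fun u v _ _ => rfl
  | add a b _ _ ha hb =>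
    exact fun u v h1 h2 => by rw [Pi.add_apply, Pi.add_apply, ha u v h1 h2, hb u v h1 h2]
  | neg a _ ha => exact fun u v h1 h2 => by rw [Pi.neg_apply, Pi.neg_apply, ha u v h1 h2]

theorem unr_cond {𝒯 : Set Γ} (hT : ∀ t ∈ 𝒯, ∀ x : Γ, x⁻¹ * t * x ∈ 𝒯) {f : Γ → ℂ}
    [CompactSpace Γ] [TotallyDisconnectedSpace Γ] (hf : f ∈ Unr 𝒯) : Cond 𝒯 f := by
  obtain ⟨H, ψ, hH, -, hψ, rfl⟩ := hf
  intro u v h1 h2
  refine indu_nec hT H hH _ (fun a b hb => ?_) h1 h2
  rw [map_mul, hψ b hb, mul_one]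

variable [CompactSpace Γ] [TotallyDisconnectedSpace Γ]

/-- **The criterion.** -/
theorem criterion {𝒯 : Set Γ} (hTc : IsClosed 𝒯)
    (hT : ∀ t ∈ 𝒯, ∀ x : Γ, x⁻¹ * t * x ∈ 𝒯) (hpow : ∀ t ∈ 𝒯, ∀ k : ℕ, t ^ k ∈ 𝒯)
    {f : Γ → ℂ} (hf : f ∈ RChar Γ) :
    (∃ m : ℕ, 0 < m ∧ m • f ∈ AddSubgroup.closure (Unr 𝒯)) ↔ Cond 𝒯 f := by
  constructor
  · rintro ⟨m, hm, h⟩
    exact cond_of_nsmul hm (cond_closure (fun a ha => unr_cond hT ha) h)
  · intro h
    obtain ⟨N, hN, m, hm, h1⟩ := profinite_main (𝒮 := ∅) hTc isClosed_empty hT hpow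
      (fun s hs => absurd hs (Set.notMem_empty s)) hf h
      (fun u v _ ⟨s, hs, _⟩ => absurd hs (Set.notMem_empty s))
      (N₀ := ⊤) ⟨inferInstance, isOpen_univ, le_rfl⟩
    refine ⟨m, hm, AddSubgroup.closure_mono ?_ h1⟩
    rintro _ ⟨H, ψ, hNH, -, hψN, hψ, rfl⟩
    refine ⟨H, ψ, Subgroup.isOpen_mono hNH hN.2.1, ⟨N, hN.2.1, hψN⟩, ?_, rfl⟩
    rcases hψ with rfl | ⟨-, h2⟩
    · exact fun t _ => rfl
    · exact h2

omit [CompactSpace Γ] [TotallyDisconnectedSpace Γ] in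
theorem same_mem {u v : Γ} (h : Same u v) : v ∈ closure (zpowers u : Set Γ) := by
  rw [h]
  exact subset_closure (Subgroup.mem_zpowers v)

omit [CompactSpace Γ] [TotallyDisconnectedSpace Γ] in
theorem same_of_mem {u v : Γ} (h1 : v ∈ closure (zpowers u : Set Γ))
    (h2 : u ∈ closure (zpowers v : Set Γ)) : Same u v := by
  have key : ∀ {u v : Γ}, v ∈ closure (zpowers u : Set Γ) →
      closure (zpowers v : Set Γ) ⊆ closure (zpowers u : Set Γ) := by
    intro u v h
    have h1 : zpowers v ≤ (zpowers u).topologicalClosure := Subgroup.zpowers_le.2 h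
    exact closure_minimal h1 isClosed_closure
  exact Set.Subset.antisymm (key h2) (key h1)

omit [CompactSpace Γ] [TotallyDisconnectedSpace Γ] in
theorem mem_closure_sub {Δ : Subgroup Γ} (u v : Δ) :
    v ∈ closure (zpowers u : Set Δ) ↔ (v : Γ) ∈ closure (zpowers (u : Γ) : Set Γ) := by
  rw [closure_subtype]
  have h1 : (Subtype.val '' (zpowers u : Set Δ)) = (zpowers (u : Γ) : Set Γ) := by
    ext x
    constructor
    · rintro ⟨y, hy, rfl⟩
      obtain ⟨k, rfl⟩ := Subgroup.mem_zpowers_iff.1 hy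
      exact Subgroup.mem_zpowers_iff.2 ⟨k, by rw [Subgroup.coe_zpow]⟩
    · intro hx
      obtain ⟨k, rfl⟩ := Subgroup.mem_zpowers_iff.1 hx
      exact ⟨u ^ k, Subgroup.mem_zpowers_iff.2 ⟨k, rfl⟩, Subgroup.coe_zpow _ _ _⟩
  rw [h1]

omit [CompactSpace Γ] [TotallyDisconnectedSpace Γ] in
theorem same_sub {Δ : Subgroup Γ} (u v : Δ) : Same u v ↔ Same (u : Γ) (v : Γ) := by
  constructor
  · intro h
    exact same_of_mem ((mem_closure_sub u v).1 (same_mem h)) ((mem_closure_sub v u).1 (same_mem h.symm))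
  · intro h
    exact same_of_mem ((mem_closure_sub u v).2 (same_mem h)) ((mem_closure_sub v u).2 (same_mem h.symm))

omit [IsTopologicalGroup Γ] [CompactSpace Γ] [TotallyDisconnectedSpace Γ] in
/-- restriction of characters -/
theorem rchar_res (Δ : Subgroup Γ) {f : Γ → ℂ} (hf : f ∈ RChar Γ) :
    (fun g : Δ => f g) ∈ RChar Δ := by
  induction hf using AddSubgroup.closure_induction with
  | mem f hf =>
    obtain ⟨n, τ, U, hU, hUτ, hτ⟩ := hf
    refine AddSubgroup.subset_closure ⟨n, τ.comp Δ.subtype, U.subgroupOf Δ,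
      hU.preimage continuous_subtype_val, fun g hg => hUτ g hg, fun g => hτ g⟩
  | zero => exact zero_mem (RChar Δ)
  | add a b _ _ ha hb => exact add_mem (S := AddSubgroup (Δ → ℂ)) ha hb
  | neg a _ ha => exact neg_mem (S := AddSubgroup (Δ → ℂ)) ha

omit [CompactSpace Γ] [TotallyDisconnectedSpace Γ] in
/-- **The local-global principle for the condition**: `I i ≤ D i`, and an element commuting with a
nontrivial element of `I i` lies in `D i`. -/
theorem cond_local [T2Space Γ] {ι : Type} (D : ι → Subgroup Γ) (I : ι → Set Γ)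
    (hID : ∀ i, ∀ t ∈ I i, t ∈ D i)
    (hmal : ∀ i, ∀ t ∈ I i, t ≠ 1 → ∀ u : Γ, u * t = t * u → u ∈ D i) (f : Γ → ℂ) :
    Cond {g | g = 1 ∨ ∃ i, g ∈ I i} f ↔
      ∀ i, Cond {g : D i | (g : Γ) ∈ I i} (fun g : D i => f g) := by
  constructor
  · intro h i u v huv ht
    exact h u v ((same_sub u v).1 huv) (Or.inr ⟨i, ht⟩)
  · rintro h u v huv (ht | ⟨i, ht⟩)
    · rw [inv_mul_eq_one] at ht
      rw [ht]
    · by_cases ht1 : u⁻¹ * v = 1
      · rw [inv_mul_eq_one] at ht1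
        rw [ht1]
      · have hmem : u⁻¹ * v ∈ closure (zpowers u : Set Γ) := by
          have h1 : u⁻¹ * v ∈ (zpowers u).topologicalClosure :=
            Subgroup.mul_mem _ (Subgroup.inv_mem _ (subset_closure (Subgroup.mem_zpowers u)))
              (same_mem huv)
          exact h1
        have hcomm : u * (u⁻¹ * v) = u⁻¹ * v * u := by
          have h1 : closure (zpowers u : Set Γ) ⊆ {y | u * y = y * u} := by
            refine closure_minimal ?_ (isClosed_eq (continuous_const_mul u)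
              (continuous_mul_const u))
            intro y hy
            obtain ⟨k, rfl⟩ := Subgroup.mem_zpowers_iff.1 hy
            exact ((Commute.refl u).zpow_right k).eq
          exact h1 hmem
        have hu : u ∈ D i := hmal i _ ht ht1 u hcomm
        have hv : v ∈ D i := by
          have h1 := (D i).mul_mem hu (hID i _ ht)
          rwa [mul_inv_cancel_left] at h1
        exact h i ⟨u, hu⟩ ⟨v, hv⟩ ((same_sub (Δ := D i) ⟨u, hu⟩ ⟨v, hv⟩).2 huv) ht

end

end Pool.Agent.Q20.LG
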