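import Mathlib

/-!
# From one element of the family to the subgroup generated by the family, cyclic groups
-/

set_option autoImplicit false
set_option linter.unusedSectionVars false

namespace Pool.Agent.Q20.LG

open Subgroup (zpowers)
open scoped Classical

section
variable {G : Type} [Group G] [Finite G]

/-- in a cyclic group the order decides membership in cyclic subgroups -/
theorem mem_of_order {u x t : G} (hx : x ∈ zpowers u) (ht : t ∈ zpowers u)
    (h : orderOf x ∣ orderOf t) : x ∈ zpowers t := by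
  have : Fintype G := Fintype.ofFinite G
  have : Fintype (zpowers u) := Fintype.ofFinite _
  let x' : zpowers u := ⟨x, hx⟩
  let t' : zpowers u := ⟨t, ht⟩
  have hot : orderOf t' = orderOf t := Subgroup.orderOf_mk t ht
  have hox : orderOf x' = orderOf x := Subgroup.orderOf_mk x hx
  have h1 := IsCyclic.card_pow_eq_one_le (α := zpowers u) (orderOf_pos t')
  have h2 : (Finset.univ.filter fun a : zpowers u => a ∈ zpowers t') ⊆
      Finset.univ.filter fun a : zpowers u => a ^ orderOf t' = 1 := by
    intro a ha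
    obtain ⟨i, rfl⟩ := Subgroup.mem_zpowers_iff.1 (Finset.mem_filter.1 ha).2
    refine Finset.mem_filter.2 ⟨Finset.mem_univ _, ?_⟩
    rw [← zpow_natCast, ← zpow_mul, mul_comm, zpow_mul, zpow_natCast, pow_orderOf_eq_one, one_zpow]
  have h3 : (Finset.univ.filter fun a : zpowers u => a ∈ zpowers t').card = orderOf t' := by
    rw [← Nat.card_zpowers, ← Fintype.card_subtype, ← Nat.card_eq_fintype_card]
  have h4 := Finset.eq_of_subset_of_card_le h2 (by rw [h3]; exact h1)
  have h5 : x' ∈ Finset.univ.filter fun a : zpowers u => a ^ orderOf t' = 1 := by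
    refine Finset.mem_filter.2 ⟨Finset.mem_univ _, ?_⟩
    rw [← orderOf_dvd_iff_pow_eq_one, hot, hox]
    exact h
  rw [← h4] at h5
  obtain ⟨i, hi⟩ := Subgroup.mem_zpowers_iff.1 (Finset.mem_filter.1 h5).2
  refine Subgroup.mem_zpowers_iff.2 ⟨i, ?_⟩
  have h6 := congrArg Subtype.val hi
  exact h6

/-- elements of prime power order of the subgroup generated by a family -/
theorem mem_prim (T : Set G) (hpow : ∀ t ∈ T, ∀ k : ℕ, t ^ k ∈ T) {u x : G} {l k : ℕ}
    (hl : l.Prime) (hxk : x ^ l ^ k = 1) (hx1 : x ≠ 1)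
    (hx : x ∈ Subgroup.closure ({y | y ∈ zpowers u} ∩ T)) : x ∈ T := by
  have hle : Subgroup.closure ({y | y ∈ zpowers u} ∩ T) ≤ zpowers u := by
    rw [Subgroup.closure_le]
    exact fun y hy => hy.1
  obtain ⟨j, hjk, hj⟩ := (Nat.dvd_prime_pow hl).1 (orderOf_dvd_of_pow_eq_one hxk)
  have hj0 : j ≠ 0 := by
    rintro rfl
    rw [pow_zero, orderOf_eq_one_iff] at hj
    exact hx1 hj
  by_cases hex : ∃ t ∈ T, t ∈ zpowers u ∧ l ^ j ∣ orderOf t
  · obtain ⟨t, htT, htu, hdvd⟩ := hex
    have h1 := mem_of_order (hle hx) htu (hj ▸ hdvd)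
    have h2 := (isOfFinOrder_of_finite t).mem_powers_iff_mem_zpowers.2 h1
    obtain ⟨n, rfl⟩ := (Submonoid.mem_powers_iff _ _).1 h2
    exact hpow t htT n
  · exfalso
    push Not at hex
    obtain ⟨a, n', hln', hN⟩ := Nat.exists_eq_pow_mul_and_not_dvd
      (orderOf_pos u).ne' l hl.one_lt.ne'
    have key : ∀ t ∈ T, t ∈ zpowers u → t ^ (l ^ (j - 1) * n') = 1 := by
      intro t htT htu
      rw [← orderOf_dvd_iff_pow_eq_one]
      obtain ⟨b, c, hlc, hbc⟩ := Nat.exists_eq_pow_mul_and_not_dvd
        (orderOf_pos t).ne' l hl.one_lt.ne'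
      have hbj : b < j := by
        by_contra hge
        push Not at hge
        apply hex t htT htu
        rw [hbc]
        exact Dvd.dvd.mul_right (pow_dvd_pow l hge) c
      have hdvd : orderOf t ∣ orderOf u := by
        have h1 := Subgroup.orderOf_dvd_natCard (zpowers u) htu
        rwa [Nat.card_zpowers] at h1
      have hcn : c ∣ n' := by
        have h1 : c ∣ l ^ a * n' := by
          rw [← hN]
          exact (Dvd.intro_left _ hbc.symm).trans hdvd
        have h2 : Nat.Coprime c (l ^ a) := by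
          apply Nat.Coprime.pow_right
          exact ((Nat.Prime.coprime_iff_not_dvd hl).2 hlc).symm
        exact h2.dvd_of_dvd_mul_left h1
      rw [hbc]
      exact mul_dvd_mul (pow_dvd_pow l (by omega)) hcn
    have h1 : ∀ e : ℕ, (∀ t ∈ T, t ∈ zpowers u → t ^ e = 1) →
        ∀ y ∈ Subgroup.closure ({y | y ∈ zpowers u} ∩ T), y ∈ zpowers u ∧ y ^ e = 1 := by
      intro e he y hy
      induction hy using Subgroup.closure_induction with
      | mem y hy => exact ⟨hy.1, he y hy.2 hy.1⟩
      | one => exact ⟨Subgroup.one_mem _, one_pow _⟩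
      | mul y z _ _ hy hz =>
        refine ⟨Subgroup.mul_mem _ hy.1 hz.1, ?_⟩
        obtain ⟨i, hi⟩ := Subgroup.mem_zpowers_iff.1 hy.1
        obtain ⟨i', hi'⟩ := Subgroup.mem_zpowers_iff.1 hz.1
        have hc : Commute y z := by
          rw [← hi, ← hi']
          exact (Commute.refl u).zpow_zpow i i'
        rw [hc.mul_pow, hy.2, hz.2, one_mul]
      | inv y _ hy => exact ⟨Subgroup.inv_mem _ hy.1, by rw [inv_pow, hy.2, inv_one]⟩
    have h2 : l ^ j ∣ l ^ (j - 1) * n' := by
      rw [← hj]
      exact orderOf_dvd_of_pow_eq_one (h1 _ key x hx).2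
    apply hln'
    have h3 : l ^ (j - 1) * l ∣ l ^ (j - 1) * n' := by
      rw [← pow_succ]
      have : j - 1 + 1 = j := by omega
      rwa [this]
    exact Nat.dvd_of_mul_dvd_mul_left (pow_pos hl.pos _) h3

theorem chain (T : Set G) (hpow : ∀ t ∈ T, ∀ k : ℕ, t ^ k ∈ T) (f : G → ℂ)
    (hf : ∀ u t, t ∈ T → zpowers u = zpowers (u * t) → f u = f (u * t)) :
    ∀ (n : ℕ) (u t : G), orderOf t ≤ n → zpowers u = zpowers (u * t) →
      t ∈ Subgroup.closure ({y | y ∈ zpowers u} ∩ T) → f u = f (u * t) := by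
  intro n
  induction n with
  | zero =>
    intro u t h
    exact absurd h (not_le.2 (orderOf_pos t))
  | succ n ih =>
    intro u t hn hut ht
    by_cases ht1 : t = 1
    · rw [ht1, mul_one]
    have hle : Subgroup.closure ({y | y ∈ zpowers u} ∩ T) ≤ zpowers u := by
      rw [Subgroup.closure_le]
      exact fun y hy => hy.1
    have ho1 : orderOf t ≠ 1 := fun h => ht1 (orderOf_eq_one_iff.1 h)
    set l := (orderOf t).minFac with hl'
    have hl : l.Prime := Nat.minFac_prime ho1
    obtain ⟨k, m', hlm', hk⟩ := Nat.exists_eq_pow_mul_and_not_dvd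
      (orderOf_pos t).ne' l hl.one_lt.ne'
    have hk0 : k ≠ 0 := by
      rintro rfl
      rw [pow_zero, one_mul] at hk
      apply hlm'
      rw [← hk]
      exact Nat.minFac_dvd _
    have hcop : Nat.Coprime (l ^ k) m' :=
      Nat.Coprime.pow_left k ((Nat.Prime.coprime_iff_not_dvd hl).2 hlm')
    obtain ⟨x, y, hxy⟩ := Nat.isCoprime_iff_coprime.2 hcop
    let t₁ : G := t ^ (y * (m' : ℤ))
    let t₂ : G := t ^ (x * ((l ^ k : ℕ) : ℤ))
    have h12 : t₁ * t₂ = t := by
      change t ^ (y * (m' : ℤ)) * t ^ (x * ((l ^ k : ℕ) : ℤ)) = t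
      rw [← zpow_add, add_comm, hxy, zpow_one]
    have hto : t ^ ((l ^ k * m' : ℕ) : ℤ) = 1 := by
      rw [zpow_natCast, ← hk, pow_orderOf_eq_one]
    have h1 : t₁ ^ l ^ k = 1 := by
      change (t ^ (y * (m' : ℤ))) ^ l ^ k = 1
      rw [← zpow_natCast, ← zpow_mul]
      have h2 : y * (m' : ℤ) * ((l ^ k : ℕ) : ℤ) = ((l ^ k * m' : ℕ) : ℤ) * y := by
        push_cast
        ring
      rw [h2, zpow_mul, hto, one_zpow]
    have h2 : t₂ ^ m' = 1 := by
      change (t ^ (x * ((l ^ k : ℕ) : ℤ))) ^ m' = 1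
      rw [← zpow_natCast, ← zpow_mul]
      have h2 : x * ((l ^ k : ℕ) : ℤ) * (m' : ℤ) = ((l ^ k * m' : ℕ) : ℤ) * x := by
        push_cast
        ring
      rw [h2, zpow_mul, hto, one_zpow]
    have hm'0 : 0 < m' := by
      rcases Nat.eq_zero_or_pos m' with h | h
      · exact absurd (h ▸ dvd_zero l) hlm'
      · exact h
    have ht₁J : t₁ ∈ Subgroup.closure ({y | y ∈ zpowers u} ∩ T) := Subgroup.zpow_mem _ ht _
    have ht₂J : t₂ ∈ Subgroup.closure ({y | y ∈ zpowers u} ∩ T) := Subgroup.zpow_mem _ ht _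
    have hcomm : ∀ z ∈ zpowers u, Commute u z := by
      intro z hz
      obtain ⟨i, rfl⟩ := Subgroup.mem_zpowers_iff.1 hz
      exact (Commute.refl u).zpow_right i
    have hord : orderOf (u * t) = orderOf u := by
      rw [← Nat.card_zpowers, ← hut, Nat.card_zpowers]
    have hdv : ∀ z ∈ zpowers u, orderOf z ∣ orderOf u := by
      intro z hz
      have h1 := Subgroup.orderOf_dvd_natCard (zpowers u) hz
      rwa [Nat.card_zpowers] at h1
    have hu1 : orderOf (u * t₁) = orderOf u := by
      refine orderOf_eq_of_pow_and_pow_div_prime (orderOf_pos u) ?_ ?_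
      · rw [(hcomm t₁ (hle ht₁J)).mul_pow, pow_orderOf_eq_one, one_mul,
          ← orderOf_dvd_iff_pow_eq_one]
        exact hdv _ (hle ht₁J)
      · intro r hr hru
        have hquot : orderOf u / r < orderOf u := Nat.div_lt_self (orderOf_pos u) hr.one_lt
        have hquot0 : orderOf u / r ≠ 0 :=
          (Nat.div_pos (Nat.le_of_dvd (orderOf_pos u) hru) hr.pos).ne'
        have hcdiv : ∀ d : ℕ, d ∣ orderOf u → Nat.Coprime d r → d ∣ orderOf u / r := by
          intro d hd hdr
          have h3 : d ∣ r * (orderOf u / r) := by rwa [Nat.mul_div_cancel' hru]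
          exact hdr.dvd_of_dvd_mul_left h3
        by_cases hrl : r = l
        · have h3 : t₂ ^ (orderOf u / r) = 1 := by
            rw [← orderOf_dvd_iff_pow_eq_one]
            apply hcdiv _ (hdv _ (hle ht₂J))
            have h4 : orderOf t₂ ∣ m' := orderOf_dvd_of_pow_eq_one h2
            rw [hrl]
            exact Nat.Coprime.coprime_dvd_left h4 ((Nat.Prime.coprime_iff_not_dvd hl).2 hlm').symm
          have h4 : (u * t) ^ (orderOf u / r) ≠ 1 := by
            apply pow_ne_one_of_lt_orderOf hquot0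
            rw [hord]
            exact hquot
          intro h5
          apply h4
          rw [← h12, ← mul_assoc]
          have h6 : Commute (u * t₁) t₂ := by
            obtain ⟨i, hi⟩ := Subgroup.mem_zpowers_iff.1
              (Subgroup.mul_mem _ (Subgroup.mem_zpowers u) (hle ht₁J))
            obtain ⟨i', hi'⟩ := Subgroup.mem_zpowers_iff.1 (hle ht₂J)
            rw [← hi, ← hi']
            exact (Commute.refl u).zpow_zpow i i'
          rw [h6.mul_pow, h5, h3, mul_one]
        · have h3 : t₁ ^ (orderOf u / r) = 1 := by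
            rw [← orderOf_dvd_iff_pow_eq_one]
            apply hcdiv _ (hdv _ (hle ht₁J))
            have h4 : orderOf t₁ ∣ l ^ k := orderOf_dvd_of_pow_eq_one h1
            refine Nat.Coprime.coprime_dvd_left h4 ?_
            exact Nat.Coprime.pow_left k ((Nat.coprime_primes hl hr).2 (Ne.symm hrl))
          rw [(hcomm t₁ (hle ht₁J)).mul_pow, h3, mul_one]
          exact pow_ne_one_of_lt_orderOf hquot0 hquot
    have hz1 : zpowers (u * t₁) = zpowers u := by
      refine Subgroup.eq_of_le_of_card_ge (Subgroup.zpowers_le.2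
        (Subgroup.mul_mem _ (Subgroup.mem_zpowers u) (hle ht₁J))) ?_
      rw [Nat.card_zpowers, Nat.card_zpowers, hu1]
    have e1 : f u = f (u * t₁) := by
      by_cases ht₁1 : t₁ = 1
      · rw [ht₁1, mul_one]
      · exact hf u t₁ (mem_prim T hpow hl h1 ht₁1 ht₁J) hz1.symm
    have e2 : f (u * t₁) = f (u * t₁ * t₂) := by
      apply ih
      · have h3 : orderOf t₂ ≤ m' := Nat.le_of_dvd hm'0 (orderOf_dvd_of_pow_eq_one h2)
        have h4 : m' < orderOf t := by
          rw [hk]
          have h5 : 1 < l ^ k := Nat.one_lt_pow hk0 hl.one_lt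
          exact lt_mul_of_one_lt_left hm'0 h5
        omega
      · rw [hz1, mul_assoc, h12, hut]
      · rw [hz1]
        exact ht₂J
    rw [e1, e2, mul_assoc, h12]

end

end Pool.Agent.Q20.LG
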