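import Pool.Agent.Q20.LG.IndC

/-!
# Local constants: induction
-/

set_option autoImplicit false
set_option linter.unusedSectionVars false

namespace Pool.Agent.Q20.LG

open NumberField IsDedekindDomain Pool.Agent.Q246.RP Pool.Agent.Q273.SP
open Pool.Agent.Q246.BI (Smooth IsCharacter induced NN)
open Subgroup (zpowers)
open scoped Classical

section
variable {Γ : Type} [Group Γ] [TopologicalSpace Γ] [IsTopologicalGroup Γ] [CompactSpace Γ]

theorem indu_add (H : Subgroup Γ) (hH : IsOpen (H : Set Γ)) (a b : H → ℂ) :
    Indu H (a + b) = Indu H a + Indu H b := by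
  have hfin : Finite (Γ ⧸ H) := Subgroup.quotient_finite_of_isOpen H hH
  have : Fintype (Γ ⧸ H) := Fintype.ofFinite _
  funext g
  rw [Pi.add_apply]
  unfold Indu
  rw [finsum_eq_sum_of_fintype, finsum_eq_sum_of_fintype, finsum_eq_sum_of_fintype,
    ← Finset.sum_add_distrib]
  refine Finset.sum_congr rfl fun x _ => ?_
  split_ifs
  · rfl
  · rw [add_zero]

theorem indu_zero (H : Subgroup Γ) : Indu H (0 : H → ℂ) = 0 := by
  funext g
  unfold Indu
  rw [Pi.zero_apply]
  refine finsum_eq_zero_of_forall_eq_zero fun x => ?_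
  split_ifs <;> rfl

end

section
variable {K : Type} [Field K] [NumberField K]

/-- `Gal(K̄/F')` inside `Gal(K̄/F)` -/
noncomputable abbrev HH (F F' : IntermediateField K (AlgebraicClosure K)) : Subgroup F.fixingSubgroup :=
  F'.fixingSubgroup.subgroupOf F.fixingSubgroup

/-- the inclusion -/
noncomputable def toG (F F' : IntermediateField K (AlgebraicClosure K)) : HH F F' →* F'.fixingSubgroup where
  toFun := fun h => ⟨((h : F.fixingSubgroup) : Gal(AlgebraicClosure K/K)), h.2⟩
  map_one' := rfl
  map_mul' := fun _ _ => rfl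

theorem continuous_toG (F F' : IntermediateField K (AlgebraicClosure K)) :
    Continuous (toG F F') :=
  Continuous.subtype_mk (continuous_subtype_val.comp continuous_subtype_val) _

theorem induced_indu (F F' : IntermediateField K (AlgebraicClosure K))
    (f : F'.fixingSubgroup → ℂ) : induced F F' f = Indu (HH F F') (fun h => f (toG F F' h)) := rfl

theorem isCharacter_ind (F F' : IntermediateField K (AlgebraicClosure K)) [FiniteDimensional K F]
    (hF' : FiniteDimensional K F') {χ : F'.fixingSubgroup → ℂ} (h : IsCharacter F' χ) :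
    IsCharacter F (induced F F' χ) := by
  rw [isChar_iff, induced_indu]
  exact isChar_induG _ (isOpen_sub F F') (isChar_comp (toG F F') (continuous_toG F F')
    ((isChar_iff F' χ).1 h))

/-- induction of virtual characters -/
noncomputable def indF (F F' : IntermediateField K (AlgebraicClosure K))
    (hF' : FiniteDimensional K F') : RChar F'.fixingSubgroup →+ RChar F.fixingSubgroup where
  toFun := fun f => ⟨induced F F' f, indu_rchar _ (isOpen_sub F F')
    (rchar_comp (toG F F') (continuous_toG F F') f.2)⟩
  map_zero' := Subtype.ext (indu_zero (HH F F'))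
  map_add' := fun a b => Subtype.ext (indu_add (HH F F') (isOpen_sub F F')
    (fun h => (a : F'.fixingSubgroup → ℂ) (toG F F' h))
    (fun h => (b : F'.fixingSubgroup → ℂ) (toG F F' h)))

/-- the subgroup of the decomposition group of `w` in `Gal(K̄/F)` of the elements of
`Gal(K̄/F')` -/
noncomputable abbrev DD (F F' : IntermediateField K (AlgebraicClosure K)) (w : AlgebraicClosure K → ℝ) :
    Subgroup (decF F w) := (HH F F').subgroupOf (decF F w)

/-- its inclusion in the decomposition group in `Gal(K̄/F')` -/
noncomputable def toD (F F' : IntermediateField K (AlgebraicClosure K)) (w : AlgebraicClosure K → ℝ) :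
    DD F F' w →* decF F' w where
  toFun := fun h => ⟨⟨((((h : decF F w) : F.fixingSubgroup)) : Gal(AlgebraicClosure K/K)), h.2⟩,
    (h : decF F w).2⟩
  map_one' := rfl
  map_mul' := fun _ _ => rfl

theorem continuous_toD (F F' : IntermediateField K (AlgebraicClosure K))
    (w : AlgebraicClosure K → ℝ) : Continuous (toD F F' w) :=
  Continuous.subtype_mk (Continuous.subtype_mk (continuous_subtype_val.comp
    (continuous_subtype_val.comp continuous_subtype_val)) _) _

/-- induction from the decomposition group of `w` in `Gal(K̄/F')` to the decomposition group in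
`Gal(K̄/F)`, `F ⊆ F'` -/
noncomputable def inducedDec (F F' : IntermediateField K (AlgebraicClosure K))
    (w : AlgebraicClosure K → ℝ) (φ : decF F' w → ℂ) : decF F w → ℂ :=
  Indu (DD F F' w) (fun h => φ (toD F F' w h))

theorem isOpen_dd (F F' : IntermediateField K (AlgebraicClosure K)) (w : AlgebraicClosure K → ℝ)
    (hF' : FiniteDimensional K F') : IsOpen (DD F F' w : Set (decF F w)) :=
  (isOpen_sub F F').preimage continuous_subtype_val

/-- induction of virtual characters of decomposition groups -/
noncomputable def indD (F F' : IntermediateField K (AlgebraicClosure K))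
    (hF' : FiniteDimensional K F') (w : AlgebraicClosure K → ℝ) :
    RChar (decF F' w) →+ RChar (decF F w) where
  toFun := fun φ => ⟨inducedDec F F' w φ, indu_rchar _ (isOpen_dd F F' w hF')
    (rchar_comp (toD F F' w) (continuous_toD F F' w) φ.2)⟩
  map_zero' := Subtype.ext (indu_zero (DD F F' w))
  map_add' := fun a b => Subtype.ext (indu_add (DD F F' w) (isOpen_dd F F' w hF')
    (fun h => (a : decF F' w → ℂ) (toD F F' w h)) (fun h => (b : decF F' w → ℂ) (toD F F' w h)))

/-- conjugation of functions on decomposition groups -/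
noncomputable def conjD (F : IntermediateField K (AlgebraicClosure K)) (w : AlgebraicClosure K → ℝ)
    (x : F.fixingSubgroup) :
    decF F (fun y => w ((x : Gal(AlgebraicClosure K/K)) y)) →* decF F w where
  toFun := fun g => ⟨x * g * x⁻¹, fun y => by
    have h1 := g.2 ((x : Gal(AlgebraicClosure K/K))⁻¹ y)
    change w ((x : Gal(AlgebraicClosure K/K)) (((g : F.fixingSubgroup) : Gal(AlgebraicClosure K/K))
      ((x : Gal(AlgebraicClosure K/K))⁻¹ y))) = w ((x : Gal(AlgebraicClosure K/K))
        ((x : Gal(AlgebraicClosure K/K))⁻¹ y)) at h1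
    have h2 : (x : Gal(AlgebraicClosure K/K)) ((x : Gal(AlgebraicClosure K/K))⁻¹ y) = y :=
      AlgEquiv.apply_symm_apply _ y
    rw [h2] at h1
    exact h1⟩
  map_one' := Subtype.ext (by
    change x * 1 * x⁻¹ = 1
    rw [mul_one, mul_inv_cancel])
  map_mul' := fun a b => Subtype.ext (by
    change x * ((a : F.fixingSubgroup) * b) * x⁻¹ =
      x * (a : F.fixingSubgroup) * x⁻¹ * (x * (b : F.fixingSubgroup) * x⁻¹)
    group)

theorem continuous_conjD (F : IntermediateField K (AlgebraicClosure K))
    (w : AlgebraicClosure K → ℝ) (x : F.fixingSubgroup) : Continuous (conjD F w x) :=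
  Continuous.subtype_mk ((continuous_mul_const x⁻¹).comp ((continuous_const_mul x).comp
    continuous_subtype_val)) _

/-- conjugation of virtual characters of decomposition groups -/
noncomputable def conjR (F : IntermediateField K (AlgebraicClosure K)) (w : AlgebraicClosure K → ℝ)
    (x : F.fixingSubgroup) : RChar (decF F w) →+
      RChar (decF F (fun y => w ((x : Gal(AlgebraicClosure K/K)) y))) where
  toFun := fun φ => ⟨fun g => (φ : decF F w → ℂ) (conjD F w x g),
    rchar_comp (conjD F w x) (continuous_conjD F w x) φ.2⟩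
  map_zero' := rfl
  map_add' := fun _ _ => rfl

/-- **Mackey's formula, modulo the local condition.** -/
theorem mackey_field (F F' : IntermediateField K (AlgebraicClosure K)) (hle : F ≤ F')
    (hF' : FiniteDimensional K F') {w : AlgebraicClosure K → ℝ}
    {f : F'.fixingSubgroup → ℂ} (hf : f ∈ RChar F'.fixingSubgroup)
    (φ : decF F' w → ℂ) (m : ℕ) (hA : Cond (ineF F' w) (fun g : decF F' w => f g - m • φ g))
    (hB : ∀ x : F.fixingSubgroup, (∀ y : F'.fixingSubgroup,
      (fun z => w ((x : Gal(AlgebraicClosure K/K)) z)) ≠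
        fun z => w ((y : Gal(AlgebraicClosure K/K)) z)) →
      Cond (ineF F' fun z => w ((x : Gal(AlgebraicClosure K/K)) z))
        (fun g : decF F' (fun z => w ((x : Gal(AlgebraicClosure K/K)) z)) => f g)) :
    Cond (ineF F w) (fun g : decF F w => induced F F' f g - m • inducedDec F F' w φ g) := by
  intro u v huv ht
  rw [induced_indu]
  refine mackey_cond (HH F F') (isOpen_sub F F') (decF F w)
    (I := {g | Ine w (g : Gal(AlgebraicClosure K/K))}) (fun t ht x hx => ?_)
    (fun a b => ?_) (fun h => φ (toD F F' w h)) m (fun a b ha hb haD hbD hab hI => ?_)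
    (fun x hx a b haD hbD hab hI ha hb => ?_) ((same_sub u v).1 huv) ht
  · have h1 := Ine.conj ht (x : Gal(AlgebraicClosure K/K))
    have h2 : (fun y => w ((x : Gal(AlgebraicClosure K/K)) y)) = w := funext fun y => hx y
    rw [h2] at h1
    exact h1
  · have h1 := rchar_conj hf (toG F F' b)⁻¹ (toG F F' a)
    rw [inv_inv, ← map_inv, ← map_mul, ← map_mul] at h1
    exact h1
  · have h1 : Same (⟨⟨(a : Gal(AlgebraicClosure K/K)), ha⟩, haD⟩ : decF F' w)
        ⟨⟨(b : Gal(AlgebraicClosure K/K)), hb⟩, hbD⟩ := by
      rw [same_sub, same_sub]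
      exact (same_sub a b).1 hab
    exact hA _ _ h1 hI
  · have hne : ∀ y : F'.fixingSubgroup, (fun z => w ((x : Gal(AlgebraicClosure K/K)) z)) ≠
        fun z => w ((y : Gal(AlgebraicClosure K/K)) z) := by
      intro y hy
      let y' : F.fixingSubgroup :=
        ⟨(y : Gal(AlgebraicClosure K/K)), IntermediateField.fixingSubgroup_antitone hle y.2⟩
      have h1 : x * y'⁻¹ ∈ decF F w := by
        intro z
        have h2 := congrFun hy ((y : Gal(AlgebraicClosure K/K))⁻¹ z)
        have h3 : (y : Gal(AlgebraicClosure K/K)) ((y : Gal(AlgebraicClosure K/K))⁻¹ z) = z :=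
          AlgEquiv.apply_symm_apply _ z
        change w ((x : Gal(AlgebraicClosure K/K)) ((y : Gal(AlgebraicClosure K/K))⁻¹ z)) =
          w ((y : Gal(AlgebraicClosure K/K)) ((y : Gal(AlgebraicClosure K/K))⁻¹ z)) at h2
        rw [h3] at h2
        exact h2
      apply hx _ h1
      have h4 : (x * y'⁻¹)⁻¹ * x = y' := by group
      rw [h4]
      exact y.2
    have hdec : ∀ a : F.fixingSubgroup, a ∈ decF F w → ∀ ha : x⁻¹ * a * x ∈ HH F F',
        (toG F F' ⟨_, ha⟩) ∈ decF F' (fun z => w ((x : Gal(AlgebraicClosure K/K)) z)) := by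
      intro a haD ha z
      change w ((x : Gal(AlgebraicClosure K/K)) ((x : Gal(AlgebraicClosure K/K))⁻¹
        ((a : Gal(AlgebraicClosure K/K)) ((x : Gal(AlgebraicClosure K/K)) z)))) = _
      have h3 : ∀ z, (x : Gal(AlgebraicClosure K/K)) ((x : Gal(AlgebraicClosure K/K))⁻¹ z) = z :=
        fun z => AlgEquiv.apply_symm_apply _ z
      rw [h3]
      exact haD _
    have h1 : Same (⟨toG F F' ⟨_, ha⟩, hdec a haD ha⟩ :
        decF F' (fun z => w ((x : Gal(AlgebraicClosure K/K)) z)))
        ⟨toG F F' ⟨_, hb⟩, hdec b hbD hb⟩ := by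
      rw [same_sub, same_sub]
      exact (same_sub (x⁻¹ * a * x) (x⁻¹ * b * x)).1 (same_conj' x hab)
    refine hB x hne _ _ h1 ?_
    have h2 := Ine.conj hI (x : Gal(AlgebraicClosure K/K))
    have h3 : (x : Gal(AlgebraicClosure K/K))⁻¹ * ((a⁻¹ * b : F.fixingSubgroup) :
        Gal(AlgebraicClosure K/K)) * x = ((x⁻¹ * a * x : F.fixingSubgroup) :
          Gal(AlgebraicClosure K/K))⁻¹ * ((x⁻¹ * b * x : F.fixingSubgroup) :
            Gal(AlgebraicClosure K/K)) := by
      push_cast
      group
    rw [h3] at h2
    exact h2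

end

end Pool.Agent.Q20.LG
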