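import Pool.Agent.Q20.LG.Const2

/-!
# Local constants depend only on the local character
-/

set_option autoImplicit false
set_option linter.unusedSectionVars false

namespace Pool.Agent.Q20.LG

open NumberField IsDedekindDomain Pool.Agent.Q246.RP Pool.Agent.Q273.SP
open Pool.Agent.Q246.BI (Smooth IsCharacter induced NN)
open Subgroup (zpowers)
open scoped Classical

section
variable {Γ : Type} [Group Γ] [TopologicalSpace Γ]

theorem indu_top (H : Subgroup Γ) (hH : ∀ g, g ∈ H) {φ : Γ → ℂ} (hφ : ∀ x g, φ (x⁻¹ * g * x) = φ g) :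
    Indu H (fun h => φ h) = φ := by
  funext g
  have htop : H = ⊤ := (Subgroup.eq_top_iff' H).2 hH
  subst htop
  unfold Indu
  have hsub : Subsingleton (Γ ⧸ (⊤ : Subgroup Γ)) := QuotientGroup.subsingleton_quotient_top
  have : Unique (Γ ⧸ (⊤ : Subgroup Γ)) :=
    { default := QuotientGroup.mk 1
      uniq := fun a => Subsingleton.elim _ _ }
  rw [finsum_unique, dif_pos (Subgroup.mem_top _)]
  exact hφ _ _

end

section
variable {K : Type} [Field K] [NumberField K]

/-- the inclusion of decomposition groups for `F ⊆ F'` -/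
noncomputable def inclD (F F' : IntermediateField K (AlgebraicClosure K)) (hle : F ≤ F')
    (w : AlgebraicClosure K → ℝ) : decF F' w →* decF F w where
  toFun := fun g => ⟨⟨((g : F'.fixingSubgroup) : Gal(AlgebraicClosure K/K)),
    IntermediateField.fixingSubgroup_antitone hle (g : F'.fixingSubgroup).2⟩, g.2⟩
  map_one' := rfl
  map_mul' := fun _ _ => rfl

theorem continuous_inclD (F F' : IntermediateField K (AlgebraicClosure K)) (hle : F ≤ F')
    (w : AlgebraicClosure K → ℝ) : Continuous (inclD F F' hle w) :=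
  Continuous.subtype_mk (Continuous.subtype_mk
    (continuous_subtype_val.comp continuous_subtype_val) _) _

variable {B : Type} [AddCommGroup B]

theorem LocalConstants.nested {T : Set ℕ}
    {D : ∀ F : IntermediateField K (AlgebraicClosure K), (F.fixingSubgroup → ℂ) → B}
    {δ : ∀ (F : IntermediateField K (AlgebraicClosure K)) (w : AlgebraicClosure K → ℝ),
      RChar (decF F w) →+ B} (h : LocalConstants T D δ)
    {F F' : IntermediateField K (AlgebraicClosure K)} (hle : F ≤ F')
    (hF' : FiniteDimensional K F') {p : ℕ} (hp : p.Prime) {w : AlgebraicClosure K → ℝ}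
    (hw : IsPl p w) (hg : ∀ g : Gal(AlgebraicClosure K/K), Dec w g → g ∈ F.fixingSubgroup →
      g ∈ F'.fixingSubgroup) (φ : RChar (decF F w)) (φ' : RChar (decF F' w))
    (hφ : ∀ g : decF F' w, (φ' : decF F' w → ℂ) g = (φ : decF F w → ℂ) (inclD F F' hle w g)) :
    δ F w φ = δ F' w φ' := by
  rw [← h.ind F F' hle hF' p hp w hw φ']
  congr 1
  apply Subtype.ext
  change (φ : decF F w → ℂ) = inducedDec F F' w φ'
  unfold inducedDec
  have h1 : (fun h : DD F F' w => (φ' : decF F' w → ℂ) (toD F F' w h)) =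
      fun h : DD F F' w => (φ : decF F w → ℂ) h := by
    funext x
    rw [hφ]
    rfl
  rw [h1]
  refine (indu_top (DD F F' w) (fun g => hg _ g.2 (g : F.fixingSubgroup).2) fun x g => ?_).symm
  have h2 := rchar_conj φ.2 x⁻¹ g
  rwa [inv_inv] at h2

/-- **Locality.** The local constant depends only on the local Galois group and the local virtual
character. -/
theorem LocalConstants.local {T : Set ℕ}
    {D : ∀ F : IntermediateField K (AlgebraicClosure K), (F.fixingSubgroup → ℂ) → B}
    {δ : ∀ (F : IntermediateField K (AlgebraicClosure K)) (w : AlgebraicClosure K → ℝ),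
      RChar (decF F w) →+ B} (h : LocalConstants T D δ)
    {F F' : IntermediateField K (AlgebraicClosure K)} (hF : FiniteDimensional K F)
    (hF' : FiniteDimensional K F') {p : ℕ} (hp : p.Prime) {w : AlgebraicClosure K → ℝ}
    (hw : IsPl p w) (hg : ∀ g : Gal(AlgebraicClosure K/K), Dec w g →
      (g ∈ F.fixingSubgroup ↔ g ∈ F'.fixingSubgroup)) (φ : RChar (decF F w))
    (φ' : RChar (decF F' w)) (hφ : ∀ (g : Gal(AlgebraicClosure K/K)) (hd : Dec w g)
      (h1 : g ∈ F.fixingSubgroup) (h2 : g ∈ F'.fixingSubgroup),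
        (φ : decF F w → ℂ) ⟨⟨g, h1⟩, hd⟩ = (φ' : decF F' w → ℂ) ⟨⟨g, h2⟩, hd⟩) :
    δ F w φ = δ F' w φ' := by
  have hfd : FiniteDimensional K (F ⊔ F' : IntermediateField K (AlgebraicClosure K)) :=
    IntermediateField.finiteDimensional_sup F F'
  have hmem : ∀ g : Gal(AlgebraicClosure K/K), g ∈ F.fixingSubgroup → g ∈ F'.fixingSubgroup →
      g ∈ (F ⊔ F').fixingSubgroup := by
    intro g h1 h2
    rw [IntermediateField.fixingSubgroup_sup]
    exact ⟨h1, h2⟩
  let ψ : RChar (decF (F ⊔ F') w) := ⟨fun g => (φ : decF F w → ℂ) (inclD F (F ⊔ F') le_sup_left w g),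
    rchar_comp (inclD F (F ⊔ F') le_sup_left w) (continuous_inclD _ _ _ _) φ.2⟩
  have e1 : δ F w φ = δ (F ⊔ F') w ψ :=
    h.nested le_sup_left hfd hp hw (fun g hd h1 => hmem g h1 ((hg g hd).1 h1)) φ ψ fun g => rfl
  have e2 : δ F' w φ' = δ (F ⊔ F') w ψ :=
    h.nested le_sup_right hfd hp hw (fun g hd h1 => hmem g ((hg g hd).2 h1) h1) φ' ψ fun g =>
      hφ _ g.2 _ _
  rw [e1, e2]

end

end Pool.Agent.Q20.LG
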