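import Pool.Agent.Q20.LG.Tors

/-!
# The criterion for representations whose inertia groups have exponent two
-/

set_option autoImplicit false
set_option linter.unusedSectionVars false

namespace Pool.Agent.Q20.LG

open NumberField IsDedekindDomain Pool.Agent.Q246.RP Pool.Agent.Q273.SP
open Subgroup (zpowers)
open scoped Classical

section
variable {Γ : Type} [Group Γ] [TopologicalSpace Γ] [IsTopologicalGroup Γ]

theorem closed_of_inv1 (A : Set Γ) (N : Subgroup Γ) (hN : IsOpen (N : Set Γ))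
    (h : ∀ x n, n ∈ N → x ∉ A → x * n ∉ A) : IsClosed A := by
  refine ⟨isOpen_iff_mem_nhds.2 fun u hu => ?_⟩
  have h1 : {x : Γ | u⁻¹ * x ∈ N} ∈ nhds u := by
    refine IsOpen.mem_nhds (hN.preimage (continuous_const_mul u⁻¹)) ?_
    change u⁻¹ * u ∈ (N : Set Γ)
    rw [inv_mul_cancel]
    exact N.one_mem
  refine Filter.mem_of_superset h1 fun x hx => ?_
  have h4 := h u _ hx hu
  rwa [mul_inv_cancel_left] at h4

variable [CompactSpace Γ] [TotallyDisconnectedSpace Γ] [T2Space Γ]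

theorem exp_two {𝒯 : Set Γ} (htf : ∀ (x : Γ) (m : ℕ), 0 < m → x ^ m ∈ 𝒯 → x ∈ 𝒯)
    {A : Type} [Group A] (τ : Γ →* A) {U : Subgroup Γ} (hU : IsOpen (U : Set Γ))
    (hUτ : ∀ g ∈ U, τ g = 1) (h2 : ∀ t ∈ 𝒯, τ t ^ 2 = 1) {u v : Γ} (h : Same u v)
    (ht : u⁻¹ * v ∈ 𝒯) : τ u = τ v := by
  have htop : Lv (⊤ : Subgroup Γ) ⊤ := ⟨inferInstance, isOpen_univ, le_rfl⟩
  obtain ⟨N₀, hN₀, hNU⟩ := exists_level hU U.one_mem htop
  have h₀ : Lv N₀ N₀ := ⟨hN₀.1, hN₀.2.1, le_rfl⟩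
  set t := u⁻¹ * v with htdef
  have hut : u * t = v := by rw [htdef, mul_inv_cancel_left]
  by_contra hne
  have htne : τ t ≠ 1 := by
    intro h1
    apply hne
    rw [← hut, map_mul, h1, mul_one]
  have hlev : ∀ N, Lv N₀ N → ∃ k : ℕ, (u ^ k)⁻¹ * t ∈ N := by
    intro N hN
    have hn := hN.1
    have hfin := fin_quot hN.2.1
    have h1 := lev_of_same h (N := N) ⟨hN.1, hN.2.1, le_top⟩
    rw [lev_iff] at h1
    have h3 : QuotientGroup.mk' N t ∈ zpowers (QuotientGroup.mk' N u) := by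
      rw [htdef, map_mul, map_inv]
      exact mul_mem (inv_mem (Subgroup.mem_zpowers _)) (h1 ▸ Subgroup.mem_zpowers _)
    have h4 := (isOfFinOrder_of_finite (QuotientGroup.mk' N u)).mem_powers_iff_mem_zpowers.2 h3
    obtain ⟨k, hk⟩ := (Submonoid.mem_powers_iff _ _).1 h4
    refine ⟨k, ?_⟩
    rw [← map_pow] at hk
    exact QuotientGroup.eq.1 hk
  have hn0 := h₀.1
  have hfin0 := fin_quot h₀.2.1
  have hmk : ∀ (N : Subgroup Γ) (_ : N.Normal) (k : ℕ), (u ^ k)⁻¹ * t ∈ N →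
      QuotientGroup.mk' N u ^ k = QuotientGroup.mk' N t := by
    intro N _ k hk
    rw [← map_pow]
    exact QuotientGroup.eq.2 hk
  have hker : ∀ g : Γ, QuotientGroup.mk' N₀ g = 1 → τ g = 1 := fun g hg =>
    hUτ g (hNU ((QuotientGroup.eq_one_iff g).1 hg))
  obtain ⟨k₀, hk₀⟩ := hlev N₀ h₀
  have hq := hmk N₀ hn0 k₀ hk₀
  set q := QuotientGroup.mk' N₀ with hqdef
  have ho := (orderOf_pos (q u)).ne'
  obtain ⟨a, o', ho', hao⟩ := Nat.exists_eq_two_pow_mul_odd ho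
  have hna : ¬ 2 ^ a ∣ k₀ := by
    intro hdvd
    have h3 : orderOf (q u) ∣ k₀ * o' := by
      rw [hao]
      exact mul_dvd_mul_right hdvd o'
    have h4 : q (t ^ o') = 1 := by
      rw [map_pow, ← hq, ← pow_mul]
      exact orderOf_dvd_iff_pow_eq_one.1 h3
    have h5 := hker _ h4
    rw [map_pow] at h5
    have h6 := orderOf_dvd_of_pow_eq_one h5
    have h7 := orderOf_dvd_of_pow_eq_one (h2 t ht)
    have h8 : Nat.Coprime o' 2 := ho'.coprime_two_right
    have h9 := Nat.dvd_gcd h6 h7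
    rw [h8] at h9
    exact htne (orderOf_eq_one_iff.1 (Nat.dvd_one.1 h9))
  have hk0 : k₀ ≠ 0 := fun h0 => hna (h0 ▸ dvd_zero _)
  obtain ⟨b, j₀, hj₀, hb⟩ := Nat.exists_eq_two_pow_mul_odd hk0
  have hba : b < a := by
    by_contra hle
    exact hna (hb ▸ Dvd.dvd.mul_right (pow_dvd_pow 2 (not_lt.1 hle)) j₀)
  have hexp : ∀ N, Lv N₀ N → ∀ k : ℕ, (u ^ k)⁻¹ * t ∈ N → ∃ j, Odd j ∧ k = 2 ^ b * j := by
    intro N hN k hk
    have h3 := hmk N₀ hn0 k (hN.2.2 hk)
    rw [← hqdef, ← hq, pow_eq_pow_iff_modEq] at h3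
    have h4 : 2 ^ (b + 1) ∣ orderOf (q u) := by
      rw [hao]
      exact Dvd.dvd.mul_right (pow_dvd_pow 2 hba) o'
    have h5 : k ≡ k₀ [MOD 2 ^ (b + 1)] := h3.of_dvd h4
    have h6 : 2 ^ b ∣ k := by
      have h7 : k ≡ k₀ [MOD 2 ^ b] := h5.of_dvd (pow_dvd_pow 2 (Nat.le_succ b))
      exact (h7.dvd_iff dvd_rfl).2 (hb ▸ Dvd.intro _ rfl)
    obtain ⟨j, rfl⟩ := h6
    refine ⟨j, ?_, rfl⟩
    rw [hb, pow_succ] at h5
    have h7 : j ≡ j₀ [MOD 2] := Nat.ModEq.mul_left_cancel' (by positivity) h5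
    have h8 : j % 2 = j₀ % 2 := h7
    rw [Nat.odd_iff] at hj₀ ⊢
    omega
  let Z : Subgroup Γ → Set Γ := fun N =>
    {x | (x ^ 2 ^ b)⁻¹ * t ∈ N ∧ ∃ j : ℕ, Odd j ∧ (u ^ j)⁻¹ * x ∈ N}
  obtain ⟨x, hx⟩ := exists_common h₀ Z (fun N N' hNN' x hx => ⟨hNN' hx.1, by
      obtain ⟨j, hj, hjx⟩ := hx.2
      exact ⟨j, hj, hNN' hjx⟩⟩) (fun N hN => by
      refine closed_of_inv1 _ N hN.2.1 fun x n hn hx hxn => hx ?_
      have hnn := hN.1
      have hn1 : QuotientGroup.mk' N n = 1 := (QuotientGroup.eq_one_iff n).2 hn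
      refine ⟨?_, ?_⟩
      · have h3 := QuotientGroup.eq.2 hxn.1
        have h4 : QuotientGroup.mk' N ((x * n) ^ 2 ^ b) = QuotientGroup.mk' N t := h3
        rw [map_pow, map_mul, hn1, mul_one, ← map_pow] at h4
        exact QuotientGroup.eq.1 h4
      · obtain ⟨j, hj, hjx⟩ := hxn.2
        refine ⟨j, hj, ?_⟩
        have h3 : QuotientGroup.mk' N (u ^ j) = QuotientGroup.mk' N (x * n) :=
          QuotientGroup.eq.2 hjx
        rw [map_mul, hn1, mul_one] at h3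
        exact QuotientGroup.eq.1 h3) (fun N hN => by
      obtain ⟨k, hk⟩ := hlev N hN
      obtain ⟨j, hj, rfl⟩ := hexp N hN k hk
      refine ⟨u ^ j, ?_, j, hj, ?_⟩
      · rw [← pow_mul, mul_comm j]
        exact hk
      · rw [inv_mul_cancel]
        exact N.one_mem)
  have hxt : x ^ 2 ^ b = t := by
    by_contra hcon
    have h3 : (x ^ 2 ^ b)⁻¹ * t ≠ 1 := fun h4 => hcon (inv_mul_eq_one.1 h4)
    obtain ⟨N, hN, hNs⟩ := exists_level (U := {(x ^ 2 ^ b)⁻¹ * t}ᶜ)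
      isClosed_singleton.isOpen_compl (fun h4 => h3 h4.symm) h₀
    exact hNs (hx N hN).1 rfl
  have hxT : x ∈ 𝒯 := htf x (2 ^ b) (by positivity) (hxt ▸ ht)
  obtain ⟨-, j, hj, hjx⟩ := hx N₀ h₀
  have hτx : τ x = τ u ^ j := by
    have h3 := hUτ _ (hNU hjx)
    rw [map_mul, map_inv, map_pow] at h3
    exact (inv_mul_eq_one.1 h3).symm
  have hτt : τ t = τ u ^ k₀ := by
    have h3 := hUτ _ (hNU hk₀)
    rw [map_mul, map_inv, map_pow] at h3
    exact (inv_mul_eq_one.1 h3).symm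
  have hn1 : orderOf (τ u) ∣ 2 * j := by
    apply orderOf_dvd_of_pow_eq_one
    rw [mul_comm, pow_mul, ← hτx]
    exact h2 x hxT
  have hn2 : orderOf (τ u) ∣ 2 * k₀ := by
    apply orderOf_dvd_of_pow_eq_one
    rw [mul_comm, pow_mul, ← hτt]
    exact h2 t ht
  have hn3 : ¬ orderOf (τ u) ∣ k₀ := by
    intro h3
    rw [hτt, orderOf_dvd_iff_pow_eq_one.1 h3] at htne
    exact htne rfl
  rcases Nat.even_or_odd (orderOf (τ u)) with hev | hodd
  · obtain ⟨n', hn'⟩ := hev.two_dvd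
    have hk2 : 2 ∣ k₀ := by
      obtain ⟨-, i, hi⟩ := lev_of_same h (N := N₀) ⟨hN₀.1, hN₀.2.1, le_top⟩
      have h3 := hUτ _ (hNU hi)
      rw [map_mul, map_inv, map_zpow, ← hut, map_mul, hτt] at h3
      have h4 : τ u ^ (((1 + k₀ : ℕ) : ℤ) * i - 1) = 1 := by
        have h5 := inv_mul_eq_one.1 h3
        rw [zpow_sub, zpow_mul, zpow_natCast, pow_add, pow_one, zpow_one]
        rw [h5, mul_inv_cancel]
      have h5 := orderOf_dvd_iff_zpow_eq_one.2 h4
      have h6 : (2 : ℤ) ∣ ((1 + k₀ : ℕ) : ℤ) * i - 1 := by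
        refine dvd_trans ?_ h5
        rw [hn']
        exact ⟨(n' : ℤ), by push_cast; ring⟩
      by_contra hodd
      have h7 : (2 : ℤ) ∣ ((1 + k₀ : ℕ) : ℤ) := by
        have : 2 ∣ 1 + k₀ := by omega
        exact_mod_cast this
      have h8 : (2 : ℤ) ∣ 1 := by
        have h9 := dvd_sub (Dvd.dvd.mul_right h7 i) h6
        rwa [sub_sub_cancel] at h9
      norm_num at h8
    obtain ⟨k', hk'⟩ := hk2
    rw [hn'] at hn1 hn2 hn3
    have h3 : n' ∣ j := Nat.dvd_of_mul_dvd_mul_left two_pos hn1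
    have h4 : Odd n' := hj.of_dvd_nat h3
    have h5 : n' ∣ k₀ := Nat.dvd_of_mul_dvd_mul_left two_pos hn2
    rw [hk'] at h5
    have h6 : n' ∣ k' := h4.coprime_two_right.dvd_of_dvd_mul_left h5
    exact hn3 (hk' ▸ mul_dvd_mul_left 2 h6)
  · exact hn3 (hodd.coprime_two_right.dvd_of_dvd_mul_left hn2)

end

section
variable {K : Type} [Field K] [NumberField K]

theorem ineF_tf (F : IntermediateField K (AlgebraicClosure K)) {p : ℕ} (hp : p.Prime)
    {w : AlgebraicClosure K → ℝ} (hw : IsPl p w) (x : decF F w) (m : ℕ) (hm : 0 < m)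
    (h : x ^ m ∈ ineF F w) : x ∈ ineF F w := by
  refine ine_of_pow hp hw x.2 hm ?_
  change Ine w (((x ^ m : decF F w) : F.fixingSubgroup) : Gal(AlgebraicClosure K/K)) at h
  rw [Subgroup.coe_pow, Subgroup.coe_pow] at h
  exact h

/-- representations with inertia groups of exponent two -/
theorem cond_exp_two (T : Set ℕ) (F : IntermediateField K (AlgebraicClosure K)) {n : ℕ}
    (τ : F.fixingSubgroup →* GL (Fin n) ℂ) {U : Subgroup F.fixingSubgroup}
    (hU : IsOpen (U : Set F.fixingSubgroup)) (hUτ : ∀ g ∈ U, τ g = 1)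
    (h : ∀ p : ℕ, p.Prime → p ∉ T → ∀ w : AlgebraicClosure K → ℝ, IsPl p w →
      ∀ g : F.fixingSubgroup, Ine w (g : Gal(AlgebraicClosure K/K)) → τ g ^ 2 = 1) :
    Cond (TT T F) (fun g => (τ g : Matrix (Fin n) (Fin n) ℂ).trace) := by
  rw [cond_iff_local]
  intro p hp hpT w hw u v huv ht
  have h1 := exp_two (fun x m hm => ineF_tf F hp hw x m hm) (τ.comp (decF F w).subtype)
    (U := U.subgroupOf (decF F w)) (hU.preimage continuous_subtype_val) (fun g hg => hUτ _ hg)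
    (fun t ht => h p hp hpT w hw _ ht) huv ht
  exact congrArg (fun y : GL (Fin n) ℂ => (y : Matrix (Fin n) (Fin n) ℂ).trace) h1

/-- virtual characters with rational values on the decomposition groups at the ramified places -/
theorem cond_rat (T : Set ℕ) (F : IntermediateField K (AlgebraicClosure K))
    {f : F.fixingSubgroup → ℂ} (hf : f ∈ RChar F.fixingSubgroup)
    (h : ∀ p : ℕ, p.Prime → p ∉ T → ∀ w : AlgebraicClosure K → ℝ, IsPl p w →
      (∀ g t : F.fixingSubgroup, Dec w (g : Gal(AlgebraicClosure K/K)) →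
        Ine w (t : Gal(AlgebraicClosure K/K)) → f (g * t) = f g) ∨
      ∀ g : F.fixingSubgroup, Dec w (g : Gal(AlgebraicClosure K/K)) → ∃ q : ℚ, f g = q) :
    Cond (TT T F) f := by
  rw [cond_iff_local]
  intro p hp hpT w hw u v huv ht
  rcases h p hp hpT w hw with h1 | h1
  · have h2 := h1 u (((u : F.fixingSubgroup))⁻¹ * v) u.2 ht
    rw [mul_inv_cancel_left] at h2
    exact h2.symm
  · obtain ⟨q, hq⟩ := h1 u u.2
    exact rat_same (rchar_res (decF F w) hf) huv hq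

end

end Pool.Agent.Q20.LG
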