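import Pool.Agent.Q20.LG.Prof

/-!
# Induced characters are characters; homomorphisms which are determined locally are sums of local
homomorphisms
-/

set_option autoImplicit false
set_option linter.unusedSectionVars false

namespace Pool.Agent.Q20.LG

open Pool.Agent.Q246.BI
open Subgroup (zpowers)
open scoped Classical

section
variable {Γ : Type} [Group Γ] [TopologicalSpace Γ]

theorem isChar_of_isCh {N : Subgroup Γ} [N.Normal] (hN : IsOpen (N : Set Γ)) {χ : Γ ⧸ N → ℂ}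
    (h : IsCh χ) : IsChar (fun g => χ (QuotientGroup.mk' N g)) := by
  obtain ⟨n, τ, hτ⟩ := h
  refine ⟨n, (τ.comp (QuotientGroup.mk' N)).toHomUnits, N, hN, fun g hg => ?_, fun g => hτ _⟩
  apply Units.ext
  change τ (QuotientGroup.mk' N g) = 1
  have h1 : QuotientGroup.mk' N g = 1 := (QuotientGroup.eq_one_iff _).2 hg
  rw [h1, map_one]

theorem isChar_zero : IsChar (0 : Γ → ℂ) :=
  ⟨0, 1, ⊤, isOpen_univ, fun _ _ => rfl, fun g => by simp⟩

variable [IsTopologicalGroup Γ] [CompactSpace Γ] [TotallyDisconnectedSpace Γ]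

theorem isChar_lift {χ : Γ → ℂ} (h : IsChar χ) :
    ∃ N₁ : Subgroup Γ, Lv N₁ N₁ ∧ ∀ (N : Subgroup Γ) [N.Normal], N ≤ N₁ →
      ∃ χ' : Γ ⧸ N → ℂ, IsCh χ' ∧ ∀ g, χ g = χ' (QuotientGroup.mk' N g) := by
  have htop : Lv (⊤ : Subgroup Γ) ⊤ := ⟨inferInstance, isOpen_univ, le_rfl⟩
  obtain ⟨n, τ, U, hU, hUτ, hτ⟩ := h
  obtain ⟨N₁, h₁, h2⟩ := exists_level hU U.one_mem htop
  refine ⟨N₁, ⟨h₁.1, h₁.2.1, le_rfl⟩, fun N _ hN => ?_⟩
  let τ' : Γ ⧸ N →* GL (Fin n) ℂ := QuotientGroup.lift N τ fun g hg => hUτ g (h2 (hN hg))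
  refine ⟨fun v => (τ' v : Matrix (Fin n) (Fin n) ℂ).trace,
    ⟨n, (Units.coeHom _).comp τ', fun g => rfl⟩, fun g => ?_⟩
  rw [hτ]
  rfl

theorem IsChar.add {χ χ' : Γ → ℂ} (h : IsChar χ) (h' : IsChar χ') : IsChar (χ + χ') := by
  obtain ⟨N₁, h₁, h2⟩ := isChar_lift h
  obtain ⟨N₂, h₃, h4⟩ := isChar_lift h'
  have hn1 := h₁.1
  have hn2 := h₃.1
  obtain ⟨f, hf, h5⟩ := h2 (N₁ ⊓ N₂) inf_le_left
  obtain ⟨f', hf', h6⟩ := h4 (N₁ ⊓ N₂) inf_le_right
  have h7 := isChar_of_isCh (N := N₁ ⊓ N₂) (h₁.2.1.inter h₃.2.1) (hf.add hf')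
  refine cast (congrArg IsChar ?_) h7
  funext g
  rw [Pi.add_apply, Pi.add_apply, h5, h6]

/-- induced linear characters are characters -/
theorem isChar_indu (H : Subgroup Γ) (hH : IsOpen (H : Set Γ)) (ψ : H →* ℂˣ) {U : Subgroup Γ}
    (hU : IsOpen (U : Set Γ)) (hUψ : ∀ h : H, (h : Γ) ∈ U → ψ h = 1) :
    IsChar (Indu H (fun h => ((ψ h : ℂˣ) : ℂ))) := by
  have htop : Lv (⊤ : Subgroup Γ) ⊤ := ⟨inferInstance, isOpen_univ, le_rfl⟩
  obtain ⟨N, hN, hNU⟩ := exists_level (hH.inter hU) ⟨H.one_mem, U.one_mem⟩ htop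
  have hNn := hN.1
  have hfin := fin_quot hN.2.1
  let q : Γ →* Γ ⧸ N := QuotientGroup.mk' N
  have hq : Function.Surjective q := QuotientGroup.mk'_surjective N
  let C : Subgroup (Γ ⧸ N) := H.map q
  have hHC : ∀ v, v ∈ H ↔ q v ∈ C := by
    intro v
    constructor
    · intro hv
      exact ⟨v, hv, rfl⟩
    · rintro ⟨v', hv', h1⟩
      have h2 : v'⁻¹ * v ∈ N := QuotientGroup.eq.1 h1
      have h3 := H.mul_mem hv' (hNU h2).1
      rwa [mul_inv_cancel_left] at h3
  let r : H →* C := (q.comp H.subtype).codRestrict C fun h => (hHC h).1 h.2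
  have hr : Function.Surjective r := by
    rintro ⟨_, ⟨v, hv, rfl⟩⟩
    exact ⟨⟨v, hv⟩, rfl⟩
  have hker : r.ker ≤ ψ.ker := by
    intro h hh
    rw [MonoidHom.mem_ker] at hh ⊢
    have h1 : q (h : Γ) = 1 := congrArg Subtype.val hh
    have h2 : (h : Γ) ∈ N := (QuotientGroup.eq_one_iff _).1 h1
    exact hUψ h (hNU h2).2
  let ψ' : C →* ℂˣ := r.liftOfSurjective hr ⟨ψ, hker⟩
  have hψ' : ∀ h : H, ψ' (r h) = ψ h := fun h => r.liftOfRightInverse_comp_apply _ _ ⟨ψ, hker⟩ h
  have h1 := isChar_of_isCh hN.2.1 (isCh_ind C ψ')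
  refine cast (congrArg IsChar ?_) h1
  funext g
  have h3 := ind_coset q hq C (fun h => ((ψ' h : ℂˣ) : ℂ)) (fun a b => by
    rw [map_mul, map_mul, map_inv, mul_comm, mul_inv_cancel_left]) H hHC g
  change Ind C (fun h => ((ψ' h : ℂˣ) : ℂ)) (q g) = _
  rw [← h3]
  unfold Indu
  refine finsum_congr fun x => ?_
  by_cases hx : x.out⁻¹ * g * x.out ∈ H
  · rw [dif_pos hx, ext_mem ((hHC _).1 hx)]
    exact congrArg (fun z : ℂˣ => (z : ℂ)) (hψ' ⟨_, hx⟩)
  · rw [dif_neg hx, ext_not_mem (fun h => hx ((hHC _).2 h))]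

end

section
variable {X B : Type} [AddCommGroup X] [AddCommGroup B]

/-- extension of an additive function to the group generated by a monoid -/
theorem exists_hom (C : Set X) (h0 : (0 : X) ∈ C) (hadd : ∀ a b, a ∈ C → b ∈ C → a + b ∈ C)
    (D : X → B) (hD : ∀ a b, a ∈ C → b ∈ C → D (a + b) = D a + D b) :
    ∃ E : AddSubgroup.closure C →+ B, ∀ (a : X) (ha : a ∈ C),
      E ⟨a, AddSubgroup.subset_closure ha⟩ = D a := by
  have hdiff : ∀ x ∈ AddSubgroup.closure C, ∃ a b, a ∈ C ∧ b ∈ C ∧ x = a - b := by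
    intro x hx
    induction hx using AddSubgroup.closure_induction with
    | mem x hx => exact ⟨x, 0, hx, h0, (sub_zero x).symm⟩
    | zero => exact ⟨0, 0, h0, h0, (sub_zero 0).symm⟩
    | add x y _ _ hx hy =>
      obtain ⟨a, b, ha, hb, rfl⟩ := hx
      obtain ⟨a', b', ha', hb', rfl⟩ := hy
      exact ⟨a + a', b + b', hadd _ _ ha ha', hadd _ _ hb hb', by abel⟩
    | neg x _ hx =>
      obtain ⟨a, b, ha, hb, rfl⟩ := hx
      exact ⟨b, a, hb, ha, by abel⟩
  choose! p n hp hn hpn using hdiff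
  have key : ∀ a b a' b' : X, a ∈ C → b ∈ C → a' ∈ C → b' ∈ C → a - b = a' - b' →
      D a - D b = D a' - D b' := by
    intro a b a' b' ha hb ha' hb' h
    have h1 : a + b' = a' + b := by
      have := sub_eq_sub_iff_add_eq_add.1 h
      exact this
    have h2 := congrArg D h1
    rw [hD _ _ ha hb', hD _ _ ha' hb] at h2
    exact sub_eq_sub_iff_add_eq_add.2 h2
  have hD0 : D 0 = 0 := by
    have h1 := hD 0 0 h0 h0
    rw [add_zero] at h1
    exact left_eq_add.1 h1
  refine ⟨AddMonoidHom.mk' (fun x => D (p x) - D (n x)) fun x y => ?_, fun a ha => ?_⟩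
  · have h1 := hpn x x.2
    have h2 := hpn y y.2
    have h3 := hpn _ (x + y).2
    have h4 := key (p ((x + y : AddSubgroup.closure C) : X)) (n ((x + y : AddSubgroup.closure C) : X))
      (p x + p y) (n x + n y) (hp _ (x + y).2) (hn _ (x + y).2)
      (hadd _ _ (hp _ x.2) (hp _ y.2)) (hadd _ _ (hn _ x.2) (hn _ y.2)) (by
        rw [← h3, AddSubgroup.coe_add]
        conv_lhs => rw [h1, h2]
        abel)
    rw [h4, hD _ _ (hp _ x.2) (hp _ y.2), hD _ _ (hn _ x.2) (hn _ y.2)]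
    abel
  · change D (p a) - D (n a) = D a
    have h1 := key (p a) (n a) a 0 (hp _ (AddSubgroup.subset_closure ha))
      (hn _ (AddSubgroup.subset_closure ha)) ha h0 (by
        rw [← hpn a (AddSubgroup.subset_closure ha), sub_zero])
    rw [h1, hD0, sub_zero]

/-- the saturation of a subgroup -/
def sat (V : AddSubgroup X) : AddSubgroup X where
  carrier := {x | ∃ m : ℕ, 0 < m ∧ m • x ∈ V}
  add_mem' := by
    rintro a b ⟨m, hm, ha⟩ ⟨n, hn, hb⟩
    refine ⟨m * n, Nat.mul_pos hm hn, ?_⟩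
    rw [nsmul_add]
    refine add_mem ?_ ?_
    · rw [mul_comm, mul_nsmul']
      exact nsmul_mem ha n
    · rw [mul_nsmul']
      exact nsmul_mem hb m
  zero_mem' := ⟨1, Nat.one_pos, by rw [nsmul_zero]; exact zero_mem V⟩
  neg_mem' := by
    rintro a ⟨m, hm, ha⟩
    exact ⟨m, hm, by rw [smul_neg]; exact neg_mem ha⟩

theorem mem_sat {V : AddSubgroup X} {x : X} : x ∈ sat V ↔ ∃ m : ℕ, 0 < m ∧ m • x ∈ V := Iff.rfl

/-- **Homomorphisms which are determined locally are sums of local homomorphisms.** -/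
theorem exists_local {ι : Type} {Y : ι → Type} [∀ i, AddCommGroup (Y i)] (R : AddSubgroup X)
    (D : R →+ B) (hdiv : Module.Baer ℤ B) (V : ∀ i, AddSubgroup (Y i)) (res : ∀ i, X →+ Y i)
    (h1 : ∀ r : R, (∀ i, res i r ∈ sat (V i)) → D r = 0)
    (h2 : ∀ r : R, {i | res i r ∉ sat (V i)}.Finite) :
    ∃ δ : ∀ i, Y i →+ B, (∀ i, ∀ y ∈ sat (V i), δ i y = 0) ∧
      ∀ r : R, D r = ∑ᶠ i, δ i (res i r) := by
  let Q : ι → Type := fun i => Y i ⧸ sat (V i)
  let ρ : R →+ (∀ i, Q i) :=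
    { toFun := fun r i => QuotientAddGroup.mk' (sat (V i)) (res i r)
      map_zero' := by
        funext i
        rw [AddSubgroup.coe_zero, map_zero, map_zero]
        rfl
      map_add' := fun a b => by
        funext i
        rw [AddSubgroup.coe_add, map_add, map_add]
        rfl }
  have hker : ρ.ker ≤ D.ker := by
    intro r hr
    rw [AddMonoidHom.mem_ker] at hr ⊢
    apply h1
    intro i
    have h3 := congrFun hr i
    exact (QuotientAddGroup.eq_zero_iff _).1 h3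
  let D' : R ⧸ ρ.ker →+ B := QuotientAddGroup.lift ρ.ker D hker
  obtain ⟨L, hL⟩ := hdiv.extension_property_addMonoidHom (QuotientAddGroup.kerLift ρ)
    (QuotientAddGroup.kerLift_injective ρ) D'
  have hLr : ∀ r : R, L (ρ r) = D r := by
    intro r
    have h3 := DFunLike.congr_fun hL (QuotientAddGroup.mk r)
    exact h3
  refine ⟨fun i => (L.comp (AddMonoidHom.single Q i)).comp (QuotientAddGroup.mk' (sat (V i))),
    fun i y hy => ?_, fun r => ?_⟩
  · have h3 : QuotientAddGroup.mk' (sat (V i)) y = 0 := (QuotientAddGroup.eq_zero_iff _).2 hy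
    rw [AddMonoidHom.comp_apply, h3, map_zero]
  · let S : Finset ι := (h2 r).toFinset
    have hS : ∀ i, i ∉ S → QuotientAddGroup.mk' (sat (V i)) (res i r) = 0 := by
      intro i hi
      rw [Set.Finite.mem_toFinset, Set.mem_ofPred_eq, not_not] at hi
      exact (QuotientAddGroup.eq_zero_iff _).2 hi
    have h3 : ρ r = ∑ i ∈ S, Pi.single i (ρ r i) := by
      funext j
      rw [Finset.sum_apply]
      by_cases hj : j ∈ S
      · rw [Finset.sum_eq_single j]
        · rw [Pi.single_eq_same]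
        · intro i _ hij
          rw [Pi.single_eq_of_ne hij.symm]
        · intro h
          exact absurd hj h
      · rw [Finset.sum_eq_zero]
        · exact hS j hj
        · intro i hi
          rw [Pi.single_eq_of_ne]
          rintro rfl
          exact hj hi
    rw [← hLr, h3, map_sum]
    rw [finsum_eq_sum_of_support_subset (s := S)]
    · rfl
    · intro i hi
      by_contra hiS
      apply hi
      change L (Pi.single i (QuotientAddGroup.mk' (sat (V i)) (res i r))) = 0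
      rw [hS i hiS, Pi.single_zero, map_zero]

end

end Pool.Agent.Q20.LG
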