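import Pool.Agent.Q246.BI.Main

/-!
# Class functions invariant under translation by elements of a family, finite groups

For a finite group `G` and a monotone equivariant family of subgroups `J C` of the cyclic subgroups
`C` of `G`: a class function is a linear combination of functions induced from linear characters
`ψ` of cyclic subgroups `C`, trivial on `J C`, if and only if it takes the same values at `u`, `v`
whenever `u`, `v` generate the same subgroup `C` and `u⁻¹ v ∈ J C`.
-/

set_option autoImplicit false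
set_option linter.unusedSectionVars false

namespace Pool.Agent.Q20.LG

open Pool.Agent.Q246.BI
open Subgroup (zpowers)
open scoped Classical

section
variable {G : Type} [Group G] [Finite G]

/-- a monotone equivariant family of subgroups -/
structure JData (J : Subgroup G → Subgroup G) : Prop where
  le : ∀ C, J C ≤ C
  conj : ∀ C D : Subgroup G, ∀ x : G, (∀ c ∈ C, x⁻¹ * c * x ∈ D) → ∀ t ∈ J C, x⁻¹ * t * x ∈ J D

/-- the invariance -/
def JInv (J : Subgroup G → Subgroup G) (f : G → ℂ) : Prop :=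
  ∀ u v, zpowers u = zpowers v → u⁻¹ * v ∈ J (zpowers u) → f u = f v

/-- class functions -/
def Cls (f : G → ℂ) : Prop := ∀ x g, f (x⁻¹ * g * x) = f g

/-- the good induced functions -/
def Gd (J : Subgroup G → Subgroup G) : Set (G → ℂ) :=
  {f | ∃ (C : Subgroup G) (ψ : C →* ℂˣ), IsCyclic C ∧ (∀ t : C, (t : G) ∈ J C → ψ t = 1) ∧
    f = Ind C (fun h => ((ψ h : ℂˣ) : ℂ))}

/-- all functions on a finite commutative group are combinations of linear characters -/
theorem span_all {Q : Type} [Group Q] [Finite Q] (hab : ∀ a b : Q, a * b = b * a) (h : Q → ℂ) :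
    h ∈ Submodule.span ℂ {f : Q → ℂ | ∃ ψ : Q →* ℂˣ, f = fun g => ((ψ g : ℂˣ) : ℂ)} := by
  have : Fintype Q := Fintype.ofFinite Q
  set S := Submodule.span ℂ {f : Q → ℂ | ∃ ψ : Q →* ℂˣ, f = fun g => ((ψ g : ℂˣ) : ℂ)} with hS
  have h1 : Ind (⊥ : Subgroup Q) (fun h => (((1 : (⊥ : Subgroup Q) →* ℂˣ) h : ℂˣ) : ℂ)) ∈ S := by
    have h2 := abel_mem hab _ (isCh_ind (⊥ : Subgroup Q) 1)
    have h3 : AddSubgroup.closure {f : Q → ℂ | ∃ ψ : Q →* ℂˣ, f = fun g => ((ψ g : ℂˣ) : ℂ)} ≤
        S.toAddSubgroup := by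
      rw [AddSubgroup.closure_le]
      exact fun f hf => Submodule.subset_span hf
    exact h3 h2
  have h2 : ∀ g : Q, Ind (⊥ : Subgroup Q) (fun h => (((1 : (⊥ : Subgroup Q) →* ℂˣ) h : ℂˣ) : ℂ)) g =
      if g = 1 then (Nat.card Q : ℂ) else 0 := by
    intro g
    rw [ind_eq]
    have h3 : ∀ x : Q, ext (⊥ : Subgroup Q)
        (fun h => (((1 : (⊥ : Subgroup Q) →* ℂˣ) h : ℂˣ) : ℂ)) (x⁻¹ * g * x) =
        if g = 1 then 1 else 0 := by
      intro x
      have h4 : x⁻¹ * g * x = g := by rw [hab x⁻¹ g, mul_assoc, inv_mul_cancel, mul_one]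
      rw [h4]
      unfold ext
      by_cases hg : g = 1
      · rw [if_pos hg, dif_pos (Subgroup.mem_bot.2 hg)]
        simp
      · rw [if_neg hg, dif_neg (fun h => hg (Subgroup.mem_bot.1 h))]
    rw [Finset.sum_congr rfl fun x _ => h3 x, Finset.sum_const, Finset.card_univ,
      ← Nat.card_eq_fintype_card, nsmul_eq_mul]
    simp
  have h3 : ∀ x : Q, (fun y : Q => if y = x then (1 : ℂ) else 0) ∈ S := by
    intro x
    let Φ : (Q → ℂ) →ₗ[ℂ] (Q → ℂ) := LinearMap.funLeft ℂ ℂ (fun y => x⁻¹ * y)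
    have h4 : S ≤ S.comap Φ := by
      rw [hS, Submodule.span_le]
      rintro f ⟨ψ, rfl⟩
      have h5 : Φ (fun g => ((ψ g : ℂˣ) : ℂ)) = ((ψ x⁻¹ : ℂˣ) : ℂ) • fun g => ((ψ g : ℂˣ) : ℂ) := by
        funext y
        change ((ψ (x⁻¹ * y) : ℂˣ) : ℂ) = _
        rw [map_mul, Units.val_mul]
        rfl
      change Φ _ ∈ S
      rw [h5]
      exact S.smul_mem _ (Submodule.subset_span ⟨ψ, rfl⟩)
    have h5 := S.smul_mem (Nat.card Q : ℂ)⁻¹ (h4 h1)
    refine cast (congrArg (· ∈ S) ?_) h5
    funext y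
    change (Nat.card Q : ℂ)⁻¹ * Ind _ _ (x⁻¹ * y) = _
    rw [h2]
    have h6 : x⁻¹ * y = 1 ↔ y = x := by
      rw [inv_mul_eq_one, eq_comm]
    have h7 : (Nat.card Q : ℂ) ≠ 0 := by exact_mod_cast Nat.card_pos.ne'
    by_cases hy : y = x
    · rw [if_pos (h6.2 hy), if_pos hy, inv_mul_cancel₀ h7]
    · rw [if_neg (fun h => hy (h6.1 h)), if_neg hy, mul_zero]
  have h4 : h = ∑ x : Q, h x • fun y : Q => if y = x then (1 : ℂ) else 0 := by
    funext y
    rw [Finset.sum_apply, Finset.sum_eq_single y]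
    · simp
    · intro z _ hz
      simp [Ne.symm hz]
    · intro h
      exact absurd (Finset.mem_univ _) h
  rw [h4]
  exact S.sum_mem fun x _ => S.smul_mem _ (h3 x)

/-- functions invariant under a subgroup are combinations of characters trivial on the subgroup -/
theorem span_inv {C : Type} [Group C] [Finite C] (hab : ∀ a b : C, a * b = b * a)
    (J : Subgroup C) (h : C → ℂ) (hJ : ∀ x, ∀ t ∈ J, h (x * t) = h x) :
    h ∈ Submodule.span ℂ {f : C → ℂ | ∃ ψ : C →* ℂˣ, (∀ t ∈ J, ψ t = 1) ∧
      f = fun g => ((ψ g : ℂˣ) : ℂ)} := by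
  have hN : J.Normal := ⟨fun n hn g => by rwa [hab g n, mul_assoc, mul_inv_cancel, mul_one]⟩
  let q : C →* C ⧸ J := QuotientGroup.mk' J
  have hq : Function.Surjective q := QuotientGroup.mk'_surjective J
  let h' : C ⧸ J → ℂ := fun x => h (x.out)
  have hh : ∀ x : C, h' (q x) = h x := by
    intro x
    have h1 : (q x).out⁻¹ * x ∈ J := by
      rw [← QuotientGroup.eq, QuotientGroup.out_eq']
      rfl
    have h2 := hJ ((q x).out) _ h1
    rw [mul_inv_cancel_left] at h2
    exact h2.symm
  have hab' : ∀ a b : C ⧸ J, a * b = b * a := by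
    intro a b
    obtain ⟨a, rfl⟩ := hq a
    obtain ⟨b, rfl⟩ := hq b
    rw [← map_mul, ← map_mul, hab]
  have h1 := span_all hab' h'
  let Φ : (C ⧸ J → ℂ) →ₗ[ℂ] (C → ℂ) := LinearMap.funLeft ℂ ℂ q
  set S := Submodule.span ℂ {f : C → ℂ | ∃ ψ : C →* ℂˣ, (∀ t ∈ J, ψ t = 1) ∧
      f = fun g => ((ψ g : ℂˣ) : ℂ)} with hS
  have h2 : Submodule.span ℂ {f : C ⧸ J → ℂ | ∃ ψ : C ⧸ J →* ℂˣ, f = fun g => ((ψ g : ℂˣ) : ℂ)} ≤
      S.comap Φ := by
    rw [Submodule.span_le]
    rintro f ⟨ψ, rfl⟩
    change Φ _ ∈ S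
    refine Submodule.subset_span ⟨ψ.comp q, fun t ht => ?_, rfl⟩
    rw [MonoidHom.comp_apply]
    have h3 : q t = 1 := (QuotientGroup.eq_one_iff t).2 ht
    rw [h3, map_one]
  have h3 := h2 h1
  change Φ h' ∈ S at h3
  have h4 : Φ h' = h := funext hh
  rwa [h4] at h3

theorem ind_smul (H : Subgroup G) (z : ℂ) (η : H → ℂ) : Ind H (z • η) = z • Ind H η := by
  have : Fintype G := Fintype.ofFinite G
  funext g
  rw [Pi.smul_apply, ind_eq, ind_eq, smul_eq_mul, mul_left_comm]
  congr 1
  rw [Finset.mul_sum]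
  refine Finset.sum_congr rfl fun x _ => ?_
  unfold ext
  split_ifs
  · rfl
  · rw [mul_zero]

/-- induction as a linear map -/
noncomputable def IndL (H : Subgroup G) : (H → ℂ) →ₗ[ℂ] (G → ℂ) where
  toFun := Ind H
  map_add' := ind_add H
  map_smul' := ind_smul H

theorem ind_cls (H : Subgroup G) (η : H → ℂ) : Cls (Ind H η) := by
  have : Fintype G := Fintype.ofFinite G
  intro y g
  rw [ind_eq, ind_eq]
  congr 1
  rw [← Equiv.sum_comp (Equiv.mulLeft y) (fun x => ext H η (x⁻¹ * g * x))]
  refine Finset.sum_congr rfl fun x _ => ?_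
  congr 1
  change _ = (y * x)⁻¹ * g * (y * x)
  group

/-- necessity, for functions on a subgroup -/
theorem ind_jinv {J : Subgroup G → Subgroup G} (hJ : JData J) (H : Subgroup G) (η : H → ℂ)
    (hη : ∀ a b : H, (b : G) ∈ J H → η (a * b) = η a) : JInv J (Ind H η) := by
  have : Fintype G := Fintype.ofFinite G
  intro u v huv ht
  rw [ind_eq, ind_eq]
  congr 1
  refine Finset.sum_congr rfl fun x _ => ?_
  have key : ∀ u v : G, zpowers u = zpowers v → x⁻¹ * u * x ∈ H →
      (∀ c ∈ zpowers v, x⁻¹ * c * x ∈ H) := by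
    intro u v huv h c hc
    rw [← huv] at hc
    obtain ⟨k, rfl⟩ := Subgroup.mem_zpowers_iff.1 hc
    have h1 : x⁻¹ * u ^ k * x = (x⁻¹ * u * x) ^ k := by
      have := conj_zpow (i := k) (a := x⁻¹) (b := u)
      rw [inv_inv] at this
      exact this.symm
    rw [h1]
    exact H.zpow_mem h k
  by_cases hu : x⁻¹ * u * x ∈ H
  · have h1 := key u v huv hu
    have hv : x⁻¹ * v * x ∈ H := h1 v (Subgroup.mem_zpowers v)
    rw [ext_mem hu, ext_mem hv]
    have h2 : x⁻¹ * (u⁻¹ * v) * x ∈ J H := by
      rw [huv] at ht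
      exact hJ.conj (zpowers v) H x h1 _ ht
    have h3 := hη ⟨_, hu⟩ ⟨x⁻¹ * (u⁻¹ * v) * x, hJ.le H h2⟩ h2
    rw [← h3]
    congr 1
    apply Subtype.ext
    change x⁻¹ * u * x * (x⁻¹ * (u⁻¹ * v) * x) = x⁻¹ * v * x
    group
  · have hv : x⁻¹ * v * x ∉ H := by
      intro hv
      exact hu (key v u huv.symm hv u (Subgroup.mem_zpowers u))
    rw [ext_not_mem hu, ext_not_mem hv]

theorem cls_sub {f g : G → ℂ} (hf : Cls f) (hg : Cls g) : Cls (f - g) := by
  intro x y
  rw [Pi.sub_apply, Pi.sub_apply, hf, hg]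

theorem jinv_sub {J : Subgroup G → Subgroup G} {f g : G → ℂ} (hf : JInv J f) (hg : JInv J g) :
    JInv J (f - g) := by
  intro u v h1 h2
  rw [Pi.sub_apply, Pi.sub_apply, hf u v h1 h2, hg u v h1 h2]

/-- the function on a cyclic subgroup -/
noncomputable def hC (J : Subgroup G → Subgroup G) (f : G → ℂ) (C : Subgroup G) (x : C) : ℂ :=
  if h : ∃ c : G, zpowers c = C ∧ c⁻¹ * x ∈ J C then f h.choose else 0

theorem hC_eq {J : Subgroup G → Subgroup G} {f : G → ℂ} (hf : JInv J f) {C : Subgroup G} (x : C)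
    (c : G) (hc : zpowers c = C) (hcx : c⁻¹ * x ∈ J C) : hC J f C x = f c := by
  have h : ∃ c : G, zpowers c = C ∧ c⁻¹ * x ∈ J C := ⟨c, hc, hcx⟩
  unfold hC
  rw [dif_pos h]
  have h1 := h.choose_spec
  refine hf _ _ (h1.1.trans hc.symm) ?_
  rw [h1.1]
  have h2 := (J C).mul_mem h1.2 ((J C).inv_mem hcx)
  have h3 : h.choose⁻¹ * (x : G) * (c⁻¹ * x)⁻¹ = h.choose⁻¹ * c := by group
  rwa [h3] at h2

theorem hC_inv {J : Subgroup G → Subgroup G} {f : G → ℂ} (hf : JInv J f) {C : Subgroup G}
    (a b : C) (hb : (b : G) ∈ J C) : hC J f C (a * b) = hC J f C a := by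
  by_cases h : ∃ c : G, zpowers c = C ∧ c⁻¹ * a ∈ J C
  · obtain ⟨c, hc, hca⟩ := h
    rw [hC_eq hf a c hc hca, hC_eq hf (a * b) c hc]
    have h1 := (J C).mul_mem hca hb
    rwa [mul_assoc] at h1
  · have h' : ¬ ∃ c : G, zpowers c = C ∧ c⁻¹ * ((a * b : C) : G) ∈ J C := by
      rintro ⟨c, hc, hcab⟩
      refine h ⟨c, hc, ?_⟩
      have h1 := (J C).mul_mem hcab ((J C).inv_mem hb)
      have h2 : c⁻¹ * ((a * b : C) : G) * (b : G)⁻¹ = c⁻¹ * a := by
        rw [Subgroup.coe_mul]
        group
      rwa [h2] at h1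
    unfold hC
    rw [dif_neg h, dif_neg h']

/-- **The finite theorem over `ℂ`.** -/
theorem fin_span {J : Subgroup G → Subgroup G} (hJ : JData J) {f : G → ℂ} (hcl : Cls f)
    (hf : JInv J f) : f ∈ Submodule.span ℂ (Gd J) := by
  have : Fintype G := Fintype.ofFinite G
  have key : ∀ (m : ℕ) (f : G → ℂ), Cls f → JInv J f → (∀ g, f g ≠ 0 → orderOf g ≤ m) →
      f ∈ Submodule.span ℂ (Gd J) := by
    intro m
    induction m with
    | zero =>
      intro f _ _ hm
      have h0 : f = 0 := by
        funext g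
        by_contra hne
        exact absurd (hm g hne) (not_le.2 (orderOf_pos g))
      rw [h0]
      exact zero_mem _
    | succ m ih =>
      intro f hcl hf hm
      let A : Finset (Subgroup G) := Finset.univ.filter fun C => IsCyclic C ∧ Nat.card C = m + 1
      let P : G → ℂ := ∑ C ∈ A, ((Nat.card C : ℂ) * (Nat.card G : ℂ)⁻¹) • Ind C (hC J f C)
      have hP : P ∈ Submodule.span ℂ (Gd J) := by
        refine Submodule.sum_mem _ fun C hCA => Submodule.smul_mem _ _ ?_
        have hcyc : IsCyclic C := (Finset.mem_filter.1 hCA).2.1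
        have hab : ∀ a b : C, a * b = b * a := fun a b => by
          have := hcyc.commGroup
          obtain ⟨g, hg⟩ := hcyc.exists_generator
          obtain ⟨i, rfl⟩ := Subgroup.mem_zpowers_iff.1 (hg a)
          obtain ⟨j, rfl⟩ := Subgroup.mem_zpowers_iff.1 (hg b)
          exact (Commute.refl g).zpow_zpow i j
        have h1 := span_inv hab ((J C).subgroupOf C) (hC J f C)
          (fun a b hb => hC_inv hf a b (Subgroup.mem_subgroupOf.1 hb))
        have h2 : Submodule.span ℂ {f : C → ℂ | ∃ ψ : C →* ℂˣ,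
            (∀ t ∈ (J C).subgroupOf C, ψ t = 1) ∧ f = fun g => ((ψ g : ℂˣ) : ℂ)} ≤
            (Submodule.span ℂ (Gd J)).comap (IndL C) := by
          rw [Submodule.span_le]
          rintro _ ⟨ψ, hψ, rfl⟩
          exact Submodule.subset_span ⟨C, ψ, hcyc,
            fun t ht => hψ t (Subgroup.mem_subgroupOf.2 ht), rfl⟩
        exact h2 h1
      have hPcl : Cls P := by
        intro x g
        change (∑ C ∈ A, _ : G → ℂ) _ = (∑ C ∈ A, _ : G → ℂ) _
        rw [Finset.sum_apply, Finset.sum_apply]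
        refine Finset.sum_congr rfl fun C _ => ?_
        rw [Pi.smul_apply, Pi.smul_apply, ind_cls C _ x g]
      have hPJ : JInv J P := by
        intro u v h1 h2
        change (∑ C ∈ A, _ : G → ℂ) _ = (∑ C ∈ A, _ : G → ℂ) _
        rw [Finset.sum_apply, Finset.sum_apply]
        refine Finset.sum_congr rfl fun C _ => ?_
        rw [Pi.smul_apply, Pi.smul_apply,
          ind_jinv hJ C (hC J f C) (fun a b hb => hC_inv hf a b hb) u v h1 h2]
      -- the value at elements of order `m + 1`
      have hPv : ∀ g : G, orderOf g = m + 1 → P g = f g := by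
        intro g hg
        have h1 : P g = (Nat.card G : ℂ)⁻¹ * ∑ x : G, ∑ C ∈ A, ext C (hC J f C) (x⁻¹ * g * x) := by
          change (∑ C ∈ A, _ : G → ℂ) g = _
          rw [Finset.sum_apply, Finset.sum_comm, Finset.mul_sum]
          refine Finset.sum_congr rfl fun C _ => ?_
          rw [Pi.smul_apply, ind_eq, smul_eq_mul]
          have h2 := card_ne C
          field_simp
        have h2 : ∀ x : G, ∑ C ∈ A, ext C (hC J f C) (x⁻¹ * g * x) = f g := by
          intro x
          have ho : orderOf (x⁻¹ * g * x) = m + 1 := by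
            rw [← hg]
            have h3 := (MulAut.conj x⁻¹).toMonoidHom
            have h4 : x⁻¹ * g * x = MulAut.conj x⁻¹ g := by
              rw [MulAut.conj_apply, inv_inv]
            rw [h4]
            exact MulEquiv.orderOf_eq (MulAut.conj x⁻¹) g
          set y := x⁻¹ * g * x with hy
          rw [Finset.sum_eq_single (zpowers y)]
          · rw [ext_mem (Subgroup.mem_zpowers y), hC_eq hf _ y rfl]
            · exact hcl x g
            · change y⁻¹ * y ∈ _
              rw [inv_mul_cancel]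
              exact (J _).one_mem
          · intro C hCA hne
            apply ext_not_mem
            intro hyC
            apply hne
            have h3 : zpowers y ≤ C := Subgroup.zpowers_le.2 hyC
            have h4 : Nat.card C = Nat.card (zpowers y) := by
              rw [Nat.card_zpowers, ho]
              exact (Finset.mem_filter.1 hCA).2.2
            exact (Subgroup.eq_of_le_of_card_ge h3 h4.le).symm
          · intro h
            exfalso
            apply h
            refine Finset.mem_filter.2 ⟨Finset.mem_univ _, inferInstance, ?_⟩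
            rw [Nat.card_zpowers, ho]
        rw [h1, Finset.sum_congr rfl fun x _ => h2 x, Finset.sum_const, Finset.card_univ,
          ← Nat.card_eq_fintype_card, nsmul_eq_mul, inv_mul_cancel_left₀]
        exact_mod_cast Nat.card_pos.ne'
      have hPbig : ∀ g : G, m + 1 < orderOf g → P g = 0 := by
        intro g hg
        change (∑ C ∈ A, _ : G → ℂ) g = 0
        rw [Finset.sum_apply]
        refine Finset.sum_eq_zero fun C hCA => ?_
        rw [Pi.smul_apply, ind_eq]
        have h2 : ∀ x : G, ext C (hC J f C) (x⁻¹ * g * x) = 0 := by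
          intro x
          apply ext_not_mem
          intro hx
          have h4 : x⁻¹ * g * x = MulAut.conj x⁻¹ g := by
            rw [MulAut.conj_apply, inv_inv]
          have h5 : orderOf (x⁻¹ * g * x) = orderOf g := by
            rw [h4]
            exact MulEquiv.orderOf_eq (MulAut.conj x⁻¹) g
          have h6 := Subgroup.orderOf_dvd_natCard C hx
          rw [(Finset.mem_filter.1 hCA).2.2, h5] at h6
          exact absurd (Nat.le_of_dvd (Nat.succ_pos m) h6) (not_le.2 hg)
        rw [Finset.sum_eq_zero fun x _ => h2 x, mul_zero, smul_zero]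
      have h1 := ih (f - P) (cls_sub hcl hPcl) (jinv_sub hf hPJ) (by
        intro g hg
        by_contra hlt
        push Not at hlt
        apply hg
        rw [Pi.sub_apply]
        rcases Nat.lt_or_ge (m + 1) (orderOf g) with h2 | h2
        · have h3 : f g = 0 := by
            by_contra hne
            exact absurd (hm g hne) (not_le.2 h2)
          rw [h3, hPbig g h2, sub_zero]
        · rw [hPv g (le_antisymm h2 hlt), sub_self])
      have h2 := add_mem h1 hP
      rwa [sub_add_cancel] at h2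
  exact key (Nat.card G) f hcl hf fun g _ => orderOf_le_card

end

end Pool.Agent.Q20.LG
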