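import Pool.Agent.Q20.LG.Mack

/-!
# Induced characters of profinite groups are characters
-/

set_option autoImplicit false
set_option linter.unusedSectionVars false

namespace Pool.Agent.Q20.LG

open Subgroup (zpowers)
open scoped Classical

section
variable {Γ : Type} [Group Γ] [TopologicalSpace Γ]

theorem isChar_of_mat {ι : Type} [Fintype ι] [DecidableEq ι] (τ : Γ →* Matrix ι ι ℂ)
    {U : Subgroup Γ} (hU : IsOpen (U : Set Γ)) (hUτ : ∀ g ∈ U, τ g = 1) :
    IsChar (fun g => (τ g).trace) := by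
  let e := Fintype.equivFin ι
  let r : Matrix ι ι ℂ →* Matrix (Fin (Fintype.card ι)) (Fin (Fintype.card ι)) ℂ :=
    MonoidHomClass.toMonoidHom (Matrix.reindexAlgEquiv ℂ ℂ e)
  refine ⟨Fintype.card ι, (r.comp τ).toHomUnits, U, hU, fun g hg => ?_, fun g => ?_⟩
  · apply Units.ext
    change r (τ g) = 1
    rw [hUτ g hg, map_one]
  · change (τ g).trace = (Matrix.reindex e e (τ g)).trace
    unfold Matrix.trace
    rw [← e.sum_comp]
    refine Finset.sum_congr rfl fun i _ => ?_
    simp [Matrix.diag]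

theorem isChar_comp {Γ' : Type} [Group Γ'] [TopologicalSpace Γ'] (θ : Γ' →* Γ)
    (hθ : Continuous θ) {χ : Γ → ℂ} (h : IsChar χ) : IsChar (fun g => χ (θ g)) := by
  obtain ⟨n, τ, U, hU, hUτ, hτ⟩ := h
  exact ⟨n, τ.comp θ, U.comap θ, hU.preimage hθ, fun g hg => hUτ _ hg, fun g => hτ _⟩

theorem rchar_comp {Γ' : Type} [Group Γ'] [TopologicalSpace Γ'] (θ : Γ' →* Γ)
    (hθ : Continuous θ) {f : Γ → ℂ} (h : f ∈ RChar Γ) : (fun g => f (θ g)) ∈ RChar Γ' := by
  induction h using AddSubgroup.closure_induction with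
  | mem f hf => exact AddSubgroup.subset_closure (isChar_comp θ hθ hf)
  | zero => exact zero_mem (RChar Γ')
  | add a b _ _ ha hb => exact add_mem (S := AddSubgroup (Γ' → ℂ)) ha hb
  | neg a _ ha => exact neg_mem (S := AddSubgroup (Γ' → ℂ)) ha

variable [IsTopologicalGroup Γ] [CompactSpace Γ] [TotallyDisconnectedSpace Γ]

/-- induced characters are characters -/
theorem isChar_induG (H : Subgroup Γ) (hH : IsOpen (H : Set Γ)) {χ : H → ℂ} (h : IsChar χ) :
    IsChar (Indu H χ) := by
  obtain ⟨n, ρ, U, hU, hUρ, hρ⟩ := h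
  have hfin : Finite (Γ ⧸ H) := Subgroup.quotient_finite_of_isOpen H hH
  have : Fintype (Γ ⧸ H) := Fintype.ofFinite _
  have htop : Lv (⊤ : Subgroup Γ) ⊤ := ⟨inferInstance, isOpen_univ, le_rfl⟩
  have hU' : IsOpen (Subtype.val '' (U : Set H) : Set Γ) := hH.isOpenMap_subtype_val _ hU
  obtain ⟨N, hN, hNU⟩ := exists_level hU' ⟨1, U.one_mem, rfl⟩ htop
  have hNn := hN.1
  let e : Γ → Matrix (Fin n) (Fin n) ℂ := fun g =>
    if h : g ∈ H then (ρ ⟨g, h⟩ : Matrix (Fin n) (Fin n) ℂ) else 0
  have he : ∀ g (h : g ∈ H), e g = (ρ ⟨g, h⟩ : Matrix (Fin n) (Fin n) ℂ) := fun g h => dif_pos h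
  have he0 : ∀ g, g ∉ H → e g = 0 := fun g h => dif_neg h
  have hmul : ∀ a b : Γ, a ∈ H → e (a * b) = e a * e b := by
    intro a b ha
    by_cases hb : b ∈ H
    · rw [he _ (H.mul_mem ha hb), he _ ha, he _ hb, ← Units.val_mul, ← map_mul]
      rfl
    · have hab : a * b ∉ H := fun h => hb ((Subgroup.mul_mem_cancel_left H ha).1 h)
      rw [he0 _ hab, he0 _ hb, mul_zero]
  have he1 : ∀ g ∈ N, e g = 1 := by
    intro g hg
    obtain ⟨h, h1, rfl⟩ := hNU hg
    rw [he _ h.2]
    have h2 : (⟨(h : Γ), h.2⟩ : H) = h := rfl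
    rw [h2, hUρ h h1]
    rfl
  let τ : Γ →* Matrix ((Γ ⧸ H) × Fin n) ((Γ ⧸ H) × Fin n) ℂ :=
    { toFun := fun g => Matrix.of fun x y => e (x.1.out⁻¹ * g * y.1.out) x.2 y.2
      map_one' := by
        ext ⟨x, i⟩ ⟨y, j⟩
        rw [Matrix.of_apply, mul_one, Matrix.one_apply]
        by_cases hxy : x = y
        · subst hxy
          change e (x.out⁻¹ * x.out) i j = _
          rw [inv_mul_cancel, he1 1 N.one_mem, Matrix.one_apply]
          simp
        · change e (x.out⁻¹ * y.out) i j = _
          rw [he0 _ (fun h => hxy (by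
            rwa [← QuotientGroup.eq, QuotientGroup.out_eq', QuotientGroup.out_eq'] at h)),
            if_neg (fun h => hxy (Prod.ext_iff.1 h).1)]
          rfl
      map_mul' := fun g g' => by
        ext ⟨x, i⟩ ⟨z, k⟩
        rw [Matrix.of_apply, Matrix.mul_apply, Fintype.sum_prod_type]
        simp only [Matrix.of_apply]
        let y₀ : Γ ⧸ H := ((g' * z.out : Γ) : Γ ⧸ H)
        have hy₀ : y₀.out⁻¹ * g' * z.out ∈ H := by
          rw [mul_assoc, ← QuotientGroup.eq, QuotientGroup.out_eq']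
        rw [Finset.sum_eq_single y₀]
        · change e (x.out⁻¹ * (g * g') * z.out) i k =
            (e (x.out⁻¹ * g * y₀.out) * e (y₀.out⁻¹ * g' * z.out)) i k
          by_cases hx : x.out⁻¹ * g * y₀.out ∈ H
          · rw [← hmul _ _ hx]
            congr 1
            group
          · have hx' : x.out⁻¹ * (g * g') * z.out ∉ H := by
              intro h
              apply hx
              have h2 := H.mul_mem h (H.inv_mem hy₀)
              have h3 : x.out⁻¹ * (g * g') * z.out * (y₀.out⁻¹ * g' * z.out)⁻¹ =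
                  x.out⁻¹ * g * y₀.out := by group
              rwa [h3] at h2
            rw [he0 _ hx', he0 _ hx, zero_mul]
        · intro y _ hy
          have h2 : y.out⁻¹ * g' * z.out ∉ H := by
            intro h
            apply hy
            rw [mul_assoc, ← QuotientGroup.eq, QuotientGroup.out_eq'] at h
            exact h
          refine Finset.sum_eq_zero fun j _ => ?_
          rw [he0 _ h2, Matrix.zero_apply, mul_zero]
        · intro h
          exact absurd (Finset.mem_univ _) h }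
  have h0 : ∀ g ∈ N, τ g = 1 := by
    intro g hg
    ext ⟨x, i⟩ ⟨y, j⟩
    change e (x.out⁻¹ * g * y.out) i j = _
    by_cases hxy : x = y
    · subst hxy
      have h2 := hNn.conj_mem g hg x.out⁻¹
      rw [inv_inv] at h2
      rw [he1 _ h2, Matrix.one_apply, Matrix.one_apply]
      simp
    · have h2 : x.out⁻¹ * g * y.out ∉ H := by
        intro h3
        apply hxy
        have h4 := hNn.conj_mem g hg y.out⁻¹
        rw [inv_inv] at h4
        have h5 : y.out⁻¹ * g * y.out ∈ H := by
          obtain ⟨h, -, h6⟩ := hNU h4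
          rw [← h6]
          exact h.2
        have h6 := H.mul_mem h3 (H.inv_mem h5)
        have h7 : x.out⁻¹ * g * y.out * (y.out⁻¹ * g * y.out)⁻¹ = x.out⁻¹ * y.out := by group
        rw [h7, ← QuotientGroup.eq, QuotientGroup.out_eq', QuotientGroup.out_eq'] at h6
        exact h6
      rw [he0 _ h2, Matrix.one_apply, if_neg (fun h => hxy (Prod.ext_iff.1 h).1)]
      rfl
  have h1 := isChar_of_mat τ hN.2.1 h0
  refine cast (congrArg IsChar ?_) h1
  funext g
  unfold Indu
  rw [finsum_eq_sum_of_fintype]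
  unfold Matrix.trace
  rw [Fintype.sum_prod_type]
  refine Finset.sum_congr rfl fun x _ => ?_
  change ∑ i, e (x.out⁻¹ * g * x.out) i i = _
  by_cases hx : x.out⁻¹ * g * x.out ∈ H
  · rw [he _ hx, dif_pos hx, hρ]
    rfl
  · rw [he0 _ hx, dif_neg hx]
    simp

end

end Pool.Agent.Q20.LG
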