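import Pool.Agent.Q20.LG.Terms

/-!
# Induction of virtual characters
-/

set_option autoImplicit false
set_option linter.unusedSectionVars false

namespace Pool.Agent.Q20.LG

open Pool.Agent.Q246.BI
open Subgroup (zpowers)
open scoped Classical

section
variable {G : Type} [Group G] [Finite G]

/-- induction preserves virtual characters (by Brauer's theorem) -/
theorem ind_of_vch (H : Subgroup G) {η : H → ℂ} (hη : η ∈ Vch H) : Ind H η ∈ Vch G := by
  have h0 : Mon (∅ : Set G) ≤ Vch G := by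
    unfold Mon
    rw [AddSubgroup.closure_le]
    rintro f ⟨H', ψ, -, rfl⟩
    exact ind_vch H' ψ
  induction hη using AddSubgroup.closure_induction with
  | mem f hf =>
    have h1 := Pool.Agent.Q246.BI.finite_main (MonoidHom.id H) (∅ : Set H)
      (fun t ht => absurd ht (Set.notMem_empty t)) (fun t ht => absurd ht (Set.notMem_empty t)) f hf
    exact h0 (Mon.ind H ∅ ∅ (fun s hs => absurd hs (Set.notMem_empty s)) h1)
  | zero => rw [ind_zero]; exact zero_mem _
  | add a b _ _ ha hb => rw [ind_add]; exact add_mem ha hb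
  | neg a _ ha => rw [ind_neg]; exact neg_mem ha

end

section
variable {Γ : Type} [Group Γ] [TopologicalSpace Γ] [IsTopologicalGroup Γ]
  [CompactSpace Γ] [TotallyDisconnectedSpace Γ]

theorem indu_rchar (H : Subgroup Γ) (hH : IsOpen (H : Set Γ)) {φ : H → ℂ} (hφ : φ ∈ RChar H) :
    Indu H φ ∈ RChar Γ := by
  have hcH : CompactSpace H := isCompact_iff_compactSpace.1 (H.isClosed_of_isOpen hH).isCompact
  have htop : Lv (⊤ : Subgroup Γ) ⊤ := ⟨inferInstance, isOpen_univ, le_rfl⟩
  obtain ⟨N₁, h₁, hlift⟩ := exists_lift hφ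
  have hU : IsOpen (Subtype.val '' (N₁ : Set H) : Set Γ) := hH.isOpenMap_subtype_val _ h₁.2.1
  obtain ⟨N, hN, hNU⟩ := exists_level hU ⟨1, N₁.one_mem, rfl⟩ htop
  have hNn := hN.1
  have hfin := fin_quot hN.2.1
  have hNH : ∀ n ∈ N, n ∈ H := by
    intro n hn
    obtain ⟨h, -, rfl⟩ := hNU hn
    exact h.2
  have hle : N.subgroupOf H ≤ N₁ := by
    intro h hh
    obtain ⟨h', h1, h2⟩ := hNU hh
    rwa [← Subtype.ext h2]
  obtain ⟨f', hf', hval⟩ := hlift (N.subgroupOf H) hle
  let q : Γ →* Γ ⧸ N := QuotientGroup.mk' N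
  have hq : Function.Surjective q := QuotientGroup.mk'_surjective N
  let C : Subgroup (Γ ⧸ N) := H.map q
  have hHC : ∀ v, v ∈ H ↔ q v ∈ C := by
    intro v
    constructor
    · intro hv
      exact ⟨v, hv, rfl⟩
    · rintro ⟨v', hv', h1⟩
      have h2 : v'⁻¹ * v ∈ N := QuotientGroup.eq.1 h1
      have h3 := H.mul_mem hv' (hNH _ h2)
      rwa [mul_inv_cancel_left] at h3
  let r : H →* C := (q.comp H.subtype).codRestrict C fun h => (hHC h).1 h.2
  have hr : Function.Surjective r := by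
    rintro ⟨_, ⟨v, hv, rfl⟩⟩
    exact ⟨⟨v, hv⟩, rfl⟩
  have hker : r.ker ≤ (QuotientGroup.mk' (N.subgroupOf H)).ker := by
    intro h hh
    rw [MonoidHom.mem_ker] at hh ⊢
    have h1 : q (h : Γ) = 1 := congrArg Subtype.val hh
    have h2 : (h : Γ) ∈ N := (QuotientGroup.eq_one_iff _).1 h1
    exact (QuotientGroup.eq_one_iff _).2 h2
  let θ : C →* H ⧸ N.subgroupOf H := r.liftOfSurjective hr ⟨QuotientGroup.mk' (N.subgroupOf H), hker⟩
  have hθ : ∀ h : H, θ (r h) = QuotientGroup.mk' (N.subgroupOf H) h := fun h =>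
    r.liftOfRightInverse_comp_apply _ _ ⟨QuotientGroup.mk' (N.subgroupOf H), hker⟩ h
  have hη : (fun c => f' (θ c)) ∈ Vch C := vch_comp θ hf'
  have h1 := rchar_of_vch hN.2.1 (ind_of_vch C hη)
  refine cast (congrArg (fun z => z ∈ RChar Γ) ?_) h1
  funext g
  have h3 := ind_coset q hq C (fun c => f' (θ c)) (fun a b => by
    have h4 := vch_cls hη b a
    exact h4) H hHC g
  change Ind C (fun c => f' (θ c)) (q g) = _
  rw [← h3]
  unfold Indu
  refine finsum_congr fun x => ?_
  by_cases hx : x.out⁻¹ * g * x.out ∈ H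
  · rw [dif_pos hx, ext_mem ((hHC _).1 hx), hval]
    exact congrArg f' (hθ ⟨_, hx⟩)
  · rw [dif_neg hx, ext_not_mem (fun h => hx ((hHC _).2 h))]

end

end Pool.Agent.Q20.LG
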