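import Pool.Agent.Q20.LG.Trans
import Pool.Agent.Q20.LG.Ext

/-!
# Additive inductive functions which vanish at class group characters are sums of local terms
-/

set_option autoImplicit false
set_option linter.unusedSectionVars false

namespace Pool.Agent.Q20.LG

open NumberField IsDedekindDomain Pool.Agent.Q246.RP Pool.Agent.Q273.SP
open Pool.Agent.Q246.BI (Smooth IsCharacter induced NN)
open Subgroup (zpowers)
open scoped Classical

section
variable {Γ : Type} [Group Γ] [TopologicalSpace Γ] [IsTopologicalGroup Γ]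

theorem isChar_conj {χ : Γ → ℂ} (h : IsChar χ) (x g : Γ) : χ (x * g * x⁻¹) = χ g := by
  obtain ⟨n, τ, U, -, -, hτ⟩ := h
  rw [hτ, hτ, map_mul, map_mul, map_inv]
  change ((τ x : Matrix (Fin n) (Fin n) ℂ) * (τ g : Matrix (Fin n) (Fin n) ℂ) *
    ((τ x)⁻¹ : GL (Fin n) ℂ)).trace = _
  rw [Matrix.trace_mul_comm, ← mul_assoc, ← Units.val_mul, inv_mul_cancel, Units.val_one, one_mul]

theorem rchar_conj {f : Γ → ℂ} (hf : f ∈ RChar Γ) (x g : Γ) : f (x * g * x⁻¹) = f g := by
  induction hf using AddSubgroup.closure_induction with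
  | mem f hf => exact isChar_conj hf x g
  | zero => rfl
  | add a b _ _ ha hb => rw [Pi.add_apply, Pi.add_apply, ha, hb]
  | neg a _ ha => rw [Pi.neg_apply, Pi.neg_apply, ha]

theorem mem_closure_conj {u v : Γ} (x : Γ) (h : v ∈ closure (zpowers u : Set Γ)) :
    x * v * x⁻¹ ∈ closure (zpowers (x * u * x⁻¹) : Set Γ) := by
  have h1 : closure (zpowers u : Set Γ) ⊆
      (fun y => x * y * x⁻¹) ⁻¹' closure (zpowers (x * u * x⁻¹) : Set Γ) := by
    refine closure_minimal ?_ (isClosed_closure.preimage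
      ((continuous_mul_const x⁻¹).comp (continuous_const_mul x)))
    intro y hy
    obtain ⟨k, rfl⟩ := Subgroup.mem_zpowers_iff.1 hy
    exact subset_closure (Subgroup.mem_zpowers_iff.2 ⟨k, conj_zpow⟩)
  exact h1 h

theorem same_conj {u v : Γ} (x : Γ) (h : Same u v) : Same (x * u * x⁻¹) (x * v * x⁻¹) :=
  same_of_mem (mem_closure_conj x (same_mem h)) (mem_closure_conj x (same_mem h.symm))

end

section
variable {K : Type} [Field K] [NumberField K]

/-- the local condition at conjugate places -/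
theorem cond_transport (F : IntermediateField K (AlgebraicClosure K))
    {f : F.fixingSubgroup → ℂ} (hf : f ∈ RChar F.fixingSubgroup) {w : AlgebraicClosure K → ℝ}
    (g : F.fixingSubgroup) (h : Cond (ineF F w) (fun x : decF F w => f x)) :
    Cond (ineF F fun x => w ((g : Gal(AlgebraicClosure K/K)) x))
      (fun x : decF F fun x => w ((g : Gal(AlgebraicClosure K/K)) x) => f x) := by
  intro u v huv ht
  have hdec : ∀ z : F.fixingSubgroup, z ∈ decF F (fun x => w ((g : Gal(AlgebraicClosure K/K)) x)) →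
      g * z * g⁻¹ ∈ decF F w := by
    intro z hz x
    have h1 := hz ((g : Gal(AlgebraicClosure K/K))⁻¹ x)
    change w ((g : Gal(AlgebraicClosure K/K)) ((z : Gal(AlgebraicClosure K/K))
      ((g : Gal(AlgebraicClosure K/K))⁻¹ x))) = w ((g : Gal(AlgebraicClosure K/K))
      ((g : Gal(AlgebraicClosure K/K))⁻¹ x)) at h1
    have h2 : (g : Gal(AlgebraicClosure K/K)) ((g : Gal(AlgebraicClosure K/K))⁻¹ x) = x :=
      AlgEquiv.apply_symm_apply _ x
    rw [h2] at h1
    exact h1
  have h1 := h ⟨_, hdec u u.2⟩ ⟨_, hdec v v.2⟩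
    ((same_sub (Δ := decF F w) ⟨_, hdec u u.2⟩ ⟨_, hdec v v.2⟩).2
      (same_conj g ((same_sub u v).1 huv))) ?_
  · change f (g * u * g⁻¹) = f (g * v * g⁻¹) at h1
    rw [rchar_conj hf, rchar_conj hf] at h1
    exact h1
  · have h2 := Ine.conj ht ((g : Gal(AlgebraicClosure K/K))⁻¹)
    have h3 : (fun x => (fun x => w ((g : Gal(AlgebraicClosure K/K)) x))
        ((g : Gal(AlgebraicClosure K/K))⁻¹ x)) = w := by
      funext x
      change w ((g : Gal(AlgebraicClosure K/K)) ((g : Gal(AlgebraicClosure K/K))⁻¹ x)) = w x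
      congr 1
      exact AlgEquiv.apply_symm_apply _ x
    rw [h3] at h2
    change Ine w (((g * u * g⁻¹)⁻¹ * (g * v * g⁻¹) : F.fixingSubgroup) :
      Gal(AlgebraicClosure K/K))
    have h4 : (g * (u : F.fixingSubgroup) * g⁻¹)⁻¹ * (g * v * g⁻¹) =
        g * ((u : F.fixingSubgroup)⁻¹ * v) * g⁻¹ := by group
    rw [h4]
    have h5 : ((g : Gal(AlgebraicClosure K/K))⁻¹)⁻¹ *
        (((u⁻¹ * v : decF F fun x => w ((g : Gal(AlgebraicClosure K/K)) x)) : F.fixingSubgroup) :
          Gal(AlgebraicClosure K/K)) * (g : Gal(AlgebraicClosure K/K))⁻¹ =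
        ((g * ((u : F.fixingSubgroup)⁻¹ * v) * g⁻¹ : F.fixingSubgroup) :
          Gal(AlgebraicClosure K/K)) := by
      rw [inv_inv]
      rfl
    rw [← h5]
    exact h2

/-- a virtual character lives at a finite level -/
theorem rchar_level (F : IntermediateField K (AlgebraicClosure K)) [FiniteDimensional K F]
    {f : F.fixingSubgroup → ℂ} (hf : f ∈ RChar F.fixingSubgroup) :
    ∃ E : IntermediateField K (AlgebraicClosure K), FiniteDimensional K E ∧
      ∀ g t : F.fixingSubgroup, (t : Gal(AlgebraicClosure K/K)) ∈ E.fixingSubgroup →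
        f (g * t) = f g := by
  obtain ⟨N₁, h₁, h2⟩ := exists_lift hf
  have hn := h₁.1
  obtain ⟨f', -, h3⟩ := h2 N₁ le_rfl
  obtain ⟨E, hE, h4⟩ := exists_fd F h₁.2.1 N₁.one_mem
  refine ⟨E, hE, fun g t ht => ?_⟩
  have h5 : QuotientGroup.mk' N₁ t = 1 := (QuotientGroup.eq_one_iff _).2 (h4 t ht)
  rw [h3, h3, map_mul, h5, mul_one]

theorem prime_unique {p q : ℕ} (hp : p.Prime) (hq : q.Prime) {w : AlgebraicClosure K → ℝ}
    (hw : IsPl p w) (hw' : IsPl q w) : p = q := by
  by_contra hne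
  have h4 : ¬ (q : ℤ) ∣ (p : ℤ) := by
    rw [Int.natCast_dvd_natCast]
    exact fun h => hne ((Nat.prime_dvd_prime_iff_eq hq hp).1 h).symm
  have h5 := hw'.int_coprime hq h4
  rw [Int.cast_natCast] at h5
  have h6 := hw.p_lt hp
  rw [h5] at h6
  exact lt_irrefl _ h6

/-- unramified places satisfy the condition -/
theorem cond_unram (F : IntermediateField K (AlgebraicClosure K)) [FiniteDimensional K F]
    {f : F.fixingSubgroup → ℂ} (hf : f ∈ RChar F.fixingSubgroup) :
    ∃ T₁ : Finset ℕ, (∀ p ∈ T₁, p.Prime) ∧ ∀ p : ℕ, p.Prime → p ∉ T₁ →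
      ∀ w : AlgebraicClosure K → ℝ, IsPl p w → Cond (ineF F w) (fun x : decF F w => f x) := by
  obtain ⟨E, hE, h1⟩ := rchar_level F hf
  obtain ⟨T₁, hT₁, hunr⟩ := unramified E
  refine ⟨T₁, hT₁, fun p hp hpT w hw u v _ ht => ?_⟩
  have h2 := hunr p hp hpT w hw _ ht.2
  have h3 := h1 u ((u : F.fixingSubgroup)⁻¹ * v) ((IntermediateField.mem_fixingSubgroup_iff _ _).2 h2)
  rw [mul_inv_cancel_left] at h3
  exact h3.symm

/-- induced linear characters are characters -/
theorem isCharacter_induced (F F' : IntermediateField K (AlgebraicClosure K))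
    [FiniteDimensional K F] (hfd : FiniteDimensional K F') (ψ : F'.fixingSubgroup →* ℂˣ)
    (hs : Smooth F' ψ) : IsCharacter F (induced F F' (fun g => ((ψ g : ℂˣ) : ℂ))) := by
  obtain ⟨ψ', hψ', h1⟩ := induced_eq F F' ψ
  obtain ⟨E, hE, hEψ⟩ := hs
  rw [isChar_iff, h1]
  refine isChar_indu _ (isOpen_sub F F') ψ' (U := E.fixingSubgroup.subgroupOf F.fixingSubgroup)
    (isOpen_sub F E) fun h hh => ?_
  rw [hψ']
  exact hEψ _ hh

variable {B : Type} [AddCommGroup B]

/-- **The localization theorem.** -/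
theorem localize
    (D : ∀ F : IntermediateField K (AlgebraicClosure K), (F.fixingSubgroup → ℂ) → B)
    (hadd : ∀ F : IntermediateField K (AlgebraicClosure K), FiniteDimensional K F →
      ∀ χ χ' : F.fixingSubgroup → ℂ, IsCharacter F χ → IsCharacter F χ' →
        D F (χ + χ') = D F χ + D F χ')
    (hind : ∀ F F' : IntermediateField K (AlgebraicClosure K), F ≤ F' → FiniteDimensional K F' →
      ∀ χ : F'.fixingSubgroup → ℂ, IsCharacter F' χ → D F (induced F F' χ) = D F' χ)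
    (hdiv : Module.Baer ℤ B) (htf : ∀ (m : ℕ) (b : B), 0 < m → m • b = 0 → b = 0)
    (hD1 : ∀ F : IntermediateField K (AlgebraicClosure K), FiniteDimensional K F →
      D F (fun _ => 1) = 0) {M : ℕ} (hM : 0 < M) (T : Set ℕ)
    (hD : ∀ F : IntermediateField K (AlgebraicClosure K), FiniteDimensional K F →
      IsEmpty (F →+* ℝ) → M ∣ Module.finrank K F → ∀ ψ : F.fixingSubgroup →* ℂˣ, Smooth F ψ →
        UnrAt T F ψ → D F (fun g => ((ψ g : ℂˣ) : ℂ)) = 0)
    (F : IntermediateField K (AlgebraicClosure K)) [FiniteDimensional K F]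
    (w : HeightOneSpectrum (𝓞 F) → (AlgebraicClosure K → ℝ)) (hw : ∀ v, Above F v (w v)) :
    ∃ δ : ∀ v, (decF F (w v) → ℂ) →+ B,
      (∀ v, ∀ y ∈ AddSubgroup.closure (Unr (ineF F (w v))), δ v y = 0) ∧
      (∀ v, (∃ p : ℕ, p.Prime ∧ p ∈ T ∧ (p : 𝓞 F) ∈ v.asIdeal) → δ v = 0) ∧
      ∀ χ, IsCharacter F χ → D F χ = ∑ᶠ v, δ v (fun g => χ g) := by
  have hFd : FiniteDimensional K F := inferInstance
  obtain ⟨E, hE⟩ : ∃ E : RChar F.fixingSubgroup →+ B, ∀ (a : F.fixingSubgroup → ℂ)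
      (ha : IsChar a), E ⟨a, AddSubgroup.subset_closure ha⟩ = D F a :=
    exists_hom {χ : F.fixingSubgroup → ℂ | IsChar χ} isChar_zero
      (fun a b ha hb => IsChar.add ha hb) (D F)
      (fun a b ha hb => hadd F hFd a b ((isChar_iff F a).2 ha) ((isChar_iff F b).2 hb))
  let V : ∀ v : HeightOneSpectrum (𝓞 F), AddSubgroup (decF F (w v) → ℂ) := fun v =>
    if ∃ p : ℕ, p.Prime ∧ p ∈ T ∧ (p : 𝓞 F) ∈ v.asIdeal then ⊤ else
      AddSubgroup.closure (Unr (ineF F (w v)))
  have hVle : ∀ v, AddSubgroup.closure (Unr (ineF F (w v))) ≤ V v := by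
    intro v
    change _ ≤ ite _ _ _
    split_ifs
    · exact le_top
    · exact le_rfl
  let res : ∀ v : HeightOneSpectrum (𝓞 F), (F.fixingSubgroup → ℂ) →+ (decF F (w v) → ℂ) :=
    fun v =>
      { toFun := fun f g => f g
        map_zero' := rfl
        map_add' := fun _ _ => rfl }
  obtain ⟨δ, hδ1, hδ2⟩ := exists_local (RChar F.fixingSubgroup) E hdiv V res (by
    intro r hr
    have hcond : Cond (TT T F) (r : F.fixingSubgroup → ℂ) := by
      rw [cond_iff_local]
      intro p hp hpT w' hw'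
      obtain ⟨v, hv, hpv⟩ := exists_above F hp hw'
      obtain ⟨g, rfl⟩ := transitive F v (hw v) hv
      apply cond_transport F r.2
      obtain ⟨⟨q, hq, hqw⟩, -⟩ := hw v
      have hvT : ¬ ∃ p : ℕ, p.Prime ∧ p ∈ T ∧ (p : 𝓞 F) ∈ v.asIdeal := by
        rintro ⟨p', hp', hp'T, hp'v⟩
        have h1 := (above_prime (hw v) hp').1 hp'v
        have h2 := (above_prime (hw v) hp).1 hpv
        rw [prime_unique hp' hp h1 h2] at hp'T
        exact hpT hp'T
      have h3 := hr v
      have h4 : V v = AddSubgroup.closure (Unr (ineF F (w v))) := if_neg hvT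
      rw [h4] at h3
      exact (local_criterion F hq hqw (rchar_res (decF F (w v)) r.2)).1 h3
    obtain ⟨m, hm, h1⟩ := cond_genM hM T F r.2 hcond
    have h2 : AddSubgroup.closure (GenM M T F) ≤ E.ker.map (RChar F.fixingSubgroup).subtype := by
      rw [AddSubgroup.closure_le]
      rintro _ ⟨F', ψ, hle, hfd, hs, hψ, rfl⟩
      have h3 := isCharacter_induced F F' hfd ψ hs
      have h4 := (isChar_iff F _).1 h3
      refine ⟨⟨_, AddSubgroup.subset_closure h4⟩, ?_, rfl⟩
      rw [SetLike.mem_coe, AddMonoidHom.mem_ker]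
      refine (hE _ h4).trans ?_
      have h5 : IsCharacter F' (fun g => ((ψ g : ℂˣ) : ℂ)) := by
        refine ⟨1, (Units.map (Matrix.scalar (Fin 1) (α := ℂ)).toMonoidHom).comp ψ, ?_, fun g => ?_⟩
        · obtain ⟨E', hE', hEψ⟩ := hs
          exact ⟨E', hE', fun g hg => by rw [MonoidHom.comp_apply, hEψ g hg, map_one]⟩
        · change _ = (Matrix.scalar (Fin 1) ((ψ g : ℂˣ) : ℂ)).trace
          simp [Matrix.trace]
      rw [hind F F' hle hfd _ h5]
      rcases hψ with ⟨h6, h7, h8⟩ | rfl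
      · exact hD F' hfd h6 h7 ψ hs h8
      · exact hD1 F' hfd
    obtain ⟨⟨x, hx⟩, hx1, hx2⟩ := h2 h1
    have h3 : (⟨x, hx⟩ : RChar F.fixingSubgroup) = m • r := Subtype.ext hx2
    rw [SetLike.mem_coe, AddMonoidHom.mem_ker, h3, map_nsmul] at hx1
    exact htf m _ hm hx1) (by
    intro r
    obtain ⟨T₁, hT₁, h1⟩ := cond_unram F r.2
    refine (finite_above F T₁ hT₁).subset fun v hv => ?_
    by_contra hcon
    apply hv
    obtain ⟨⟨q, hq, hqw⟩, -⟩ := hw v
    have hqT : q ∉ T₁ := fun h => hcon ⟨q, h, (above_prime (hw v) hq).2 hqw⟩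
    obtain ⟨m, hm, h2⟩ := (local_criterion F hq hqw (rchar_res (decF F (w v)) r.2)).2
      (h1 q hq hqT (w v) hqw)
    exact ⟨m, hm, hVle v h2⟩)
  refine ⟨δ, fun v y hy => ?_, fun v hv => ?_, fun χ hχ => ?_⟩
  · exact hδ1 v y ⟨1, Nat.one_pos, by rw [one_nsmul]; exact hVle v hy⟩
  · ext1 y
    refine hδ1 v y ⟨1, Nat.one_pos, ?_⟩
    have h4 : V v = ⊤ := if_pos hv
    rw [h4]
    exact AddSubgroup.mem_top _
  · have h1 := (isChar_iff F χ).1 hχ
    have h2 := hδ2 ⟨χ, AddSubgroup.subset_closure h1⟩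
    rw [hE χ h1] at h2
    exact h2

end

end Pool.Agent.Q20.LG
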