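import Pool.Agent.Q20.LG.IndR

/-!
# The local condition for the restriction of an induced function (Mackey's formula)
-/

set_option autoImplicit false
set_option linter.unusedSectionVars false

namespace Pool.Agent.Q20.LG

open Subgroup (zpowers)
open scoped Classical

section
variable {Γ : Type} [Group Γ] [TopologicalSpace Γ] [IsTopologicalGroup Γ]

theorem mem_of_same {H : Subgroup Γ} (hH : IsClosed (H : Set Γ)) {u v : Γ} (h : Same u v)
    (hu : u ∈ H) : v ∈ H := by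
  have h1 : closure (zpowers u : Set Γ) ⊆ H :=
    closure_minimal (Subgroup.zpowers_le.2 hu) hH
  exact h1 (same_mem h)

theorem same_conj' {u v : Γ} (x : Γ) (h : Same u v) : Same (x⁻¹ * u * x) (x⁻¹ * v * x) := by
  have h1 := same_conj x⁻¹ h
  rwa [inv_inv] at h1

variable [CompactSpace Γ]

theorem mackey_split (H : Subgroup Γ) (hH : IsOpen (H : Set Γ)) (D : Subgroup Γ) {f : H → ℂ}
    (hf : ∀ a b : H, f (b⁻¹ * a * b) = f a) :
    ∃ S : Finset (Γ ⧸ H), (∀ x ∈ S, ∀ d ∈ D, d⁻¹ * x.out ∉ H) ∧ ∀ u : Γ, Indu H f u =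
      (∑ᶠ y : D ⧸ H.subgroupOf D, if h : (y.out : Γ)⁻¹ * u * (y.out : Γ) ∈ H then f ⟨_, h⟩ else 0) +
      ∑ x ∈ S, if h : x.out⁻¹ * u * x.out ∈ H then f ⟨_, h⟩ else 0 := by
  have hfin : Finite (Γ ⧸ H) := Subgroup.quotient_finite_of_isOpen H hH
  let ι : D ⧸ H.subgroupOf D → Γ ⧸ H := fun y => ((y.out : D) : Γ)
  have hι : Function.Injective ι := by
    intro y y' h
    have h1 : ((y.out : D) : Γ)⁻¹ * ((y'.out : D) : Γ) ∈ H := QuotientGroup.eq.1 h
    have h2 : (y.out : D)⁻¹ * (y'.out : D) ∈ H.subgroupOf D := h1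
    rw [← QuotientGroup.eq, QuotientGroup.out_eq', QuotientGroup.out_eq'] at h2
    exact h2
  have hfinQ : Finite (D ⧸ H.subgroupOf D) := Finite.of_injective ι hι
  have : Fintype (Γ ⧸ H) := Fintype.ofFinite _
  have : Fintype (D ⧸ H.subgroupOf D) := Fintype.ofFinite _
  refine ⟨(Finset.univ.image ι)ᶜ, fun x hx d hd hdx => ?_, fun u => ?_⟩
  · rw [Finset.mem_compl, Finset.mem_image] at hx
    apply hx
    refine ⟨((⟨d, hd⟩ : D) : D ⧸ H.subgroupOf D), Finset.mem_univ _, ?_⟩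
    have h1 : ((((⟨d, hd⟩ : D) : D ⧸ H.subgroupOf D).out : D))⁻¹ * ⟨d, hd⟩ ∈ H.subgroupOf D := by
      rw [← QuotientGroup.eq, QuotientGroup.out_eq']
    have h2 : ((((⟨d, hd⟩ : D) : D ⧸ H.subgroupOf D).out : D) : Γ)⁻¹ * d ∈ H := h1
    have h3 := H.mul_mem h2 hdx
    rw [mul_assoc, mul_inv_cancel_left, ← QuotientGroup.eq, QuotientGroup.out_eq'] at h3
    exact h3
  · have hinv : ∀ g h : Γ, h ∈ H → (if h' : (g * h)⁻¹ * u * (g * h) ∈ H then f ⟨_, h'⟩ else 0) =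
        if h' : g⁻¹ * u * g ∈ H then f ⟨_, h'⟩ else 0 := by
      intro g h hh
      have h1 : (g * h)⁻¹ * u * (g * h) = h⁻¹ * (g⁻¹ * u * g) * h := by group
      by_cases h2 : g⁻¹ * u * g ∈ H
      · have h3 : (g * h)⁻¹ * u * (g * h) ∈ H := by
          rw [h1]
          exact H.mul_mem (H.mul_mem (H.inv_mem hh) h2) hh
        rw [dif_pos h2, dif_pos h3, ← hf ⟨_, h2⟩ ⟨h, hh⟩]
        congr 1
        exact Subtype.ext h1
      · have h3 : (g * h)⁻¹ * u * (g * h) ∉ H := by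
          intro h3
          apply h2
          rw [h1] at h3
          have h4 := H.mul_mem (H.mul_mem hh h3) (H.inv_mem hh)
          have h5 : h * (h⁻¹ * (g⁻¹ * u * g) * h) * h⁻¹ = g⁻¹ * u * g := by group
          rwa [h5] at h4
        rw [dif_neg h2, dif_neg h3]
    unfold Indu
    rw [finsum_eq_sum_of_fintype, finsum_eq_sum_of_fintype,
      ← Finset.sum_add_sum_compl (Finset.univ.image ι), Finset.sum_image (fun a _ b _ h => hι h)]
    congr 1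
    refine Finset.sum_congr rfl fun y _ => ?_
    have h2 : ((y.out : D) : Γ)⁻¹ * (ι y).out ∈ H := by
      rw [← QuotientGroup.eq, QuotientGroup.out_eq']
    have h3 := hinv ((y.out : D) : Γ) _ h2
    rw [← h3]
    simp only [mul_inv_cancel_left]

theorem mackey_cond (H : Subgroup Γ) (hH : IsOpen (H : Set Γ)) (D : Subgroup Γ) {I : Set Γ}
    (hI : ∀ t ∈ I, ∀ x ∈ D, x⁻¹ * t * x ∈ I) {f : H → ℂ} (hf : ∀ a b : H, f (b⁻¹ * a * b) = f a)
    (φ : H.subgroupOf D → ℂ) (m : ℕ)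
    (hA : ∀ (a b : Γ) (ha : a ∈ H) (hb : b ∈ H) (haD : a ∈ D) (hbD : b ∈ D), Same a b →
      a⁻¹ * b ∈ I → f ⟨a, ha⟩ - m • φ ⟨⟨a, haD⟩, ha⟩ = f ⟨b, hb⟩ - m • φ ⟨⟨b, hbD⟩, hb⟩)
    (hB : ∀ x : Γ, (∀ d ∈ D, d⁻¹ * x ∉ H) → ∀ u v : Γ, u ∈ D → v ∈ D → Same u v → u⁻¹ * v ∈ I →
      ∀ (ha : x⁻¹ * u * x ∈ H) (hb : x⁻¹ * v * x ∈ H), f ⟨_, ha⟩ = f ⟨_, hb⟩)
    {u v : D} (huv : Same (u : Γ) v) (ht : (u : Γ)⁻¹ * v ∈ I) :
    Indu H f u - m • Indu (H.subgroupOf D) φ u = Indu H f v - m • Indu (H.subgroupOf D) φ v := by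
  have hcl : IsClosed (H : Set Γ) := H.isClosed_of_isOpen hH
  have hmem : ∀ x : Γ, x⁻¹ * (u : Γ) * x ∈ H ↔ x⁻¹ * (v : Γ) * x ∈ H := fun x =>
    ⟨fun h => mem_of_same hcl (same_conj' x huv) h, fun h => mem_of_same hcl (same_conj' x huv).symm h⟩
  obtain ⟨S, hS, h1⟩ := mackey_split H hH D hf
  have hfin : Finite (Γ ⧸ H) := Subgroup.quotient_finite_of_isOpen H hH
  have hfinQ : Finite (D ⧸ H.subgroupOf D) := by
    refine Finite.of_injective (fun y : D ⧸ H.subgroupOf D => (((y.out : D) : Γ) : Γ ⧸ H)) ?_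
    intro y y' h
    have h1 : ((y.out : D) : Γ)⁻¹ * ((y'.out : D) : Γ) ∈ H := QuotientGroup.eq.1 h
    have h2 : (y.out : D)⁻¹ * (y'.out : D) ∈ H.subgroupOf D := h1
    rw [← QuotientGroup.eq, QuotientGroup.out_eq', QuotientGroup.out_eq'] at h2
    exact h2
  have : Fintype (D ⧸ H.subgroupOf D) := Fintype.ofFinite _
  have h2 : ∀ z : D, Indu H f z - m • Indu (H.subgroupOf D) φ z =
      (∑ y : D ⧸ H.subgroupOf D, if h : (y.out : Γ)⁻¹ * (z : Γ) * (y.out : Γ) ∈ H then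
        f ⟨_, h⟩ - m • φ ⟨(y.out : D)⁻¹ * z * (y.out : D), h⟩ else 0) +
      ∑ x ∈ S, if h : x.out⁻¹ * (z : Γ) * x.out ∈ H then f ⟨_, h⟩ else 0 := by
    intro z
    rw [h1]
    unfold Indu
    rw [finsum_eq_sum_of_fintype, finsum_eq_sum_of_fintype, Finset.smul_sum, add_sub_right_comm,
      ← Finset.sum_sub_distrib]
    congr 1
    refine Finset.sum_congr rfl fun y _ => ?_
    by_cases h : (y.out : Γ)⁻¹ * (z : Γ) * (y.out : Γ) ∈ H
    · have h' : (y.out : D)⁻¹ * z * (y.out : D) ∈ H.subgroupOf D := h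
      rw [dif_pos h, dif_pos h, dif_pos h']
    · have h' : (y.out : D)⁻¹ * z * (y.out : D) ∉ H.subgroupOf D := h
      rw [dif_neg h, dif_neg h, dif_neg h', smul_zero, sub_zero]
  rw [h2, h2]
  congr 1
  · refine Finset.sum_congr rfl fun y _ => ?_
    by_cases h : (y.out : Γ)⁻¹ * (u : Γ) * (y.out : Γ) ∈ H
    · have h' := (hmem _).1 h
      rw [dif_pos h, dif_pos h']
      refine hA _ _ h h' ((y.out : D)⁻¹ * u * (y.out : D)).2 ((y.out : D)⁻¹ * v * (y.out : D)).2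
        (same_conj' _ huv) ?_
      have h3 := hI _ ht (y.out : D) (y.out : D).2
      have h4 : ((y.out : Γ)⁻¹ * (u : Γ) * (y.out : Γ))⁻¹ * ((y.out : Γ)⁻¹ * (v : Γ) * (y.out : Γ)) =
        (y.out : Γ)⁻¹ * ((u : Γ)⁻¹ * v) * (y.out : Γ) := by group
      rw [h4]
      exact h3
    · have h' := fun h' => h ((hmem _).2 h')
      rw [dif_neg h, dif_neg h']
  · refine Finset.sum_congr rfl fun x hx => ?_
    by_cases h : x.out⁻¹ * (u : Γ) * x.out ∈ H
    · have h' := (hmem _).1 h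
      rw [dif_pos h, dif_pos h']
      exact hB x.out (hS x hx) u v u.2 v.2 huv ht h h'
    · have h' := fun h' => h ((hmem _).2 h')
      rw [dif_neg h, dif_neg h']

end

end Pool.Agent.Q20.LG
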