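import Pool.Agent.Q20.LG.Num

/-!
# The local-global principle for characters induced from unramified linear characters
-/

set_option autoImplicit false
set_option linter.unusedSectionVars false

namespace Pool.Agent.Q20.LG

open NumberField Pool.Agent.Q246.RP Pool.Agent.Q273.SP
open Pool.Agent.Q246.BI (Smooth IsCharacter induced NN)
open Subgroup (zpowers)
open scoped Classical

section
variable {K : Type} [Field K] [NumberField K]

/-- `ψ` is unramified at all finite places above the primes outside `T` -/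
def UnrAt (T : Set ℕ) (F : IntermediateField K (AlgebraicClosure K))
    (ψ : F.fixingSubgroup →* ℂˣ) : Prop :=
  ∀ p : ℕ, p.Prime → p ∉ T → ∀ w : AlgebraicClosure K → ℝ, IsPl p w →
    ∀ g : F.fixingSubgroup, Ine w (g : Gal(AlgebraicClosure K/K)) → ψ g = 1

/-- functions induced from linear characters unramified outside `T` -/
def GenU (T : Set ℕ) (F : IntermediateField K (AlgebraicClosure K)) :
    Set (F.fixingSubgroup → ℂ) :=
  {f | ∃ (F' : IntermediateField K (AlgebraicClosure K)) (ψ : F'.fixingSubgroup →* ℂˣ),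
    F ≤ F' ∧ FiniteDimensional K F' ∧ Smooth F' ψ ∧ UnrAt T F' ψ ∧
    f = induced F F' (fun g => ((ψ g : ℂˣ) : ℂ))}

/-- the same with totally complex fields of degree divisible by `M`, or trivial characters -/
def GenM (M : ℕ) (T : Set ℕ) (F : IntermediateField K (AlgebraicClosure K)) :
    Set (F.fixingSubgroup → ℂ) :=
  {f | ∃ (F' : IntermediateField K (AlgebraicClosure K)) (ψ : F'.fixingSubgroup →* ℂˣ),
    F ≤ F' ∧ FiniteDimensional K F' ∧ Smooth F' ψ ∧
    ((IsEmpty (F' →+* ℝ) ∧ M ∣ Module.finrank K F' ∧ UnrAt T F' ψ) ∨ ψ = 1) ∧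
    f = induced F F' (fun g => ((ψ g : ℂˣ) : ℂ))}

/-- the decomposition group of `w` in `Gal(K̄/F)` -/
def decF (F : IntermediateField K (AlgebraicClosure K)) (w : AlgebraicClosure K → ℝ) :
    Subgroup F.fixingSubgroup where
  carrier := {g | Dec w (g : Gal(AlgebraicClosure K/K))}
  mul_mem' := fun ha hb => Dec.mul ha hb
  one_mem' := fun _ => rfl
  inv_mem' := fun ha => Dec.inv ha

/-- its inertia subgroup -/
def ineF (F : IntermediateField K (AlgebraicClosure K)) (w : AlgebraicClosure K → ℝ) :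
    Set (decF F w) :=
  {g | Ine w ((g : F.fixingSubgroup) : Gal(AlgebraicClosure K/K))}

instance decF_compact (F : IntermediateField K (AlgebraicClosure K)) (w : AlgebraicClosure K → ℝ) :
    CompactSpace (decF F w) := by
  have h1 : IsClosed (decF F w : Set F.fixingSubgroup) :=
    (isClosed_dec w).preimage continuous_subtype_val
  exact isCompact_iff_compactSpace.1 h1.isCompact

theorem isClosed_ineF (F : IntermediateField K (AlgebraicClosure K)) {p : ℕ} (hp : p.Prime)
    {w : AlgebraicClosure K → ℝ} (hw : IsPl p w) : IsClosed (ineF F w) :=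
  (isClosed_one hp hw).preimage (continuous_subtype_val.comp continuous_subtype_val)

theorem ineF_conj (F : IntermediateField K (AlgebraicClosure K)) (w : AlgebraicClosure K → ℝ) :
    ∀ t ∈ ineF F w, ∀ x : decF F w, x⁻¹ * t * x ∈ ineF F w := by
  intro t ht x
  have h1 := Ine.conj ht ((x : F.fixingSubgroup) : Gal(AlgebraicClosure K/K))
  have h2 : (fun y => w (((x : F.fixingSubgroup) : Gal(AlgebraicClosure K/K)) y)) = w :=
    funext fun y => x.2 y
  rw [h2] at h1
  exact h1

theorem ineF_pow (F : IntermediateField K (AlgebraicClosure K)) {p : ℕ}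
    {w : AlgebraicClosure K → ℝ} (hw : IsPl p w) :
    ∀ t ∈ ineF F w, ∀ k : ℕ, t ^ k ∈ ineF F w := by
  intro t ht k
  change Ine w (((t ^ k : decF F w) : F.fixingSubgroup) : Gal(AlgebraicClosure K/K))
  rw [Subgroup.coe_pow, Subgroup.coe_pow]
  exact ine_pow hw ht k

/-- the local criterion -/
theorem local_criterion (F : IntermediateField K (AlgebraicClosure K)) {p : ℕ} (hp : p.Prime)
    {w : AlgebraicClosure K → ℝ} (hw : IsPl p w) {f : decF F w → ℂ} (hf : f ∈ RChar (decF F w)) :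
    (∃ m : ℕ, 0 < m ∧ m • f ∈ AddSubgroup.closure (Unr (ineF F w))) ↔ Cond (ineF F w) f :=
  criterion (isClosed_ineF F hp hw) (ineF_conj F w) (ineF_pow F hw) hf

theorem genU_cond (T : Set ℕ) (F : IntermediateField K (AlgebraicClosure K))
    {f : F.fixingSubgroup → ℂ} (hf : f ∈ GenU T F) : Cond (TT T F) f := by
  obtain ⟨F', ψ, hle, hfd, hs, hψ, rfl⟩ := hf
  obtain ⟨ψ', hψ', h1⟩ := induced_eq F F' ψ
  rw [h1]
  intro u v huv ht
  refine indu_nec (tt_conj T F) _ (isOpen_sub F F') _ (fun a b hb => ?_) huv ht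
  have h2 : ψ' b = 1 := by
    rw [hψ']
    rcases hb with hb | ⟨⟨⟨p, w⟩, hp, hpT, hw⟩, hb⟩
    · have h4 : ((b : F.fixingSubgroup) : Gal(AlgebraicClosure K/K)) = 1 :=
        congrArg Subtype.val hb
      have h3 : (⟨((b : F.fixingSubgroup) : Gal(AlgebraicClosure K/K)), b.2⟩ : F'.fixingSubgroup) =
          1 := Subtype.ext h4
      rw [h3, map_one]
    · exact hψ p hp hpT w hw _ hb
  rw [map_mul, h2, mul_one]

/-- the condition gives the strong form -/
theorem cond_genM {M : ℕ} (hM : 0 < M) (T : Set ℕ) (F : IntermediateField K (AlgebraicClosure K))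
    [FiniteDimensional K F] {f : F.fixingSubgroup → ℂ} (hf : f ∈ RChar F.fixingSubgroup)
    (h : Cond (TT T F) f) : ∃ m : ℕ, 0 < m ∧ m • f ∈ AddSubgroup.closure (GenM M T F) := by
  obtain ⟨L₂, hL₂, hdeg⟩ := Pool.Agent.Q246.BI.exists_deg (K := K) hM
  let L : IntermediateField K (AlgebraicClosure K) :=
    IntermediateField.normalClosure K L₂ (AlgebraicClosure K)
  have hLfd : FiniteDimensional K L := inferInstance
  have hLn : Normal K L := inferInstance
  have hL₂L : L₂ ≤ L := IntermediateField.le_normalClosure L₂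
  have h₀ : Lv (NN F L) (NN F L) := ⟨inferInstance, isOpen_sub F L, le_rfl⟩
  obtain ⟨N, hN, m, hm, h1⟩ := profinite_main (isClosed_tt T F) (isClosed_ccs F) (tt_conj T F)
    (tt_pow T F) (cc_conj F) hf h (fun u v huv hs => by rw [cc_same F huv hs]) h₀
  refine ⟨m, hm, AddSubgroup.closure_mono ?_ h1⟩
  rintro _ ⟨H, ψ, hNH, ⟨u, hu⟩, hψN, hψ, rfl⟩
  obtain ⟨F', ψ', hFF', hfd, hs, hiff, hval, hind⟩ := exists_fld F H
    (Subgroup.isOpen_mono hNH hN.2.1) ψ hN.2.1 hψN
  have hmem : ∀ g : Gal(AlgebraicClosure K/K), g ∈ F'.fixingSubgroup →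
      ∃ h1 : g ∈ F.fixingSubgroup, (⟨g, h1⟩ : F.fixingSubgroup) ∈ H := by
    intro g hg
    have h2 := IntermediateField.fixingSubgroup_antitone hFF' hg
    exact ⟨h2, (hiff ⟨g, h2⟩).2 hg⟩
  refine ⟨F', ψ', hFF', hfd, hs, ?_, hind.symm⟩
  rcases hψ with rfl | ⟨hψ1, hψ2⟩
  · right
    ext g
    obtain ⟨h2, h3⟩ := hmem g g.2
    rw [hval g h2 h3]
    rfl
  · left
    refine ⟨?_, ?_, ?_⟩
    · by_contra hne
      rw [not_isEmpty_iff] at hne
      obtain ⟨t, ht, htF⟩ := Pool.Agent.Q246.BI.real_cc F' hne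
      obtain ⟨h2, h3⟩ := hmem t ((IntermediateField.mem_fixingSubgroup_iff _ _).2 htF)
      exact hψ1 ⟨t, h2⟩ ht h3
    · obtain ⟨F₁, hF₁, hσ, hfdF₁, hM₁⟩ := hdeg (u : Gal(AlgebraicClosure K/K))
      have hF₁L : F₁ ≤ L := hF₁.trans hL₂L
      have hle₁ : F'.fixingSubgroup ≤ F₁.fixingSubgroup := by
        intro g hg
        obtain ⟨h2, h3⟩ := hmem g hg
        obtain ⟨k, hk⟩ := hu _ h3
        have h4 := hN.2.2 hk
        rw [Pool.Agent.Q246.BI.mem_nn] at h4
        rw [IntermediateField.mem_fixingSubgroup_iff]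
        intro x hx
        have h5 := h4 x (hF₁L hx)
        change ((u ^ k : F.fixingSubgroup) : Gal(AlgebraicClosure K/K)).symm (g x) = x at h5
        rw [AlgEquiv.symm_apply_eq] at h5
        change g x = x
        rw [h5, Subgroup.coe_zpow]
        have h6 : (u : Gal(AlgebraicClosure K/K)) ∈
          MulAction.stabilizer (Gal(AlgebraicClosure K/K)) x := hσ x hx
        exact Subgroup.zpow_mem _ h6 k
      have hle₂ : F₁ ≤ F' := by
        have h2 : IntermediateField.fixedField F₁.fixingSubgroup ≤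
            IntermediateField.fixedField F'.fixingSubgroup := by
          intro x hx
          rw [IntermediateField.mem_fixedField_iff] at hx ⊢
          exact fun g hg => hx g (hle₁ hg)
        rwa [InfiniteGalois.fixedField_fixingSubgroup, InfiniteGalois.fixedField_fixingSubgroup] at h2
      exact hM₁.trans (IntermediateField.finrank_dvd_of_le_right hle₂)
    · intro p hp hpT w hw g hg
      obtain ⟨h2, h3⟩ := hmem g g.2
      rw [hval g h2 h3]
      exact hψ2 _ (Or.inr ⟨⟨(p, w), hp, hpT, hw⟩, hg⟩)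

theorem genM_genU (M : ℕ) (T : Set ℕ) (F : IntermediateField K (AlgebraicClosure K)) :
    GenM M T F ⊆ GenU T F := by
  rintro _ ⟨F', ψ, h1, h2, h3, h4, rfl⟩
  refine ⟨F', ψ, h1, h2, h3, ?_, rfl⟩
  rcases h4 with ⟨-, -, h⟩ | rfl
  · exact h
  · exact fun p _ _ w _ g _ => rfl

/-- **The criterion over number fields.** -/
theorem global_criterion {M : ℕ} (hM : 0 < M) (T : Set ℕ)
    (F : IntermediateField K (AlgebraicClosure K)) [FiniteDimensional K F]
    {f : F.fixingSubgroup → ℂ} (hf : f ∈ RChar F.fixingSubgroup) :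
    ((∃ m : ℕ, 0 < m ∧ m • f ∈ AddSubgroup.closure (GenU T F)) ↔ Cond (TT T F) f) ∧
    ((∃ m : ℕ, 0 < m ∧ m • f ∈ AddSubgroup.closure (GenM M T F)) ↔ Cond (TT T F) f) := by
  have h1 : (∃ m : ℕ, 0 < m ∧ m • f ∈ AddSubgroup.closure (GenU T F)) → Cond (TT T F) f := by
    rintro ⟨m, hm, h⟩
    exact cond_of_nsmul hm (cond_closure (fun a ha => genU_cond T F ha) h)
  have h2 : (∃ m : ℕ, 0 < m ∧ m • f ∈ AddSubgroup.closure (GenM M T F)) →
      ∃ m : ℕ, 0 < m ∧ m • f ∈ AddSubgroup.closure (GenU T F) := by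
    rintro ⟨m, hm, h⟩
    exact ⟨m, hm, AddSubgroup.closure_mono (genM_genU M T F) h⟩
  have h3 := cond_genM hM T F hf
  exact ⟨⟨h1, fun h => h2 (h3 h)⟩, ⟨fun h => h1 (h2 h), h3⟩⟩

/-- the condition is local -/
theorem cond_iff_local (T : Set ℕ) (F : IntermediateField K (AlgebraicClosure K))
    (f : F.fixingSubgroup → ℂ) : Cond (TT T F) f ↔
      ∀ p : ℕ, p.Prime → p ∉ T → ∀ w : AlgebraicClosure K → ℝ, IsPl p w →
        Cond (ineF F w) (fun g : decF F w => f g) := by
  let ι := {z : ℕ × (AlgebraicClosure K → ℝ) // z.1.Prime ∧ z.1 ∉ T ∧ IsPl z.1 z.2}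
  have h1 := cond_local (fun i : ι => decF F i.1.2)
    (fun i => {g : F.fixingSubgroup | Ine i.1.2 (g : Gal(AlgebraicClosure K/K))})
    (fun i t ht => ht.1)
    (fun i t ht ht1 u hu => dec_of_mem i.2.1 i.2.2.2 ht.1
      (fun h => ht1 (Subtype.ext h)) (congrArg Subtype.val hu)) f
  constructor
  · intro h p hp hpT w hw
    exact h1.1 h ⟨(p, w), hp, hpT, hw⟩
  · intro h
    exact h1.2 fun i => h i.1.1 i.2.1 i.2.2.1 i.1.2 i.2.2.2

/-- **The local-global principle.** -/
theorem local_global {M : ℕ} (hM : 0 < M) (T : Set ℕ)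
    (F : IntermediateField K (AlgebraicClosure K)) [FiniteDimensional K F]
    {f : F.fixingSubgroup → ℂ} (hf : f ∈ RChar F.fixingSubgroup) :
    (∃ m : ℕ, 0 < m ∧ m • f ∈ AddSubgroup.closure (GenM M T F)) ↔
      ∀ p : ℕ, p.Prime → p ∉ T → ∀ w : AlgebraicClosure K → ℝ, IsPl p w →
        ∃ m : ℕ, 0 < m ∧ (m • fun g : decF F w => f g) ∈ AddSubgroup.closure (Unr (ineF F w)) := by
  rw [(global_criterion hM T F hf).2, cond_iff_local]
  refine forall_congr' fun p => forall_congr' fun hp => forall_congr' fun _ =>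
    forall_congr' fun w => forall_congr' fun hw => ?_
  exact (local_criterion F hp hw (rchar_res (decF F w) hf)).symm

end

end Pool.Agent.Q20.LG
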