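import Pool.Agent.Q20.LG.Rat

/-!
# The criterion for profinite groups
-/

set_option autoImplicit false
set_option linter.unusedSectionVars false

namespace Pool.Agent.Q20.LG

open Pool.Agent.Q246.BI
open Subgroup (zpowers)
open scoped Classical

section defs
variable {Γ : Type} [Group Γ]

/-- the function induced from a function on a subgroup of finite index (Frobenius' formula) -/
noncomputable def Indu (H : Subgroup Γ) (φ : H → ℂ) (g : Γ) : ℂ :=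
  ∑ᶠ x : Γ ⧸ H, if h : x.out⁻¹ * g * x.out ∈ H then φ ⟨_, h⟩ else 0

variable [TopologicalSpace Γ]

/-- the characters of the complex representations with open kernel -/
def IsChar (χ : Γ → ℂ) : Prop :=
  ∃ (n : ℕ) (τ : Γ →* GL (Fin n) ℂ) (U : Subgroup Γ), IsOpen (U : Set Γ) ∧ (∀ g ∈ U, τ g = 1) ∧
    ∀ g, χ g = (τ g : Matrix (Fin n) (Fin n) ℂ).trace

/-- virtual characters -/
def RChar (Γ : Type) [Group Γ] [TopologicalSpace Γ] : AddSubgroup (Γ → ℂ) :=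
  AddSubgroup.closure {χ | IsChar χ}

/-- `u` and `v` generate the same closed subgroup -/
def Same (u v : Γ) : Prop := closure (zpowers u : Set Γ) = closure (zpowers v : Set Γ)

/-- `u` and `v` generate the same subgroup modulo `N` -/
def Lev (N : Subgroup Γ) (u v : Γ) : Prop :=
  (∃ k : ℤ, (u ^ k)⁻¹ * v ∈ N) ∧ ∃ k : ℤ, (v ^ k)⁻¹ * u ∈ N

end defs

section
variable {Γ : Type} [Group Γ]

theorem lev_mono {N N' : Subgroup Γ} (h : N ≤ N') {u v : Γ} (huv : Lev N u v) : Lev N' u v := by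
  obtain ⟨⟨k, hk⟩, k', hk'⟩ := huv
  exact ⟨⟨k, h hk⟩, k', h hk'⟩

theorem mem_lev (N : Subgroup Γ) [N.Normal] (u v : Γ) :
    (∃ k : ℤ, (u ^ k)⁻¹ * v ∈ N) ↔ QuotientGroup.mk' N v ∈ zpowers (QuotientGroup.mk' N u) := by
  rw [Subgroup.mem_zpowers_iff]
  refine exists_congr fun k => ?_
  rw [← map_zpow]
  exact QuotientGroup.eq.symm

theorem lev_iff (N : Subgroup Γ) [N.Normal] (u v : Γ) :
    Lev N u v ↔ zpowers (QuotientGroup.mk' N u) = zpowers (QuotientGroup.mk' N v) := by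
  unfold Lev
  rw [mem_lev, mem_lev]
  constructor
  · rintro ⟨h1, h2⟩
    exact le_antisymm (Subgroup.zpowers_le.2 h2) (Subgroup.zpowers_le.2 h1)
  · intro h
    exact ⟨h ▸ Subgroup.mem_zpowers _, h ▸ Subgroup.mem_zpowers _⟩

variable [TopologicalSpace Γ] [IsTopologicalGroup Γ]

/-- sets invariant under an open subgroup are closed -/
theorem closed_of_inv (A : Set (Γ × Γ)) (N : Subgroup Γ) (hN : IsOpen (N : Set Γ))
    (h : ∀ u v n n', n ∈ N → n' ∈ N → (u, v) ∉ A → (u * n, v * n') ∉ A) : IsClosed A := by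
  refine ⟨isOpen_iff_mem_nhds.2 ?_⟩
  rintro ⟨u, v⟩ huv
  have h1 : ∀ w : Γ, {x : Γ | w⁻¹ * x ∈ N} ∈ nhds w := by
    intro w
    refine IsOpen.mem_nhds (hN.preimage (continuous_const_mul w⁻¹)) ?_
    change w⁻¹ * w ∈ (N : Set Γ)
    rw [inv_mul_cancel]
    exact N.one_mem
  refine Filter.mem_of_superset (prod_mem_nhds (h1 u) (h1 v)) ?_
  rintro ⟨u', v'⟩ ⟨h2, h3⟩
  have h4 := h u v _ _ h2 h3 huv
  rwa [mul_inv_cancel_left, mul_inv_cancel_left] at h4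

theorem closed_of_inv' (A : Set (Γ × Γ × Γ)) (N : Subgroup Γ) (hN : IsOpen (N : Set Γ))
    (h : ∀ u v s n n' n'', n ∈ N → n' ∈ N → n'' ∈ N → (u, v, s) ∉ A →
      (u * n, v * n', s * n'') ∉ A) : IsClosed A := by
  refine ⟨isOpen_iff_mem_nhds.2 ?_⟩
  rintro ⟨u, v, s⟩ huv
  have h1 : ∀ w : Γ, {x : Γ | w⁻¹ * x ∈ N} ∈ nhds w := by
    intro w
    refine IsOpen.mem_nhds (hN.preimage (continuous_const_mul w⁻¹)) ?_
    change w⁻¹ * w ∈ (N : Set Γ)
    rw [inv_mul_cancel]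
    exact N.one_mem
  refine Filter.mem_of_superset (prod_mem_nhds (h1 u) (prod_mem_nhds (h1 v) (h1 s))) ?_
  rintro ⟨u', v', s'⟩ ⟨h2, h3, h4⟩
  have h5 := h u v s _ _ _ h2 h3 h4 huv
  rwa [mul_inv_cancel_left, mul_inv_cancel_left, mul_inv_cancel_left] at h5

/-- the levels -/
def Lv (N₀ N : Subgroup Γ) : Prop := N.Normal ∧ IsOpen (N : Set Γ) ∧ N ≤ N₀

omit [IsTopologicalGroup Γ] in
theorem Lv.inf {N₀ N N' : Subgroup Γ} (h : Lv N₀ N) (h' : Lv N₀ N') : Lv N₀ (N ⊓ N') := by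
  have h1 := h.1
  have h2 := h'.1
  exact ⟨inferInstance, h.2.1.inter h'.2.1, inf_le_left.trans h.2.2⟩

variable [CompactSpace Γ] [TotallyDisconnectedSpace Γ]

/-- compactness along the levels -/
theorem exists_common {X : Type} [TopologicalSpace X] [CompactSpace X] {N₀ : Subgroup Γ}
    (h₀ : Lv N₀ N₀) (Z : Subgroup Γ → Set X) (hmono : ∀ N N', N ≤ N' → Z N ⊆ Z N')
    (hcl : ∀ N, Lv N₀ N → IsClosed (Z N)) (hne : ∀ N, Lv N₀ N → (Z N).Nonempty) :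
    ∃ x, ∀ N, Lv N₀ N → x ∈ Z N := by
  let I : Type := {N : Subgroup Γ // Lv N₀ N}
  have : Nonempty I := ⟨⟨N₀, h₀⟩⟩
  obtain ⟨x, hx⟩ := IsCompact.nonempty_iInter_of_directed_nonempty_isCompact_isClosed
    (fun i : I => Z i.1) (fun i j => ⟨⟨i.1 ⊓ j.1, i.2.inf j.2⟩, hmono _ _ inf_le_left,
      hmono _ _ inf_le_right⟩) (fun i => hne _ i.2) (fun i => (hcl _ i.2).isCompact)
    (fun i => hcl _ i.2)
  rw [Set.mem_iInter] at hx
  exact ⟨x, fun N hN => hx ⟨N, hN⟩⟩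

theorem exists_level {U : Set Γ} (hU : IsOpen U) (h1 : (1 : Γ) ∈ U) {N₀ : Subgroup Γ}
    (h₀ : Lv N₀ N₀) : ∃ N, Lv N₀ N ∧ (N : Set Γ) ⊆ U := by
  obtain ⟨H, hH⟩ := ProfiniteGrp.exist_openNormalSubgroup_sub_open_nhds_of_one hU h1
  have hn : (H.toSubgroup).Normal := H.isNormal'
  have hn0 := h₀.1
  refine ⟨H.toSubgroup ⊓ N₀, ⟨inferInstance, H.isOpen'.inter h₀.2.1, inf_le_right⟩, fun x hx => ?_⟩
  exact hH hx.1

theorem mem_closure_of_lev {N₀ : Subgroup Γ} (h₀ : Lv N₀ N₀) {u v : Γ}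
    (h : ∀ N, Lv N₀ N → ∃ k : ℤ, (u ^ k)⁻¹ * v ∈ N) : v ∈ closure (zpowers u : Set Γ) := by
  rw [mem_closure_iff]
  intro O hO hvO
  obtain ⟨N, hN, hNU⟩ := exists_level (U := {x | v * x⁻¹ ∈ O})
    (hO.preimage ((continuous_const_mul v).comp continuous_inv)) (by
      change v * 1⁻¹ ∈ O
      rwa [inv_one, mul_one]) h₀
  obtain ⟨k, hk⟩ := h N hN
  refine ⟨u ^ k, ?_, Subgroup.mem_zpowers_iff.2 ⟨k, rfl⟩⟩
  have h1 := hNU hk
  change v * ((u ^ k)⁻¹ * v)⁻¹ ∈ O at h1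
  rwa [mul_inv_rev, mul_inv_cancel_left, inv_inv] at h1

theorem closure_le_closure {u v : Γ} (h : v ∈ closure (zpowers u : Set Γ)) :
    closure (zpowers v : Set Γ) ⊆ closure (zpowers u : Set Γ) := by
  have h1 : zpowers v ≤ (zpowers u).topologicalClosure := Subgroup.zpowers_le.2 h
  exact closure_minimal h1 isClosed_closure

theorem same_of_lev {N₀ : Subgroup Γ} (h₀ : Lv N₀ N₀) {u v : Γ}
    (h : ∀ N, Lv N₀ N → Lev N u v) : Same u v :=
  Set.Subset.antisymm (closure_le_closure (mem_closure_of_lev h₀ fun N hN => (h N hN).2))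
    (closure_le_closure (mem_closure_of_lev h₀ fun N hN => (h N hN).1))

theorem fin_quot {N : Subgroup Γ} (hN : IsOpen (N : Set Γ)) : Finite (Γ ⧸ N) :=
  Subgroup.quotient_finite_of_isOpen N hN

/-- virtual characters live at a finite level -/
theorem exists_lift {f : Γ → ℂ} (hf : f ∈ RChar Γ) :
    ∃ N₁ : Subgroup Γ, Lv N₁ N₁ ∧ ∀ (N : Subgroup Γ) [N.Normal], N ≤ N₁ →
      ∃ f' ∈ Vch (Γ ⧸ N), ∀ g, f g = f' (QuotientGroup.mk' N g) := by
  have htop : Lv (⊤ : Subgroup Γ) ⊤ := ⟨inferInstance, isOpen_univ, le_rfl⟩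
  induction hf using AddSubgroup.closure_induction with
  | mem f hf =>
    obtain ⟨n, τ, U, hU, hUτ, hτ⟩ := hf
    obtain ⟨N₁, h₁, h2⟩ := exists_level hU U.one_mem htop
    refine ⟨N₁, ⟨h₁.1, h₁.2.1, le_rfl⟩, fun N _ hN => ?_⟩
    let τ' : Γ ⧸ N →* GL (Fin n) ℂ := QuotientGroup.lift N τ fun g hg => hUτ g (h2 (hN hg))
    refine ⟨fun v => (τ' v : Matrix (Fin n) (Fin n) ℂ).trace, AddSubgroup.subset_closure
      ⟨n, (Units.coeHom _).comp τ', fun g => rfl⟩, fun g => ?_⟩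
    rw [hτ]
    rfl
  | zero => exact ⟨⊤, htop, fun N _ _ => ⟨0, zero_mem _, fun g => rfl⟩⟩
  | add a b _ _ ha hb =>
    obtain ⟨N₁, h₁, h2⟩ := ha
    obtain ⟨N₂, h₃, h4⟩ := hb
    have hn1 := h₁.1
    have hn2 := h₃.1
    refine ⟨N₁ ⊓ N₂, ⟨inferInstance, h₁.2.1.inter h₃.2.1, le_rfl⟩, fun N _ hN => ?_⟩
    obtain ⟨f', hf', h5⟩ := h2 N (hN.trans inf_le_left)
    obtain ⟨f'', hf'', h6⟩ := h4 N (hN.trans inf_le_right)
    exact ⟨f' + f'', add_mem hf' hf'', fun g => by rw [Pi.add_apply, h5, h6, Pi.add_apply]⟩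
  | neg a _ ha =>
    obtain ⟨N₁, h₁, h2⟩ := ha
    refine ⟨N₁, h₁, fun N _ hN => ?_⟩
    obtain ⟨f', hf', h5⟩ := h2 N hN
    exact ⟨-f', neg_mem hf', fun g => by rw [Pi.neg_apply, h5, Pi.neg_apply]⟩

/-- the functions induced from good linear characters -/
def Good (𝒯 𝒮 : Set Γ) (N : Subgroup Γ) : Set (Γ → ℂ) :=
  {f | ∃ (H : Subgroup Γ) (ψ : H →* ℂˣ), N ≤ H ∧ (∃ u : Γ, ∀ h ∈ H, ∃ k : ℤ, (u ^ k)⁻¹ * h ∈ N) ∧
    (∀ h : H, (h : Γ) ∈ N → ψ h = 1) ∧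
    (ψ = 1 ∨ ((∀ s ∈ 𝒮, s ∉ H) ∧ ∀ t : H, (t : Γ) ∈ 𝒯 → ψ t = 1)) ∧
    f = Indu H (fun h => ((ψ h : ℂˣ) : ℂ))}

/-- **The criterion, sufficiency.** -/
theorem profinite_main {𝒯 𝒮 : Set Γ} (hTc : IsClosed 𝒯) (hSc : IsClosed 𝒮)
    (hT : ∀ t ∈ 𝒯, ∀ x : Γ, x⁻¹ * t * x ∈ 𝒯) (hpow : ∀ t ∈ 𝒯, ∀ k : ℕ, t ^ k ∈ 𝒯)
    (hS : ∀ s ∈ 𝒮, ∀ x : Γ, x⁻¹ * s * x ∈ 𝒮) {f : Γ → ℂ} (hf : f ∈ RChar Γ)
    (hfT : ∀ u v, Same u v → u⁻¹ * v ∈ 𝒯 → f u = f v)
    (hfS : ∀ u v, Same u v → (∃ s ∈ 𝒮, s ∈ closure (zpowers u : Set Γ)) → f u = f v)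
    {N₀ : Subgroup Γ} (h₀ : Lv N₀ N₀) :
    ∃ N, Lv N₀ N ∧ ∃ m : ℕ, 0 < m ∧ m • f ∈ AddSubgroup.closure (Good 𝒯 𝒮 N) := by
  obtain ⟨N₁, h₁, hlift⟩ := exists_lift hf
  have hn0 := h₀.1
  have hn1 := h₁.1
  have h01 : Lv (N₀ ⊓ N₁) (N₀ ⊓ N₁) := ⟨inferInstance, h₀.2.1.inter h₁.2.1, le_rfl⟩
  have hinv : ∀ (g n : Γ), n ∈ N₁ → f (g * n) = f g := by
    intro g n hn
    obtain ⟨f', -, h1⟩ := hlift N₁ le_rfl
    rw [h1, h1, map_mul]
    have h2 : QuotientGroup.mk' N₁ n = 1 := (QuotientGroup.eq_one_iff n).2 hn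
    rw [h2, mul_one]
  have hLev : ∀ (N : Subgroup Γ), N.Normal → ∀ (u v n n' : Γ), n ∈ N → n' ∈ N →
      Lev N (u * n) (v * n') → Lev N u v := by
    intro N hN u v n n' hn hn' h
    rw [lev_iff] at h ⊢
    have h2 : QuotientGroup.mk' N n = 1 := (QuotientGroup.eq_one_iff n).2 hn
    have h3 : QuotientGroup.mk' N n' = 1 := (QuotientGroup.eq_one_iff n').2 hn'
    rwa [map_mul, map_mul, h2, h3, mul_one, mul_one] at h
  -- a level for the first condition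
  obtain ⟨N₂, h₂, hN₂⟩ : ∃ N, Lv (N₀ ⊓ N₁) N ∧ ∀ u t, t ∈ 𝒯 → Lev N u (u * t) →
      f u = f (u * t) := by
    by_contra hcon
    push Not at hcon
    let Z : Subgroup Γ → Set (Γ × Γ) := fun N =>
      {z | z.2 ∈ 𝒯} ∩ {z | Lev N z.1 (z.1 * z.2) ∧ f z.1 ≠ f (z.1 * z.2)}
    obtain ⟨⟨u, t⟩, hz⟩ := exists_common h01 Z
      (fun N N' h z hz => ⟨hz.1, lev_mono h hz.2.1, hz.2.2⟩)
      (fun N hN => by
        refine (hTc.preimage continuous_snd).inter (closed_of_inv _ N hN.2.1 ?_)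
        intro u v n n' hn hn' h1 h2
        apply h1
        have hNn := hN.1
        have h3 : ∀ w n, n ∈ N → f (w * n) = f w := fun w n hn =>
          hinv w n ((hN.2.2.trans inf_le_right) hn)
        have h4 : u * n * (v * n') = u * v * ((v⁻¹ * n * v) * n') := by group
        have h5 : v⁻¹ * n * v * n' ∈ N := by
          refine N.mul_mem ?_ hn'
          have := hNn.conj_mem n hn v⁻¹
          rwa [inv_inv] at this
        obtain ⟨h6, h7⟩ := h2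
        change Lev N (u * n) (u * n * (v * n')) at h6
        change f (u * n) ≠ f (u * n * (v * n')) at h7
        rw [h4] at h6 h7
        refine ⟨hLev N hNn _ _ _ _ hn h5 h6, ?_⟩
        rwa [h3 _ _ hn, h3 _ _ h5] at h7)
      (fun N hN => by
        obtain ⟨u, t, ht, h1, h2⟩ := hcon N hN
        exact ⟨(u, t), ht, h1, h2⟩)
    have h1 := hz _ h01
    apply h1.2.2
    refine hfT _ _ (same_of_lev h01 fun N hN => (hz N hN).2.1) ?_
    rw [inv_mul_cancel_left]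
    exact h1.1
  -- a level for the second condition
  obtain ⟨N₃, h₃, hN₃⟩ : ∃ N, Lv (N₀ ⊓ N₁) N ∧ ∀ u v s, s ∈ 𝒮 → Lev N u v →
      (∃ k : ℤ, (u ^ k)⁻¹ * s ∈ N) → f u = f v := by
    by_contra hcon
    push Not at hcon
    let Z : Subgroup Γ → Set (Γ × Γ × Γ) := fun N =>
      {z | z.2.2 ∈ 𝒮} ∩ {z | Lev N z.1 z.2.1 ∧ (∃ k : ℤ, (z.1 ^ k)⁻¹ * z.2.2 ∈ N) ∧ f z.1 ≠ f z.2.1}
    obtain ⟨⟨u, v, s⟩, hz⟩ := exists_common h01 Z
      (fun N N' h z hz => ⟨hz.1, lev_mono h hz.2.1, hz.2.2.1.imp fun k hk => h hk, hz.2.2.2⟩)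
      (fun N hN => by
        refine (hSc.preimage (continuous_snd.comp continuous_snd)).inter
          (closed_of_inv' _ N hN.2.1 ?_)
        intro u v s n n' n'' hn hn' hn'' h1 h2
        apply h1
        have hNn := hN.1
        have h3 : ∀ w n, n ∈ N → f (w * n) = f w := fun w n hn =>
          hinv w n ((hN.2.2.trans inf_le_right) hn)
        obtain ⟨h6, h7, h8⟩ := h2
        change Lev N (u * n) (v * n') at h6
        change ∃ k : ℤ, ((u * n) ^ k)⁻¹ * (s * n'') ∈ N at h7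
        change f (u * n) ≠ f (v * n') at h8
        refine ⟨hLev N hNn _ _ _ _ hn hn' h6, ?_, ?_⟩
        · change ∃ k : ℤ, (u ^ k)⁻¹ * s ∈ N
          rw [mem_lev] at h7 ⊢
          have h9 : QuotientGroup.mk' N n = 1 := (QuotientGroup.eq_one_iff n).2 hn
          have h10 : QuotientGroup.mk' N n'' = 1 := (QuotientGroup.eq_one_iff n'').2 hn''
          rwa [map_mul, map_mul, h9, h10, mul_one, mul_one] at h7
        · rwa [h3 _ _ hn, h3 _ _ hn'] at h8)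
      (fun N hN => by
        obtain ⟨u, v, s, hs, h1, h2, h3⟩ := hcon N hN
        exact ⟨(u, v, s), hs, h1, h2, h3⟩)
    have h1 := hz _ h01
    apply h1.2.2.2
    refine hfS _ _ (same_of_lev h01 fun N hN => (hz N hN).2.1) ⟨s, h1.1, ?_⟩
    exact mem_closure_of_lev h01 fun N hN => (hz N hN).2.2.1
  -- the finite theorem
  have hN := h₂.inf h₃
  set N : Subgroup Γ := N₂ ⊓ N₃ with hNdef
  have hNn := hN.1
  have hfin := fin_quot hN.2.1
  let q : Γ →* Γ ⧸ N := QuotientGroup.mk' N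
  have hq : Function.Surjective q := QuotientGroup.mk'_surjective N
  obtain ⟨f', hf', hff'⟩ := hlift N (hN.2.2.trans inf_le_right)
  obtain ⟨m, hm, h1⟩ := finite_main (T := q '' 𝒯) (S := q '' 𝒮) (f := f')
    (by
      rintro _ ⟨t, ht, rfl⟩ x
      obtain ⟨x, rfl⟩ := hq x
      exact ⟨_, hT t ht x, by rw [map_mul, map_mul, map_inv]⟩)
    (by
      rintro _ ⟨t, ht, rfl⟩ k
      exact ⟨_, hpow t ht k, by rw [map_pow]⟩)
    (by
      rintro _ ⟨t, ht, rfl⟩ x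
      obtain ⟨x, rfl⟩ := hq x
      exact ⟨_, hS t ht x, by rw [map_mul, map_mul, map_inv]⟩)
    hf'
    (by
      rintro u _ ⟨t, ht, rfl⟩ h
      obtain ⟨u, rfl⟩ := hq u
      rw [← map_mul] at h
      change f' (q u) = f' (q u * q t)
      rw [← map_mul, ← hff', ← hff']
      exact hN₂ u t ht (lev_mono inf_le_left ((lev_iff N _ _).2 h)))
    (by
      rintro u v h ⟨_, ⟨s, hs, rfl⟩, hsu⟩
      obtain ⟨u, rfl⟩ := hq u
      obtain ⟨v, rfl⟩ := hq v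
      change f' (q u) = f' (q v)
      rw [← hff', ← hff']
      refine hN₃ u v s hs (lev_mono inf_le_right ((lev_iff N _ _).2 h)) ?_
      obtain ⟨k, hk⟩ := (mem_lev N u s).2 hsu
      exact ⟨k, hk.2⟩)
  have hle : N ≤ N₀ := hN.2.2.trans inf_le_left
  refine ⟨N, ⟨hNn, hN.2.1, hle⟩, m, hm, ?_⟩
  have h2 := closure_infl q _ (Good 𝒯 𝒮 N) (by
    rintro _ ⟨C, ψ, hC, hψ, rfl⟩
    let H : Subgroup Γ := C.comap q
    let r : H →* C := (q.comp H.subtype).codRestrict C fun h => h.2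
    refine ⟨H, ψ.comp r, ?_, ?_, ?_, ?_, ?_⟩
    · intro n hn
      change q n ∈ C
      have : q n = 1 := (QuotientGroup.eq_one_iff n).2 hn
      rw [this]
      exact C.one_mem
    · obtain ⟨c, hc⟩ := hC.exists_generator
      obtain ⟨u, hu⟩ := hq c
      refine ⟨u, fun h hh => ?_⟩
      rw [mem_lev]
      obtain ⟨k, hk⟩ := Subgroup.mem_zpowers_iff.1 (hc ⟨q h, hh⟩)
      refine Subgroup.mem_zpowers_iff.2 ⟨k, ?_⟩
      have h3 := congrArg Subtype.val hk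
      change ((c : Γ ⧸ N)) ^ k = q h at h3
      change (q u) ^ k = q h
      rw [hu]
      exact h3
    · intro h hh
      have h3 : r h = 1 := by
        apply Subtype.ext
        exact (QuotientGroup.eq_one_iff (h : Γ)).2 hh
      rw [MonoidHom.comp_apply, h3, map_one]
    · rcases hψ with rfl | ⟨hψ1, hψ2⟩
      · left
        rfl
      · right
        refine ⟨fun s hs hsH => hψ1 _ ⟨s, hs, rfl⟩ hsH, fun t ht => ?_⟩
        exact hψ2 (r t) ⟨t, ht, rfl⟩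
    · funext g
      have h3 := ind_coset q hq C (fun h => ((ψ h : ℂˣ) : ℂ)) (fun a b => by
        rw [map_mul, map_mul, map_inv, mul_comm, mul_inv_cancel_left]) H (fun v => Iff.rfl) g
      rw [← h3]
      unfold Indu
      refine finsum_congr fun x => ?_
      by_cases hx : x.out⁻¹ * g * x.out ∈ H
      · rw [dif_pos hx]
        exact ext_mem (show q (x.out⁻¹ * g * x.out) ∈ C from hx)
      · rw [dif_neg hx]
        exact ext_not_mem (show ¬ q (x.out⁻¹ * g * x.out) ∈ C from hx)) h1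
  have h3 : m • f = fun v => (m • f') (q v) := by
    funext v
    rw [Pi.smul_apply, Pi.smul_apply, hff']
  rwa [h3]

/-- necessity for induced functions -/
theorem indu_nec {𝒯 : Set Γ} (hT : ∀ t ∈ 𝒯, ∀ x : Γ, x⁻¹ * t * x ∈ 𝒯) (H : Subgroup Γ)
    (hH : IsOpen (H : Set Γ)) (φ : H → ℂ) (hφ : ∀ a b : H, (b : Γ) ∈ 𝒯 → φ (a * b) = φ a)
    {u v : Γ} (huv : Same u v) (ht : u⁻¹ * v ∈ 𝒯) : Indu H φ u = Indu H φ v := by
  have hcl : IsClosed (H : Set Γ) := H.isClosed_of_isOpen hH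
  unfold Indu
  refine finsum_congr fun x => ?_
  have key : ∀ u v : Γ, Same u v → x.out⁻¹ * u * x.out ∈ H → x.out⁻¹ * v * x.out ∈ H := by
    intro u v huv h
    have h1 : closure (zpowers u : Set Γ) ⊆ {y | x.out⁻¹ * y * x.out ∈ H} := by
      refine closure_minimal ?_ (hcl.preimage
        ((continuous_mul_const x.out).comp (continuous_const_mul x.out⁻¹)))
      intro c hc
      obtain ⟨k, rfl⟩ := Subgroup.mem_zpowers_iff.1 hc
      have h1 : x.out⁻¹ * u ^ k * x.out = (x.out⁻¹ * u * x.out) ^ k := by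
        have := conj_zpow (i := k) (a := x.out⁻¹) (b := u)
        rw [inv_inv] at this
        exact this.symm
      change x.out⁻¹ * u ^ k * x.out ∈ H
      rw [h1]
      exact H.zpow_mem h k
    apply h1
    rw [huv]
    exact subset_closure (Subgroup.mem_zpowers v)
  by_cases hu : x.out⁻¹ * u * x.out ∈ H
  · have hv := key u v huv hu
    rw [dif_pos hu, dif_pos hv]
    have h2 : x.out⁻¹ * (u⁻¹ * v) * x.out ∈ H := by
      have h3 := H.mul_mem (H.inv_mem hu) hv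
      have h4 : (x.out⁻¹ * u * x.out)⁻¹ * (x.out⁻¹ * v * x.out) =
          x.out⁻¹ * (u⁻¹ * v) * x.out := by group
      rwa [h4] at h3
    have h3 := hφ ⟨_, hu⟩ ⟨_, h2⟩ (hT _ ht x.out)
    rw [← h3]
    congr 1
    apply Subtype.ext
    change x.out⁻¹ * u * x.out * (x.out⁻¹ * (u⁻¹ * v) * x.out) = _
    group
  · have hv : x.out⁻¹ * v * x.out ∉ H := fun hv => hu (key v u huv.symm hv)
    rw [dif_neg hu, dif_neg hv]

end

end Pool.Agent.Q20.LG
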