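import Pool.Agent.Q273.SP.Main
import Pool.Agent.Q20.LG.Prof

/-!
# The inertia groups form a closed set
-/

set_option autoImplicit false
set_option linter.unusedSectionVars false

namespace Pool.Agent.Q20.LG

open NumberField Pool.Agent.Q246.RP Pool.Agent.Q273.SP
open Subgroup (zpowers)
open scoped Classical

section
variable {K : Type} [Field K] [NumberField K]

/-- a given element has only finitely many values at the places above `p` -/
theorem finite_values {p : ℕ} (hp : p.Prime) (y : AlgebraicClosure K) :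
    ∃ V : Set ℝ, V.Finite ∧ ∀ w : AlgebraicClosure K → ℝ, IsPl p w → w y ∈ V := by
  by_cases hy : y = 0
  · exact ⟨{0}, Set.finite_singleton 0, fun w hw => by rw [hy, hw.zero]; rfl⟩
  obtain ⟨P, hP, hPy⟩ := algebraic_int y
  have hsum : ∑ i ∈ P.support, ((P.coeff i : ℤ) : AlgebraicClosure K) * y ^ i = 0 := by
    rw [Polynomial.aeval_def, Polynomial.eval₂_eq_sum, Polynomial.sum] at hPy
    rw [← hPy]
    exact Finset.sum_congr rfl fun i _ => by rw [eq_intCast]
  choose! v hv using fun (i : ℕ) (hi : i ∈ P.support) =>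
    int_val (K := K) hp (Polynomial.mem_support_iff.1 hi)
  let Q : ℕ → ℕ → Polynomial ℝ := fun i j =>
    Polynomial.C ((p : ℝ)⁻¹ ^ v i) * Polynomial.X ^ i -
      Polynomial.C ((p : ℝ)⁻¹ ^ v j) * Polynomial.X ^ j
  have hppos : ∀ n : ℕ, (0 : ℝ) < (p : ℝ)⁻¹ ^ n := fun n =>
    pow_pos (inv_pos.2 (by exact_mod_cast hp.pos)) n
  have hQ : ∀ i j, i ≠ j → Q i j ≠ 0 := by
    intro i j hij h0
    have h1 := congrArg (fun R : Polynomial ℝ => R.coeff i) h0
    simp only [Q, Polynomial.coeff_sub, Polynomial.coeff_C_mul, Polynomial.coeff_X_pow,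
      Polynomial.coeff_zero] at h1
    rw [if_pos trivial, if_neg hij, mul_one, mul_zero, sub_zero] at h1
    exact (hppos _).ne' h1
  refine ⟨⋃ i ∈ P.support, ⋃ j ∈ P.support.erase i, {r : ℝ | r ∈ (Q i j).roots.toFinset}, ?_, ?_⟩
  · refine Set.Finite.biUnion P.support.finite_toSet fun i _ =>
      Set.Finite.biUnion (P.support.erase i).finite_toSet fun j _ => ?_
    exact (Q i j).roots.toFinset.finite_toSet
  · intro w hw
    by_contra hcon
    have hne : ∀ i ∈ P.support, ∀ j ∈ P.support, i ≠ j →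
        w (((P.coeff i : ℤ) : AlgebraicClosure K) * y ^ i) ≠
          w (((P.coeff j : ℤ) : AlgebraicClosure K) * y ^ j) := by
      intro i hi j hj hij heq
      apply hcon
      refine Set.mem_biUnion hi (Set.mem_biUnion (Finset.mem_erase.2 ⟨hij.symm, hj⟩) ?_)
      change w y ∈ (Q i j).roots.toFinset
      rw [Multiset.mem_toFinset, Polynomial.mem_roots (hQ i j hij), Polynomial.IsRoot.def]
      rw [hw.mul, hw.mul, hw.pow hp, hw.pow hp, hv i hi w hw, hv j hj w hw] at heq
      simp only [Q, Polynomial.eval_sub, Polynomial.eval_mul, Polynomial.eval_C,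
        Polynomial.eval_pow, Polynomial.eval_X]
      rw [heq, sub_self]
    have hsne : P.support.Nonempty := by
      rw [Finset.nonempty_iff_ne_empty, Ne, Polynomial.support_eq_empty]
      exact hP
    obtain ⟨i₀, hi₀, hmax⟩ := Finset.exists_max_image P.support
      (fun i => w (((P.coeff i : ℤ) : AlgebraicClosure K) * y ^ i)) hsne
    have hpos : 0 < w (((P.coeff i₀ : ℤ) : AlgebraicClosure K) * y ^ i₀) := by
      refine hw.pos hp (mul_ne_zero ?_ (pow_ne_zero _ hy))
      exact_mod_cast Polynomial.mem_support_iff.1 hi₀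
    have hlt := hw.finset_sum_lt (P.support.erase i₀)
      (fun i => ((P.coeff i : ℤ) : AlgebraicClosure K) * y ^ i) hpos (fun i hi => by
        have h1 := (Finset.mem_erase.1 hi)
        exact lt_of_le_of_ne (hmax i h1.2) (hne i h1.2 i₀ hi₀ h1.1))
    rw [← Finset.add_sum_erase _ _ hi₀] at hsum
    have h2 := eq_neg_of_add_eq_zero_left hsum
    rw [h2, hw.neg hp] at hlt
    exact lt_irrefl _ hlt

/-- the places above `T` where `y` has a value with a given property form a closed set -/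
theorem isClosed_val {T : Finset ℕ} (hT : ∀ p ∈ T, p.Prime) (y : AlgebraicClosure K)
    (R : Set ℝ) : IsClosed {w : AlgebraicClosure K → ℝ | w ∈ PL T ∧ w y ∈ R} := by
  have h1 : {w : AlgebraicClosure K → ℝ | w ∈ PL T ∧ w y ∈ R} =
      ⋃ p ∈ T, {w : AlgebraicClosure K → ℝ | IsPl p w ∧ w y ∈ R} := by
    ext w
    simp only [PL, Set.mem_ofPred_eq, Set.mem_iUnion, exists_prop]
    constructor
    · rintro ⟨⟨p, hp, hw⟩, h⟩
      exact ⟨p, hp, hw, h⟩
    · rintro ⟨p, hp, hw, h⟩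
      exact ⟨⟨p, hp, hw⟩, h⟩
  rw [h1]
  refine Set.Finite.isClosed_biUnion T.finite_toSet fun p hp => ?_
  obtain ⟨V, hV, hVw⟩ := finite_values (K := K) (hT p hp) y
  have h2 : {w : AlgebraicClosure K → ℝ | IsPl p w ∧ w y ∈ R} =
      {w : AlgebraicClosure K → ℝ | IsPl p w} ∩ (fun w : AlgebraicClosure K → ℝ => w y) ⁻¹' (V ∩ R) := by
    ext w
    constructor
    · rintro ⟨hw, h⟩
      exact ⟨hw, hVw w hw, h⟩
    · rintro ⟨hw, -, h⟩
      exact ⟨hw, h⟩
  rw [h2]
  exact (isCompact_one (hT p hp)).isClosed.inter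
    ((hV.subset Set.inter_subset_left).isClosed.preimage (continuous_apply y))

/-- values at a moving point -/
theorem isClosed_moving {T : Finset ℕ} (hT : ∀ p ∈ T, p.Prime) (x : AlgebraicClosure K)
    (e : AlgebraicClosure K → AlgebraicClosure K) (R : Set ℝ) :
    IsClosed {z : Gal(AlgebraicClosure K/K) × (AlgebraicClosure K → ℝ) |
      z.2 ∈ PL T ∧ z.2 (e (z.1 x)) ∈ R} := by
  have hfin := (minpoly K x).rootSet_finite (AlgebraicClosure K)
  have hx : IsIntegral K x := Algebra.IsIntegral.isIntegral x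
  have h1 : {z : Gal(AlgebraicClosure K/K) × (AlgebraicClosure K → ℝ) |
      z.2 ∈ PL T ∧ z.2 (e (z.1 x)) ∈ R} = ⋃ y ∈ (minpoly K x).rootSet (AlgebraicClosure K),
      ({z | z.1 x = y} ∩ {z | z.2 ∈ PL T ∧ z.2 (e y) ∈ R}) := by
    ext z
    simp only [Set.mem_ofPred_eq, Set.mem_iUnion, Set.mem_inter_iff, exists_prop]
    constructor
    · rintro ⟨h1, h2⟩
      refine ⟨z.1 x, ?_, rfl, h1, h2⟩
      rw [Polynomial.mem_rootSet]
      refine ⟨minpoly.ne_zero hx, ?_⟩
      rw [← minpoly.algEquiv_eq z.1 x]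
      exact minpoly.aeval K _
    · rintro ⟨y, -, h1, h2, h3⟩
      rw [h1]
      exact ⟨h2, h3⟩
  rw [h1]
  refine hfin.isClosed_biUnion fun y _ => IsClosed.inter ?_ ?_
  · exact (isClopen_eval x fun z => z = y).1.preimage continuous_fst
  · exact (isClosed_val hT (e y) R).preimage continuous_snd

/-- the pairs (element of the inertia group, place) -/
theorem isClosed_ine {T : Finset ℕ} (hT : ∀ p ∈ T, p.Prime) :
    IsClosed {z : Gal(AlgebraicClosure K/K) × (AlgebraicClosure K → ℝ) |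
      z.2 ∈ PL T ∧ Ine z.2 z.1} := by
  have h1 : {z : Gal(AlgebraicClosure K/K) × (AlgebraicClosure K → ℝ) |
      z.2 ∈ PL T ∧ Ine z.2 z.1} =
      (⋂ x, {z | z.2 ∈ PL T ∧ z.2 (z.1 x) = z.2 x}) ∩
      ⋂ x, ({z | z.2 ∈ PL T ∧ z.2 x ∈ Set.Ioi 1} ∪
        {z | z.2 ∈ PL T ∧ z.2 (z.1 x - x) ∈ Set.Iio 1}) := by
    ext z
    simp only [Set.mem_ofPred_eq, Set.mem_inter_iff, Set.mem_iInter, Set.mem_union, Set.mem_Ioi,
      Set.mem_Iio, Ine, Dec]
    constructor
    · rintro ⟨h1, h2, h3⟩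
      refine ⟨fun x => ⟨h1, h2 x⟩, fun x => ?_⟩
      rcases le_or_gt (z.2 x) 1 with h | h
      · exact Or.inr ⟨h1, h3 x h⟩
      · exact Or.inl ⟨h1, h⟩
    · rintro ⟨h1, h2⟩
      refine ⟨(h1 0).1, fun x => (h1 x).2, fun x hx => ?_⟩
      rcases h2 x with h | h
      · exact absurd hx (not_le.2 h.2)
      · exact h.2
  rw [h1]
  refine IsClosed.inter (isClosed_iInter fun x => ?_) (isClosed_iInter fun x => ?_)
  · have h2 : {z : Gal(AlgebraicClosure K/K) × (AlgebraicClosure K → ℝ) |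
        z.2 ∈ PL T ∧ z.2 (z.1 x) = z.2 x} = ⋃ y ∈ (minpoly K x).rootSet (AlgebraicClosure K),
        ({z | z.1 x = y} ∩ {z | z.2 ∈ PL T ∧ z.2 y = z.2 x}) := by
      have hx : IsIntegral K x := Algebra.IsIntegral.isIntegral x
      ext z
      simp only [Set.mem_ofPred_eq, Set.mem_iUnion, Set.mem_inter_iff, exists_prop]
      constructor
      · rintro ⟨h1, h2⟩
        refine ⟨z.1 x, ?_, rfl, h1, h2⟩
        rw [Polynomial.mem_rootSet]
        refine ⟨minpoly.ne_zero hx, ?_⟩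
        rw [← minpoly.algEquiv_eq z.1 x]
        exact minpoly.aeval K _
      · rintro ⟨y, -, h1, h2, h3⟩
        rw [h1]
        exact ⟨h2, h3⟩
    rw [h2]
    refine ((minpoly K x).rootSet_finite (AlgebraicClosure K)).isClosed_biUnion
      fun y _ => IsClosed.inter ?_ ?_
    · exact (isClopen_eval x fun z => z = y).1.preimage continuous_fst
    · refine IsClosed.preimage continuous_snd (t := {w : AlgebraicClosure K → ℝ |
        w ∈ PL T ∧ w y = w x}) ?_
      exact (isCompact_pl hT).isClosed.inter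
        (isClosed_eq (continuous_apply y) (continuous_apply x))
  · exact ((isClosed_val hT x (Set.Ioi 1)).preimage continuous_snd).union
      (isClosed_moving hT x (fun y => y - x) (Set.Iio 1))

/-- the elements of the inertia groups above a finite set of primes -/
theorem isClosed_exists_ine {T : Finset ℕ} (hT : ∀ p ∈ T, p.Prime) :
    IsClosed {g : Gal(AlgebraicClosure K/K) | ∃ w ∈ PL (K := K) T, Ine w g} := by
  have h1 : IsCompact {z : Gal(AlgebraicClosure K/K) × (AlgebraicClosure K → ℝ) |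
      z.2 ∈ PL T ∧ Ine z.2 z.1} := by
    refine IsCompact.of_isClosed_subset (isCompact_univ.prod (isCompact_pl hT)) (isClosed_ine hT) ?_
    exact fun z hz => ⟨trivial, hz.1⟩
  have h2 : {g : Gal(AlgebraicClosure K/K) | ∃ w ∈ PL (K := K) T, Ine w g} = Prod.fst ''
      {z : Gal(AlgebraicClosure K/K) × (AlgebraicClosure K → ℝ) | z.2 ∈ PL T ∧ Ine z.2 z.1} := by
    ext g
    constructor
    · rintro ⟨w, hw, hg⟩
      exact ⟨(g, w), ⟨hw, hg⟩, rfl⟩
    · rintro ⟨⟨g, w⟩, ⟨hw, hg⟩, rfl⟩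
      exact ⟨w, hw, hg⟩
  rw [h2]
  exact (h1.image continuous_fst).isClosed

/-- **The inertia groups of all places outside a set of primes form a closed set.** -/
theorem isClosed_inertia (T : Set ℕ) :
    IsClosed {g : Gal(AlgebraicClosure K/K) | g = 1 ∨ ∃ p : ℕ, p.Prime ∧ p ∉ T ∧
      ∃ w : AlgebraicClosure K → ℝ, IsPl p w ∧ Ine w g} := by
  refine ⟨isOpen_iff_mem_nhds.2 fun g hg => ?_⟩
  rw [Set.mem_compl_iff, Set.mem_ofPred_eq, not_or] at hg
  obtain ⟨hg1, hg2⟩ := hg
  obtain ⟨x, hx⟩ : ∃ x, g x ≠ x := by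
    by_contra h
    push Not at h
    exact hg1 (AlgEquiv.ext h)
  have hfd : FiniteDimensional K (IntermediateField.adjoin K {x}) :=
    IntermediateField.adjoin.finiteDimensional (Algebra.IsIntegral.isIntegral x)
  obtain ⟨T₁, hT₁, hunr⟩ := unramified (IntermediateField.adjoin K {x})
  have hP : ∀ p ∈ T₁.filter (fun p => p ∉ T), p.Prime := fun p hp => hT₁ p (Finset.mem_filter.1 hp).1
  have h1 := (isClosed_exists_ine (K := K) hP).isOpen_compl
  have h2 : g ∈ {g : Gal(AlgebraicClosure K/K) | ∃ w ∈ PL (K := K) (T₁.filter (fun p => p ∉ T)),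
      Ine w g}ᶜ := by
    rintro ⟨w, ⟨p, hp, hw⟩, hgw⟩
    exact hg2 ⟨p, hP p hp, (Finset.mem_filter.1 hp).2, w, hw, hgw⟩
  have h3 : {g' : Gal(AlgebraicClosure K/K) | g' x ≠ x} ∈ nhds g :=
    (isClopen_eval x fun y => y ≠ x).2.mem_nhds hx
  refine Filter.mem_of_superset (Filter.inter_mem (h1.mem_nhds h2) h3) ?_
  rintro g' ⟨h4, h5⟩ h6
  rcases h6 with h6 | ⟨p, hp, hpT, w, hw, hgw⟩
  · apply h5
    rw [h6]
    rfl
  · by_cases hpT₁ : p ∈ T₁
    · exact h4 ⟨w, ⟨p, Finset.mem_filter.2 ⟨hpT₁, hpT⟩, hw⟩, hgw⟩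
    · exact h5 (hunr p hp hpT₁ w hw g' hgw.2 x (IntermediateField.mem_adjoin_simple_self K x))

/-- the inertia group of one place is closed -/
theorem isClosed_one {p : ℕ} (hp : p.Prime) {w : AlgebraicClosure K → ℝ} (hw : IsPl p w) :
    IsClosed {g : Gal(AlgebraicClosure K/K) | Ine w g} := by
  have hT : ∀ q ∈ ({p} : Finset ℕ), q.Prime := fun q hq => by
    rw [Finset.mem_singleton.1 hq]
    exact hp
  have h1 := (isClosed_ine (K := K) hT).preimage
    (f := fun g : Gal(AlgebraicClosure K/K) => (g, w)) (by fun_prop)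
  have h2 : {g : Gal(AlgebraicClosure K/K) | Ine w g} =
      (fun g : Gal(AlgebraicClosure K/K) => (g, w)) ⁻¹'
        {z : Gal(AlgebraicClosure K/K) × (AlgebraicClosure K → ℝ) |
          z.2 ∈ PL ({p} : Finset ℕ) ∧ Ine z.2 z.1} := by
    ext g
    exact ⟨fun h => ⟨⟨p, Finset.mem_singleton_self p, hw⟩, h⟩, fun h => h.2⟩
  rw [h2]
  exact h1

theorem isClosed_dec (w : AlgebraicClosure K → ℝ) :
    IsClosed {g : Gal(AlgebraicClosure K/K) | Dec w g} := by
  have h1 : {g : Gal(AlgebraicClosure K/K) | Dec w g} =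
      ⋂ x, {g : Gal(AlgebraicClosure K/K) | w (g x) = w x} := by
    ext g
    simp [Dec]
  rw [h1]
  exact isClosed_iInter fun x => (isClopen_eval x fun y => w y = w x).1

/-- conjugation -/
theorem Dec.conj {w : AlgebraicClosure K → ℝ} {g : Gal(AlgebraicClosure K/K)} (hg : Dec w g)
    (h : Gal(AlgebraicClosure K/K)) : Dec (fun x => w (h x)) (h⁻¹ * g * h) := by
  intro x
  change w (h (h⁻¹ (g (h x)))) = w (h x)
  have h1 : h (h⁻¹ (g (h x))) = g (h x) := AlgEquiv.apply_symm_apply h _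
  rw [h1, hg]

theorem Ine.conj {w : AlgebraicClosure K → ℝ} {g : Gal(AlgebraicClosure K/K)} (hg : Ine w g)
    (h : Gal(AlgebraicClosure K/K)) : Ine (fun x => w (h x)) (h⁻¹ * g * h) := by
  refine ⟨Dec.conj hg.1 h, fun x hx => ?_⟩
  change w (h (h⁻¹ (g (h x)) - x)) < 1
  have h1 : h (h⁻¹ (g (h x))) = g (h x) := AlgEquiv.apply_symm_apply h _
  rw [map_sub, h1]
  exact hg.2 _ hx

theorem Ine.mul {p : ℕ} {w : AlgebraicClosure K → ℝ} (hw : IsPl p w)
    {g h : Gal(AlgebraicClosure K/K)} (hg : Ine w g) (hh : Ine w h) : Ine w (g * h) := by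
  refine ⟨fun x => ?_, fun x hx => ?_⟩
  · change w (g (h x)) = w x
    rw [hg.1, hh.1]
  · change w (g (h x) - x) < 1
    have h1 : g (h x) - x = (g (h x) - h x) + (h x - x) := by ring
    rw [h1]
    refine lt_of_le_of_lt (hw.add _ _) (max_lt (hg.2 _ ?_) (hh.2 x hx))
    rw [hh.1]
    exact hx

theorem Ine.one {p : ℕ} {w : AlgebraicClosure K → ℝ} (hw : IsPl p w) :
    Ine w (1 : Gal(AlgebraicClosure K/K)) := by
  refine ⟨fun x => rfl, fun x _ => ?_⟩
  change w (x - x) < 1
  rw [sub_self, hw.zero]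
  exact one_pos

theorem Ine.inv {p : ℕ} (hp : p.Prime) {w : AlgebraicClosure K → ℝ} (hw : IsPl p w)
    {g : Gal(AlgebraicClosure K/K)} (hg : Ine w g) : Ine w g⁻¹ := by
  have h1 : ∀ x, g (g⁻¹ x) = x := fun x => AlgEquiv.apply_symm_apply g x
  have h2 : ∀ x, w (g⁻¹ x) = w x := fun x => by
    have := hg.1 (g⁻¹ x)
    rw [h1] at this
    exact this.symm
  refine ⟨h2, fun x hx => ?_⟩
  have h3 := hg.2 (g⁻¹ x) (by rw [h2]; exact hx)
  rw [h1, hw.sub_comm hp] at h3
  exact h3

theorem Dec.mul {w : AlgebraicClosure K → ℝ}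
    {g h : Gal(AlgebraicClosure K/K)} (hg : Dec w g) (hh : Dec w h) : Dec w (g * h) := by
  intro x
  change w (g (h x)) = w x
  rw [hg, hh]

theorem Dec.inv {w : AlgebraicClosure K → ℝ} {g : Gal(AlgebraicClosure K/K)} (hg : Dec w g) :
    Dec w g⁻¹ := by
  intro x
  have h1 : g (g⁻¹ x) = x := AlgEquiv.apply_symm_apply g x
  have := hg (g⁻¹ x)
  rw [h1] at this
  exact this.symm

/-- **F. K. Schmidt**: an element whose closed powers meet an inertia group lies in the
decomposition group -/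
theorem dec_of_mem {p : ℕ} (hp : p.Prime) {w : AlgebraicClosure K → ℝ} (hw : IsPl p w)
    {u t : Gal(AlgebraicClosure K/K)} (ht : Dec w t) (ht1 : t ≠ 1) (hcomm : u * t = t * u) :
    Dec w u := by
  have h1 : (fun x => w (u x)) = w := by
    by_contra hne
    refine ht1 (malnormal hp hp (hw.comp u) hw hne t (fun x => ?_) ht)
    change w (u (t x)) = w (u x)
    have h2 : u (t x) = t (u x) := DFunLike.congr_fun hcomm x
    rw [h2, ht]
  exact fun x => congrFun h1 x

end

end Pool.Agent.Q20.LG
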