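import Pool.Agent.Q20.LG.Glob
import Pool.Agent.Q20.LG.Val

/-!
# Number fields: from open subgroups to finite extensions
-/

set_option autoImplicit false
set_option linter.unusedSectionVars false

namespace Pool.Agent.Q20.LG

open NumberField Pool.Agent.Q246.RP Pool.Agent.Q273.SP
open Pool.Agent.Q246.BI (Smooth IsCharacter induced)
open Subgroup (zpowers)
open scoped Classical

section
variable {K : Type} [Field K] [NumberField K]

instance gam_compact (F : IntermediateField K (AlgebraicClosure K)) :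
    CompactSpace F.fixingSubgroup :=
  isCompact_iff_compactSpace.1 (InfiniteGalois.fixingSubgroup_isClosed F).isCompact

/-- the open subgroup of a finite extension -/
theorem isOpen_sub (F F' : IntermediateField K (AlgebraicClosure K)) [FiniteDimensional K F'] :
    IsOpen (F'.fixingSubgroup.subgroupOf F.fixingSubgroup : Set F.fixingSubgroup) :=
  (IntermediateField.fixingSubgroup_isOpen F').preimage continuous_subtype_val

/-- an open subgroup contains the subgroup of a finite normal extension -/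
theorem exists_fd (F : IntermediateField K (AlgebraicClosure K)) [FiniteDimensional K F]
    {U : Set F.fixingSubgroup} (hU : IsOpen U) (h1 : 1 ∈ U) :
    ∃ E : IntermediateField K (AlgebraicClosure K), FiniteDimensional K E ∧
      ∀ g : F.fixingSubgroup, (g : Gal(AlgebraicClosure K/K)) ∈ E.fixingSubgroup → g ∈ U := by
  have hF : IsOpen (F.fixingSubgroup : Set (Gal(AlgebraicClosure K/K))) :=
    IntermediateField.fixingSubgroup_isOpen F
  have h2 : IsOpen (Subtype.val '' U) := hF.isOpenMap_subtype_val U hU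
  have h3 : Subtype.val '' U ∈ nhds (1 : Gal(AlgebraicClosure K/K)) :=
    h2.mem_nhds ⟨1, h1, rfl⟩
  obtain ⟨E, hE, h4⟩ := (krullTopology_mem_nhds_one_iff K (AlgebraicClosure K) _).1 h3
  refine ⟨E, hE, fun g hg => ?_⟩
  obtain ⟨g', hg', h5⟩ := h4 hg
  rwa [← Subtype.ext h5]

theorem isChar_iff (F : IntermediateField K (AlgebraicClosure K)) [FiniteDimensional K F]
    (χ : F.fixingSubgroup → ℂ) : IsCharacter F χ ↔ IsChar χ := by
  constructor
  · rintro ⟨n, τ, ⟨E, hE, hs⟩, hτ⟩
    exact ⟨n, τ, E.fixingSubgroup.subgroupOf F.fixingSubgroup, isOpen_sub F E, fun g hg => hs g hg, hτ⟩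
  · rintro ⟨n, τ, U, hU, hUτ, hτ⟩
    obtain ⟨E, hE, h1⟩ := exists_fd F hU U.one_mem
    exact ⟨n, τ, ⟨E, hE, fun g hg => hUτ g (h1 g hg)⟩, hτ⟩

/-- the field of an open subgroup, with its linear characters -/
theorem exists_fld (F : IntermediateField K (AlgebraicClosure K)) [FiniteDimensional K F]
    (H : Subgroup F.fixingSubgroup) (hH : IsOpen (H : Set F.fixingSubgroup)) (ψ : H →* ℂˣ)
    {U : Subgroup F.fixingSubgroup} (hU : IsOpen (U : Set F.fixingSubgroup))
    (hUψ : ∀ h : H, (h : F.fixingSubgroup) ∈ U → ψ h = 1) :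
    ∃ (F' : IntermediateField K (AlgebraicClosure K)) (ψ' : F'.fixingSubgroup →* ℂˣ),
      F ≤ F' ∧ FiniteDimensional K F' ∧ Smooth F' ψ' ∧
      (∀ g : F.fixingSubgroup, g ∈ H ↔ (g : Gal(AlgebraicClosure K/K)) ∈ F'.fixingSubgroup) ∧
      (∀ (g : F'.fixingSubgroup) (h1 : (g : Gal(AlgebraicClosure K/K)) ∈ F.fixingSubgroup)
        (h2 : (⟨g, h1⟩ : F.fixingSubgroup) ∈ H), ψ' g = ψ ⟨⟨g, h1⟩, h2⟩) ∧
      induced F F' (fun g => ((ψ' g : ℂˣ) : ℂ)) = Indu H (fun h => ((ψ h : ℂˣ) : ℂ)) := by
  obtain ⟨E, hE, hEH⟩ := exists_fd F hH H.one_mem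
  let L : IntermediateField K (AlgebraicClosure K) := F ⊔ E
  have hL : FiniteDimensional K L := IntermediateField.finiteDimensional_sup _ _
  let V : Subgroup (Gal(AlgebraicClosure K/K)) := H.map F.fixingSubgroup.subtype
  have hLV : L.fixingSubgroup ≤ V := by
    intro g hg
    have h1 : g ∈ F.fixingSubgroup := IntermediateField.fixingSubgroup_antitone le_sup_left hg
    have h2 : g ∈ E.fixingSubgroup := IntermediateField.fixingSubgroup_antitone le_sup_right hg
    exact ⟨⟨g, h1⟩, hEH ⟨g, h1⟩ h2, rfl⟩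
  obtain ⟨F', hF'L, hF'⟩ := Pool.Agent.Q246.BI.exists_fixed V L hLV
  have hfd : FiniteDimensional K F' := FiniteDimensional.of_injective
    (IntermediateField.inclusion hF'L).toLinearMap (IntermediateField.inclusion_injective hF'L)
  have hmem : ∀ g : Gal(AlgebraicClosure K/K), g ∈ F'.fixingSubgroup →
      ∃ h : g ∈ F.fixingSubgroup, (⟨g, h⟩ : F.fixingSubgroup) ∈ H := by
    intro g hg
    rw [hF'] at hg
    obtain ⟨h, hh, rfl⟩ := hg
    exact ⟨h.2, hh⟩
  have hFF' : F ≤ F' := by
    have h1 : IntermediateField.fixedField F.fixingSubgroup ≤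
        IntermediateField.fixedField F'.fixingSubgroup := by
      intro x hx
      rw [IntermediateField.mem_fixedField_iff] at hx ⊢
      exact fun g hg => hx g (hmem g hg).1
    rwa [InfiniteGalois.fixedField_fixingSubgroup, InfiniteGalois.fixedField_fixingSubgroup] at h1
  let r : F'.fixingSubgroup →* H :=
    { toFun := fun g => ⟨⟨g, (hmem g g.2).1⟩, (hmem g g.2).2⟩
      map_one' := rfl
      map_mul' := fun a b => rfl }
  have hiff : ∀ g : F.fixingSubgroup, g ∈ H ↔
      (g : Gal(AlgebraicClosure K/K)) ∈ F'.fixingSubgroup := by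
    intro g
    constructor
    · intro h
      rw [hF']
      exact ⟨g, h, rfl⟩
    · intro h
      exact (hmem g h).2
  refine ⟨F', ψ.comp r, hFF', hfd, ?_, hiff, fun g h1 h2 => rfl, ?_⟩
  · obtain ⟨E', hE', h1⟩ := exists_fd F hU U.one_mem
    exact ⟨E', hE', fun g hg => hUψ (r g) (h1 _ hg)⟩
  · have hHeq : H = F'.fixingSubgroup.subgroupOf F.fixingSubgroup := by
      ext g
      exact hiff g
    subst hHeq
    rfl

/-- induction in terms of open subgroups -/
theorem induced_eq (F F' : IntermediateField K (AlgebraicClosure K))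
    (ψ : F'.fixingSubgroup →* ℂˣ) :
    ∃ ψ' : F'.fixingSubgroup.subgroupOf F.fixingSubgroup →* ℂˣ,
      (∀ h : F'.fixingSubgroup.subgroupOf F.fixingSubgroup,
        ψ' h = ψ ⟨((h : F.fixingSubgroup) : Gal(AlgebraicClosure K/K)), h.2⟩) ∧
      induced F F' (fun g => ((ψ g : ℂˣ) : ℂ)) = Indu _ (fun h => ((ψ' h : ℂˣ) : ℂ)) :=
  ⟨ψ.comp
    { toFun := fun h => ⟨((h : F.fixingSubgroup) : Gal(AlgebraicClosure K/K)), h.2⟩
      map_one' := rfl
      map_mul' := fun a b => rfl }, fun h => rfl, rfl⟩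

/-- the elements of the inertia groups outside `T` in `Gal(K̄/F)` -/
def TT (T : Set ℕ) (F : IntermediateField K (AlgebraicClosure K)) : Set F.fixingSubgroup :=
  {g | g = 1 ∨ ∃ i : {z : ℕ × (AlgebraicClosure K → ℝ) // z.1.Prime ∧ z.1 ∉ T ∧ IsPl z.1 z.2},
    Ine i.1.2 (g : Gal(AlgebraicClosure K/K))}

theorem isClosed_tt (T : Set ℕ) (F : IntermediateField K (AlgebraicClosure K)) :
    IsClosed (TT T F) := by
  have h1 := (isClosed_inertia (K := K) T).preimage
    (continuous_subtype_val (p := fun g => g ∈ F.fixingSubgroup))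
  refine cast (congrArg IsClosed ?_) h1
  ext g
  constructor
  · rintro (h | ⟨p, hp, hpT, w, hw, h⟩)
    · exact Or.inl (Subtype.ext h)
    · exact Or.inr ⟨⟨(p, w), hp, hpT, hw⟩, h⟩
  · rintro (h | ⟨⟨⟨p, w⟩, hp, hpT, hw⟩, h⟩)
    · exact Or.inl (congrArg Subtype.val h)
    · exact Or.inr ⟨p, hp, hpT, w, hw, h⟩

theorem tt_conj (T : Set ℕ) (F : IntermediateField K (AlgebraicClosure K)) :
    ∀ t ∈ TT T F, ∀ x : F.fixingSubgroup, x⁻¹ * t * x ∈ TT T F := by
  rintro t (h | ⟨⟨⟨p, w⟩, hp, hpT, hw⟩, h⟩) x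
  · left
    rw [h]
    group
  · exact Or.inr ⟨⟨(p, fun y => w ((x : Gal(AlgebraicClosure K/K)) y)), hp, hpT, hw.comp _⟩,
      Ine.conj h _⟩

theorem ine_pow {p : ℕ} {w : AlgebraicClosure K → ℝ} (hw : IsPl p w)
    {g : Gal(AlgebraicClosure K/K)} (hg : Ine w g) (k : ℕ) : Ine w (g ^ k) := by
  induction k with
  | zero => rw [pow_zero]; exact Ine.one hw
  | succ k ih => rw [pow_succ]; exact Ine.mul hw ih hg

theorem tt_pow (T : Set ℕ) (F : IntermediateField K (AlgebraicClosure K)) :
    ∀ t ∈ TT T F, ∀ k : ℕ, t ^ k ∈ TT T F := by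
  rintro t (h | ⟨⟨⟨p, w⟩, hp, hpT, hw⟩, h⟩) k
  · left
    rw [h, one_pow]
  · exact Or.inr ⟨⟨(p, w), hp, hpT, hw⟩, by rw [Subgroup.coe_pow]; exact ine_pow hw h k⟩

/-- the complex conjugations in `Gal(K̄/F)` -/
def CC (F : IntermediateField K (AlgebraicClosure K)) : Set F.fixingSubgroup :=
  {s | IsCC (s : Gal(AlgebraicClosure K/K))}

theorem isClosed_ccs (F : IntermediateField K (AlgebraicClosure K)) : IsClosed (CC F) :=
  Pool.Agent.Q246.BI.isClosed_cc.preimage continuous_subtype_val

theorem cc_conj (F : IntermediateField K (AlgebraicClosure K)) :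
    ∀ s ∈ CC F, ∀ x : F.fixingSubgroup, x⁻¹ * s * x ∈ CC F := by
  rintro s ⟨ι, hι⟩ x
  refine ⟨ι.comp ((x : Gal(AlgebraicClosure K/K)) : AlgebraicClosure K →+* AlgebraicClosure K),
    fun y => ?_⟩
  change ι ((x : Gal(AlgebraicClosure K/K)) ((x : Gal(AlgebraicClosure K/K))⁻¹
    ((s : Gal(AlgebraicClosure K/K)) ((x : Gal(AlgebraicClosure K/K)) y)))) =
    star (ι ((x : Gal(AlgebraicClosure K/K)) y))
  have h1 : (x : Gal(AlgebraicClosure K/K)) ((x : Gal(AlgebraicClosure K/K))⁻¹
    ((s : Gal(AlgebraicClosure K/K)) ((x : Gal(AlgebraicClosure K/K)) y))) =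
    (s : Gal(AlgebraicClosure K/K)) ((x : Gal(AlgebraicClosure K/K)) y) :=
    AlgEquiv.apply_symm_apply _ _
  rw [h1]
  exact hι _

/-- the condition at the complex conjugations is empty -/
theorem cc_same (F : IntermediateField K (AlgebraicClosure K)) {u v : F.fixingSubgroup}
    (huv : Same u v) (h : ∃ s ∈ CC F, s ∈ closure (zpowers u : Set F.fixingSubgroup)) : u = v := by
  obtain ⟨s, hs, hsu⟩ := h
  have key : ∀ u : F.fixingSubgroup, s ∈ closure (zpowers u : Set F.fixingSubgroup) → u = s := by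
    intro u hsu
    have h1 : closure (zpowers u : Set F.fixingSubgroup) ⊆ {y | u * y = y * u} := by
      refine closure_minimal ?_ (isClosed_eq (continuous_const_mul u) (continuous_mul_const u))
      intro y hy
      obtain ⟨k, rfl⟩ := Subgroup.mem_zpowers_iff.1 hy
      exact ((Commute.refl u).zpow_right k).eq
    have h2 : u * s = s * u := h1 hsu
    have h3 : (u : Gal(AlgebraicClosure K/K)) * s = s * u := congrArg Subtype.val h2
    rcases Pool.Agent.Q246.BI.centralizer hs h3 with h4 | h4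
    · exfalso
      have h5 : u = 1 := Subtype.ext h4
      rw [h5] at hsu
      have h6 : closure (zpowers (1 : F.fixingSubgroup) : Set F.fixingSubgroup) ⊆ {1} := by
        refine closure_minimal ?_ isClosed_singleton
        intro y hy
        obtain ⟨k, rfl⟩ := Subgroup.mem_zpowers_iff.1 hy
        exact one_zpow k
      have h7 : s = 1 := h6 hsu
      obtain ⟨ι, hι⟩ := hs
      rw [h7] at hι
      obtain ⟨i, hi⟩ := IsAlgClosed.exists_pow_nat_eq (-1 : AlgebraicClosure K) (n := 2)
        (by norm_num)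
      have h8 : ι i ^ 2 = -1 := by rw [← map_pow, hi, map_neg, map_one]
      have h9 : ι i = Complex.I ∨ ι i = -Complex.I := by
        have : ι i ^ 2 = Complex.I ^ 2 := by rw [h8, Complex.I_sq]
        exact sq_eq_sq_iff_eq_or_eq_neg.1 this
      have h10 := hι i
      change ι i = _ at h10
      rcases h9 with h9 | h9
      · rw [h9, Complex.conj_I] at h10
        have := congrArg Complex.im h10
        norm_num at this
      · rw [h9, map_neg, Complex.conj_I] at h10
        have := congrArg Complex.im h10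
        norm_num at this
    · exact Subtype.ext h4
  rw [key u hsu]
  rw [huv] at hsu
  exact (key v hsu).symm

end

end Pool.Agent.Q20.LG
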