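import Pool.Agent.Q20.LG.Conv

/-!
# Additive inductive functions which do not vanish at a given character
-/

set_option autoImplicit false
set_option linter.unusedSectionVars false

namespace Pool.Agent.Q20.LG

open NumberField IsDedekindDomain Pool.Agent.Q246.RP Pool.Agent.Q273.SP
open Pool.Agent.Q246.BI (Smooth IsCharacter induced NN)
open scoped Classical

theorem exists_hom_rat {R : Type} [AddCommGroup R] (V : AddSubgroup R) (x : R)
    (hx : ∀ m : ℕ, 0 < m → m • x ∉ V) : ∃ δ : R →+ ℚ, (∀ y ∈ V, δ y = 0) ∧ δ x ≠ 0 := by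
  have hB : Module.Baer ℤ ℚ := baer_of_div fun n b hn => ⟨b / n, by
    rw [nsmul_eq_mul, mul_div_cancel₀]
    exact_mod_cast hn.ne'⟩
  let f : ℤ →+ R ⧸ V := (zmultiplesHom (R ⧸ V)) (QuotientAddGroup.mk x)
  have hf : Function.Injective f := by
    rw [injective_iff_map_eq_zero]
    intro n hn
    by_contra hne
    have h1 : n • (QuotientAddGroup.mk x : R ⧸ V) = 0 := hn
    have h2 : n.natAbs • (QuotientAddGroup.mk x : R ⧸ V) = 0 := by
      rcases Int.natAbs_eq n with h | h
      · rw [h, natCast_zsmul] at h1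
        exact h1
      · rw [h, neg_smul, natCast_zsmul, neg_eq_zero] at h1
        exact h1
    rw [← QuotientAddGroup.mk_nsmul, QuotientAddGroup.eq_zero_iff] at h2
    exact hx _ (Int.natAbs_pos.2 hne) h2
  obtain ⟨h, hh⟩ := hB.extension_property_addMonoidHom f hf (Int.castAddHom ℚ)
  refine ⟨h.comp (QuotientAddGroup.mk' V), fun y hy => ?_, ?_⟩
  · have h1 : QuotientAddGroup.mk' V y = 0 := (QuotientAddGroup.eq_zero_iff y).2 hy
    rw [AddMonoidHom.comp_apply, h1, map_zero]
  · have h1 : f 1 = QuotientAddGroup.mk' V x := one_zsmul _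
    have h2 : h (f 1) = 1 := by
      have h3 := DFunLike.congr_fun hh 1
      rw [AddMonoidHom.comp_apply] at h3
      rw [h3]
      simp
    rw [AddMonoidHom.comp_apply, ← h1, h2]
    exact one_ne_zero

section
variable {K : Type} [Field K] [NumberField K]

/-- **Optimality**: a rational additive inductive function which vanishes at all linear characters
unramified outside `T`, but not at a given character over the base field that violates the local
condition. -/
theorem exists_function (T : Set ℕ)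
    {χ : (⊥ : IntermediateField K (AlgebraicClosure K)).fixingSubgroup → ℂ}
    (hχ : IsCharacter ⊥ χ) (hc : ¬ LocCond T ⊥ χ) :
    ∃ D : ∀ F : IntermediateField K (AlgebraicClosure K), (F.fixingSubgroup → ℂ) → ℚ,
      (∀ F : IntermediateField K (AlgebraicClosure K), FiniteDimensional K F →
        ∀ χ χ' : F.fixingSubgroup → ℂ, IsCharacter F χ → IsCharacter F χ' →
          D F (χ + χ') = D F χ + D F χ') ∧
      (∀ F F' : IntermediateField K (AlgebraicClosure K), F ≤ F' → FiniteDimensional K F' →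
        ∀ χ : F'.fixingSubgroup → ℂ, IsCharacter F' χ → D F (induced F F' χ) = D F' χ) ∧
      (∀ F : IntermediateField K (AlgebraicClosure K), FiniteDimensional K F →
        ∀ ψ : F.fixingSubgroup →* ℂˣ, Smooth F ψ → UnrAt T F ψ →
          D F (fun g => ((ψ g : ℂˣ) : ℂ)) = 0) ∧ D ⊥ χ ≠ 0 := by
  have hbot : FiniteDimensional K (⊥ : IntermediateField K (AlgebraicClosure K)) := inferInstance
  have h1 : χ ∈ RChar (⊥ : IntermediateField K (AlgebraicClosure K)).fixingSubgroup :=
    AddSubgroup.subset_closure ((isChar_iff ⊥ χ).1 hχ)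
  choose w hw using fun v => exists_place (⊥ : IntermediateField K (AlgebraicClosure K)) v
  rw [locCond_iff, chosen_iff T ⊥ hw h1] at hc
  push Not at hc
  obtain ⟨v₀, hv₀, h2⟩ := hc
  obtain ⟨δ, hδ1, hδ2⟩ := exists_hom_rat
    ((AddSubgroup.closure (Unr (ineF ⊥ (w v₀)))).comap (RChar (decF ⊥ (w v₀))).subtype)
    (resR ⊥ (w v₀) ⟨χ, h1⟩) (fun m hm h => h2 m hm h)
  let d : ∀ v, RChar (decF ⊥ (w v)) →+ ℚ := Function.update (fun _ => 0) v₀ δ
  have hd0 : d v₀ = δ :=
    Function.update_self (β := fun v => RChar (decF ⊥ (w v)) →+ ℚ) v₀ δ (fun _ => 0)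
  have hd1 : ∀ v, v ≠ v₀ → d v = 0 := fun v hv =>
    Function.update_of_ne (β := fun v => RChar (decF ⊥ (w v)) →+ ℚ) hv δ (fun _ => 0)
  have htf : ∀ (m : ℕ) (b : ℚ), 0 < m → m • b = 0 → b = 0 := by
    intro m b hm h
    rw [nsmul_eq_mul] at h
    rcases mul_eq_zero.1 h with h | h
    · exact absurd h (by exact_mod_cast hm.ne')
    · exact h
  obtain ⟨D, ha, hi, hz, hl⟩ := converse htf T w hw d (fun v y hy => by
    by_cases hv : v = v₀
    · subst hv
      rw [hd0]
      exact hδ1 y hy
    · rw [hd1 v hv]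
      rfl) (fun v hv => hd1 v fun h => hv₀ (h ▸ hv))
  refine ⟨D, ha, hi, hz, ?_⟩
  have h3 := hl.sum ⟨χ, h1⟩ hχ
  change D ⊥ χ = _ at h3
  rw [h3, finsum_eq_single _ v₀ (fun v hv => by rw [hd1 v hv]; rfl), hd0]
  exact hδ2

end

end Pool.Agent.Q20.LG
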