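import Pool.Agent.Q20.LG.Fin
import Pool.Agent.Q20.LG.Chain

/-!
# Rationality of the coefficients
-/

set_option autoImplicit false
set_option linter.unusedSectionVars false

namespace Pool.Agent.Q20.LG

open Pool.Agent.Q246.BI
open Subgroup (zpowers)
open scoped Classical

section
variable {G : Type} [Group G] [Finite G]

/-- virtual characters -/
def Vch (G : Type) [Group G] : AddSubgroup (G → ℂ) := AddSubgroup.closure {f | IsCh f}

theorem vch_cls {f : G → ℂ} (hf : f ∈ Vch G) : Cls f := by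
  induction hf using AddSubgroup.closure_induction with
  | mem f hf =>
    intro x g
    have h1 := ch_conj hf g x⁻¹
    rwa [inv_inv] at h1
  | zero => exact fun x g => rfl
  | add a b _ _ ha hb => exact fun x g => by rw [Pi.add_apply, Pi.add_apply, ha, hb]
  | neg a _ ha => exact fun x g => by rw [Pi.neg_apply, Pi.neg_apply, ha]

/-- the Fourier coefficients -/
noncomputable def ev (C : Subgroup G) (ψ : C →* ℂˣ) (f : G → ℂ) : ℂ :=
  ∑ᶠ c : C, ((ψ c : ℂˣ) : ℂ) * f c

theorem ev_eq (C : Subgroup G) [Fintype C] (ψ : C →* ℂˣ) (f : G → ℂ) :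
    ev C ψ f = ∑ c : C, ((ψ c : ℂˣ) : ℂ) * f c := finsum_eq_sum_of_fintype _

theorem ev_sum (C : Subgroup G) (ψ : C →* ℂˣ) {ι : Type} (s : Finset ι) (z : ι → ℂ)
    (f : ι → G → ℂ) : ev C ψ (∑ i ∈ s, z i • f i) = ∑ i ∈ s, z i * ev C ψ (f i) := by
  have : Fintype C := Fintype.ofFinite C
  have h1 : ∀ i, z i * ev C ψ (f i) = ∑ c : C, z i * (((ψ c : ℂˣ) : ℂ) * f i c) := by
    intro i
    rw [ev_eq, Finset.mul_sum]
  rw [ev_eq, Finset.sum_congr rfl fun i _ => h1 i, Finset.sum_comm]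
  refine Finset.sum_congr rfl fun c _ => ?_
  rw [Finset.sum_apply, Finset.mul_sum]
  refine Finset.sum_congr rfl fun i _ => ?_
  rw [Pi.smul_apply, smul_eq_mul]
  ring

/-- the coefficients of virtual characters are integers -/
theorem ev_int (C : Subgroup G) (hab : ∀ a b : C, a * b = b * a) (ψ : C →* ℂˣ) {f : G → ℂ}
    (hf : f ∈ Vch G) : ∃ k : ℤ, ev C ψ f = k := by
  have : Fintype C := Fintype.ofFinite C
  have hlin : ∀ φ : C → ℂ, φ ∈ AddSubgroup.closure {f : C → ℂ | ∃ ψ : C →* ℂˣ,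
      f = fun g => ((ψ g : ℂˣ) : ℂ)} → ∃ k : ℤ, ∑ c : C, ((ψ c : ℂˣ) : ℂ) * φ c = k := by
    intro φ hφ
    induction hφ using AddSubgroup.closure_induction with
    | mem φ hφ =>
      obtain ⟨ψ', rfl⟩ := hφ
      by_cases h1 : ψ * ψ' = 1
      · refine ⟨Fintype.card C, ?_⟩
        have h2 : ∀ c : C, ((ψ c : ℂˣ) : ℂ) * ((ψ' c : ℂˣ) : ℂ) = 1 := by
          intro c
          rw [← Units.val_mul, ← MonoidHom.mul_apply, h1, MonoidHom.one_apply, Units.val_one]
        rw [Finset.sum_congr rfl fun c _ => h2 c]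
        simp
      · refine ⟨0, ?_⟩
        have h2 := sum_hom_units_eq_zero ((Units.coeHom ℂ).comp (ψ * ψ')) (by
          intro h3
          apply h1
          ext c
          have h4 := DFunLike.congr_fun h3 c
          exact h4)
        push_cast
        refine Eq.trans ?_ h2
        refine Finset.sum_congr rfl fun c _ => ?_
        simp
    | zero => exact ⟨0, by simp⟩
    | add a b _ _ ha hb =>
      obtain ⟨k, hk⟩ := ha
      obtain ⟨k', hk'⟩ := hb
      refine ⟨k + k', ?_⟩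
      push_cast
      rw [← hk, ← hk', ← Finset.sum_add_distrib]
      exact Finset.sum_congr rfl fun c _ => by rw [Pi.add_apply, mul_add]
    | neg a _ ha =>
      obtain ⟨k, hk⟩ := ha
      refine ⟨-k, ?_⟩
      push_cast
      rw [← hk, ← Finset.sum_neg_distrib]
      exact Finset.sum_congr rfl fun c _ => by rw [Pi.neg_apply, mul_neg]
  rw [ev_eq]
  apply hlin
  induction hf using AddSubgroup.closure_induction with
  | mem f hf =>
    exact abel_mem hab _ (isCh_comp C.subtype hf)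
  | zero => exact zero_mem _
  | add a b _ _ ha hb => exact add_mem (S := AddSubgroup (C → ℂ)) ha hb
  | neg a _ ha => exact neg_mem (S := AddSubgroup (C → ℂ)) ha

theorem cyc_comm {C : Type} [Group C] (h : IsCyclic C) (a b : C) : a * b = b * a := by
  obtain ⟨g, hg⟩ := h.exists_generator
  obtain ⟨i, rfl⟩ := Subgroup.mem_zpowers_iff.1 (hg a)
  obtain ⟨j, rfl⟩ := Subgroup.mem_zpowers_iff.1 (hg b)
  exact (Commute.refl g).zpow_zpow i j

/-- the coefficients determine the function -/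
theorem ev_sep {f : G → ℂ} (h : ∀ (C : Subgroup G), IsCyclic C → ∀ ψ : C →* ℂˣ, ev C ψ f = 0) :
    f = 0 := by
  funext g
  let C := zpowers g
  have : Fintype C := Fintype.ofFinite C
  have hC : IsCyclic C := inferInstance
  let Φ : (C → ℂ) →ₗ[ℂ] ℂ :=
    { toFun := fun η => ∑ c : C, η c * f c
      map_add' := fun a b => by
        rw [← Finset.sum_add_distrib]
        exact Finset.sum_congr rfl fun c _ => by rw [Pi.add_apply, add_mul]
      map_smul' := fun z a => by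
        rw [RingHom.id_apply, smul_eq_mul, Finset.mul_sum]
        exact Finset.sum_congr rfl fun c _ => by rw [Pi.smul_apply, smul_eq_mul, mul_assoc] }
  have h1 : Submodule.span ℂ {f : C → ℂ | ∃ ψ : C →* ℂˣ, f = fun g => ((ψ g : ℂˣ) : ℂ)} ≤
      LinearMap.ker Φ := by
    rw [Submodule.span_le]
    rintro _ ⟨ψ, rfl⟩
    rw [SetLike.mem_coe, LinearMap.mem_ker]
    have h2 := h C hC ψ
    rw [ev_eq] at h2
    exact h2
  have h2 := h1 (span_all (cyc_comm hC) (fun c : C => if (c : G) = g then 1 else 0))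
  rw [LinearMap.mem_ker] at h2
  change ∑ c : C, (if (c : G) = g then (1 : ℂ) else 0) * f c = 0 at h2
  rw [Finset.sum_eq_single ⟨g, Subgroup.mem_zpowers g⟩] at h2
  · simpa using h2
  · intro c _ hc
    have h3 : (c : G) ≠ g := fun h => hc (Subtype.ext h)
    rw [if_neg h3, zero_mul]
  · intro h
    exact absurd (Finset.mem_univ _) h

/-- a rational-linear retraction `ℂ → ℚ` -/
theorem exists_lam : ∃ lam : ℂ →ₗ[ℚ] ℚ, lam 1 = 1 := by
  let i : ℚ →ₗ[ℚ] ℂ := (Algebra.linearMap ℚ ℂ)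
  have hi : LinearMap.ker i = ⊥ := LinearMap.ker_eq_bot.2 (algebraMap ℚ ℂ).injective
  obtain ⟨g, hg⟩ := LinearMap.exists_leftInverse_of_injective i hi
  refine ⟨g, ?_⟩
  have h1 := LinearMap.congr_fun hg 1
  rw [LinearMap.comp_apply, LinearMap.id_apply] at h1
  have h2 : i 1 = 1 := map_one (algebraMap ℚ ℂ)
  rwa [h2] at h1

/-- **Rationality.** -/
theorem rational (B : Set (G → ℂ)) (hB : ∀ b ∈ B, b ∈ Vch G) {f : G → ℂ} (hf : f ∈ Vch G)
    (hs : f ∈ Submodule.span ℂ B) : ∃ m : ℕ, 0 < m ∧ m • f ∈ AddSubgroup.closure B := by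
  obtain ⟨lam, hlam⟩ := exists_lam
  obtain ⟨c, hc⟩ := (Finsupp.mem_span_iff_linearCombination ℂ B f).1 hs
  have hf1 : f = ∑ b ∈ c.support, c b • (b : G → ℂ) := by
    rw [← hc, Finsupp.linearCombination_apply, Finsupp.sum]
  let f' : G → ℂ := ∑ b ∈ c.support, ((lam (c b) : ℚ) : ℂ) • (b : G → ℂ)
  have hff' : f = f' := by
    rw [← sub_eq_zero]
    apply ev_sep
    intro C hC ψ
    have hab := cyc_comm hC
    obtain ⟨k, hk⟩ := ev_int C hab ψ hf
    choose! κ hκ using fun (b : G → ℂ) (hb : b ∈ B) => ev_int C hab ψ (hB b hb)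
    have h1 : ev C ψ f = ∑ b ∈ c.support, c b * (κ (b : G → ℂ) : ℂ) := by
      rw [hf1, ev_sum]
      exact Finset.sum_congr rfl fun b _ => by rw [hκ _ b.2]
    have h2 : ev C ψ f' = ∑ b ∈ c.support, ((lam (c b) : ℚ) : ℂ) * (κ (b : G → ℂ) : ℂ) := by
      rw [ev_sum]
      exact Finset.sum_congr rfl fun b _ => by rw [hκ _ b.2]
    have h3 : ∀ (z : ℂ) (k : ℤ), lam (z * k) = lam z * k := by
      intro z k
      have h4 : z * (k : ℂ) = k • z := by rw [zsmul_eq_mul, mul_comm]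
      rw [h4, map_zsmul, zsmul_eq_mul, mul_comm]
    have h4 : lam (ev C ψ f) = ∑ b ∈ c.support, lam (c b) * (κ (b : G → ℂ) : ℚ) := by
      rw [h1, map_sum]
      exact Finset.sum_congr rfl fun b _ => h3 _ _
    have h5 : lam (ev C ψ f) = (k : ℚ) := by
      rw [hk]
      have := h3 1 k
      rwa [one_mul, hlam, one_mul] at this
    have h6 : ev C ψ f = ev C ψ f' := by
      rw [h2, hk]
      have h7 : (k : ℚ) = ∑ b ∈ c.support, lam (c b) * (κ (b : G → ℂ) : ℚ) := by
        rw [← h5, h4]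
      have h8 := congrArg (fun q : ℚ => (q : ℂ)) h7
      push_cast at h8
      exact h8
    have : Fintype C := Fintype.ofFinite C
    rw [ev_eq]
    rw [ev_eq, ev_eq] at h6
    rw [← sub_eq_zero, ← Finset.sum_sub_distrib] at h6
    rw [← h6]
    exact Finset.sum_congr rfl fun c _ => by rw [Pi.sub_apply, mul_sub]
  -- the common denominator
  let m : ℕ := ∏ b ∈ c.support, (lam (c b)).den
  have hm : 0 < m := Finset.prod_pos fun b _ => (lam (c b)).pos
  refine ⟨m, hm, ?_⟩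
  have hint : ∀ b ∈ c.support, ∃ n : ℤ, (m : ℂ) * ((lam (c b) : ℚ) : ℂ) = n := by
    intro b hb
    obtain ⟨d, hd⟩ : (lam (c b)).den ∣ m := Finset.dvd_prod_of_mem (fun b => (lam (c b)).den) hb
    refine ⟨d * (lam (c b)).num, ?_⟩
    have h1 : (lam (c b)) * ((lam (c b)).den : ℚ) = (lam (c b)).num := Rat.mul_den_eq_num _
    have h2 : ((lam (c b) : ℚ) : ℂ) * ((lam (c b)).den : ℂ) = ((lam (c b)).num : ℂ) := by
      exact_mod_cast congrArg (fun q : ℚ => (q : ℂ)) h1
    rw [hd]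
    push_cast
    rw [← h2]
    ring
  have h1 : m • f = ∑ b ∈ c.support, ((m : ℂ) * ((lam (c b) : ℚ) : ℂ)) • (b : G → ℂ) := by
    rw [hff', ← Nat.cast_smul_eq_nsmul ℂ, Finset.smul_sum]
    exact Finset.sum_congr rfl fun b _ => by rw [smul_smul]
  rw [h1]
  refine sum_mem fun b hb => ?_
  obtain ⟨n, hn⟩ := hint b hb
  rw [hn, Int.cast_smul_eq_zsmul]
  exact zsmul_mem (AddSubgroup.subset_closure b.2) n

/-- the family of a set `T`, with the subgroups meeting `S` -/
noncomputable def JTS (T S : Set G) (C : Subgroup G) : Subgroup G :=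
  if ∃ s ∈ S, s ∈ C then C else Subgroup.closure ({y | y ∈ C} ∩ T)

theorem jts_data {T S : Set G} (hT : ∀ t ∈ T, ∀ x : G, x⁻¹ * t * x ∈ T)
    (hS : ∀ s ∈ S, ∀ x : G, x⁻¹ * s * x ∈ S) : JData (JTS T S) where
  le := by
    intro C
    unfold JTS
    split_ifs
    · exact le_rfl
    · rw [Subgroup.closure_le]
      exact fun y hy => hy.1
  conj := by
    intro C D x hCD t ht
    by_cases h1 : ∃ s ∈ S, s ∈ C
    · have h2 : ∃ s ∈ S, s ∈ D := by
        obtain ⟨s, hs, hsC⟩ := h1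
        exact ⟨_, hS s hs x, hCD s hsC⟩
      rw [JTS, if_pos h1] at ht
      rw [JTS, if_pos h2]
      exact hCD t ht
    · rw [JTS, if_neg h1] at ht
      have hle : Subgroup.closure ({y | y ∈ C} ∩ T) ≤ C := by
        rw [Subgroup.closure_le]
        exact fun y hy => hy.1
      by_cases h2 : ∃ s ∈ S, s ∈ D
      · rw [JTS, if_pos h2]
        exact hCD t (hle ht)
      · rw [JTS, if_neg h2]
        induction ht using Subgroup.closure_induction with
        | mem y hy => exact Subgroup.subset_closure ⟨hCD y hy.1, hT y hy.2 x⟩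
        | one =>
          have h3 : x⁻¹ * 1 * x = 1 := by group
          rw [h3]
          exact Subgroup.one_mem _
        | mul y z _ _ hy hz =>
          have h3 := Subgroup.mul_mem _ hy hz
          have h4 : x⁻¹ * y * x * (x⁻¹ * z * x) = x⁻¹ * (y * z) * x := by group
          rwa [h4] at h3
        | inv y _ hy =>
          have h3 := Subgroup.inv_mem _ hy
          have h4 : (x⁻¹ * y * x)⁻¹ = x⁻¹ * y⁻¹ * x := by group
          rwa [h4] at h3

/-- the good induced functions -/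
def GdTS (T S : Set G) : Set (G → ℂ) :=
  {f | ∃ (C : Subgroup G) (ψ : C →* ℂˣ), IsCyclic C ∧
    (ψ = 1 ∨ ((∀ s ∈ S, s ∉ C) ∧ ∀ t : C, (t : G) ∈ T → ψ t = 1)) ∧
    f = Ind C (fun h => ((ψ h : ℂˣ) : ℂ))}

theorem ind_vch (C : Subgroup G) (ψ : C →* ℂˣ) : Ind C (fun h => ((ψ h : ℂˣ) : ℂ)) ∈ Vch G :=
  AddSubgroup.subset_closure (isCh_ind C ψ)

/-- **The finite theorem.** -/
theorem finite_main {T S : Set G} (hT : ∀ t ∈ T, ∀ x : G, x⁻¹ * t * x ∈ T)
    (hpow : ∀ t ∈ T, ∀ k : ℕ, t ^ k ∈ T) (hS : ∀ s ∈ S, ∀ x : G, x⁻¹ * s * x ∈ S) {f : G → ℂ}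
    (hf : f ∈ Vch G) (hfT : ∀ u t, t ∈ T → zpowers u = zpowers (u * t) → f u = f (u * t))
    (hfS : ∀ u v, zpowers u = zpowers v → (∃ s ∈ S, s ∈ zpowers u) → f u = f v) :
    ∃ m : ℕ, 0 < m ∧ m • f ∈ AddSubgroup.closure (GdTS T S) := by
  have hJ := jts_data hT hS
  have h1 : JInv (JTS T S) f := by
    intro u v huv ht
    by_cases h : ∃ s ∈ S, s ∈ zpowers u
    · exact hfS u v huv h
    · rw [JTS, if_neg h] at ht
      have h2 : u * (u⁻¹ * v) = v := mul_inv_cancel_left u v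
      have h3 := chain T hpow f hfT _ u (u⁻¹ * v) le_rfl (by rw [h2]; exact huv) ht
      rwa [h2] at h3
  obtain ⟨m, hm, h2⟩ := rational (Gd (JTS T S)) (by
    rintro _ ⟨C, ψ, -, -, rfl⟩
    exact ind_vch C ψ) hf (fin_span hJ (vch_cls hf) h1)
  refine ⟨m, hm, AddSubgroup.closure_mono ?_ h2⟩
  rintro _ ⟨C, ψ, hC, hψ, rfl⟩
  refine ⟨C, ψ, hC, ?_, rfl⟩
  by_cases h : ∃ s ∈ S, s ∈ C
  · left
    ext t
    rw [hψ t (by rw [JTS, if_pos h]; exact t.2)]
    rfl
  · right
    refine ⟨fun s hs hsC => h ⟨s, hs, hsC⟩, fun t ht => hψ t ?_⟩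
    rw [JTS, if_neg h]
    exact Subgroup.subset_closure ⟨t.2, ht⟩

end

end Pool.Agent.Q20.LG
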