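import Pool.Agent.Q20.LG.Ext

/-!
# Rational values on a cyclic group are constant on the generators
-/

set_option autoImplicit false
set_option linter.unusedSectionVars false

namespace Pool.Agent.Q20.LG

open Pool.Agent.Q246.BI
open Subgroup (zpowers)
open scoped Classical

section
variable {G : Type} [Group G] [Finite G]

/-- a virtual character is a polynomial with integral coefficients in a root of unity -/
theorem exists_poly (u : G) {f : G → ℂ} (hf : f ∈ Vch G) {ζ : ℂ}
    (hζ : IsPrimitiveRoot ζ (orderOf u)) :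
    ∃ P : Polynomial ℤ, ∀ k : ℕ, f (u ^ k) = Polynomial.aeval (ζ ^ k) P := by
  have : NeZero (orderOf u) := ⟨(orderOf_pos u).ne'⟩
  have hlin : ∀ φ : zpowers u → ℂ, φ ∈ AddSubgroup.closure {f : zpowers u → ℂ |
      ∃ ψ : zpowers u →* ℂˣ, f = fun g => ((ψ g : ℂˣ) : ℂ)} →
      ∃ P : Polynomial ℤ, ∀ k : ℕ, φ ⟨u ^ k, Subgroup.pow_mem _ (Subgroup.mem_zpowers u) k⟩ =
        Polynomial.aeval (ζ ^ k) P := by
    intro φ hφ
    induction hφ using AddSubgroup.closure_induction with
    | mem φ hφ =>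
      obtain ⟨ψ, rfl⟩ := hφ
      have h1 : ((ψ ⟨u, Subgroup.mem_zpowers u⟩ : ℂˣ) : ℂ) ^ orderOf u = 1 := by
        rw [← Units.val_pow_eq_pow_val, ← map_pow]
        have h2 : (⟨u, Subgroup.mem_zpowers u⟩ : zpowers u) ^ orderOf u = 1 :=
          Subtype.ext (pow_orderOf_eq_one u)
        rw [h2, map_one, Units.val_one]
      obtain ⟨a, -, ha⟩ := hζ.eq_pow_of_pow_eq_one h1
      refine ⟨Polynomial.X ^ a, fun k => ?_⟩
      rw [map_pow, Polynomial.aeval_X, ← pow_mul, mul_comm, pow_mul, ha,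
        ← Units.val_pow_eq_pow_val, ← map_pow]
      rfl
    | zero => exact ⟨0, fun k => by rw [map_zero]; rfl⟩
    | add a b _ _ ha hb =>
      obtain ⟨P, hP⟩ := ha
      obtain ⟨Q, hQ⟩ := hb
      exact ⟨P + Q, fun k => by rw [Pi.add_apply, hP, hQ, map_add]⟩
    | neg a _ ha =>
      obtain ⟨P, hP⟩ := ha
      exact ⟨-P, fun k => by rw [Pi.neg_apply, hP, map_neg]⟩
  have hcy : IsCyclic (zpowers u) := inferInstance
  have h1 : (fun g : zpowers u => f g) ∈ AddSubgroup.closure {f : zpowers u → ℂ |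
      ∃ ψ : zpowers u →* ℂˣ, f = fun g => ((ψ g : ℂˣ) : ℂ)} := by
    induction hf using AddSubgroup.closure_induction with
    | mem f hf => exact abel_mem (cyc_comm hcy) _ (isCh_comp (zpowers u).subtype hf)
    | zero => exact zero_mem _
    | add a b _ _ ha hb => exact add_mem (S := AddSubgroup (zpowers u → ℂ)) ha hb
    | neg a _ ha => exact neg_mem (S := AddSubgroup (zpowers u → ℂ)) ha
  obtain ⟨P, hP⟩ := hlin _ h1
  exact ⟨P, fun k => hP k⟩

/-- **Rational values are constant on the generators of a cyclic group.** -/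
theorem rat_gen {f : G → ℂ} (hf : f ∈ Vch G) {u v : G} (huv : zpowers u = zpowers v) {q : ℚ}
    (hq : f u = q) : f v = f u := by
  have hpos := orderOf_pos u
  have : NeZero (orderOf u) := ⟨hpos.ne'⟩
  have hζ := Complex.isPrimitiveRoot_exp (orderOf u) hpos.ne'
  set ζ := Complex.exp (2 * Real.pi * Complex.I / (orderOf u : ℂ)) with hζdef
  obtain ⟨P, hP⟩ := exists_poly u hf hζ
  obtain ⟨k, hk⟩ : ∃ k : ℕ, u ^ k = v := by
    have h1 : v ∈ zpowers u := huv ▸ Subgroup.mem_zpowers v
    have h2 := (isOfFinOrder_of_finite u).mem_powers_iff_mem_zpowers.2 h1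
    obtain ⟨n, hn⟩ := (Submonoid.mem_powers_iff _ _).1 h2
    exact ⟨n, hn⟩
  have hcop : Nat.Coprime k (orderOf u) := by
    have h1 : orderOf (u ^ k) = orderOf u := by
      rw [hk, ← Nat.card_zpowers, ← huv, Nat.card_zpowers]
    rw [orderOf_pow] at h1
    have h2 : Nat.gcd (orderOf u) k = 1 := by
      by_contra hne
      have h3 : 1 < Nat.gcd (orderOf u) k := by
        have := Nat.gcd_pos_of_pos_left k hpos
        omega
      exact absurd h1 (Nat.div_lt_self hpos h3).ne
    rw [Nat.coprime_comm]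
    exact h2
  have hζi : IsIntegral ℚ ζ := (hζ.isIntegral hpos).tower_top
  have h1 : Polynomial.aeval ζ (P.map (Int.castRingHom ℚ) - Polynomial.C q) = 0 := by
    rw [map_sub, Polynomial.aeval_C]
    have h2 : Polynomial.aeval ζ (P.map (Int.castRingHom ℚ)) = Polynomial.aeval ζ P := by
      rw [Polynomial.aeval_def, Polynomial.eval₂_map, Polynomial.aeval_def]
      congr 1
    rw [h2]
    have h3 := hP 1
    rw [pow_one, pow_one] at h3
    rw [← h3, hq]
    simp
  have h2 : minpoly ℚ ζ ∣ P.map (Int.castRingHom ℚ) - Polynomial.C q := minpoly.dvd _ _ h1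
  have h3 : Polynomial.aeval (ζ ^ k) (minpoly ℚ ζ) = 0 := by
    have h4 := hζ.minpoly_eq_pow_coprime hcop
    rw [minpoly.isIntegrallyClosed_eq_field_fractions' ℚ (hζ.isIntegral hpos), h4,
      ← minpoly.isIntegrallyClosed_eq_field_fractions' ℚ ((hζ.isIntegral hpos).pow k)]
    exact minpoly.aeval ℚ (ζ ^ k)
  have h4 : Polynomial.aeval (ζ ^ k) (P.map (Int.castRingHom ℚ) - Polynomial.C q) = 0 := by
    obtain ⟨R, hR⟩ := h2
    rw [hR, map_mul, h3, zero_mul]
  rw [map_sub, Polynomial.aeval_C] at h4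
  have h5 : Polynomial.aeval (ζ ^ k) (P.map (Int.castRingHom ℚ)) = Polynomial.aeval (ζ ^ k) P := by
    rw [Polynomial.aeval_def, Polynomial.eval₂_map, Polynomial.aeval_def]
    congr 1
  rw [h5, ← hP k, hk] at h4
  rw [sub_eq_zero.1 h4, hq]
  simp

end

section
variable {Γ : Type} [Group Γ] [TopologicalSpace Γ] [IsTopologicalGroup Γ]
  [CompactSpace Γ] [TotallyDisconnectedSpace Γ]

theorem lev_of_same {u v : Γ} (h : Same u v) {N : Subgroup Γ} (hN : Lv (⊤ : Subgroup Γ) N) :
    Lev N u v := by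
  have hNn := hN.1
  have key : ∀ {u v : Γ}, Same u v → ∃ k : ℤ, (u ^ k)⁻¹ * v ∈ N := by
    intro u v h
    have h1 : v ∈ closure (zpowers u : Set Γ) := by
      rw [h]
      exact subset_closure (Subgroup.mem_zpowers v)
    rw [mem_closure_iff] at h1
    obtain ⟨y, hy1, hy2⟩ := h1 {y | y⁻¹ * v ∈ N}
      (hN.2.1.preimage ((continuous_mul_const v).comp continuous_inv)) (by
        change v⁻¹ * v ∈ N
        rw [inv_mul_cancel]
        exact N.one_mem)
    obtain ⟨k, rfl⟩ := Subgroup.mem_zpowers_iff.1 hy2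
    exact ⟨k, hy1⟩
  exact ⟨key h, key h.symm⟩

/-- rational values of virtual characters of profinite groups -/
theorem rat_same {f : Γ → ℂ} (hf : f ∈ RChar Γ) {u v : Γ} (huv : Same u v) {q : ℚ}
    (hq : f u = q) : f u = f v := by
  obtain ⟨N, hN, h1⟩ := exists_lift hf
  have hNn := hN.1
  have hfin := fin_quot hN.2.1
  obtain ⟨f', hf', h2⟩ := h1 N le_rfl
  have h3 := lev_of_same huv (N := N) ⟨hN.1, hN.2.1, le_top⟩
  rw [lev_iff] at h3
  have h4 := rat_gen hf' h3 (q := q) (by rw [← h2, hq])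
  rw [h2, h2, h4]

end

end Pool.Agent.Q20.LG
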