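import Pool.Agent.Q20.LG.Loc
import Pool.Agent.Q20.LG.Appr2

/-!
# The rational character ring modulo characters induced from unramified characters is the direct
sum of the local ones
-/

set_option autoImplicit false
set_option linter.unusedSectionVars false

namespace Pool.Agent.Q20.LG

open NumberField IsDedekindDomain Pool.Agent.Q246.RP Pool.Agent.Q273.SP
open Pool.Agent.Q246.BI (Smooth IsCharacter induced NN)
open Subgroup (zpowers)
open scoped Classical

section
variable {Γ : Type} [Group Γ] [TopologicalSpace Γ]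

theorem isChar_one : IsChar (fun _ : Γ => (1 : ℂ)) :=
  ⟨1, 1, ⊤, isOpen_univ, fun _ _ => rfl, fun g => by simp⟩

theorem one_mem_rchar : (fun _ : Γ => (1 : ℂ)) ∈ RChar Γ := by
  unfold RChar
  refine AddSubgroup.subset_closure ?_
  exact isChar_one

theorem rchar_one_int {f : Γ → ℂ} (hf : f ∈ RChar Γ) : ∃ k : ℤ, f 1 = k := by
  induction hf using AddSubgroup.closure_induction with
  | mem f hf =>
    obtain ⟨n, τ, U, -, -, hτ⟩ := hf
    refine ⟨n, ?_⟩
    rw [hτ, map_one]
    simp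
  | zero => exact ⟨0, by simp⟩
  | add a b _ _ ha hb =>
    obtain ⟨k, hk⟩ := ha
    obtain ⟨k', hk'⟩ := hb
    exact ⟨k + k', by rw [Pi.add_apply, hk, hk']; push_cast; rfl⟩
  | neg a _ ha =>
    obtain ⟨k, hk⟩ := ha
    exact ⟨-k, by rw [Pi.neg_apply, hk]; push_cast; rfl⟩

theorem one_mem_unr (𝒯 : Set Γ) : (fun _ : Γ => (1 : ℂ)) ∈ Unr 𝒯 := by
  refine ⟨⊤, 1, isOpen_univ, ⟨⊤, isOpen_univ, fun _ _ => rfl⟩, fun _ _ => rfl, ?_⟩
  funext g
  unfold Indu
  have hsub : Subsingleton (Γ ⧸ (⊤ : Subgroup Γ)) := QuotientGroup.subsingleton_quotient_top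
  have : Unique (Γ ⧸ (⊤ : Subgroup Γ)) :=
    { default := QuotientGroup.mk 1
      uniq := fun a => Subsingleton.elim _ _ }
  rw [finsum_unique, dif_pos (Subgroup.mem_top _)]
  rfl

end

section
variable {K : Type} [Field K] [NumberField K]

/-- restriction to the decomposition group -/
noncomputable def resF (F : IntermediateField K (AlgebraicClosure K)) (w : AlgebraicClosure K → ℝ) :
    (F.fixingSubgroup → ℂ) →+ (decF F w → ℂ) where
  toFun := fun f g => f g
  map_zero' := rfl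
  map_add' := fun _ _ => rfl

/-- the virtual characters which are locally combinations of induced unramified characters
outside a set of places -/
noncomputable def Away (F : IntermediateField K (AlgebraicClosure K))
    (w : HeightOneSpectrum (𝓞 F) → (AlgebraicClosure K → ℝ)) (S : Set (HeightOneSpectrum (𝓞 F))) :
    AddSubgroup (F.fixingSubgroup → ℂ) :=
  RChar F.fixingSubgroup ⊓ ⨅ v : {v // v ∉ S}, (sat (AddSubgroup.closure
    (Unr (ineF F (w v))))).comap (resF F (w v))

theorem mem_away {F : IntermediateField K (AlgebraicClosure K)}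
    {w : HeightOneSpectrum (𝓞 F) → (AlgebraicClosure K → ℝ)}
    {S : Set (HeightOneSpectrum (𝓞 F))} {f : F.fixingSubgroup → ℂ} :
    f ∈ Away F w S ↔ f ∈ RChar F.fixingSubgroup ∧ ∀ v, v ∉ S →
      resF F (w v) f ∈ sat (AddSubgroup.closure (Unr (ineF F (w v)))) := by
  unfold Away
  rw [AddSubgroup.mem_inf, AddSubgroup.mem_iInf]
  refine and_congr_right fun _ => ?_
  constructor
  · intro h v hv
    exact h ⟨v, hv⟩
  · rintro h ⟨v, hv⟩
    exact h v hv

/-- conjugate places lie above the same prime -/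
theorem above_comp {F : IntermediateField K (AlgebraicClosure K)} {v : HeightOneSpectrum (𝓞 F)}
    {w : AlgebraicClosure K → ℝ} (h : Above F v w) (x : F.fixingSubgroup) :
    Above F v (fun y => w ((x : Gal(AlgebraicClosure K/K)) y)) := by
  obtain ⟨⟨p, hp, hpw⟩, h1⟩ := h
  refine ⟨⟨p, hp, hpw.comp _⟩, fun y => ?_⟩
  rw [h1]
  have h2 : (x : Gal(AlgebraicClosure K/K)) ((y : F) : AlgebraicClosure K) = (y : F) :=
    (IntermediateField.mem_fixingSubgroup_iff _ _).1 x.2 _ (y : F).2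
  change _ ↔ w ((x : Gal(AlgebraicClosure K/K)) ((y : F) : AlgebraicClosure K)) < 1
  rw [h2]

theorem above_unique {F : IntermediateField K (AlgebraicClosure K)}
    {v v' : HeightOneSpectrum (𝓞 F)} {w w' : AlgebraicClosure K → ℝ} (h : Above F v w)
    (h' : Above F v' w') (heq : ∀ y : 𝓞 F, (w ((y : F) : AlgebraicClosure K) < 1 ↔
      w' ((y : F) : AlgebraicClosure K) < 1)) : v = v' := by
  apply HeightOneSpectrum.ext
  ext y
  rw [h.2, h'.2, heq]

/-- the decomposition groups of chosen places are independent -/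
theorem dec_indep (F : IntermediateField K (AlgebraicClosure K))
    {w : HeightOneSpectrum (𝓞 F) → (AlgebraicClosure K → ℝ)} (hw : ∀ v, Above F v (w v))
    (i j : HeightOneSpectrum (𝓞 F)) (x a b : F.fixingSubgroup) (ha : a ∈ decF F (w i))
    (hb : b ∈ decF F (w j)) (hab : x⁻¹ * a * x = b) (ha1 : a ≠ 1) :
    i = j ∧ x ∈ decF F (w i) := by
  obtain ⟨⟨p, hp, hpw⟩, h1⟩ := hw i
  obtain ⟨⟨q, hq, hqw⟩, h2⟩ := hw j
  have h3 : (fun y => w i ((x : Gal(AlgebraicClosure K/K)) y)) = w j := by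
    by_contra hne
    have h4 := malnormal hp hq (hpw.comp (x : Gal(AlgebraicClosure K/K))) hqw hne
      (b : Gal(AlgebraicClosure K/K)) (by
        have h5 := Dec.conj ha (x : Gal(AlgebraicClosure K/K))
        have h6 : ((x : Gal(AlgebraicClosure K/K)))⁻¹ * (a : Gal(AlgebraicClosure K/K)) *
          (x : Gal(AlgebraicClosure K/K)) = b := congrArg Subtype.val hab
        rw [h6] at h5
        exact h5) hb
    apply ha1
    have h5 : b = 1 := Subtype.ext h4
    rw [h5] at hab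
    have h6 : a = x * (x⁻¹ * a * x) * x⁻¹ := by group
    rw [h6, hab]
    group
  have hij : i = j := by
    refine above_unique (above_comp (hw i) x) (hw j) fun y => ?_
    have h4 := congrFun h3 ((y : F) : AlgebraicClosure K)
    change w i _ = _ at h4
    rw [h4]
  refine ⟨hij, ?_⟩
  subst hij
  exact fun y => congrFun h3 y

/-- the local condition for induced characters unramified above `v` -/
theorem res_unram (F F' : IntermediateField K (AlgebraicClosure K)) [FiniteDimensional K F]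
    [FiniteDimensional K F'] {v : HeightOneSpectrum (𝓞 F)} {w : AlgebraicClosure K → ℝ}
    (hw : Above F v w) (ψ : F'.fixingSubgroup →* ℂˣ) (hs : Smooth F' ψ)
    (hψ : ∀ w', Above F v w' → ∀ g : F'.fixingSubgroup, Ine w' (g : Gal(AlgebraicClosure K/K)) →
      ψ g = 1) :
    resF F w (induced F F' (fun g => ((ψ g : ℂˣ) : ℂ))) ∈
      sat (AddSubgroup.closure (Unr (ineF F w))) := by
  obtain ⟨⟨p, hp, hpw⟩, h1⟩ := hw
  have hch := (isChar_iff F _).1 (isCharacter_induced F F' inferInstance ψ hs)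
  refine (local_criterion F hp hpw (rchar_res (decF F w) (AddSubgroup.subset_closure hch))).2 ?_
  obtain ⟨ψ', hψ', h2⟩ := induced_eq F F' ψ
  rw [h2]
  let 𝒯 : Set F.fixingSubgroup := {g | g = 1 ∨ ∃ w', Above F v w' ∧
    Ine w' (g : Gal(AlgebraicClosure K/K))}
  have hT : ∀ t ∈ 𝒯, ∀ x : F.fixingSubgroup, x⁻¹ * t * x ∈ 𝒯 := by
    rintro t (h | ⟨w', hw', h⟩) x
    · left
      rw [h]
      group
    · exact Or.inr ⟨_, above_comp hw' x, Ine.conj h _⟩
  intro u u' huu' ht
  refine indu_nec hT _ (isOpen_sub F F') _ (fun a b hb => ?_) ((same_sub u u').1 huu')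
    (Or.inr ⟨w, ⟨⟨p, hp, hpw⟩, h1⟩, ht⟩)
  have h3 : ψ' b = 1 := by
    rw [hψ']
    rcases hb with hb | ⟨w', hw', hb⟩
    · have h4 : ((b : F.fixingSubgroup) : Gal(AlgebraicClosure K/K)) = 1 :=
        congrArg Subtype.val hb
      have h3 : (⟨((b : F.fixingSubgroup) : Gal(AlgebraicClosure K/K)), b.2⟩ : F'.fixingSubgroup) =
          1 := Subtype.ext h4
      rw [h3, map_one]
    · exact hψ w' hw' _ hb
  rw [map_mul, h3, mul_one]

/-- virtual characters are sums of characters ramified above one place -/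
theorem rchar_le (F : IntermediateField K (AlgebraicClosure K)) [FiniteDimensional K F] :
    RChar F.fixingSubgroup ≤ sat (AddSubgroup.closure (GenP F 1 ∅ F)) := by
  unfold RChar
  rw [AddSubgroup.closure_le]
  intro χ hχ
  exact one_place_induction F ((isChar_iff F χ).2 hχ) Nat.one_pos
    (fun p hp => absurd hp (Finset.notMem_empty p)) F

/-- **Decomposition.** -/
theorem genP_le (F : IntermediateField K (AlgebraicClosure K)) [FiniteDimensional K F]
    {w : HeightOneSpectrum (𝓞 F) → (AlgebraicClosure K → ℝ)} (hw : ∀ v, Above F v (w v))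
    (S : Set (HeightOneSpectrum (𝓞 F))) :
    AddSubgroup.closure (GenP F 1 ∅ F) ≤ Away F w S ⊔ Away F w Sᶜ := by
  rw [AddSubgroup.closure_le]
  rintro _ ⟨F', ψ, hle, hfd, hs, hψ, rfl⟩
  have hch := (isChar_iff F _).1 (isCharacter_induced F F' hfd ψ hs)
  have hR : induced F F' (fun g => ((ψ g : ℂˣ) : ℂ)) ∈ RChar F.fixingSubgroup :=
    AddSubgroup.subset_closure hch
  by_cases h : ∃ v ∈ S, ∃ w', Above F v w' ∧ ∃ g : F'.fixingSubgroup,
      Ine w' (g : Gal(AlgebraicClosure K/K)) ∧ ψ g ≠ 1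
  · obtain ⟨v, hvS, w', hw', g, hg, hgψ⟩ := h
    refine AddSubgroup.mem_sup_left (mem_away.2 ⟨hR, fun v' hv' => ?_⟩)
    refine res_unram F F' (hw v') ψ hs fun w'' hw'' g' hg' => ?_
    by_contra hne
    rcases hψ with ⟨-, -, hone⟩ | rfl
    · obtain ⟨⟨p, hp, hpw⟩, h1⟩ := hw'
      obtain ⟨⟨q, hq, hqw⟩, h2⟩ := hw''
      have h3 := hone p q hp hq w' w'' hpw hqw (Or.inl ⟨g, hg, hgψ⟩) (Or.inl ⟨g', hg', hne⟩)
      have h4 : v = v' := above_unique ⟨⟨p, hp, hpw⟩, h1⟩ ⟨⟨q, hq, hqw⟩, h2⟩ h3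
      exact hv' (h4 ▸ hvS)
    · exact hgψ rfl
  · push Not at h
    refine AddSubgroup.mem_sup_right (mem_away.2 ⟨hR, fun v' hv' => ?_⟩)
    rw [Set.mem_compl_iff, not_not] at hv'
    exact res_unram F F' (hw v') ψ hs fun w'' hw'' g' hg' => h v' hv' w'' hw'' g' hg'

/-- **Surjectivity**: local virtual characters at finitely many places. -/
theorem surjective (F : IntermediateField K (AlgebraicClosure K)) [FiniteDimensional K F]
    {w : HeightOneSpectrum (𝓞 F) → (AlgebraicClosure K → ℝ)} (hw : ∀ v, Above F v (w v))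
    (S : Finset (HeightOneSpectrum (𝓞 F))) (φ : ∀ v, decF F (w v) → ℂ)
    (hφ : ∀ v ∈ S, φ v ∈ RChar (decF F (w v))) :
    ∃ m : ℕ, 0 < m ∧ ∃ f ∈ RChar F.fixingSubgroup,
      (∀ v ∈ S, resF F (w v) f - m • φ v ∈ sat (AddSubgroup.closure (Unr (ineF F (w v))))) ∧
      ∀ v, v ∉ S → resF F (w v) f ∈ sat (AddSubgroup.closure (Unr (ineF F (w v)))) := by
  choose! k hk using fun (v : HeightOneSpectrum (𝓞 F)) (hv : v ∈ S) => rchar_one_int (hφ v hv)
  obtain ⟨m₀, hm₀, f₀, hf₀, h1⟩ := approx (ι := S) (fun v => decF F (w v))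
    (fun v => (isClosed_dec (w v)).preimage continuous_subtype_val)
    (fun i j x a b ha hb hab ha1 => by
      obtain ⟨h1, h2⟩ := dec_indep F hw i j x a b ha hb hab ha1
      exact ⟨Subtype.ext h1, h2⟩)
    (fun v => φ v - k v • (fun _ : decF F (w v) => (1 : ℂ)))
    (fun v => AddSubgroup.sub_mem (RChar (decF F (w v))) (hφ v v.2)
      (AddSubgroup.zsmul_mem _ one_mem_rchar _)) 0
    (fun v => by
      rw [Pi.sub_apply, hk v v.2, Pi.smul_apply, zsmul_eq_mul, mul_one, sub_self])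
  obtain ⟨m₁, hm₁, h2⟩ := rchar_le F hf₀
  obtain ⟨a, ha, b, hb, hab⟩ := AddSubgroup.mem_sup.1 (genP_le F hw S h2)
  rw [mem_away] at ha hb
  refine ⟨m₁ * m₀, Nat.mul_pos hm₁ hm₀, a, ha.1, fun v hv => ?_, fun v hv => ha.2 v hv⟩
  have hb' := hb.2 v (by rw [Set.mem_compl_iff, not_not]; exact hv)
  have h3 : resF F (w v) a - (m₁ * m₀) • φ v =
      -(resF F (w v) b) - (((m₁ * m₀ : ℕ) : ℤ) * k v) • (fun _ : decF F (w v) => (1 : ℂ)) := by
    have h4 : resF F (w v) f₀ = m₀ • (φ v - k v • (fun _ : decF F (w v) => (1 : ℂ))) := by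
      funext g
      exact h1 ⟨v, hv⟩ g
    have h5 : a = m₁ • f₀ - b := by rw [← hab]; abel
    rw [h5, map_sub, map_nsmul, h4]
    funext g
    change m₁ • (m₀ • (φ v g - k v • (1 : ℂ))) - resF F (w v) b g - (m₁ * m₀) • φ v g =
      -(resF F (w v) b g) - (((m₁ * m₀ : ℕ) : ℤ) * k v) • (1 : ℂ)
    simp only [nsmul_eq_mul, zsmul_eq_mul, mul_one]
    push_cast
    ring
  rw [h3]
  refine sub_mem (neg_mem hb') (zsmul_mem ?_ _)
  exact ⟨1, Nat.one_pos, by rw [one_nsmul]; exact AddSubgroup.subset_closure (one_mem_unr _)⟩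

end

end Pool.Agent.Q20.LG
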