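import Pool.Agent.Q20.LG.Exist

/-!
# Local terms of additive inductive functions; linear characters
-/

set_option autoImplicit false
set_option linter.unusedSectionVars false

namespace Pool.Agent.Q20.LG

open NumberField IsDedekindDomain Pool.Agent.Q246.RP Pool.Agent.Q273.SP
open Pool.Agent.Q246.BI (Smooth IsCharacter induced NN)
open Subgroup (zpowers)
open scoped Classical

section
variable {K : Type} [Field K] [NumberField K]

/-- the local condition: `f` is constant on the elements of a decomposition group which generate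
the same closed subgroup and are congruent modulo the inertia group -/
def LocCond (T : Set ℕ) (F : IntermediateField K (AlgebraicClosure K))
    (f : F.fixingSubgroup → ℂ) : Prop :=
  ∀ p : ℕ, p.Prime → p ∉ T → ∀ w : AlgebraicClosure K → ℝ, IsPl p w → ∀ u v : F.fixingSubgroup,
    Dec w (u : Gal(AlgebraicClosure K/K)) → Dec w (v : Gal(AlgebraicClosure K/K)) → Same u v →
    Ine w ((u⁻¹ * v : F.fixingSubgroup) : Gal(AlgebraicClosure K/K)) → f u = f v

theorem locCond_iff (T : Set ℕ) (F : IntermediateField K (AlgebraicClosure K))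
    (f : F.fixingSubgroup → ℂ) : LocCond T F f ↔ Cond (TT T F) f := by
  rw [cond_iff_local]
  constructor
  · intro h p hp hpT w hw u v huv ht
    exact h p hp hpT w hw u v u.2 v.2 ((same_sub u v).1 huv) ht
  · intro h p hp hpT w hw u v hu hv huv ht
    exact h p hp hpT w hw ⟨u, hu⟩ ⟨v, hv⟩ ((same_sub _ _).2 huv) ht

/-- the prime `v` lies above a prime of `T` -/
def AboveT (T : Set ℕ) {F : IntermediateField K (AlgebraicClosure K)}
    (v : HeightOneSpectrum (𝓞 F)) : Prop := ∃ p : ℕ, p.Prime ∧ p ∈ T ∧ (p : 𝓞 F) ∈ v.asIdeal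

/-- one place above each prime is enough -/
theorem chosen_iff (T : Set ℕ) (F : IntermediateField K (AlgebraicClosure K))
    [FiniteDimensional K F] {w : HeightOneSpectrum (𝓞 F) → (AlgebraicClosure K → ℝ)}
    (hw : ∀ v, Above F v (w v)) {f : F.fixingSubgroup → ℂ} (hf : f ∈ RChar F.fixingSubgroup) :
    Cond (TT T F) f ↔ ∀ v, ¬ AboveT T v →
      ∃ m : ℕ, 0 < m ∧ (m • fun g : decF F (w v) => f g) ∈
        AddSubgroup.closure (Unr (ineF F (w v))) := by
  constructor
  · intro h v hv
    obtain ⟨⟨q, hq, hqw⟩, h1⟩ := hw v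
    have hqT : q ∉ T := fun h2 => hv ⟨q, hq, h2, (above_prime ⟨⟨q, hq, hqw⟩, h1⟩ hq).2 hqw⟩
    exact (local_criterion F hq hqw (rchar_res (decF F (w v)) hf)).2
      ((cond_iff_local T F f).1 h q hq hqT (w v) hqw)
  · intro h
    rw [cond_iff_local]
    intro p hp hpT w' hw'
    obtain ⟨v, hv, hpv⟩ := exists_above F hp hw'
    obtain ⟨g, rfl⟩ := transitive F v (hw v) hv
    apply cond_transport F hf
    obtain ⟨⟨q, hq, hqw⟩, h1⟩ := hw v
    have hvT : ¬ AboveT T v := by
      rintro ⟨p', hp', hp'T, hp'v⟩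
      have h1 := (above_prime (hw v) hp').1 hp'v
      have h2 := (above_prime (hw v) hp).1 hpv
      rw [prime_unique hp' hp h1 h2] at hp'T
      exact hpT hp'T
    exact (local_criterion F hq hqw (rchar_res (decF F (w v)) hf)).1 (h v hvT)

/-- **Linear characters**: the condition says that the square is unramified. -/
theorem lin_iff (T : Set ℕ) (F : IntermediateField K (AlgebraicClosure K))
    [FiniteDimensional K F] (ψ : F.fixingSubgroup →* ℂˣ) (hs : Smooth F ψ) :
    Cond (TT T F) (fun g => ((ψ g : ℂˣ) : ℂ)) ↔ UnrAt T F (ψ ^ 2) := by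
  constructor
  · intro h p hp hpT w hw g hg
    rw [← locCond_iff] at h
    have hgi : Ine w ((g⁻¹ : F.fixingSubgroup) : Gal(AlgebraicClosure K/K)) := Ine.inv hp hw hg
    have h1 := h p hp hpT w hw g g⁻¹ hg.1 hgi.1 (by
      unfold Same
      rw [Subgroup.zpowers_inv]) (by
      rw [Subgroup.coe_mul]
      exact Ine.mul hw hgi hgi)
    have h2 : ψ g = (ψ g)⁻¹ := by
      rw [← map_inv]
      exact Units.ext h1
    rw [MonoidHom.pow_apply, pow_two]
    nth_rewrite 1 [h2]
    exact inv_mul_cancel _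
  · intro h
    obtain ⟨E, hE, hEψ⟩ := hs
    rw [cond_iff_local]
    intro p hp hpT w hw u v huv ht
    have h1 := exp_two (fun x m hm => ineF_tf F hp hw x m hm) (ψ.comp (decF F w).subtype)
      (U := (E.fixingSubgroup.subgroupOf F.fixingSubgroup).subgroupOf (decF F w))
      ((isOpen_sub F E).preimage continuous_subtype_val) (fun g hg => hEψ _ hg)
      (fun t ht => h p hp hpT w hw _ ht) huv ht
    exact congrArg (fun y : ℂˣ => (y : ℂ)) h1

/-- restriction of virtual characters to the decomposition group -/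
noncomputable def resR (F : IntermediateField K (AlgebraicClosure K)) (w : AlgebraicClosure K → ℝ) :
    RChar F.fixingSubgroup →+ RChar (decF F w) where
  toFun := fun f => ⟨fun g => (f : F.fixingSubgroup → ℂ) g, rchar_res (decF F w) f.2⟩
  map_zero' := rfl
  map_add' := fun _ _ => rfl

variable {B : Type} [AddCommGroup B]

/-- **Local terms.** The function `D` of the characters of `Gal(K̄/F)` is the sum of the
homomorphisms `δ v` of the groups of virtual characters of the decomposition groups, which vanish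
at the combinations of characters induced from unramified linear characters (and are zero for the
primes above `T`). -/
structure LocalTerms (T : Set ℕ) (F : IntermediateField K (AlgebraicClosure K))
    (w : HeightOneSpectrum (𝓞 F) → (AlgebraicClosure K → ℝ)) (D : (F.fixingSubgroup → ℂ) → B)
    (δ : ∀ v, RChar (decF F (w v)) →+ B) : Prop where
  unramified : ∀ v, ∀ φ : RChar (decF F (w v)),
    (φ : decF F (w v) → ℂ) ∈ AddSubgroup.closure (Unr (ineF F (w v))) → δ v φ = 0
  above : ∀ v, AboveT T v → δ v = 0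
  finite : ∀ f : RChar F.fixingSubgroup, {v | δ v (resR F (w v) f) ≠ 0}.Finite
  sum : ∀ f : RChar F.fixingSubgroup, IsCharacter F f → D f = ∑ᶠ v, δ v (resR F (w v) f)

theorem kill_satR (htf : ∀ (m : ℕ) (b : B), 0 < m → m • b = 0 → b = 0) {Γ : Type} [Group Γ]
    [TopologicalSpace Γ] {V : AddSubgroup (Γ → ℂ)} (d : RChar Γ →+ B)
    (hd : ∀ y : RChar Γ, (y : Γ → ℂ) ∈ V → d y = 0) {y : RChar Γ} (hy : (y : Γ → ℂ) ∈ sat V) :
    d y = 0 := by
  obtain ⟨m, hm, h⟩ := hy
  have h1 := hd (m • y) h
  rw [map_nsmul] at h1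
  exact htf m _ hm h1

theorem fin_suppR (htf : ∀ (m : ℕ) (b : B), 0 < m → m • b = 0 → b = 0)
    (F : IntermediateField K (AlgebraicClosure K)) [FiniteDimensional K F]
    {w : HeightOneSpectrum (𝓞 F) → (AlgebraicClosure K → ℝ)} (hw : ∀ v, Above F v (w v))
    (d : ∀ v, RChar (decF F (w v)) →+ B)
    (hd : ∀ v, ∀ y : RChar (decF F (w v)),
      (y : decF F (w v) → ℂ) ∈ AddSubgroup.closure (Unr (ineF F (w v))) → d v y = 0)
    (f : RChar F.fixingSubgroup) :
    (Function.support fun v => d v (resR F (w v) f)).Finite := by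
  obtain ⟨T₁, hT₁, h1⟩ := cond_unram F f.2
  refine (finite_above F T₁ hT₁).subset fun v hv => ?_
  by_contra hcon
  apply hv
  obtain ⟨⟨q, hq, hqw⟩, -⟩ := hw v
  have hqT : q ∉ T₁ := fun h => hcon ⟨q, h, (above_prime (hw v) hq).2 hqw⟩
  exact kill_satR htf (d v) (hd v) ((local_criterion F hq hqw (rchar_res (decF F (w v)) f.2)).2
    (h1 q hq hqT (w v) hqw))

theorem unique_zeroR (htf : ∀ (m : ℕ) (b : B), 0 < m → m • b = 0 → b = 0)
    (F : IntermediateField K (AlgebraicClosure K)) [FiniteDimensional K F]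
    {w : HeightOneSpectrum (𝓞 F) → (AlgebraicClosure K → ℝ)} (hw : ∀ v, Above F v (w v))
    (d : ∀ v, RChar (decF F (w v)) →+ B)
    (hd : ∀ v, ∀ y : RChar (decF F (w v)),
      (y : decF F (w v) → ℂ) ∈ AddSubgroup.closure (Unr (ineF F (w v))) → d v y = 0)
    (h : ∀ f : RChar F.fixingSubgroup, IsCharacter F f → ∑ᶠ v, d v (resR F (w v) f) = 0)
    (v₀ : HeightOneSpectrum (𝓞 F)) (φ : RChar (decF F (w v₀))) : d v₀ φ = 0 := by
  have h1 : ∀ (f : F.fixingSubgroup → ℂ) (hf : f ∈ RChar F.fixingSubgroup),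
      ∑ᶠ v, d v (resR F (w v) ⟨f, hf⟩) = 0 := by
    intro f hf
    induction hf using AddSubgroup.closure_induction with
    | mem f hf => exact h ⟨f, AddSubgroup.subset_closure hf⟩ ((isChar_iff F f).2 hf)
    | zero =>
      have h2 : (fun v => d v (resR F (w v) ⟨0, zero_mem (RChar F.fixingSubgroup)⟩)) =
          fun _ => 0 := by
        funext v
        exact (congrArg (d v) (map_zero (resR F (w v)))).trans (map_zero _)
      rw [h2, finsum_zero]
    | add a b ha hb ha' hb' =>
      have h2 : (fun v => d v (resR F (w v) ⟨a + b, add_mem ha hb⟩)) =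
          fun v => d v (resR F (w v) ⟨a, ha⟩) + d v (resR F (w v) ⟨b, hb⟩) := by
        funext v
        rw [← map_add, ← map_add]
        rfl
      rw [h2, finsum_add_distrib (fin_suppR htf F hw d hd _) (fin_suppR htf F hw d hd _), ha', hb',
        add_zero]
    | neg a ha ha' =>
      have h2 : (fun v => d v (resR F (w v) ⟨-a, neg_mem ha⟩)) =
          fun v => -d v (resR F (w v) ⟨a, ha⟩) := by
        funext v
        rw [← map_neg, ← map_neg]
        rfl
      rw [h2, finsum_neg_distrib, ha', neg_zero]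
  let Φ : ∀ v, decF F (w v) → ℂ := Function.update (fun _ => 0) v₀ φ
  have hΦ : Φ v₀ = φ :=
    Function.update_self (β := fun v => decF F (w v) → ℂ) v₀ φ (fun _ => 0)
  obtain ⟨m, hm, f, hf, h2, h3⟩ := surjective F hw {v₀} Φ (by
    intro v hv
    rw [Finset.mem_singleton] at hv
    subst hv
    rw [hΦ]
    exact φ.2)
  have h4 := h1 f hf
  rw [finsum_eq_single _ v₀ (fun v hv => kill_satR htf (d v) (hd v)
    (h3 v (fun h => hv (Finset.mem_singleton.1 h))))] at h4
  have h5 := kill_satR htf (d v₀) (hd v₀) (y := resR F (w v₀) ⟨f, hf⟩ - m • φ) (by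
    have h6 := h2 v₀ (Finset.mem_singleton_self v₀)
    rw [hΦ] at h6
    exact h6)
  rw [map_sub, h4, zero_sub, neg_eq_zero, map_nsmul] at h5
  exact htf m _ hm h5

theorem baer_of_div (hdiv : ∀ (n : ℕ) (b : B), 0 < n → ∃ c, n • c = b) : Module.Baer ℤ B := by
  have : DivisibleBy B ℤ := divisibleByOfSMulRightSurj B ℤ (fun {n} hn b => by
    obtain ⟨c, hc⟩ := hdiv n.natAbs b (Int.natAbs_pos.2 hn)
    rcases Int.natAbs_eq n with h | h
    · refine ⟨c, ?_⟩
      change n • c = b
      rw [h, natCast_zsmul]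
      exact hc
    · refine ⟨-c, ?_⟩
      change n • (-c) = b
      rw [h, neg_smul_neg, natCast_zsmul]
      exact hc)
  exact Module.Baer.of_divisible B

/-- **Existence and uniqueness of the local terms.** -/
theorem local_terms
    (D : ∀ F : IntermediateField K (AlgebraicClosure K), (F.fixingSubgroup → ℂ) → B)
    (hadd : ∀ F : IntermediateField K (AlgebraicClosure K), FiniteDimensional K F →
      ∀ χ χ' : F.fixingSubgroup → ℂ, IsCharacter F χ → IsCharacter F χ' →
        D F (χ + χ') = D F χ + D F χ')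
    (hind : ∀ F F' : IntermediateField K (AlgebraicClosure K), F ≤ F' → FiniteDimensional K F' →
      ∀ χ : F'.fixingSubgroup → ℂ, IsCharacter F' χ → D F (induced F F' χ) = D F' χ)
    (hdiv : ∀ (n : ℕ) (b : B), 0 < n → ∃ c, n • c = b)
    (htf : ∀ (m : ℕ) (b : B), 0 < m → m • b = 0 → b = 0)
    (hD1 : ∀ F : IntermediateField K (AlgebraicClosure K), FiniteDimensional K F →
      D F (fun _ => 1) = 0) {M : ℕ} (hM : 0 < M) (T : Set ℕ)
    (hD : ∀ F : IntermediateField K (AlgebraicClosure K), FiniteDimensional K F →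
      IsEmpty (F →+* ℝ) → M ∣ Module.finrank K F → ∀ ψ : F.fixingSubgroup →* ℂˣ, Smooth F ψ →
        UnrAt T F ψ → D F (fun g => ((ψ g : ℂˣ) : ℂ)) = 0)
    (F : IntermediateField K (AlgebraicClosure K)) [FiniteDimensional K F]
    (w : HeightOneSpectrum (𝓞 F) → (AlgebraicClosure K → ℝ)) (hw : ∀ v, Above F v (w v)) :
    ∃! δ : ∀ v, RChar (decF F (w v)) →+ B, LocalTerms T F w (D F) δ := by
  obtain ⟨δ, h1, h2, h3⟩ := localize D hadd hind (baer_of_div hdiv) htf hD1 hM T hD F w hw
  refine ⟨fun v => (δ v).comp (RChar (decF F (w v))).subtype, ⟨fun v φ hφ => h1 v _ hφ,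
    fun v hv => ?_, fun f => ?_, fun f hf => h3 f hf⟩, fun δ' hδ' => ?_⟩
  · rw [h2 v hv]
    rfl
  · exact fin_suppR htf F hw (fun v => (δ v).comp (RChar (decF F (w v))).subtype)
      (fun v φ hφ => h1 v _ hφ) f
  · funext v
    refine AddMonoidHom.ext fun φ => ?_
    rw [← sub_eq_zero]
    refine unique_zeroR htf F hw (fun v => δ' v - (δ v).comp (RChar (decF F (w v))).subtype)
      (fun v y hy => ?_) (fun f hf => ?_) v φ
    · rw [AddMonoidHom.sub_apply, hδ'.unramified v y hy, AddMonoidHom.comp_apply]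
      rw [AddSubgroup.subtype_apply, h1 v _ hy, sub_zero]
    · have h4 : (fun v => (δ' v - (δ v).comp (RChar (decF F (w v))).subtype) (resR F (w v) f)) =
          fun v => δ' v (resR F (w v) f) -
            (δ v).comp (RChar (decF F (w v))).subtype (resR F (w v) f) := rfl
      rw [h4, finsum_sub_distrib (fin_suppR htf F hw δ' hδ'.unramified f)
        (fin_suppR htf F hw (fun v => (δ v).comp (RChar (decF F (w v))).subtype)
          (fun v φ hφ => h1 v _ hφ) f), ← hδ'.sum f hf]
      have h5 := h3 f hf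
      rw [sub_eq_zero]
      exact h5

/-- the function depends only on the local restrictions -/
theorem LocalTerms.eq_of_cond (htf : ∀ (m : ℕ) (b : B), 0 < m → m • b = 0 → b = 0) {T : Set ℕ}
    {F : IntermediateField K (AlgebraicClosure K)} [FiniteDimensional K F]
    {w : HeightOneSpectrum (𝓞 F) → (AlgebraicClosure K → ℝ)} (hw : ∀ v, Above F v (w v))
    {D : (F.fixingSubgroup → ℂ) → B} {δ : ∀ v, RChar (decF F (w v)) →+ B}
    (h : LocalTerms T F w D δ) {χ χ' : F.fixingSubgroup → ℂ} (hχ : IsCharacter F χ)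
    (hχ' : IsCharacter F χ') (hc : Cond (TT T F) (χ - χ')) : D χ = D χ' := by
  have h1 : χ ∈ RChar F.fixingSubgroup := AddSubgroup.subset_closure ((isChar_iff F χ).1 hχ)
  have h2 : χ' ∈ RChar F.fixingSubgroup := AddSubgroup.subset_closure ((isChar_iff F χ').1 hχ')
  have h3 := (chosen_iff T F hw (sub_mem h1 h2)).1 hc
  have h4 := h.sum ⟨χ, h1⟩ hχ
  have h5 := h.sum ⟨χ', h2⟩ hχ'
  change D χ = _ at h4
  change D χ' = _ at h5
  rw [h4, h5]
  refine finsum_congr fun v => ?_
  by_cases hv : AboveT T v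
  · rw [h.above v hv]
    rfl
  · rw [← sub_eq_zero, ← map_sub]
    exact kill_satR htf (δ v) (h.unramified v) (h3 v hv)

end

end Pool.Agent.Q20.LG
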