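import Pool.Agent.Q20.LG.Uniq

/-!
# The quotient of a decomposition group by its inertia group has no torsion
-/

set_option autoImplicit false
set_option linter.unusedSectionVars false

namespace Pool.Agent.Q20.LG

open NumberField IsDedekindDomain Pool.Agent.Q246.RP Pool.Agent.Q273.SP
open scoped Classical

section
variable {p : ℕ} [Fact p.Prime] {κ : Type} [Field κ] [Algebra (ZMod p) κ]

theorem exists_pow_eq [Algebra.IsAlgebraic (ZMod p) κ] (y : κ) : ∃ f : ℕ, 0 < f ∧ y ^ p ^ f = y := by
  have hint : IsIntegral (ZMod p) y := (Algebra.IsAlgebraic.isAlgebraic y).isIntegral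
  have hfd : FiniteDimensional (ZMod p) (IntermediateField.adjoin (ZMod p) {y}) :=
    IntermediateField.adjoin.finiteDimensional hint
  have hfin : Finite (IntermediateField.adjoin (ZMod p) {y}) :=
    Module.finite_of_finite (ZMod p)
  have hft := Fintype.ofFinite (IntermediateField.adjoin (ZMod p) {y})
  refine ⟨Module.finrank (ZMod p) (IntermediateField.adjoin (ZMod p) {y}), Module.finrank_pos, ?_⟩
  have h1 : Fintype.card (IntermediateField.adjoin (ZMod p) {y}) =
      p ^ Module.finrank (ZMod p) (IntermediateField.adjoin (ZMod p) {y}) := by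
    rw [Module.card_eq_pow_finrank (K := ZMod p), ZMod.card]
  have h2 := FiniteField.pow_card (⟨y, IntermediateField.mem_adjoin_simple_self (ZMod p) y⟩ :
    IntermediateField.adjoin (ZMod p) {y})
  rw [h1] at h2
  exact congrArg Subtype.val h2

/-- the algebraic closure of a finite field has no automorphisms of finite order -/
theorem aut_torsion [IsAlgClosed κ] [Algebra.IsAlgebraic (ZMod p) κ] (σ : κ ≃ₐ[ZMod p] κ)
    {m : ℕ} (hm : 0 < m) (h : σ ^ m = 1) (y : κ) : σ y = y := by
  obtain ⟨f, hf, hy⟩ := exists_pow_eq (p := p) y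
  have hfm : f * m ≠ 0 := (Nat.mul_pos hf hm).ne'
  let E := GaloisField p (f * m)
  let ι : E →ₐ[ZMod p] κ := IsAlgClosed.lift
  let : Algebra E κ := ι.toAlgebra
  have : IsScalarTower (ZMod p) E κ := IsScalarTower.of_algebraMap_eq fun x => (ι.commutes x).symm
  have hnorm : Normal (ZMod p) E := inferInstance
  have h1 : (AlgEquiv.restrictNormalHom E σ) ^ m = 1 := by
    rw [← map_pow, h, map_one]
  obtain ⟨⟨a, ha⟩, h2⟩ := (FiniteField.bijective_frobeniusAlgEquivOfAlgebraic_pow (ZMod p) E).2
    (AlgEquiv.restrictNormalHom E σ)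
  rw [← h2] at h1
  change (FiniteField.frobeniusAlgEquivOfAlgebraic (ZMod p) E ^ a) ^ m = 1 at h1
  rw [← pow_mul] at h1
  have h3 := orderOf_dvd_of_pow_eq_one h1
  rw [FiniteField.orderOf_frobeniusAlgEquivOfAlgebraic, GaloisField.finrank p hfm] at h3
  have h4 : f ∣ a := Nat.dvd_of_mul_dvd_mul_right hm h3
  have h5 : ∀ k : ℕ, y ^ p ^ (f * k) = y := by
    intro k
    induction k with
    | zero => rw [mul_zero, pow_zero, pow_one]
    | succ k ih => rw [Nat.mul_succ, pow_add, pow_mul, ih, hy]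
  have h6 : y ∈ (Polynomial.X ^ p ^ (f * m) - Polynomial.X : Polynomial (ZMod p)).rootSet κ := by
    rw [Polynomial.mem_rootSet_of_ne (FiniteField.X_pow_card_pow_sub_X_ne_zero _ hfm
      (Fact.out : p.Prime).one_lt)]
    simp [h5 m]
  have hsp : Polynomial.IsSplittingField (ZMod p) (GaloisField p (f * m))
      (Polynomial.X ^ p ^ (f * m) - Polynomial.X : Polynomial (ZMod p)) :=
    FiniteField.isSplittingField_of_nat_card_eq _ _ (GaloisField.card p (f * m) hfm)
  rw [← Polynomial.Splits.image_rootSet hsp.splits' ι] at h6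
  obtain ⟨e, -, rfl⟩ := h6
  have h7 : σ (ι e) = ι ((AlgEquiv.restrictNormalHom E σ) e) :=
    (AlgEquiv.restrictNormal_commutes σ E e).symm
  rw [h7, ← h2]
  obtain ⟨k, rfl⟩ := h4
  have h8 : ∀ (n : ℕ) (e : E), (FiniteField.frobeniusAlgEquivOfAlgebraic (ZMod p) E ^ n) e =
      e ^ p ^ n := by
    intro n e
    induction n with
    | zero => rw [pow_zero, pow_zero, pow_one]; rfl
    | succ n ih =>
      rw [pow_succ', AlgEquiv.mul_apply, ih]
      change (e ^ p ^ n) ^ Fintype.card (ZMod p) = _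
      rw [ZMod.card, ← pow_mul, pow_succ]
  change ι ((FiniteField.frobeniusAlgEquivOfAlgebraic (ZMod p) E ^ (f * k)) e) = ι e
  rw [h8, map_pow, h5 k]

end

section
variable {K : Type} [Field K] [NumberField K]

theorem res_eq {p : ℕ} (hp : p.Prime) {w : AlgebraicClosure K → ℝ} (hw : IsPl p w)
    (a b : vr hp hw) : IsLocalRing.residue (vr hp hw) a = IsLocalRing.residue (vr hp hw) b ↔
      w ((a : AlgebraicClosure K) - b) < 1 := by
  rw [← sub_eq_zero, ← map_sub, IsLocalRing.residue_eq_zero_iff, ← vr_lt hp hw]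
  exact ValuationSubring.valuation_lt_one_iff (vr hp hw) (a - b)

theorem res_closed {p : ℕ} (hp : p.Prime) {w : AlgebraicClosure K → ℝ} (hw : IsPl p w) :
    IsAlgClosed (IsLocalRing.ResidueField (vr hp hw)) := by
  refine IsAlgClosed.of_exists_root _ fun P hP hirr => ?_
  have h1 : P ∈ Polynomial.lifts (IsLocalRing.residue (vr hp hw)) := by
    rw [Polynomial.mem_lifts]
    exact Polynomial.map_surjective _ IsLocalRing.residue_surjective P
  obtain ⟨Q, hQ, hdeg, hmon⟩ := Polynomial.lifts_and_natDegree_eq_and_monic h1 hP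
  have h2 : (Q.map (algebraMap (vr hp hw) (AlgebraicClosure K))).degree ≠ 0 := by
    rw [hmon.degree_map, Polynomial.degree_eq_natDegree hmon.ne_zero, hdeg]
    exact_mod_cast hirr.natDegree_pos.ne'
  obtain ⟨x, hx⟩ := IsAlgClosed.exists_root _ h2
  have h3 : IsIntegral (vr hp hw) x := ⟨Q, hmon, by
    rwa [Polynomial.IsRoot.def, Polynomial.eval_map] at hx⟩
  obtain ⟨y, rfl⟩ := IsIntegrallyClosed.isIntegral_iff.1 h3
  refine ⟨IsLocalRing.residue (vr hp hw) y, ?_⟩
  rw [← hQ, Polynomial.eval_map, Polynomial.eval₂_hom]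
  have h4 : Polynomial.eval y Q = 0 := by
    apply FaithfulSMul.algebraMap_injective (vr hp hw) (AlgebraicClosure K)
    rw [map_zero, ← Polynomial.eval₂_hom, ← Polynomial.eval_map]
    exact hx
  rw [h4, map_zero]

theorem res_algebraic {p : ℕ} (hp : p.Prime) {w : AlgebraicClosure K → ℝ} (hw : IsPl p w)
    [Fact p.Prime] [Algebra (ZMod p) (IsLocalRing.ResidueField (vr hp hw))] :
    Algebra.IsAlgebraic (ZMod p) (IsLocalRing.ResidueField (vr hp hw)) := by
  refine ⟨fun y => ?_⟩
  obtain ⟨a, rfl⟩ := IsLocalRing.residue_surjective y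
  have h1 : IsAlgebraic ℤ (a : AlgebraicClosure K) := by
    rw [IsFractionRing.isAlgebraic_iff ℤ ℚ (AlgebraicClosure K)]
    have : Algebra.IsAlgebraic ℚ (AlgebraicClosure K) :=
      Algebra.IsAlgebraic.trans ℚ K (AlgebraicClosure K)
    exact Algebra.IsAlgebraic.isAlgebraic _
  obtain ⟨P, hP, hPa⟩ := h1
  have h2 := Polynomial.aeval_primPart_eq_zero hP hPa
  refine ⟨P.primPart.map (algebraMap ℤ (ZMod p)), fun h0 => ?_, ?_⟩
  · have h3 : Polynomial.C (p : ℤ) ∣ P.primPart := by
      rw [Polynomial.C_dvd_iff_dvd_coeff]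
      intro i
      have h4 := congrArg (fun Q => Polynomial.coeff Q i) h0
      change (P.primPart.map (algebraMap ℤ (ZMod p))).coeff i = (0 : Polynomial (ZMod p)).coeff i at h4
      rw [Polynomial.coeff_map, Polynomial.coeff_zero] at h4
      exact (ZMod.intCast_zmod_eq_zero_iff_dvd _ p).1 h4
    have h5 := (Polynomial.isPrimitive_iff_isUnit_of_C_dvd.1 P.isPrimitive_primPart) _ h3
    exact (Nat.prime_iff_prime_int.1 hp).not_isUnit h5
  · rw [Polynomial.aeval_def, Polynomial.eval₂_map]
    have h3 : (algebraMap (ZMod p) (IsLocalRing.ResidueField (vr hp hw))).comp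
        (algebraMap ℤ (ZMod p)) =
        (IsLocalRing.residue (vr hp hw)).comp (algebraMap ℤ (vr hp hw)) := RingHom.ext_int _ _
    rw [h3, ← Polynomial.hom_eval₂]
    have h4 : Polynomial.eval₂ (algebraMap ℤ (vr hp hw)) a P.primPart = 0 := by
      apply FaithfulSMul.algebraMap_injective (vr hp hw) (AlgebraicClosure K)
      rw [map_zero, Polynomial.hom_eval₂]
      rw [Polynomial.aeval_def] at h2
      rw [← h2]
      exact congrArg (fun f => Polynomial.eval₂ f (a : AlgebraicClosure K) P.primPart)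
        (RingHom.ext_int _ _)
    rw [h4, map_zero]

/-- **The quotient of the decomposition group by the inertia group has no torsion.** -/
theorem ine_of_pow {p : ℕ} (hp : p.Prime) {w : AlgebraicClosure K → ℝ} (hw : IsPl p w)
    {g : Gal(AlgebraicClosure K/K)} (hg : Dec w g) {m : ℕ} (hm : 0 < m) (h : Ine w (g ^ m)) :
    Ine w g := by
  have : Fact p.Prime := ⟨hp⟩
  have hp0 : ((p : ℕ) : IsLocalRing.ResidueField (vr hp hw)) = 0 := by
    rw [← map_natCast (IsLocalRing.residue (vr hp hw)), ← map_zero (IsLocalRing.residue (vr hp hw)),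
      res_eq]
    have h1 := hw.p_lt hp
    simpa using h1
  have : CharP (IsLocalRing.ResidueField (vr hp hw)) p := by
    exact (CharP.charP_iff_prime_eq_zero hp).2 hp0
  let : Algebra (ZMod p) (IsLocalRing.ResidueField (vr hp hw)) := ZMod.algebra _ p
  have : IsAlgClosed (IsLocalRing.ResidueField (vr hp hw)) := res_closed hp hw
  have : Algebra.IsAlgebraic (ZMod p) (IsLocalRing.ResidueField (vr hp hw)) := res_algebraic hp hw
  have hgi : Dec w g⁻¹ := Dec.inv hg
  let e : vr hp hw ≃+* vr hp hw :=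
    { toFun := fun a => ⟨g a, (hg a).trans_le a.2⟩
      invFun := fun a => ⟨g⁻¹ a, (hgi a).trans_le a.2⟩
      left_inv := fun a => Subtype.ext (g.symm_apply_apply _)
      right_inv := fun a => Subtype.ext (g.apply_symm_apply _)
      map_mul' := fun a b => Subtype.ext (map_mul g _ _)
      map_add' := fun a b => Subtype.ext (map_add g _ _) }
  let σ : IsLocalRing.ResidueField (vr hp hw) ≃ₐ[ZMod p] IsLocalRing.ResidueField (vr hp hw) :=
    AlgEquiv.ofRingEquiv (f := IsLocalRing.ResidueField.mapEquiv e) (fun z => by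
      have h1 : ((IsLocalRing.ResidueField.mapEquiv e : IsLocalRing.ResidueField (vr hp hw) ≃+*
        IsLocalRing.ResidueField (vr hp hw)) : IsLocalRing.ResidueField (vr hp hw) →+*
          IsLocalRing.ResidueField (vr hp hw)).comp (algebraMap (ZMod p) _) =
            algebraMap (ZMod p) _ := RingHom.ext_zmod _ _
      exact RingHom.congr_fun h1 z)
  have hσ : ∀ a : vr hp hw, σ (IsLocalRing.residue _ a) = IsLocalRing.residue _ (e a) :=
    fun a => rfl
  have hpow : ∀ (k : ℕ) (a : vr hp hw), ∃ b : vr hp hw, (b : AlgebraicClosure K) = (g ^ k) a ∧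
      (σ ^ k) (IsLocalRing.residue _ a) = IsLocalRing.residue _ b := by
    intro k a
    induction k with
    | zero => exact ⟨a, rfl, rfl⟩
    | succ k ih =>
      obtain ⟨b, hb1, hb2⟩ := ih
      refine ⟨e b, ?_, ?_⟩
      · change g b = _
        rw [hb1, pow_succ', AlgEquiv.mul_apply]
      · rw [pow_succ', AlgEquiv.mul_apply, hb2, hσ]
  have h1 : σ ^ m = 1 := by
    ext y
    obtain ⟨a, rfl⟩ := IsLocalRing.residue_surjective y
    obtain ⟨b, hb1, hb2⟩ := hpow m a
    rw [hb2, AlgEquiv.one_apply, res_eq, hb1]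
    exact h.2 a a.2
  refine ⟨hg, fun x hx => ?_⟩
  have h2 := aut_torsion σ hm h1 (IsLocalRing.residue _ (⟨x, hx⟩ : vr hp hw))
  rw [hσ, res_eq] at h2
  exact h2

end

end Pool.Agent.Q20.LG
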