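import Pool.Agent.Q20.LG.Main1
import Pool.Agent.H639R3.Z.Gal

/-!
# The absolute Galois group permutes the places above a prime transitively
-/

set_option autoImplicit false
set_option linter.unusedSectionVars false

namespace Pool.Agent.Q20.LG

open NumberField IsDedekindDomain Pool.Agent.Q246.RP Pool.Agent.Q273.SP
open scoped Classical

section
variable {K : Type} [Field K] [NumberField K]

/-- the place `w` of `K̄` lies above the prime `v` of `F` -/
def Above (F : IntermediateField K (AlgebraicClosure K)) (v : HeightOneSpectrum (𝓞 F))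
    (w : AlgebraicClosure K → ℝ) : Prop :=
  (∃ p : ℕ, p.Prime ∧ IsPl p w) ∧
    ∀ y : 𝓞 F, y ∈ v.asIdeal ↔ w ((y : F) : AlgebraicClosure K) < 1

/-- the valuation ring of a place -/
def vr {p : ℕ} (hp : p.Prime) {w : AlgebraicClosure K → ℝ} (hw : IsPl p w) :
    ValuationSubring (AlgebraicClosure K) where
  carrier := {x | w x ≤ 1}
  mul_mem' := by
    intro a b ha hb
    change w (a * b) ≤ 1
    rw [hw.mul]
    exact mul_le_one₀ ha (hw.nonneg b) hb
  one_mem' := (hw.one hp).le
  add_mem' := by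
    intro a b ha hb
    exact (hw.add a b).trans (max_le ha hb)
  zero_mem' := by
    change w 0 ≤ 1
    rw [hw.zero]
    exact zero_le_one
  neg_mem' := by
    intro a ha
    change w (-a) ≤ 1
    rw [hw.neg hp]
    exact ha
  mem_or_inv_mem' := by
    intro x
    rcases le_total (w x) 1 with h | h
    · exact Or.inl h
    · right
      change w x⁻¹ ≤ 1
      rw [hw.inv hp]
      exact inv_le_one_of_one_le₀ h

theorem mem_vr {p : ℕ} (hp : p.Prime) {w : AlgebraicClosure K → ℝ} (hw : IsPl p w)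
    (x : AlgebraicClosure K) : x ∈ vr hp hw ↔ w x ≤ 1 := Iff.rfl

theorem vr_lt {p : ℕ} (hp : p.Prime) {w : AlgebraicClosure K → ℝ} (hw : IsPl p w)
    (x : AlgebraicClosure K) : (vr hp hw).valuation x < 1 ↔ w x < 1 := by
  rw [Pool.Agent.H639R3.val_lt_one_iff, mem_vr]
  constructor
  · rintro (rfl | h)
    · rw [hw.zero]
      exact one_pos
    · rw [hw.inv hp, not_le, one_lt_inv_iff₀] at h
      exact h.2
  · intro h
    by_cases hx : x = 0
    · exact Or.inl hx
    · right
      rw [hw.inv hp, not_le]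
      exact (one_lt_inv₀ (hw.pos hp hx)).2 h

/-- places are determined by their valuation rings -/
theorem eq_of_vr {p q : ℕ} (hp : p.Prime) (hq : q.Prime) {w u : AlgebraicClosure K → ℝ}
    (hw : IsPl p w) (hu : IsPl q u) (h : ∀ x, w x ≤ 1 ↔ u x ≤ 1) : w = u := by
  funext e
  by_contra hne
  obtain ⟨c, -, h1, h2⟩ := exists_sep hp hq hw hu (⊤ : Subfield (AlgebraicClosure K))
    (Subfield.mem_top e) hne
  exact absurd ((h c).1 h1.le) (not_le.2 h2)

theorem int_le_one {F : IntermediateField K (AlgebraicClosure K)} {p : ℕ} (hp : p.Prime)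
    {w : AlgebraicClosure K → ℝ} (hw : IsPl p w) (y : 𝓞 F) :
    w ((y : F) : AlgebraicClosure K) ≤ 1 := by
  refine hw.integral_le hp ?_
  have h1 : IsIntegral ℤ (y : F) := y.isIntegral_coe
  exact h1.map (F.val.restrictScalars ℤ)

/-- **Transitivity.** -/
theorem transitive (F : IntermediateField K (AlgebraicClosure K)) [FiniteDimensional K F]
    (v : HeightOneSpectrum (𝓞 F)) {w w' : AlgebraicClosure K → ℝ} (hw : Above F v w)
    (hw' : Above F v w') : ∃ g : F.fixingSubgroup,
      w' = fun x => w ((g : Gal(AlgebraicClosure K/K)) x) := by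
  have hNF : NumberField F := NumberField.of_module_finite K F
  obtain ⟨⟨p, hp, hpw⟩, h1⟩ := hw
  obtain ⟨⟨q, hq, hqw⟩, h2⟩ := hw'
  have hgal : IsGalois F (AlgebraicClosure K) := inferInstance
  have hA : ∀ (p : ℕ) (hp : p.Prime) (w : AlgebraicClosure K → ℝ) (hw : IsPl p w) (a : 𝓞 F),
      algebraMap F (AlgebraicClosure K) (algebraMap (𝓞 F) F a) ∈ vr hp hw :=
    fun p hp w hw a => int_le_one hp hw a
  have hne : ∀ (p : ℕ) (hp : p.Prime) (w : AlgebraicClosure K → ℝ) (hw : IsPl p w),
      (vr hp hw).comap (algebraMap F (AlgebraicClosure K)) ≠ ⊤ := by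
    intro p hp w hw htop
    have h3 : ((p : F)⁻¹) ∈ (vr hp hw).comap (algebraMap F (AlgebraicClosure K)) := by
      rw [htop]
      trivial
    rw [ValuationSubring.mem_comap, mem_vr, map_inv₀, map_natCast, hw.inv hp, hw.prime,
      inv_inv] at h3
    have h4 : (1 : ℝ) < p := by exact_mod_cast hp.one_lt
    exact absurd h3 (not_le.2 h4)
  have heq : (vr hp hpw).comap (algebraMap F (AlgebraicClosure K)) =
      (vr hq hqw).comap (algebraMap F (AlgebraicClosure K)) := by
    have hA' : ∀ (p : ℕ) (hp : p.Prime) (w : AlgebraicClosure K → ℝ) (hw : IsPl p w) (a : 𝓞 F),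
        algebraMap (𝓞 F) F a ∈ (vr hp hw).comap (algebraMap F (AlgebraicClosure K)) := by
      intro p hp w hw a
      rw [ValuationSubring.mem_comap]
      exact hA p hp w hw a
    refine Pool.Agent.H639R3.eq_of_cent_eq (A := 𝓞 F) _ _
      (hA' p hp w hpw) (hA' q hq w' hqw) (hne _ _ _ _) (hne _ _ _ _) ?_
    ext a
    rw [Pool.Agent.H639R3.mem_cent, Pool.Agent.H639R3.mem_cent,
      Pool.Agent.H639R3.comap_val_lt_one, Pool.Agent.H639R3.comap_val_lt_one, vr_lt, vr_lt]
    exact (h1 a).symm.trans (h2 a)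
  obtain ⟨σ, hσ⟩ := Pool.Agent.H639R3.exists_aut (A := 𝓞 F) (vr hp hpw) (vr hq hqw)
    (fun a => hA p hp w hpw a) (hne _ _ _ _) heq
  let g : F.fixingSubgroup := (IntermediateField.fixingSubgroupEquiv F).symm σ
  have hg : ∀ x, (g : Gal(AlgebraicClosure K/K)) x = σ x := fun x => rfl
  refine ⟨g, ?_⟩
  refine eq_of_vr hq hp hqw (hpw.comp (g : Gal(AlgebraicClosure K/K))) fun x => ?_
  have h3 := hσ x
  rw [mem_vr, mem_vr] at h3
  exact h3

/-- every place lies above a prime -/
theorem exists_above (F : IntermediateField K (AlgebraicClosure K)) [FiniteDimensional K F]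
    {p : ℕ} (hp : p.Prime) {w : AlgebraicClosure K → ℝ} (hw : IsPl p w) :
    ∃ v : HeightOneSpectrum (𝓞 F), Above F v w ∧ (p : 𝓞 F) ∈ v.asIdeal := by
  have hNF : NumberField F := NumberField.of_module_finite K F
  have hpm : (p : 𝓞 F) ∈ below F hp hw := by
    rw [mem_below]
    push_cast
    exact hw.p_lt hp
  refine ⟨⟨below F hp hw, below_prime F hp hw, ?_⟩, ⟨⟨p, hp, hw⟩, fun y => Iff.rfl⟩, hpm⟩
  intro hbot
  rw [hbot, Ideal.mem_bot] at hpm
  exact hp.ne_zero (by exact_mod_cast hpm)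

theorem above_prime {F : IntermediateField K (AlgebraicClosure K)}
    {v : HeightOneSpectrum (𝓞 F)} {w : AlgebraicClosure K → ℝ} (h : Above F v w) {p : ℕ}
    (hp : p.Prime) : (p : 𝓞 F) ∈ v.asIdeal ↔ IsPl p w := by
  obtain ⟨⟨q, hq, hqw⟩, h1⟩ := h
  rw [h1]
  push_cast
  constructor
  · intro h2
    have h3 : p = q := by
      by_contra hne
      have h4 : ¬ (q : ℤ) ∣ (p : ℤ) := by
        rw [Int.natCast_dvd_natCast]
        exact fun h => hne ((Nat.prime_dvd_prime_iff_eq hq hp).1 h).symm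
      have h5 := hqw.int_coprime hq h4
      rw [Int.cast_natCast] at h5
      rw [h5] at h2
      exact lt_irrefl _ h2
    rw [h3]
    exact hqw
  · intro h2
    exact h2.p_lt hp

/-- only finitely many primes lie above a finite set of primes -/
theorem finite_above (F : IntermediateField K (AlgebraicClosure K)) [FiniteDimensional K F]
    (T : Finset ℕ) (hT : ∀ p ∈ T, p.Prime) :
    {v : HeightOneSpectrum (𝓞 F) | ∃ p ∈ T, (p : 𝓞 F) ∈ v.asIdeal}.Finite := by
  have hNF : NumberField F := NumberField.of_module_finite K F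
  have h1 : {v : HeightOneSpectrum (𝓞 F) | ∃ p ∈ T, (p : 𝓞 F) ∈ v.asIdeal} =
      ⋃ p ∈ T, {v : HeightOneSpectrum (𝓞 F) | (p : 𝓞 F) ∈ v.asIdeal} := by
    ext v
    simp
  rw [h1]
  refine T.finite_toSet.biUnion fun p hp => ?_
  have h2 : Ideal.span {(p : 𝓞 F)} ≠ 0 := by
    rw [Ne, Ideal.zero_eq_bot, Ideal.span_singleton_eq_bot]
    exact_mod_cast (hT p hp).ne_zero
  refine (Ideal.finite_factors h2).subset fun v hv => ?_
  rw [Set.mem_ofPred_eq, Ideal.dvd_iff_le, Ideal.span_singleton_le_iff_mem]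
  exact hv

end

end Pool.Agent.Q20.LG
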