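import Pool.Agent.Q20.LG.Surj
import Pool.Agent.Q20.LG.Ratl

/-!
# Uniqueness of the local terms; characters with rational values at the ramified places
-/

set_option autoImplicit false
set_option linter.unusedSectionVars false

namespace Pool.Agent.Q20.LG

open NumberField IsDedekindDomain Pool.Agent.Q246.RP Pool.Agent.Q273.SP
open Pool.Agent.Q246.BI (Smooth IsCharacter induced NN)
open Subgroup (zpowers)
open scoped Classical

section
variable {K : Type} [Field K] [NumberField K] {B : Type} [AddCommGroup B]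

theorem kill_sat (htf : ∀ (m : ℕ) (b : B), 0 < m → m • b = 0 → b = 0) {A : Type} [AddCommGroup A]
    {V : AddSubgroup A} (d : A →+ B) (hd : ∀ y ∈ V, d y = 0) {y : A} (hy : y ∈ sat V) : d y = 0 := by
  obtain ⟨m, hm, h⟩ := hy
  have h1 := hd _ h
  rw [map_nsmul] at h1
  exact htf m _ hm h1

/-- a virtual character has finitely many local terms -/
theorem fin_supp (htf : ∀ (m : ℕ) (b : B), 0 < m → m • b = 0 → b = 0)
    (F : IntermediateField K (AlgebraicClosure K)) [FiniteDimensional K F]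
    {w : HeightOneSpectrum (𝓞 F) → (AlgebraicClosure K → ℝ)} (hw : ∀ v, Above F v (w v))
    (d : ∀ v, (decF F (w v) → ℂ) →+ B)
    (hd : ∀ v, ∀ y ∈ AddSubgroup.closure (Unr (ineF F (w v))), d v y = 0)
    {f : F.fixingSubgroup → ℂ} (hf : f ∈ RChar F.fixingSubgroup) :
    (Function.support fun v => d v (resF F (w v) f)).Finite := by
  obtain ⟨T₁, hT₁, h1⟩ := cond_unram F hf
  refine (finite_above F T₁ hT₁).subset fun v hv => ?_
  by_contra hcon
  apply hv
  obtain ⟨⟨q, hq, hqw⟩, -⟩ := hw v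
  have hqT : q ∉ T₁ := fun h => hcon ⟨q, h, (above_prime (hw v) hq).2 hqw⟩
  exact kill_sat htf (d v) (hd v) ((local_criterion F hq hqw (rchar_res (decF F (w v)) hf)).2
    (h1 q hq hqT (w v) hqw))

theorem unique_zero (htf : ∀ (m : ℕ) (b : B), 0 < m → m • b = 0 → b = 0)
    (F : IntermediateField K (AlgebraicClosure K)) [FiniteDimensional K F]
    {w : HeightOneSpectrum (𝓞 F) → (AlgebraicClosure K → ℝ)} (hw : ∀ v, Above F v (w v))
    (d : ∀ v, (decF F (w v) → ℂ) →+ B)
    (hd : ∀ v, ∀ y ∈ AddSubgroup.closure (Unr (ineF F (w v))), d v y = 0)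
    (h : ∀ χ, IsCharacter F χ → ∑ᶠ v, d v (resF F (w v) χ) = 0) (v₀ : HeightOneSpectrum (𝓞 F))
    {φ : decF F (w v₀) → ℂ} (hφ : φ ∈ RChar (decF F (w v₀))) : d v₀ φ = 0 := by
  have h1 : ∀ f ∈ RChar F.fixingSubgroup, ∑ᶠ v, d v (resF F (w v) f) = 0 := by
    intro f hf
    induction hf using AddSubgroup.closure_induction with
    | mem f hf => exact h f ((isChar_iff F f).2 hf)
    | zero => simp
    | add a b ha hb ha' hb' =>
      have h2 : (fun v => d v (resF F (w v) (a + b))) =
          fun v => d v (resF F (w v) a) + d v (resF F (w v) b) := by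
        funext v
        rw [map_add, map_add]
      rw [h2, finsum_add_distrib (fin_supp htf F hw d hd ha) (fin_supp htf F hw d hd hb), ha', hb',
        add_zero]
    | neg a ha ha' =>
      have h2 : (fun v => d v (resF F (w v) (-a))) = fun v => -d v (resF F (w v) a) := by
        funext v
        rw [map_neg, map_neg]
      rw [h2, finsum_neg_distrib, ha', neg_zero]
  let Φ : ∀ v, decF F (w v) → ℂ := Function.update (fun _ => 0) v₀ φ
  have hΦ : Φ v₀ = φ :=
    Function.update_self (β := fun v => decF F (w v) → ℂ) v₀ φ (fun _ => 0)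
  obtain ⟨m, hm, f, hf, h2, h3⟩ := surjective F hw {v₀} Φ (by
    intro v hv
    rw [Finset.mem_singleton] at hv
    subst hv
    rw [hΦ]
    exact hφ)
  have h4 := h1 f hf
  rw [finsum_eq_single _ v₀ (fun v hv => kill_sat htf (d v) (hd v)
    (h3 v (fun h => hv (Finset.mem_singleton.1 h))))] at h4
  have h5 := kill_sat htf (d v₀) (hd v₀) (h2 v₀ (Finset.mem_singleton_self v₀))
  rw [map_sub, h4, zero_sub, neg_eq_zero, hΦ, map_nsmul] at h5
  exact htf m _ hm h5

/-- **Uniqueness of the local terms.** -/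
theorem unique_local (htf : ∀ (m : ℕ) (b : B), 0 < m → m • b = 0 → b = 0)
    (F : IntermediateField K (AlgebraicClosure K)) [FiniteDimensional K F]
    {w : HeightOneSpectrum (𝓞 F) → (AlgebraicClosure K → ℝ)} (hw : ∀ v, Above F v (w v))
    (δ δ' : ∀ v, (decF F (w v) → ℂ) →+ B)
    (hδ : ∀ v, ∀ y ∈ AddSubgroup.closure (Unr (ineF F (w v))), δ v y = 0)
    (hδ' : ∀ v, ∀ y ∈ AddSubgroup.closure (Unr (ineF F (w v))), δ' v y = 0)
    (h : ∀ χ, IsCharacter F χ → ∑ᶠ v, δ v (resF F (w v) χ) = ∑ᶠ v, δ' v (resF F (w v) χ))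
    (v₀ : HeightOneSpectrum (𝓞 F)) {φ : decF F (w v₀) → ℂ} (hφ : φ ∈ RChar (decF F (w v₀))) :
    δ v₀ φ = δ' v₀ φ := by
  rw [← sub_eq_zero]
  refine unique_zero htf F hw (fun v => δ v - δ' v) (fun v y hy => ?_) (fun χ hχ => ?_) v₀ hφ
  · rw [AddMonoidHom.sub_apply, hδ v y hy, hδ' v y hy, sub_zero]
  · have h1 : χ ∈ RChar F.fixingSubgroup := AddSubgroup.subset_closure ((isChar_iff F χ).1 hχ)
    have h2 : (fun v => (δ v - δ' v) (resF F (w v) χ)) =
        fun v => δ v (resF F (w v) χ) - δ' v (resF F (w v) χ) := rfl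
    rw [h2, finsum_sub_distrib (fin_supp htf F hw δ hδ h1) (fin_supp htf F hw δ' hδ' h1), h χ hχ,
      sub_self]

end

end Pool.Agent.Q20.LG
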